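import Mathlib
import Pool.Agent.H388SL.SparseA

/-!
# Many units which are positive reals at a positive proportion of the embeddings

`energy_bound`: a family of `X ≥ 256 k²` distinct units of a number field `K` which are positive reals
at `|Φ| ≥ [K:ℚ]/k` of the embeddings contains a unit of height at least `1/(16 k)`.
-/

set_option autoImplicit false

open Finset Module

namespace Pool.Agent.Run7.h22

open Pool.Agent.H388SL

lemma log_le_sqrt {x : ℝ} (hx : 0 < x) : Real.log x ≤ Real.sqrt x := by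
  set y := Real.sqrt (Real.sqrt x) with hy
  have h1 : y ^ 2 = Real.sqrt x := Real.sq_sqrt (Real.sqrt_nonneg x)
  have h2 : y ^ 4 = x := by
    have : y ^ 4 = (y ^ 2) ^ 2 := by ring
    rw [this, h1, Real.sq_sqrt hx.le]
  have hy0 : 0 < y := Real.sqrt_pos.mpr (Real.sqrt_pos.mpr hx)
  have h3 : Real.log x = 4 * Real.log y := by
    rw [← h2, Real.log_pow]; norm_num
  have h4 := Real.log_le_sub_one_of_pos hy0
  rw [h3, ← h1]
  nlinarith [sq_nonneg (y - 2)]

lemma refl_pos {r : ℝ} (hr : 0 < r) : refl (r : ℂ) = (Real.exp (-|Real.log r|) : ℝ) := by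
  unfold H388SL.refl
  rw [Complex.norm_real, Real.norm_of_nonneg hr.le, Complex.conj_ofReal]
  split_ifs with h
  · rw [abs_of_nonpos (Real.log_nonpos hr.le h), neg_neg, Real.exp_log hr]
  · push Not at h
    rw [abs_of_nonneg (Real.log_nonneg h.le), Real.exp_neg, Real.exp_log hr]
    push_cast
    rfl

variable {K : Type*} [Field K] [NumberField K]

theorem energy_bound {ι : Type*} [Fintype ι] (Φ : Finset (K →ₐ[ℚ] ℂ)) (u : ι → K)
    (hu : Function.Injective u) (hint : ∀ i, IsIntegral ℤ (u i)) (h0 : ∀ i, u i ≠ 0)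
    (hunit : ∀ i, ∏ σ : K →ₐ[ℚ] ℂ, ‖σ (u i)‖ = 1)
    (hpos : ∀ i, ∀ φ ∈ Φ, ∃ r : ℝ, 0 < r ∧ φ (u i) = r) {k : ℝ} (hk1 : 1 ≤ k)
    (hk : (finrank ℚ K : ℝ) ≤ k * Φ.card) {τ : ℝ} (hτ : ∀ i, lam (u i) ≤ finrank ℚ K * τ)
    (hX : 256 * k ^ 2 ≤ Fintype.card ι) : 1 / (16 * k) ≤ τ := by
  classical
  by_contra hlt
  push Not at hlt
  set N : ℝ := (finrank ℚ K : ℝ) with hN
  set X : ℝ := (Fintype.card ι : ℝ) with hXdef
  have hX256 : 256 ≤ X := by nlinarith
  have hX0 : 0 < X := by linarith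
  have hN0 : 0 < N := by rw [hN]; exact_mod_cast (finrank_pos : 0 < finrank ℚ K)
  have hΦ0 : (0:ℝ) < Φ.card := by
    by_contra h
    push Not at h
    have : k * (Φ.card : ℝ) ≤ 0 := mul_nonpos_of_nonneg_of_nonpos (by linarith) h
    linarith
  have hcard : Fintype.card (K →ₐ[ℚ] ℂ) = finrank ℚ K := AlgHom.card ℚ K ℂ
  -- the energy inequality at each embedding
  have hE : ∀ φ : K →ₐ[ℚ] ℂ, ∑ i : ι, ∑ j : ι, (if i = j then 0 else Real.log ‖φ (u i) - φ (u j)‖)
      + (1 - 1 / X) * ‖∑ i : ι, refl (φ (u i))‖ ^ 2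
      ≤ 2 * X * (∑ i : ι, Real.log (max 1 ‖φ (u i)‖)) + (X + X * Real.log X) := by
    intro φ
    have ht0 : 0 ≤ 1 - 1 / X := by
      rw [sub_nonneg, div_le_one hX0]; linarith
    have ht1 : 1 - 1 / X < 1 := by
      have : 0 < 1 / X := by positivity
      linarith
    have h := energy (Finset.univ : Finset ι) (fun _ => 1) (fun _ _ => zero_le_one)
      (fun i => φ (u i)) (fun i _ j _ hij h => hij (hu (φ.injective h))) ht0 ht1
    simp only [one_mul, Finset.sum_const, Finset.card_univ, nsmul_eq_mul, mul_one, one_pow,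
      Complex.ofReal_one] at h
    rw [← hXdef] at h
    have h1 : X ^ 2 * Real.log (2 / (1 + (1 - 1 / X))) ≤ X := by
      have h2 : 2 / (1 + (1 - 1 / X)) = 1 + 1 / (2 * X - 1) := by
        have h6 : 2 * X - 1 ≠ 0 := by linarith
        have h7 : 1 + (1 - 1 / X) = (2 * X - 1) / X := by
          field_simp
          ring
        rw [h7, div_div_eq_mul_div, div_eq_iff h6, add_mul, one_div_mul_cancel h6]
        ring
      have h3 : Real.log (1 + 1 / (2 * X - 1)) ≤ 1 / (2 * X - 1) := by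
        have h5 : 0 < 1 / (2 * X - 1) := by apply one_div_pos.mpr; linarith
        have := Real.log_le_sub_one_of_pos (show 0 < 1 + 1 / (2 * X - 1) by linarith)
        linarith
      have h4 : 1 / (2 * X - 1) ≤ 1 / X := one_div_le_one_div_of_le hX0 (by linarith)
      rw [h2]
      calc X ^ 2 * Real.log (1 + 1 / (2 * X - 1)) ≤ X ^ 2 * (1 / X) := by
            apply mul_le_mul_of_nonneg_left (h3.trans h4) (by positivity)
        _ = X := by field_simp
    have h5 : Real.log (1 / (1 - (1 - 1 / X))) = Real.log X := by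
      congr 1
      field_simp
      ring
    rw [h5] at h
    linarith
  -- sum over the embeddings
  have hsum := Finset.sum_le_sum fun φ (_ : φ ∈ (Finset.univ : Finset (K →ₐ[ℚ] ℂ))) => hE φ
  rw [Finset.sum_add_distrib, Finset.sum_add_distrib, ← Finset.mul_sum, ← Finset.mul_sum,
    Finset.sum_const, Finset.card_univ, hcard, nsmul_eq_mul, ← hN] at hsum
  -- (a)
  have ha : 0 ≤ ∑ φ : K →ₐ[ℚ] ℂ, ∑ i : ι, ∑ j : ι,
      (if i = j then 0 else Real.log ‖φ (u i) - φ (u j)‖) := by
    rw [Finset.sum_comm]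
    apply Finset.sum_nonneg
    intro i _
    rw [Finset.sum_comm]
    apply Finset.sum_nonneg
    intro j _
    by_cases hij : i = j
    · simp [hij]
    · simp only [if_neg hij]
      have hne : u i - u j ≠ 0 := sub_ne_zero.mpr fun h => hij (hu h)
      have h1 := one_le_prod_norm ((hint i).sub (hint j)) hne
      have h2 : ∑ φ : K →ₐ[ℚ] ℂ, Real.log ‖φ (u i) - φ (u j)‖ =
          Real.log (∏ φ : K →ₐ[ℚ] ℂ, ‖φ (u i - u j)‖) := by
        rw [Real.log_prod]
        · refine Finset.sum_congr rfl fun φ _ => ?_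
          rw [map_sub]
        · intro φ _
          rw [norm_ne_zero_iff]
          exact (map_ne_zero φ).mpr hne
      rw [h2]
      exact Real.log_nonneg h1
  -- heights
  have hb : ∑ φ : K →ₐ[ℚ] ℂ, ∑ i : ι, Real.log (max 1 ‖φ (u i)‖) ≤ X * (N * τ) := by
    rw [Finset.sum_comm]
    calc ∑ i : ι, ∑ φ : K →ₐ[ℚ] ℂ, Real.log (max 1 ‖φ (u i)‖) ≤ ∑ _i : ι, N * τ := by
          apply Finset.sum_le_sum
          intro i _
          exact hτ i
      _ = X * (N * τ) := by
          rw [Finset.sum_const, Finset.card_univ, nsmul_eq_mul]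
  -- (b) positive reals
  have hB : ∀ φ ∈ Φ, 2 * X * (X - ∑ i : ι, |Real.log ‖φ (u i)‖|) - X ^ 2 ≤
      ‖∑ i : ι, refl (φ (u i))‖ ^ 2 := by
    intro φ hφ
    have h1 : X - ∑ i : ι, |Real.log ‖φ (u i)‖| ≤ ‖∑ i : ι, refl (φ (u i))‖ := by
      have h2 : ∑ i : ι, refl (φ (u i)) =
          ((∑ i : ι, Real.exp (-|Real.log ‖φ (u i)‖|) : ℝ) : ℂ) := by
        push_cast
        refine Finset.sum_congr rfl fun i _ => ?_
        obtain ⟨r, hr, hr2⟩ := hpos i φ hφ
        rw [hr2, refl_pos hr, Complex.norm_real, Real.norm_of_nonneg hr.le]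
        push_cast
        rfl
      rw [h2, Complex.norm_real, Real.norm_of_nonneg (Finset.sum_nonneg fun _ _ => (Real.exp_pos _).le)]
      have h3 : ∑ i : ι, (1 - |Real.log ‖φ (u i)‖|) ≤ ∑ i : ι, Real.exp (-|Real.log ‖φ (u i)‖|) := by
        apply Finset.sum_le_sum
        intro i _
        have := Real.add_one_le_exp (-|Real.log ‖φ (u i)‖|)
        linarith
      rw [Finset.sum_sub_distrib, Finset.sum_const, Finset.card_univ, nsmul_eq_mul, mul_one] at h3
      exact h3
    set B := ‖∑ i : ι, refl (φ (u i))‖ with hBdef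
    have h4 : 2 * X * B - X ^ 2 ≤ B ^ 2 := by nlinarith [sq_nonneg (B - X)]
    have h5 : 2 * X * (X - ∑ i : ι, |Real.log ‖φ (u i)‖|) ≤ 2 * X * B :=
      mul_le_mul_of_nonneg_left h1 (by linarith)
    linarith
  have hc : ∑ φ ∈ Φ, ∑ i : ι, |Real.log ‖φ (u i)‖| ≤ X * (2 * (N * τ)) := by
    calc ∑ φ ∈ Φ, ∑ i : ι, |Real.log ‖φ (u i)‖| ≤ ∑ φ : K →ₐ[ℚ] ℂ, ∑ i : ι, |Real.log ‖φ (u i)‖| := by
          apply Finset.sum_le_sum_of_subset_of_nonneg (Finset.subset_univ _)
          intro φ _ _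
          exact Finset.sum_nonneg fun _ _ => abs_nonneg _
      _ = ∑ i : ι, ∑ φ : K →ₐ[ℚ] ℂ, |Real.log ‖φ (u i)‖| := Finset.sum_comm
      _ ≤ ∑ _i : ι, 2 * (N * τ) := by
          apply Finset.sum_le_sum
          intro i _
          rw [sum_abs_log (h0 i) (hunit i)]
          have := hτ i
          linarith
      _ = X * (2 * (N * τ)) := by
          rw [Finset.sum_const, Finset.card_univ, nsmul_eq_mul]
  have hd : Φ.card * X ^ 2 * (3 / 4) ≤ ∑ φ : K →ₐ[ℚ] ℂ, ‖∑ i : ι, refl (φ (u i))‖ ^ 2 := by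
    have h1 := Finset.sum_le_sum hB
    have h2 : ∑ φ ∈ Φ, (2 * X * (X - ∑ i : ι, |Real.log ‖φ (u i)‖|) - X ^ 2) =
        Φ.card * X ^ 2 - 2 * X * ∑ φ ∈ Φ, ∑ i : ι, |Real.log ‖φ (u i)‖| := by
      rw [Finset.sum_sub_distrib, ← Finset.mul_sum, Finset.sum_sub_distrib, Finset.sum_const,
        Finset.sum_const, nsmul_eq_mul, nsmul_eq_mul]
      ring
    have h3 : ∑ φ ∈ Φ, ‖∑ i : ι, refl (φ (u i))‖ ^ 2 ≤
        ∑ φ : K →ₐ[ℚ] ℂ, ‖∑ i : ι, refl (φ (u i))‖ ^ 2 := by
      apply Finset.sum_le_sum_of_subset_of_nonneg (Finset.subset_univ _)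
      intro φ _ _
      positivity
    have h4 : N * τ ≤ Φ.card / 16 := by
      rcases le_or_gt τ 0 with h | h
      · have : N * τ ≤ 0 := mul_nonpos_of_nonneg_of_nonpos hN0.le h
        have h5 : 0 < (Φ.card : ℝ) / 16 := by positivity
        linarith
      · calc N * τ ≤ k * Φ.card * τ := mul_le_mul_of_nonneg_right hk h.le
          _ ≤ k * Φ.card * (1 / (16 * k)) := by
              apply mul_le_mul_of_nonneg_left hlt.le
              positivity
          _ = Φ.card / 16 := by field_simp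
    have h5 : 2 * X * ∑ φ ∈ Φ, ∑ i : ι, |Real.log ‖φ (u i)‖| ≤ 2 * X * (X * (2 * (Φ.card / 16))) := by
      apply mul_le_mul_of_nonneg_left _ (by linarith)
      refine hc.trans ?_
      apply mul_le_mul_of_nonneg_left _ hX0.le
      linarith
    have h6 : 2 * X * (X * (2 * ((Φ.card : ℝ) / 16))) = Φ.card * X ^ 2 * (1 / 4) := by ring
    rw [h2] at h1
    rw [h6] at h5
    linarith
  -- conclusion
  have he : (1 - 1 / X) * (Φ.card * X ^ 2 * (3 / 4)) ≤
      2 * X * (X * (N * τ)) + N * (X + X * Real.log X) := by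
    have ht0 : 0 ≤ 1 - 1 / X := by
      rw [sub_nonneg, div_le_one hX0]; linarith
    have h1 := mul_le_mul_of_nonneg_left hd ht0
    have h2 := mul_le_mul_of_nonneg_left hb (show 0 ≤ 2 * X by linarith)
    linarith
  have hNτ : N * τ ≤ Φ.card / 16 := by
    rcases le_or_gt τ 0 with h | h
    · have : N * τ ≤ 0 := mul_nonpos_of_nonneg_of_nonpos hN0.le h
      have h5 : 0 < (Φ.card : ℝ) / 16 := by positivity
      linarith
    · calc N * τ ≤ k * Φ.card * τ := mul_le_mul_of_nonneg_right hk h.le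
        _ ≤ k * Φ.card * (1 / (16 * k)) := by
            apply mul_le_mul_of_nonneg_left hlt.le
            positivity
        _ = Φ.card / 16 := by field_simp
  have hlog : Real.log X ≤ Real.sqrt X := log_le_sqrt hX0
  have hs : Real.sqrt X ^ 2 = X := Real.sq_sqrt hX0.le
  have hs16 : 16 ≤ Real.sqrt X := by
    rw [show (16:ℝ) = Real.sqrt 256 by
      rw [show (256:ℝ) = 16 ^ 2 by norm_num, Real.sqrt_sq (by norm_num)]]
    exact Real.sqrt_le_sqrt hX256
  have hks : 16 * k ≤ Real.sqrt X := by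
    apply Real.le_sqrt_of_sq_le
    nlinarith
  have hf : k * (1 + Real.log X) ≤ X / 8 := by
    have h1 : k * (1 + Real.log X) ≤ k * (1 + Real.sqrt X) :=
      mul_le_mul_of_nonneg_left (by linarith) (by linarith)
    nlinarith
  have hg : (1 - 1 / X) * (Φ.card * X ^ 2 * (3 / 4)) = (3 / 4) * Φ.card * X * (X - 1) := by
    field_simp
  have hh : N * (X + X * Real.log X) ≤ Φ.card * X * (X / 8) := by
    calc N * (X + X * Real.log X) = N * (X * (1 + Real.log X)) := by ring
      _ ≤ k * Φ.card * (X * (1 + Real.log X)) := by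
          apply mul_le_mul_of_nonneg_right hk
          have : 0 ≤ Real.log X := Real.log_nonneg (by linarith)
          positivity
      _ = Φ.card * X * (k * (1 + Real.log X)) := by ring
      _ ≤ Φ.card * X * (X / 8) := mul_le_mul_of_nonneg_left hf (by positivity)
  have hi : 2 * X * (X * (N * τ)) ≤ Φ.card * X * (X / 8) := by
    calc 2 * X * (X * (N * τ)) ≤ 2 * X * (X * (Φ.card / 16)) := by
          apply mul_le_mul_of_nonneg_left _ (by linarith)
          exact mul_le_mul_of_nonneg_left hNτ hX0.le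
      _ = Φ.card * X * (X / 8) := by ring
  rw [hg] at he
  have hj : (3 / 4) * Φ.card * X * (X - 1) ≤ Φ.card * X * (X / 4) := by
    have e : (Φ.card : ℝ) * X * (X / 4) = Φ.card * X * (X / 8) + Φ.card * X * (X / 8) := by ring
    rw [e]
    linarith
  have hk' : (Φ.card : ℝ) * X * ((3 / 4) * (X - 1)) ≤ Φ.card * X * (X / 4) := by
    calc (Φ.card : ℝ) * X * ((3 / 4) * (X - 1)) = (3 / 4) * Φ.card * X * (X - 1) := by ring
      _ ≤ _ := hj
  have hl := le_of_mul_le_mul_left hk' (by positivity)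
  linarith

end Pool.Agent.Run7.h22
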