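import Mathlib

/-!
# Vectors of minimal length in a lattice

`exists_indep`: among `D` distinct vectors of minimal length there are `r` linearly independent ones
with `D ≤ 3 ^ r`.
-/

set_option autoImplicit false

open Finset Module

namespace Pool.Agent.Run7.h22

theorem exists_indep {V : Type*} [AddCommGroup V] [Module ℚ V] (p : V → ℝ)
    (hadd : ∀ x y, p (x + y) ≤ p x + p y) (hneg : ∀ x, p (-x) = p x)
    (h3 : ∀ x, p ((3 : ℤ) • x) = 3 * p x) {ι : Type*} [Fintype ι] (a : ι → V)
    (ha : Function.Injective a) {τ : ℝ} (hτ : 0 < τ) (M : AddSubgroup V) (haM : ∀ i, a i ∈ M)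
    (hle : ∀ i, p (a i) ≤ τ) (hmin : ∀ x ∈ M, x ≠ 0 → τ ≤ p x) :
    ∃ B : Finset ι, LinearIndependent ℤ (fun i : B => a i) ∧ Fintype.card ι ≤ 3 ^ B.card := by
  classical
  set N : Submodule ℤ V := Submodule.span ℤ (Set.range a) with hN
  have hfin : Module.Finite ℤ N := Module.Finite.span_of_finite ℤ (Set.finite_range a)
  have htf : Module.IsTorsionFree ℤ V := Module.IsTorsionFree.trans ℚ
  have htf' : Module.IsTorsionFree ℤ N := inferInstance
  have hfree : Module.Free ℤ N := inferInstance
  set b := Module.finBasis ℤ N with hb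
  have hNM : ∀ x ∈ N, x ∈ M := by
    intro x hx
    have : N ≤ AddSubgroup.toIntSubmodule M := by
      rw [hN, Submodule.span_le]
      rintro _ ⟨i, rfl⟩
      exact haM i
    exact this hx
  have haN : ∀ i, a i ∈ N := fun i => Submodule.subset_span ⟨i, rfl⟩
  -- injection modulo three
  have hcard : Fintype.card ι ≤ 3 ^ finrank ℤ N := by
    have hinj : Function.Injective (fun (i : ι) (j : Fin (finrank ℤ N)) =>
        ((b.repr ⟨a i, haN i⟩ j : ℤ) : ZMod 3)) := by
      intro i i' h
      have h1 : ∀ j, (3 : ℤ) ∣ b.repr ⟨a i, haN i⟩ j - b.repr ⟨a i', haN i'⟩ j := by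
        intro j
        have h2 := congrFun h j
        simp only at h2
        have := (ZMod.intCast_eq_intCast_iff_dvd_sub _ _ 3).mp h2.symm
        exact_mod_cast this
      choose q hq using h1
      set y : N := ∑ j, q j • b j with hy
      have h4 : (⟨a i, haN i⟩ : N) - ⟨a i', haN i'⟩ = (3 : ℤ) • y := by
        apply b.repr.injective
        ext j
        rw [map_sub, map_smul, Finsupp.sub_apply, hq j, Finsupp.smul_apply, hy, b.repr_sum_self,
          smul_eq_mul]
      have h5 : a i - a i' = (3 : ℤ) • (y : V) := by
        have := congrArg (Subtype.val) h4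
        simpa using this
      by_contra hne
      have h6 : (y : V) ≠ 0 := by
        intro h7
        rw [h7, smul_zero, sub_eq_zero] at h5
        exact hne (ha h5)
      have h8 := hmin y (hNM y y.2) h6
      have h9 : p (a i - a i') ≤ τ + τ := by
        rw [sub_eq_add_neg]
        refine (hadd _ _).trans ?_
        rw [hneg]
        exact add_le_add (hle i) (hle i')
      rw [h5, h3] at h9
      linarith
    have h := Fintype.card_le_of_injective _ hinj
    rwa [Fintype.card_fun, ZMod.card, Fintype.card_fin] at h
  -- an independent subfamily over the rationals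
  obtain ⟨s, hs1, hs2, hs3⟩ := exists_linearIndependent ℚ (Set.range a)
  have hsfin : s.Finite := (Set.finite_range a).subset hs1
  have hW : Module.Finite ℚ (Submodule.span ℚ (Set.range a)) :=
    Module.Finite.span_of_finite ℚ (Set.finite_range a)
  have hrk : finrank ℤ N ≤ finrank ℚ (Submodule.span ℚ (Set.range a)) := by
    have h1 : LinearIndependent ℤ (fun j => ((b j : N) : V)) :=
      b.linearIndependent.map' N.subtype (Submodule.ker_subtype N)
    have h2 : LinearIndependent ℚ (fun j => ((b j : N) : V)) :=
      (LinearIndependent.iff_fractionRing ℤ ℚ).mp h1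
    have h3' : ∀ j, ((b j : N) : V) ∈ Submodule.span ℚ (Set.range a) := by
      intro j
      have h4 : ((b j : N) : V) ∈ Submodule.span ℤ (Set.range a) := (b j).2
      exact Submodule.span_le_restrictScalars ℤ ℚ (Set.range a) h4
    have h5 : LinearIndependent ℚ (fun j => (⟨b j, h3' j⟩ : Submodule.span ℚ (Set.range a))) := by
      apply LinearIndependent.of_comp (Submodule.span ℚ (Set.range a)).subtype
      exact h2
    have h6 := h5.fintype_card_le_finrank
    rwa [Fintype.card_fin] at h6
  have hsc : finrank ℚ (Submodule.span ℚ (Set.range a)) = hsfin.toFinset.card := by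
    rw [← hs2]
    have := hsfin.fintype
    have h1 := finrank_span_set_eq_card (R := ℚ) (s := s) hs3
    rw [h1]
    congr 1
    ext x
    simp
  -- choose preimages
  have hpre : ∀ x ∈ hsfin.toFinset, ∃ i, a i = x := by
    intro x hx
    rw [Set.Finite.mem_toFinset] at hx
    exact hs1 hx
  set B : Finset ι := Finset.univ.filter (fun i => a i ∈ s) with hB
  have hBcard : B.card = hsfin.toFinset.card := by
    rw [← Finset.card_image_of_injective B ha]
    congr 1
    ext x
    rw [Finset.mem_image, Set.Finite.mem_toFinset]
    constructor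
    · rintro ⟨i, hi, rfl⟩
      exact (Finset.mem_filter.mp hi).2
    · intro hx
      obtain ⟨i, rfl⟩ := hs1 hx
      exact ⟨i, Finset.mem_filter.mpr ⟨Finset.mem_univ _, hx⟩, rfl⟩
  refine ⟨B, ?_, ?_⟩
  · have h1 : LinearIndependent ℚ (fun i : B => a i) := by
      have h2 : LinearIndependent ℚ (fun x : s => (x : V)) := hs3
      have h4 := h2.comp (fun i : B => (⟨a i, (Finset.mem_filter.mp i.2).2⟩ : s)) (by
        intro i j hij
        have := congrArg Subtype.val hij
        exact Subtype.ext (ha this))
      exact h4
    exact (LinearIndependent.iff_fractionRing ℤ ℚ).mpr h1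
  · rw [hBcard, ← hsc]
    exact hcard.trans (Nat.pow_le_pow_right (by norm_num) hrk)

end Pool.Agent.Run7.h22
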