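import Mathlib
import Pool.Agent.H388SL.SparseA

/-!
# Complex conjugations in the Galois group of a number field
-/

set_option autoImplicit false

open Finset Module

namespace Pool.Agent.Run7.h22

open Pool.Agent.H388SL

variable {K : Type*} [Field K] [NumberField K]

/-- `c` acts as the complex conjugation for the embedding `φ` -/
def IsCC (c : K ≃ₐ[ℚ] K) (φ : K →ₐ[ℚ] ℂ) : Prop := ∀ x : K, φ (c x) = starRingEnd ℂ (φ x)

/-- the set of the complex conjugations -/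
def ccSet (K : Type*) [Field K] [NumberField K] : Set (K ≃ₐ[ℚ] K) := {c | ∃ φ : K →ₐ[ℚ] ℂ, IsCC c φ}

/-- the embeddings for which `c` is the complex conjugation -/
noncomputable def Phi (c : K ≃ₐ[ℚ] K) : Finset (K →ₐ[ℚ] ℂ) := by
  classical exact Finset.univ.filter (fun φ => IsCC c φ)

lemma mem_Phi {c : K ≃ₐ[ℚ] K} {φ : K →ₐ[ℚ] ℂ} : φ ∈ Phi c ↔ IsCC c φ := by
  classical
  simp [Phi]

lemma exists_comp [IsGalois ℚ K] (φ ψ : K →ₐ[ℚ] ℂ) : ∃ g : K ≃ₐ[ℚ] K, ∀ x, ψ x = φ (g x) := by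
  obtain ⟨σ, hσ⟩ := NumberField.ComplexEmbedding.exists_comp_symm_eq_of_comp_eq (k := ℚ)
    (φ : K →+* ℂ) (ψ : K →+* ℂ) (by ext; simp)
  refine ⟨σ.symm, fun x => ?_⟩
  have := RingHom.congr_fun hσ x
  simpa using this.symm

lemma exists_cc [IsGalois ℚ K] (φ : K →ₐ[ℚ] ℂ) : ∃ c : K ≃ₐ[ℚ] K, IsCC c φ := by
  set ψ : K →ₐ[ℚ] ℂ := RingHom.equivRatAlgHom K ℂ ((starRingEnd ℂ).comp (φ : K →+* ℂ)) with hψ
  obtain ⟨g, hg⟩ := exists_comp φ ψ
  refine ⟨g, fun x => ?_⟩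
  rw [← hg x]
  rfl

lemma IsCC.comp {c : K ≃ₐ[ℚ] K} {φ : K →ₐ[ℚ] ℂ} (h : IsCC c φ) {g : K ≃ₐ[ℚ] K} (hg : g * c = c * g) :
    IsCC c (φ.comp (g : K →ₐ[ℚ] K)) := by
  intro x
  have h1 : g (c x) = c (g x) := by
    rw [← AlgEquiv.mul_apply, hg, AlgEquiv.mul_apply]
  show φ (g (c x)) = starRingEnd ℂ (φ (g x))
  rw [h1, h]

lemma IsCC.conj {c : K ≃ₐ[ℚ] K} {φ : K →ₐ[ℚ] ℂ} (h : IsCC c φ) (g : K ≃ₐ[ℚ] K) :
    g * c * g⁻¹ ∈ ccSet K := by
  refine ⟨φ.comp ((g⁻¹ : K ≃ₐ[ℚ] K) : K →ₐ[ℚ] K), fun x => ?_⟩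
  show φ (g⁻¹ ((g * c * g⁻¹) x)) = starRingEnd ℂ (φ (g⁻¹ x))
  have : g⁻¹ ((g * c * g⁻¹) x) = c (g⁻¹ x) := by
    rw [← AlgEquiv.mul_apply, ← AlgEquiv.mul_apply]
    congr 1
    group
  rw [this, h]

/-- the index of the centralizer of a complex conjugation -/
lemma index_le {c : K ≃ₐ[ℚ] K} {φ : K →ₐ[ℚ] ℂ} (h : IsCC c φ) :
    (Subgroup.centralizer {c}).index ≤ (ccSet K).ncard := by
  set H := Subgroup.centralizer {c} with hH
  have hfin : Finite (ccSet K) := inferInstance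
  have hinj : Function.Injective (fun q : (K ≃ₐ[ℚ] K) ⧸ H =>
      (⟨q.out * c * q.out⁻¹, h.conj q.out⟩ : ccSet K)) := by
    intro q q' hqq
    have h1 : q.out * c * q.out⁻¹ = q'.out * c * q'.out⁻¹ := congrArg Subtype.val hqq
    have h2 : q'.out⁻¹ * q.out * c = c * (q'.out⁻¹ * q.out) := by
      have h3 : q'.out⁻¹ * q.out * c = q'.out⁻¹ * (q.out * c * q.out⁻¹) * q.out := by group
      rw [h3, h1]
      group
    rw [← QuotientGroup.out_eq' q, ← QuotientGroup.out_eq' q']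
    symm
    rw [QuotientGroup.eq]
    exact Subgroup.mem_centralizer_singleton_iff.mpr h2
  have := Nat.card_le_card_of_injective _ hinj
  rwa [Nat.card_coe_set_eq] at this

/-- the number of the embeddings with a given complex conjugation -/
lemma finrank_le [IsGalois ℚ K] {c : K ≃ₐ[ℚ] K} {φ : K →ₐ[ℚ] ℂ} (h : IsCC c φ) :
    finrank ℚ K ≤ (ccSet K).ncard * (Phi c).card := by
  set H := Subgroup.centralizer {c} with hH
  have h1 : Nat.card H * H.index = finrank ℚ K := by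
    rw [H.card_mul_index]
    exact IsGalois.card_aut_eq_finrank ℚ K
  have h2 : Nat.card H ≤ (Phi c).card := by
    have hinj : Function.Injective (fun g : H => (⟨φ.comp ((g : K ≃ₐ[ℚ] K) : K →ₐ[ℚ] K),
        mem_Phi.mpr (h.comp (Subgroup.mem_centralizer_singleton_iff.mp g.2))⟩ : Phi c)) := by
      intro g g' hgg
      have h3 : φ.comp ((g : K ≃ₐ[ℚ] K) : K →ₐ[ℚ] K) = φ.comp ((g' : K ≃ₐ[ℚ] K) : K →ₐ[ℚ] K) :=
        congrArg Subtype.val hgg
      apply Subtype.ext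
      apply AlgEquiv.ext
      intro x
      have h4 := AlgHom.congr_fun h3 x
      exact φ.injective h4
    have := Nat.card_le_card_of_injective _ hinj
    rwa [Nat.card_eq_fintype_card (α := Phi c), Fintype.card_coe] at this
  rw [← h1, mul_comm]
  exact Nat.mul_le_mul (index_le h) h2

/-- the orbit of an element under a set of automorphisms -/
noncomputable def orb (H : Subgroup (K ≃ₐ[ℚ] K)) (β : K) : Finset K := by
  classical exact Finset.univ.image (fun g : H => (g : K ≃ₐ[ℚ] K) β)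

lemma mem_orb {H : Subgroup (K ≃ₐ[ℚ] K)} {β x : K} : x ∈ orb H β ↔ ∃ g ∈ H, g β = x := by
  classical
  simp [orb]

/-- the degree of an element -/
lemma degree_le [IsGalois ℚ K] (H : Subgroup (K ≃ₐ[ℚ] K)) (β : K) :
    finrank ℚ (IntermediateField.adjoin ℚ {β}) ≤ H.index * (orb H β).card := by
  classical
  obtain ⟨φ⟩ : Nonempty (K →ₐ[ℚ] ℂ) := ⟨IsAlgClosed.lift⟩
  set F := IntermediateField.adjoin ℚ {β} with hF
  have hex : ∀ τ : F →ₐ[ℚ] ℂ, ∃ g : K ≃ₐ[ℚ] K, τ (IntermediateField.AdjoinSimple.gen ℚ β) = φ (g β) := by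
    intro τ
    obtain ⟨ψ, hψ⟩ := IsAlgClosed.surjective_domRestrict_of_isAlgebraic (K := ℚ) (L := F) (M := ℂ) (E := K) τ
    obtain ⟨g, hg⟩ := exists_comp φ ψ
    refine ⟨g, ?_⟩
    rw [← hg β, ← hψ]
    rfl
  choose g hg using hex
  have hmem : ∀ τ, (QuotientGroup.mk (s := H) (g τ)).out⁻¹ * g τ ∈ H := by
    intro τ
    rw [← QuotientGroup.eq]
    exact QuotientGroup.out_eq' _
  have hinj : Function.Injective (fun τ : F →ₐ[ℚ] ℂ =>
      ((QuotientGroup.mk (s := H) (g τ),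
        ⟨((QuotientGroup.mk (s := H) (g τ)).out⁻¹ * g τ) β, mem_orb.mpr ⟨_, hmem τ, rfl⟩⟩) :
        ((K ≃ₐ[ℚ] K) ⧸ H) × orb H β)) := by
    intro τ τ' h
    have h1 : (QuotientGroup.mk (s := H) (g τ)) = (QuotientGroup.mk (s := H) (g τ')) :=
      congrArg Prod.fst h
    have h2 : ((QuotientGroup.mk (s := H) (g τ)).out⁻¹ * g τ) β =
        ((QuotientGroup.mk (s := H) (g τ')).out⁻¹ * g τ') β :=
      congrArg (fun z => (z.2 : K)) h
    rw [h1, AlgEquiv.mul_apply, AlgEquiv.mul_apply] at h2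
    have h3 := (AlgEquiv.injective _) h2
    apply CInj_gen β
    show τ _ = τ' _
    rw [hg τ, hg τ', h3]
  have h := Nat.card_le_card_of_injective _ hinj
  rw [Nat.card_prod, Nat.card_eq_fintype_card (α := F →ₐ[ℚ] ℂ), AlgHom.card,
    Nat.card_eq_fintype_card (α := orb H β), Fintype.card_coe] at h
  exact h

end Pool.Agent.Run7.h22
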