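import Mathlib
import Pool.Agent.Run7.h22.CC

/-!
# Units which are positive for all embeddings with a given complex conjugation
-/

set_option autoImplicit false

open Finset Module

namespace Pool.Agent.Run7.h22

open Pool.Agent.H388SL

variable {K : Type*} [Field K] [NumberField K]

lemma lam_mul_le (x y : K) : lam (x * y) ≤ lam x + lam y := by
  unfold lam
  rw [← Finset.sum_add_distrib]
  apply Finset.sum_le_sum
  intro σ _
  have h1 : (0:ℝ) < max 1 ‖σ x‖ := lt_of_lt_of_le one_pos (le_max_left _ _)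
  have h2 : (0:ℝ) < max 1 ‖σ y‖ := lt_of_lt_of_le one_pos (le_max_left _ _)
  rw [← Real.log_mul h1.ne' h2.ne']
  apply Real.log_le_log (lt_of_lt_of_le one_pos (le_max_left _ _))
  apply max_le
  · nlinarith [le_max_left 1 ‖σ x‖, le_max_left 1 ‖σ y‖]
  · rw [map_mul, norm_mul]
    exact mul_le_mul (le_max_right _ _) (le_max_right _ _) (norm_nonneg _) h1.le

lemma lam_aut (g : K ≃ₐ[ℚ] K) (x : K) : lam (g x) = lam x := by
  unfold lam
  let e : (K →ₐ[ℚ] ℂ) → (K →ₐ[ℚ] ℂ) := fun σ => σ.comp (g : K →ₐ[ℚ] K)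
  have he : Function.Injective e := by
    intro σ τ h
    apply AlgHom.ext
    intro y
    have h1 := AlgHom.congr_fun h (g.symm y)
    have h2 : σ (g (g.symm y)) = τ (g (g.symm y)) := h1
    rwa [AlgEquiv.apply_symm_apply] at h2
  have hb : Function.Bijective e := Finite.injective_iff_bijective.mp he
  exact hb.sum_comp (fun σ : K →ₐ[ℚ] ℂ => Real.log (max 1 ‖σ x‖))

lemma lam_prod_le {ι : Type*} (s : Finset ι) (f : ι → K) (n : ι → ℕ) :
    lam (∏ i ∈ s, f i ^ n i) ≤ ∑ i ∈ s, n i * lam (f i) := by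
  classical
  induction s using Finset.induction_on with
  | empty =>
    simp only [Finset.prod_empty, Finset.sum_empty]
    unfold lam
    apply le_of_eq
    apply Finset.sum_eq_zero
    intro σ _
    simp
  | insert a s ha ih =>
    rw [Finset.prod_insert ha, Finset.sum_insert ha]
    refine (lam_mul_le _ _).trans ?_
    rw [lam_pow]
    linarith

/-- units which are positive for all the embeddings with complex conjugation `c` -/
def Pos (c : K ≃ₐ[ℚ] K) (x : K) : Prop :=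
  x ≠ 0 ∧ IsIntegral ℤ x ∧ IsIntegral ℤ x⁻¹ ∧ ∀ φ : K →ₐ[ℚ] ℂ, IsCC c φ → ∃ r : ℝ, 0 < r ∧ φ x = r

lemma Pos.one (c : K ≃ₐ[ℚ] K) : Pos c (1 : K) :=
  ⟨one_ne_zero, isIntegral_one, by rw [inv_one]; exact isIntegral_one,
    fun φ _ => ⟨1, one_pos, by simp⟩⟩

lemma Pos.mul {c : K ≃ₐ[ℚ] K} {x y : K} (hx : Pos c x) (hy : Pos c y) : Pos c (x * y) := by
  refine ⟨mul_ne_zero hx.1 hy.1, hx.2.1.mul hy.2.1, ?_, fun φ hφ => ?_⟩
  · rw [mul_inv]; exact hx.2.2.1.mul hy.2.2.1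
  · obtain ⟨r, hr, hr2⟩ := hx.2.2.2 φ hφ
    obtain ⟨t, ht, ht2⟩ := hy.2.2.2 φ hφ
    exact ⟨r * t, mul_pos hr ht, by rw [map_mul, hr2, ht2]; push_cast; rfl⟩

lemma Pos.inv {c : K ≃ₐ[ℚ] K} {x : K} (hx : Pos c x) : Pos c x⁻¹ := by
  refine ⟨inv_ne_zero hx.1, hx.2.2.1, by rw [inv_inv]; exact hx.2.1, fun φ hφ => ?_⟩
  obtain ⟨r, hr, hr2⟩ := hx.2.2.2 φ hφ
  exact ⟨r⁻¹, inv_pos.mpr hr, by rw [map_inv₀, hr2]; push_cast; rfl⟩

lemma Pos.pow {c : K ≃ₐ[ℚ] K} {x : K} (hx : Pos c x) (n : ℕ) : Pos c (x ^ n) := by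
  induction n with
  | zero => rw [pow_zero]; exact Pos.one c
  | succ n ih => rw [pow_succ]; exact ih.mul hx

lemma Pos.prod {c : K ≃ₐ[ℚ] K} {ι : Type*} (s : Finset ι) (f : ι → K) (h : ∀ i ∈ s, Pos c (f i)) :
    Pos c (∏ i ∈ s, f i) := by
  classical
  induction s using Finset.induction_on with
  | empty => rw [Finset.prod_empty]; exact Pos.one c
  | insert a s ha ih =>
    rw [Finset.prod_insert ha]
    exact (h a (Finset.mem_insert_self a s)).mul (ih fun i hi => h i (Finset.mem_insert_of_mem hi))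

lemma Pos.aut {c : K ≃ₐ[ℚ] K} {x : K} (hx : Pos c x) {g : K ≃ₐ[ℚ] K} (hg : g * c = c * g) :
    Pos c (g x) := by
  refine ⟨(map_ne_zero g).mpr hx.1, hx.2.1.map (g : K →ₐ[ℚ] K), ?_, fun φ hφ => ?_⟩
  · rw [← map_inv₀]
    exact hx.2.2.1.map (g : K →ₐ[ℚ] K)
  · exact hx.2.2.2 (φ.comp (g : K →ₐ[ℚ] K)) (hφ.comp hg)

lemma Pos.prod_norm {c : K ≃ₐ[ℚ] K} {x : K} (hx : Pos c x) : ∏ σ : K →ₐ[ℚ] ℂ, ‖σ x‖ = 1 := by
  have h1 := one_le_prod_norm hx.2.1 hx.1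
  have h2 := one_le_prod_norm hx.2.2.1 (inv_ne_zero hx.1)
  have h3 : (∏ σ : K →ₐ[ℚ] ℂ, ‖σ x‖) * ∏ σ : K →ₐ[ℚ] ℂ, ‖σ x⁻¹‖ = 1 := by
    rw [← Finset.prod_mul_distrib]
    apply Finset.prod_eq_one
    intro σ _
    rw [← norm_mul, ← map_mul, mul_inv_cancel₀ hx.1, map_one, norm_one]
  nlinarith

/-- the logarithmic embedding -/
noncomputable def lg (x : K) : (K →ₐ[ℚ] ℂ) → ℝ := fun φ => Real.log ‖φ x‖

lemma lg_one : lg (1 : K) = 0 := by
  funext φ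
  simp [lg]

lemma lg_mul {x y : K} (hx : x ≠ 0) (hy : y ≠ 0) : lg (x * y) = lg x + lg y := by
  funext φ
  show Real.log ‖φ (x * y)‖ = Real.log ‖φ x‖ + Real.log ‖φ y‖
  rw [map_mul, norm_mul, Real.log_mul]
  · exact norm_ne_zero_iff.mpr ((map_ne_zero φ).mpr hx)
  · exact norm_ne_zero_iff.mpr ((map_ne_zero φ).mpr hy)

lemma lg_inv (x : K) : lg x⁻¹ = - lg x := by
  funext φ
  show Real.log ‖φ x⁻¹‖ = - Real.log ‖φ x‖
  rw [map_inv₀, norm_inv, Real.log_inv]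

lemma lg_pow (x : K) (n : ℕ) : lg (x ^ n) = n • lg x := by
  funext φ
  show Real.log ‖φ (x ^ n)‖ = (n • lg x) φ
  rw [map_pow, norm_pow, Real.log_pow, Pi.smul_apply, nsmul_eq_mul]
  rfl

lemma lg_prod {c : K ≃ₐ[ℚ] K} {ι : Type*} (s : Finset ι) (f : ι → K) (h : ∀ i ∈ s, Pos c (f i)) :
    lg (∏ i ∈ s, f i) = ∑ i ∈ s, lg (f i) := by
  classical
  induction s using Finset.induction_on with
  | empty => rw [Finset.prod_empty, Finset.sum_empty]; exact lg_one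
  | insert a s ha ih =>
    have h1 := Pos.prod s f (fun i hi => h i (Finset.mem_insert_of_mem hi))
    rw [Finset.prod_insert ha, Finset.sum_insert ha,
      lg_mul (h a (Finset.mem_insert_self a s)).1 h1.1,
      ih fun i hi => h i (Finset.mem_insert_of_mem hi)]

/-- the image of the positive units -/
def Mlat (c : K ≃ₐ[ℚ] K) : AddSubgroup ((K →ₐ[ℚ] ℂ) → ℝ) where
  carrier := {v | ∃ x : K, Pos c x ∧ lg x = v}
  zero_mem' := ⟨1, Pos.one c, lg_one⟩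
  add_mem' := by
    rintro _ _ ⟨x, hx, rfl⟩ ⟨y, hy, rfl⟩
    exact ⟨x * y, hx.mul hy, lg_mul hx.1 hy.1⟩
  neg_mem' := by
    rintro _ ⟨x, hx, rfl⟩
    exact ⟨x⁻¹, hx.inv, lg_inv x⟩

lemma lg_eq_zero {c : K ≃ₐ[ℚ] K} {φ : K →ₐ[ℚ] ℂ} (hφ : IsCC c φ) {x : K} (hx : Pos c x)
    (h : lg x = 0) : x = 1 := by
  obtain ⟨r, hr, hr2⟩ := hx.2.2.2 φ hφ
  have h1 : Real.log ‖φ x‖ = 0 := congrFun h φ
  rw [hr2, Complex.norm_real, Real.norm_of_nonneg hr.le] at h1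
  have h2 : r = 1 := by
    rcases Real.log_eq_zero.mp h1 with h | h | h
    · exact absurd h hr.ne'
    · exact h
    · linarith
  rw [h2, Complex.ofReal_one] at hr2
  have h3 : φ x = φ 1 := by rw [hr2, map_one]
  exact φ.injective h3

lemma lg_inj {c : K ≃ₐ[ℚ] K} {φ : K →ₐ[ℚ] ℂ} (hφ : IsCC c φ) {x y : K} (hx : Pos c x) (hy : Pos c y)
    (h : lg x = lg y) : x = y := by
  have h1 : lg (x * y⁻¹) = 0 := by
    rw [lg_mul hx.1 (inv_ne_zero hy.1), lg_inv, h, add_neg_cancel]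
  have h2 := lg_eq_zero hφ (hx.mul hy.inv) h1
  exact (mul_inv_eq_one₀ hy.1).mp h2

/-- the length -/
noncomputable def len (v : (K →ₐ[ℚ] ℂ) → ℝ) : ℝ := ∑ φ, |v φ|

lemma len_add (v w : (K →ₐ[ℚ] ℂ) → ℝ) : len (v + w) ≤ len v + len w := by
  unfold len
  rw [← Finset.sum_add_distrib]
  exact Finset.sum_le_sum fun φ _ => abs_add_le _ _

lemma len_neg (v : (K →ₐ[ℚ] ℂ) → ℝ) : len (-v) = len v := by
  unfold len
  exact Finset.sum_congr rfl fun φ _ => abs_neg _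

lemma len_three (v : (K →ₐ[ℚ] ℂ) → ℝ) : len ((3 : ℤ) • v) = 3 * len v := by
  unfold len
  rw [Finset.mul_sum]
  refine Finset.sum_congr rfl fun φ _ => ?_
  rw [Pi.smul_apply, zsmul_eq_mul, abs_mul]
  norm_num

lemma len_lg {c : K ≃ₐ[ℚ] K} {x : K} (hx : Pos c x) : len (lg x) = 2 * lam x :=
  sum_abs_log hx.1 hx.prod_norm

/-- a positive unit different from one is not a root of unity -/
lemma Pos.not_root {c : K ≃ₐ[ℚ] K} {φ : K →ₐ[ℚ] ℂ} (hφ : IsCC c φ) {x : K} (hx : Pos c x) (h1 : x ≠ 1) :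
    ∀ n : ℕ, 0 < n → x ^ n ≠ 1 := by
  intro n hn h
  apply h1
  apply lg_eq_zero hφ hx
  have h2 : n • lg x = 0 := by rw [← lg_pow, h, lg_one]
  exact (smul_eq_zero.mp h2).resolve_left hn.ne'

/-- existence of a unit of minimal height -/
lemma exists_min {c : K ≃ₐ[ℚ] K} {x : K} (hx : Pos c x) (h1 : x ≠ 1) :
    ∃ β : K, Pos c β ∧ β ≠ 1 ∧ (∀ y : K, Pos c y → y ≠ 1 → lam β ≤ lam y) := by
  set T : Set K := {y | Pos c y ∧ y ≠ 1 ∧ lam y ≤ lam x} with hT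
  have hfin : T.Finite := by
    apply (NumberField.Embeddings.finite_of_norm_le K ℂ (Real.exp (lam x))).subset
    intro y hy
    refine ⟨hy.1.2.1, fun φ => ?_⟩
    set ψ : K →ₐ[ℚ] ℂ := RingHom.equivRatAlgHom K ℂ φ with hψ
    have h2 : φ y = ψ y := rfl
    rw [h2]
    have h3 : Real.log (max 1 ‖ψ y‖) ≤ lam y :=
      Finset.single_le_sum (f := fun σ : K →ₐ[ℚ] ℂ => Real.log (max 1 ‖σ y‖))
        (fun _ _ => Real.log_nonneg (le_max_left _ _)) (Finset.mem_univ ψ)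
    have h4 : (0:ℝ) < max 1 ‖ψ y‖ := lt_of_lt_of_le one_pos (le_max_left _ _)
    calc ‖ψ y‖ ≤ max 1 ‖ψ y‖ := le_max_right _ _
      _ = Real.exp (Real.log (max 1 ‖ψ y‖)) := (Real.exp_log h4).symm
      _ ≤ Real.exp (lam x) := Real.exp_le_exp.mpr (h3.trans hy.2.2)
  obtain ⟨β, hβ, hmin⟩ := Set.exists_min_image T lam hfin ⟨x, hx, h1, le_rfl⟩
  refine ⟨β, hβ.1, hβ.2.1, fun y hy hy1 => ?_⟩
  by_cases h : lam y ≤ lam x
  · exact hmin y ⟨hy, hy1, h⟩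
  · push Not at h
    exact hβ.2.2.trans h.le

end Pool.Agent.Run7.h22
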