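import Mathlib
import Pool.Agent.H388SL.DobC
import Pool.Agent.Run7.h22.Pos
import Pool.Agent.Run7.h22.En
import Pool.Agent.Run7.h22.Lat

/-!
# Heights of units of a Galois number field with few complex conjugations
-/

set_option autoImplicit false

open Finset Module

namespace Pool.Agent.Run7.h22

open Pool.Agent.H388SL

/-- many independent units of minimal height -/
lemma case_large {K : Type*} [Field K] [NumberField K] [IsGalois ℚ K] {c : K ≃ₐ[ℚ] K}
    {φ : K →ₐ[ℚ] ℂ} (hφ : IsCC c φ) {β : K} (B : Finset K) (hB : ∀ x ∈ B, Pos c x ∧ lam x = lam β)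
    (hind : LinearIndependent ℤ (fun x : B => lg (x : K))) (m : ℕ)
    (hm : 256 * ((ccSet K).ncard : ℝ) ^ 2 ≤ ((m : ℝ) + 1) ^ B.card) :
    (finrank ℚ K : ℝ) ≤ 16 * (ccSet K).ncard * (B.card * m * lam β) := by
  classical
  set k : ℝ := ((ccSet K).ncard : ℝ) with hk
  have hk1 : 1 ≤ k := by
    have h1 : (ccSet K).Nonempty := ⟨c, φ, hφ⟩
    have h2 := (Set.ncard_pos (Set.toFinite _)).mpr h1
    rw [hk]
    exact_mod_cast h2
  have hN0 : (0:ℝ) < finrank ℚ K := by exact_mod_cast (finrank_pos : 0 < finrank ℚ K)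
  let u : (B → Fin (m + 1)) → K := fun e => ∏ b : B, (b : K) ^ (e b : ℕ)
  have hPu : ∀ e, Pos c (u e) := fun e =>
    Pos.prod Finset.univ (fun b : B => (b : K) ^ (e b : ℕ)) (fun b _ => ((hB b.1 b.2).1).pow _)
  have hlg : ∀ e, lg (u e) = ∑ b : B, ((e b : ℕ) : ℤ) • lg (b : K) := by
    intro e
    rw [lg_prod Finset.univ (fun b : B => (b : K) ^ (e b : ℕ))
      (fun b _ => ((hB b.1 b.2).1).pow (e b : ℕ))]
    refine Finset.sum_congr rfl fun b _ => ?_
    rw [lg_pow, natCast_zsmul]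
  have hinj : Function.Injective u := by
    intro e e' h
    have h1 : ∑ b : B, (((e b : ℕ) : ℤ) - ((e' b : ℕ) : ℤ)) • lg (b : K) = 0 := by
      simp_rw [sub_smul]
      rw [Finset.sum_sub_distrib, ← hlg, ← hlg, h, sub_self]
    have h2 := (Fintype.linearIndependent_iff.mp hind) _ h1
    funext b
    apply Fin.ext
    have := h2 b
    omega
  have hcard : Fintype.card (B → Fin (m + 1)) = (m + 1) ^ B.card := by
    rw [Fintype.card_fun, Fintype.card_fin, Fintype.card_coe]
  have hlam : ∀ e, lam (u e) ≤ finrank ℚ K * ((B.card * m * lam β) / finrank ℚ K) := by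
    intro e
    rw [mul_div_cancel₀ _ hN0.ne']
    refine (lam_prod_le _ _ _).trans ?_
    calc ∑ b : B, ((e b : ℕ) : ℝ) * lam (b : K) ≤ ∑ _b : B, (m : ℝ) * lam β := by
          apply Finset.sum_le_sum
          intro b _
          rw [(hB b b.2).2]
          apply mul_le_mul_of_nonneg_right _ (lam_nonneg β)
          exact_mod_cast Nat.lt_succ_iff.mp (e b).2
      _ = B.card * m * lam β := by
          rw [Finset.sum_const, Finset.card_univ, Fintype.card_coe, nsmul_eq_mul]
          ring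
  have h := energy_bound (Phi c) u hinj (fun e => (hPu e).2.1) (fun e => (hPu e).1)
    (fun e => (hPu e).prod_norm) (fun e ψ hψ => (hPu e).2.2.2 ψ (mem_Phi.mp hψ)) hk1
    (by rw [hk]; exact_mod_cast finrank_le hφ) hlam (by
      rw [hcard]
      push_cast
      exact hm)
  have hk0 : 0 < k := by linarith
  rw [div_le_div_iff₀ (by positivity) hN0, one_mul] at h
  linarith

/-- lower bound from the degree of `β` -/
lemma case_small {c0 : ℝ} (hc0 : 0 < c0)
    (hdob : ∀ (K : Type) [Field K] [NumberField K] (α : K), IsIntegral ℤ α →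
    α ≠ 0 → (∀ n : ℕ, 0 < n → α ^ n ≠ 1) → CInj α →
    c0 / (Real.log (2 * finrank ℚ K)) ^ 3 ≤ lam α) {K : Type} [Field K] [NumberField K]
    {β : K} (hi : IsIntegral ℤ β) (h0 : β ≠ 0) (hroot : ∀ n : ℕ, 0 < n → β ^ n ≠ 1) {d : ℝ}
    (hd : (finrank ℚ (IntermediateField.adjoin ℚ {β}) : ℝ) ≤ d) :
    c0 * finrank ℚ K ≤ d * (Real.log (2 * d)) ^ 3 * lam β := by
  set F := IntermediateField.adjoin ℚ {β} with hF
  set γ : F := IntermediateField.AdjoinSimple.gen ℚ β with hγ
  have hγβ : algebraMap F K γ = β := IntermediateField.AdjoinSimple.algebraMap_gen ℚ β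
  have hinj : Function.Injective (algebraMap F K) := (algebraMap F K).injective
  have hγi : IsIntegral ℤ γ := by
    rw [← hγβ] at hi
    exact (isIntegral_algebraMap_iff hinj).mp hi
  have hγ0 : γ ≠ 0 := by
    intro h
    rw [h, map_zero] at hγβ
    exact h0 hγβ.symm
  have hγr : ∀ n : ℕ, 0 < n → γ ^ n ≠ 1 := by
    intro n hn h
    have h1 := congrArg (algebraMap F K) h
    rw [map_pow, hγβ, map_one] at h1
    exact hroot n hn h1
  have h1 := hdob F γ hγi hγ0 hγr (CInj_gen β)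
  have h2 : lam β = finrank F K * lam γ := by
    have := sum_embeddings' β (fun z => Real.log (max 1 ‖z‖))
    rw [nsmul_eq_mul] at this
    exact this
  have h3 : (finrank ℚ K : ℝ) = finrank ℚ F * finrank F K := by
    rw [← finrank_mul_finrank ℚ F K]
    push_cast
    rfl
  have hF1 : (1:ℝ) ≤ finrank ℚ F := by
    exact_mod_cast (finrank_pos : 0 < finrank ℚ F)
  have hd0 : 0 ≤ d := by linarith
  have hl : 0 < Real.log (2 * finrank ℚ F) := Real.log_pos (by linarith)
  have hl2 : Real.log (2 * finrank ℚ F) ≤ Real.log (2 * d) := Real.log_le_log (by linarith) (by linarith)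
  have h4 : c0 ≤ (Real.log (2 * d)) ^ 3 * lam γ := by
    rw [div_le_iff₀ (by positivity)] at h1
    calc c0 ≤ lam γ * Real.log (2 * finrank ℚ F) ^ 3 := h1
      _ ≤ lam γ * (Real.log (2 * d)) ^ 3 := by
          apply mul_le_mul_of_nonneg_left _ (lam_nonneg γ)
          exact pow_le_pow_left₀ hl.le hl2 3
      _ = _ := by ring
  rw [h2, h3]
  calc c0 * (finrank ℚ F * finrank F K) = (finrank ℚ F * finrank F K) * c0 := by ring
    _ ≤ (d * finrank F K) * ((Real.log (2 * d)) ^ 3 * lam γ) := by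
        apply mul_le_mul _ h4 hc0.le (by positivity)
        exact mul_le_mul_of_nonneg_right hd (by positivity)
    _ = _ := by ring

/-- numerical part, large case -/
lemma num_large {k : ℝ} (hk : 1 ≤ k) {s : ℝ} (hs : s = Real.sqrt (Real.log (2 * k))) :
    256 * k ^ 2 ≤ ((⌈Real.exp (8 * s)⌉₊ : ℝ) + 1) ^ ⌈s⌉₊ ∧
    (⌈s⌉₊ : ℝ) * ⌈Real.exp (8 * s)⌉₊ ≤ 2 * Real.exp (9 * s) ∧ 0 < s := by
  have hl : 0 < Real.log (2 * k) := Real.log_pos (by linarith)
  have hs0 : 0 < s := by rw [hs]; exact Real.sqrt_pos.mpr hl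
  have hs2 : s ^ 2 = Real.log (2 * k) := by rw [hs]; exact Real.sq_sqrt hl.le
  refine ⟨?_, ?_, hs0⟩
  · have h1 : Real.exp (8 * s) ≤ (⌈Real.exp (8 * s)⌉₊ : ℝ) + 1 := (Nat.le_ceil _).trans (by linarith)
    have h2 : Real.exp (8 * s) ^ ⌈s⌉₊ ≤ ((⌈Real.exp (8 * s)⌉₊ : ℝ) + 1) ^ ⌈s⌉₊ :=
      pow_le_pow_left₀ (Real.exp_pos _).le h1 _
    refine le_trans ?_ h2
    rw [← Real.exp_nat_mul]
    have h3 : 8 * Real.log (2 * k) ≤ ⌈s⌉₊ * (8 * s) := by
      rw [← hs2]
      have := Nat.le_ceil s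
      nlinarith
    refine le_trans ?_ (Real.exp_le_exp.mpr h3)
    have h4 : Real.exp (8 * Real.log (2 * k)) = (2 * k) ^ 8 := by
      rw [mul_comm, Real.exp_mul, Real.exp_log (by linarith)]
      norm_cast
    rw [h4]
    have h5 : (2 * k) ^ 8 = 256 * k ^ 2 * k ^ 6 := by ring
    rw [h5]
    have h6 : 1 ≤ k ^ 6 := one_le_pow₀ hk
    have h7 : 0 ≤ 256 * k ^ 2 := by positivity
    nlinarith
  · have h1 : (⌈s⌉₊ : ℝ) ≤ s + 1 := (Nat.ceil_lt_add_one hs0.le).le
    have h2 : (⌈Real.exp (8 * s)⌉₊ : ℝ) ≤ Real.exp (8 * s) + 1 :=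
      (Nat.ceil_lt_add_one (Real.exp_pos _).le).le
    have h3 : s + 1 ≤ Real.exp s := Real.add_one_le_exp s
    have h4 : 1 ≤ Real.exp (8 * s) := Real.one_le_exp (by linarith)
    calc (⌈s⌉₊ : ℝ) * ⌈Real.exp (8 * s)⌉₊ ≤ Real.exp s * (2 * Real.exp (8 * s)) := by
          apply mul_le_mul (h1.trans h3) (h2.trans (by linarith)) (by positivity) (Real.exp_pos _).le
      _ = 2 * Real.exp (9 * s) := by
          rw [show (9 * s) = s + 8 * s by ring, Real.exp_add]
          ring

/-- numerical part, small case -/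
lemma num_small {k : ℝ} (hk : 1 ≤ k) {s : ℝ} (hs : s = Real.sqrt (Real.log (2 * k))) (hs0 : 0 < s)
    {r : ℕ} (hr : r < ⌈s⌉₊) :
    k * 3 ^ r * (Real.log (2 * (k * 3 ^ r))) ^ 3 ≤ k * Real.exp (9 * s) := by
  have hl : 0 < Real.log (2 * k) := Real.log_pos (by linarith)
  have hs2 : s ^ 2 = Real.log (2 * k) := by rw [hs]; exact Real.sq_sqrt hl.le
  have hrs : (r : ℝ) < s := Nat.lt_ceil.mp hr
  have h3e : (3:ℝ) ≤ Real.exp 2 := by
    have := Real.add_one_le_exp (2:ℝ)
    linarith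
  have h3 : (3:ℝ) ^ r ≤ Real.exp (2 * s) := by
    calc (3:ℝ) ^ r ≤ (Real.exp 2) ^ r := pow_le_pow_left₀ (by norm_num) h3e r
      _ = Real.exp (r * 2) := (Real.exp_nat_mul 2 r).symm
      _ ≤ Real.exp (2 * s) := Real.exp_le_exp.mpr (by linarith)
  have h3pos : (0:ℝ) < 3 ^ r := by positivity
  have h31 : (1:ℝ) ≤ 3 ^ r := one_le_pow₀ (by norm_num)
  have h4 : Real.log (2 * (k * 3 ^ r)) ≤ Real.exp (2 * s) := by
    have h5 : Real.log (2 * (k * 3 ^ r)) = Real.log (2 * k) + Real.log (3 ^ r) := by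
      rw [← mul_assoc, Real.log_mul (by linarith) h3pos.ne']
    have h6 : Real.log (3 ^ r) ≤ 2 * s := by
      rw [Real.log_le_iff_le_exp h3pos]
      exact h3
    rw [h5, ← hs2]
    have h7 : s + 1 ≤ Real.exp s := Real.add_one_le_exp s
    have h8 : Real.exp (2 * s) = Real.exp s ^ 2 := by
      rw [two_mul, Real.exp_add, sq]
    rw [h8]
    have h9 : (s + 1) ^ 2 ≤ Real.exp s ^ 2 := pow_le_pow_left₀ (by linarith) h7 2
    nlinarith
  have h5 : 0 ≤ Real.log (2 * (k * 3 ^ r)) := by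
    apply Real.log_nonneg
    nlinarith
  have h6 : (Real.log (2 * (k * 3 ^ r))) ^ 3 ≤ Real.exp (6 * s) := by
    calc (Real.log (2 * (k * 3 ^ r))) ^ 3 ≤ Real.exp (2 * s) ^ 3 := pow_le_pow_left₀ h5 h4 3
      _ = Real.exp (6 * s) := by
          rw [← Real.exp_nat_mul]
          congr 1
          push_cast
          ring
  calc k * 3 ^ r * (Real.log (2 * (k * 3 ^ r))) ^ 3
      ≤ k * Real.exp (2 * s) * Real.exp (6 * s) := by
        apply mul_le_mul _ h6 (by positivity) (by positivity)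
        exact mul_le_mul_of_nonneg_left h3 (by linarith)
    _ = k * Real.exp (8 * s) := by
        rw [mul_assoc, ← Real.exp_add]
        congr 2
        ring
    _ ≤ k * Real.exp (9 * s) := by
        apply mul_le_mul_of_nonneg_left _ (by linarith)
        exact Real.exp_le_exp.mpr (by linarith)

/-- **The height of a unit which is not a root of unity, in a Galois number field with `k` complex
conjugations.** -/
theorem field_main : ∃ C : ℝ, 0 < C ∧ ∀ (K : Type) [Field K] [NumberField K] [IsGalois ℚ K] (α : K),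
    IsIntegral ℤ α → IsIntegral ℤ α⁻¹ → α ≠ 0 → (∀ n : ℕ, 0 < n → α ^ n ≠ 1) →
    (finrank ℚ K : ℝ) ≤ C * ((ccSet K).ncard *
      Real.exp (9 * Real.sqrt (Real.log (2 * (ccSet K).ncard)))) * lam α := by
  classical
  obtain ⟨c0, hc0, hdob⟩ := dob
  refine ⟨64 + 2 / c0, by positivity, ?_⟩
  intro K _ _ _ α hi hi' h0 hroot
  -- an embedding
  obtain ⟨φ, hφ1⟩ : ∃ φ : K →ₐ[ℚ] ℂ, 1 < ‖φ α‖ := by
    by_contra h
    push Not at h
    have h1 := lam_pos hi h0 hroot
    have h2 : lam α = 0 := by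
      unfold lam
      apply Finset.sum_eq_zero
      intro σ _
      rw [max_eq_left (h σ), Real.log_one]
    linarith
  obtain ⟨c, hc⟩ := exists_cc φ
  have hkk : (1:ℝ) ≤ ((ccSet K).ncard : ℝ) := by
    have h1 : (ccSet K).Nonempty := ⟨c, φ, hc⟩
    have h2 := (Set.ncard_pos (Set.toFinite _)).mpr h1
    exact_mod_cast h2
  -- the positive unit
  set β0 := α * c α with hβ0
  have hc0' : c α ≠ 0 := (map_ne_zero c).mpr h0
  have hP0 : Pos c β0 := by
    refine ⟨mul_ne_zero h0 hc0', hi.mul (hi.map (c : K →ₐ[ℚ] K)), ?_, ?_⟩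
    · rw [hβ0, mul_inv, ← map_inv₀]
      exact hi'.mul (hi'.map (c : K →ₐ[ℚ] K))
    · intro ψ hψ
      refine ⟨‖ψ α‖ ^ 2, ?_, ?_⟩
      · have : 0 < ‖ψ α‖ := norm_pos_iff.mpr ((map_ne_zero ψ).mpr h0)
        positivity
      · rw [hβ0, map_mul, hψ α, Complex.mul_conj, Complex.normSq_eq_norm_sq]
  have hne0 : β0 ≠ 1 := by
    intro h
    have h1 := congrArg φ h
    rw [hβ0, map_mul, hc α, Complex.mul_conj, Complex.normSq_eq_norm_sq, map_one] at h1
    have h2 : ‖φ α‖ ^ 2 = 1 := by exact_mod_cast h1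
    nlinarith
  have hlam0 : lam β0 ≤ 2 * lam α := by
    refine (lam_mul_le _ _).trans ?_
    rw [lam_aut]
    linarith
  obtain ⟨β, hPβ, hβ1, hmin⟩ := exists_min hP0 hne0
  have hrβ := hPβ.not_root hc hβ1
  have hτ : 0 < lam β := lam_pos hPβ.2.1 hPβ.1 hrβ
  have hβα : lam β ≤ 2 * lam α := (hmin β0 hP0 hne0).trans hlam0
  -- the orbit
  set H := Subgroup.centralizer {c} with hH
  have horb : ∀ x ∈ orb H β, Pos c x ∧ lam x = lam β := by
    intro x hx
    obtain ⟨g, hg, rfl⟩ := mem_orb.mp hx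
    exact ⟨hPβ.aut (Subgroup.mem_centralizer_singleton_iff.mp hg), lam_aut g β⟩
  obtain ⟨B, hBind, hBcard⟩ := exists_indep (V := (K →ₐ[ℚ] ℂ) → ℝ) len len_add len_neg len_three
    (fun x : orb H β => lg (x : K))
    (fun x y h => Subtype.ext (lg_inj hc (horb x x.2).1 (horb y y.2).1 h)) (τ := 2 * lam β)
    (by linarith) (Mlat c) (fun x => ⟨x, (horb x x.2).1, rfl⟩)
    (fun x => by rw [len_lg (horb x x.2).1, (horb x x.2).2])
    (by
      rintro _ ⟨x, hx, rfl⟩ hx0
      rw [len_lg hx]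
      have : x ≠ 1 := by
        rintro rfl
        exact hx0 lg_one
      linarith [hmin x hx this])
  rw [Fintype.card_coe] at hBcard
  set k : ℝ := ((ccSet K).ncard : ℝ) with hk
  set s := Real.sqrt (Real.log (2 * k)) with hs
  obtain ⟨hn1, hn2, hs0⟩ := num_large hkk hs
  have hexp : 0 < Real.exp (9 * s) := Real.exp_pos _
  have hfin : (finrank ℚ K : ℝ) ≤ (32 + 1 / c0) * (k * Real.exp (9 * s)) * lam β := by
    rcases le_or_gt ⌈s⌉₊ B.card with hr | hr
    · -- many independent units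
      obtain ⟨B', hB', hB'card⟩ := Finset.exists_subset_card_eq hr
      set B2 : Finset K := B'.image Subtype.val with hB2
      have hB2card : B2.card = ⌈s⌉₊ := by
        rw [hB2, Finset.card_image_of_injective _ Subtype.val_injective, hB'card]
      have hB2mem : ∀ x ∈ B2, ∃ h : x ∈ orb H β, (⟨x, h⟩ : orb H β) ∈ B' := by
        intro x hx
        obtain ⟨y, hy, rfl⟩ := Finset.mem_image.mp hx
        exact ⟨y.2, hy⟩
      have hind2 : LinearIndependent ℤ (fun x : B2 => lg (x : K)) := by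
        have h1 := hBind.comp (fun x : B2 =>
          (⟨⟨x, (hB2mem x x.2).1⟩, hB' (hB2mem x x.2).2⟩ : B)) (by
            intro x y h
            have h2 := congrArg (fun z : B => ((z : orb H β) : K)) h
            exact Subtype.ext h2)
        exact h1
      have h1 := case_large hc (β := β) B2 (fun x hx => horb x (hB2mem x hx).1) hind2
        ⌈Real.exp (8 * s)⌉₊ (by rw [hB2card]; exact hn1)
      rw [hB2card] at h1
      refine h1.trans ?_
      have h2 : (⌈s⌉₊ : ℝ) * ⌈Real.exp (8 * s)⌉₊ * lam β ≤ 2 * Real.exp (9 * s) * lam β :=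
        mul_le_mul_of_nonneg_right hn2 hτ.le
      have h3 : 16 * k * ((⌈s⌉₊ : ℝ) * ⌈Real.exp (8 * s)⌉₊ * lam β) ≤
          16 * k * (2 * Real.exp (9 * s) * lam β) :=
        mul_le_mul_of_nonneg_left h2 (by positivity)
      refine h3.trans ?_
      have h4 : 0 ≤ 1 / c0 * (k * Real.exp (9 * s)) * lam β := by positivity
      linarith
    · -- small degree
      have hd : (finrank ℚ (IntermediateField.adjoin ℚ {β}) : ℝ) ≤ k * 3 ^ B.card := by
        have h1 := degree_le H β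
        have h2 : H.index * (orb H β).card ≤ (ccSet K).ncard * 3 ^ B.card :=
          Nat.mul_le_mul (index_le hc) hBcard
        have h3 := h1.trans h2
        calc (finrank ℚ (IntermediateField.adjoin ℚ {β}) : ℝ)
            ≤ (((ccSet K).ncard * 3 ^ B.card : ℕ) : ℝ) := by exact_mod_cast h3
          _ = k * 3 ^ B.card := by push_cast; rfl
      have h1 := case_small hc0 hdob hPβ.2.1 hPβ.1 hrβ hd
      have h2 := num_small hkk hs hs0 hr
      have h3 : c0 * finrank ℚ K ≤ k * Real.exp (9 * s) * lam β :=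
        h1.trans (mul_le_mul_of_nonneg_right h2 hτ.le)
      have h4 : (finrank ℚ K : ℝ) ≤ 1 / c0 * (k * Real.exp (9 * s) * lam β) := by
        rw [one_div, ← div_eq_inv_mul, le_div_iff₀ hc0]
        linarith
      have h5 : 0 ≤ 32 * (k * Real.exp (9 * s)) * lam β := by positivity
      linarith
  refine hfin.trans ?_
  have h1 : (32 + 1 / c0) * (k * Real.exp (9 * s)) * lam β ≤
      (32 + 1 / c0) * (k * Real.exp (9 * s)) * (2 * lam α) :=
    mul_le_mul_of_nonneg_left hβα (by positivity)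
  refine h1.trans (le_of_eq ?_)
  field_simp
  ring

end Pool.Agent.Run7.h22
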