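import Mathlib
import Pool.Agent.Run7.h22.Main

/-!
# The abstract form of the argument

`GoodUnits k H Q`: `Q` is a torsion free group of units of the number field `K`, stable under the
group `H` of automorphisms, whose index is at most `k`, and `256 k²` elements of `Q` cannot all have
height less than `1/(16 k)`.
-/

set_option autoImplicit false

open Finset Module

namespace Pool.Agent.Run7.h22

open Pool.Agent.H388SL

/-- the properties of the group of units -/
structure GoodUnits (K : Type) [Field K] [NumberField K] (k : ℕ) (H : Subgroup (K ≃ₐ[ℚ] K))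
    (Q : K → Prop) : Prop where
  index : H.index ≤ k
  one : Q 1
  mul : ∀ x y, Q x → Q y → Q (x * y)
  inv : ∀ x, Q x → Q x⁻¹
  ne_zero : ∀ x, Q x → x ≠ 0
  int : ∀ x, Q x → IsIntegral ℤ x
  aut : ∀ g ∈ H, ∀ x, Q x → Q (g x)
  torsion : ∀ x, Q x → ∀ n : ℕ, 0 < n → x ^ n = 1 → x = 1
  energy : ∀ (ι : Type) [Fintype ι] (u : ι → K), Function.Injective u → (∀ i, Q (u i)) → ∀ τ : ℝ,
    (∀ i, lam (u i) ≤ finrank ℚ K * τ) → 256 * (k : ℝ) ^ 2 ≤ Fintype.card ι → 1 / (16 * (k : ℝ)) ≤ τ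

namespace GoodUnits

variable {K : Type} [Field K] [NumberField K] {k : ℕ} {H : Subgroup (K ≃ₐ[ℚ] K)} {Q : K → Prop}

lemma pow (h : GoodUnits K k H Q) {x : K} (hx : Q x) (n : ℕ) : Q (x ^ n) := by
  induction n with
  | zero => rw [pow_zero]; exact h.one
  | succ n ih => rw [pow_succ]; exact h.mul _ _ ih hx

lemma prod (h : GoodUnits K k H Q) {ι : Type*} (s : Finset ι) (f : ι → K) (hf : ∀ i ∈ s, Q (f i)) :
    Q (∏ i ∈ s, f i) := by
  classical
  induction s using Finset.induction_on with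
  | empty => rw [Finset.prod_empty]; exact h.one
  | insert a s ha ih =>
    rw [Finset.prod_insert ha]
    exact h.mul _ _ (hf a (Finset.mem_insert_self a s))
      (ih fun i hi => hf i (Finset.mem_insert_of_mem hi))

lemma prod_norm (h : GoodUnits K k H Q) {x : K} (hx : Q x) : ∏ σ : K →ₐ[ℚ] ℂ, ‖σ x‖ = 1 := by
  have hx0 := h.ne_zero x hx
  have h1 := one_le_prod_norm (h.int x hx) hx0
  have h2 := one_le_prod_norm (h.int _ (h.inv x hx)) (inv_ne_zero hx0)
  have h3 : (∏ σ : K →ₐ[ℚ] ℂ, ‖σ x‖) * ∏ σ : K →ₐ[ℚ] ℂ, ‖σ x⁻¹‖ = 1 := by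
    rw [← Finset.prod_mul_distrib]
    apply Finset.prod_eq_one
    intro σ _
    rw [← norm_mul, ← map_mul, mul_inv_cancel₀ hx0, map_one, norm_one]
  nlinarith

lemma lg_prod' (h : GoodUnits K k H Q) {ι : Type*} (s : Finset ι) (f : ι → K)
    (hf : ∀ i ∈ s, Q (f i)) : lg (∏ i ∈ s, f i) = ∑ i ∈ s, lg (f i) := by
  classical
  induction s using Finset.induction_on with
  | empty => rw [Finset.prod_empty, Finset.sum_empty]; exact lg_one
  | insert a s ha ih =>
    have h1 := h.prod s f (fun i hi => hf i (Finset.mem_insert_of_mem hi))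
    rw [Finset.prod_insert ha, Finset.sum_insert ha,
      lg_mul (h.ne_zero _ (hf a (Finset.mem_insert_self a s))) (h.ne_zero _ h1),
      ih fun i hi => hf i (Finset.mem_insert_of_mem hi)]

/-- the image of the group in the logarithmic space -/
def lat (h : GoodUnits K k H Q) : AddSubgroup ((K →ₐ[ℚ] ℂ) → ℝ) where
  carrier := {v | ∃ x : K, Q x ∧ lg x = v}
  zero_mem' := ⟨1, h.one, lg_one⟩
  add_mem' := by
    rintro _ _ ⟨x, hx, rfl⟩ ⟨y, hy, rfl⟩
    exact ⟨x * y, h.mul _ _ hx hy, lg_mul (h.ne_zero _ hx) (h.ne_zero _ hy)⟩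
  neg_mem' := by
    rintro _ ⟨x, hx, rfl⟩
    exact ⟨x⁻¹, h.inv _ hx, lg_inv x⟩

lemma lg_eq_zero' (h : GoodUnits K k H Q) {x : K} (hx : Q x) (h0 : lg x = 0) : x = 1 := by
  have h1 : ∀ φ : K →+* ℂ, ‖φ x‖ = 1 := by
    intro φ
    have h2 : Real.log ‖RingHom.equivRatAlgHom K ℂ φ x‖ = 0 := congrFun h0 (RingHom.equivRatAlgHom K ℂ φ)
    have h3 : Real.log ‖φ x‖ = 0 := h2
    have h4 : 0 < ‖φ x‖ := norm_pos_iff.mpr ((map_ne_zero φ).mpr (h.ne_zero x hx))
    rcases Real.log_eq_zero.mp h3 with h5 | h5 | h5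
    · exact absurd h5 h4.ne'
    · exact h5
    · linarith
  obtain ⟨n, hn, hn1⟩ := NumberField.Embeddings.pow_eq_one_of_norm_eq_one K ℂ (h.int x hx) h1
  exact h.torsion x hx n hn hn1

lemma lg_inj' (h : GoodUnits K k H Q) {x y : K} (hx : Q x) (hy : Q y) (he : lg x = lg y) : x = y := by
  have hx0 := h.ne_zero x hx
  have hy0 := h.ne_zero y hy
  have h1 : lg (x * y⁻¹) = 0 := by
    rw [lg_mul hx0 (inv_ne_zero hy0), lg_inv, he, add_neg_cancel]
  have h2 := h.lg_eq_zero' (h.mul _ _ hx (h.inv _ hy)) h1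
  exact (mul_inv_eq_one₀ hy0).mp h2

lemma len_lg' (h : GoodUnits K k H Q) {x : K} (hx : Q x) : len (lg x) = 2 * lam x :=
  sum_abs_log (h.ne_zero x hx) (h.prod_norm hx)

lemma exists_min' (h : GoodUnits K k H Q) {x : K} (hx : Q x) (h1 : x ≠ 1) :
    ∃ β : K, Q β ∧ β ≠ 1 ∧ (∀ y : K, Q y → y ≠ 1 → lam β ≤ lam y) := by
  set T : Set K := {y | Q y ∧ y ≠ 1 ∧ lam y ≤ lam x} with hT
  have hfin : T.Finite := by
    apply (NumberField.Embeddings.finite_of_norm_le K ℂ (Real.exp (lam x))).subset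
    intro y hy
    refine ⟨h.int y hy.1, fun φ => ?_⟩
    set ψ : K →ₐ[ℚ] ℂ := RingHom.equivRatAlgHom K ℂ φ with hψ
    have h2 : φ y = ψ y := rfl
    rw [h2]
    have h3 : Real.log (max 1 ‖ψ y‖) ≤ lam y :=
      Finset.single_le_sum (f := fun σ : K →ₐ[ℚ] ℂ => Real.log (max 1 ‖σ y‖))
        (fun _ _ => Real.log_nonneg (le_max_left _ _)) (Finset.mem_univ ψ)
    have h4 : (0:ℝ) < max 1 ‖ψ y‖ := lt_of_lt_of_le one_pos (le_max_left _ _)
    calc ‖ψ y‖ ≤ max 1 ‖ψ y‖ := le_max_right _ _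
      _ = Real.exp (Real.log (max 1 ‖ψ y‖)) := (Real.exp_log h4).symm
      _ ≤ Real.exp (lam x) := Real.exp_le_exp.mpr (h3.trans hy.2.2)
  obtain ⟨β, hβ, hmin⟩ := Set.exists_min_image T lam hfin ⟨x, hx, h1, le_rfl⟩
  refine ⟨β, hβ.1, hβ.2.1, fun y hy hy1 => ?_⟩
  by_cases h2 : lam y ≤ lam x
  · exact hmin y ⟨hy, hy1, h2⟩
  · push Not at h2
    exact hβ.2.2.trans h2.le

lemma one_le_k (h : GoodUnits K k H Q) : 1 ≤ k := by
  have h1 : 0 < H.index := Nat.pos_of_ne_zero Subgroup.FiniteIndex.index_ne_zero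
  exact h1.trans_le h.index

/-- many independent units of minimal height -/
lemma case_large (h : GoodUnits K k H Q) {β : K} (B : Finset K) (hB : ∀ x ∈ B, Q x ∧ lam x = lam β)
    (hind : LinearIndependent ℤ (fun x : B => lg (x : K))) (m : ℕ)
    (hm : 256 * (k : ℝ) ^ 2 ≤ ((m : ℝ) + 1) ^ B.card) :
    (finrank ℚ K : ℝ) ≤ 16 * k * (B.card * m * lam β) := by
  classical
  have hk1 : (1:ℝ) ≤ k := by exact_mod_cast h.one_le_k
  have hN0 : (0:ℝ) < finrank ℚ K := by exact_mod_cast (finrank_pos : 0 < finrank ℚ K)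
  let u : (B → Fin (m + 1)) → K := fun e => ∏ b : B, (b : K) ^ (e b : ℕ)
  have hPu : ∀ e, Q (u e) := fun e =>
    h.prod Finset.univ (fun b : B => (b : K) ^ (e b : ℕ)) (fun b _ => h.pow (hB b.1 b.2).1 _)
  have hlg : ∀ e, lg (u e) = ∑ b : B, ((e b : ℕ) : ℤ) • lg (b : K) := by
    intro e
    rw [h.lg_prod' Finset.univ (fun b : B => (b : K) ^ (e b : ℕ))
      (fun b _ => h.pow (hB b.1 b.2).1 (e b : ℕ))]
    refine Finset.sum_congr rfl fun b _ => ?_
    rw [lg_pow, natCast_zsmul]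
  have hinj : Function.Injective u := by
    intro e e' he
    have h1 : ∑ b : B, (((e b : ℕ) : ℤ) - ((e' b : ℕ) : ℤ)) • lg (b : K) = 0 := by
      simp_rw [sub_smul]
      rw [Finset.sum_sub_distrib, ← hlg, ← hlg, he, sub_self]
    have h2 := (Fintype.linearIndependent_iff.mp hind) _ h1
    funext b
    apply Fin.ext
    have := h2 b
    omega
  have hcard : Fintype.card (B → Fin (m + 1)) = (m + 1) ^ B.card := by
    rw [Fintype.card_fun, Fintype.card_fin, Fintype.card_coe]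
  have hlam : ∀ e, lam (u e) ≤ finrank ℚ K * ((B.card * m * lam β) / finrank ℚ K) := by
    intro e
    rw [mul_div_cancel₀ _ hN0.ne']
    refine (lam_prod_le _ _ _).trans ?_
    calc ∑ b : B, ((e b : ℕ) : ℝ) * lam (b : K) ≤ ∑ _b : B, (m : ℝ) * lam β := by
          apply Finset.sum_le_sum
          intro b _
          rw [(hB b b.2).2]
          apply mul_le_mul_of_nonneg_right _ (lam_nonneg β)
          exact_mod_cast Nat.lt_succ_iff.mp (e b).2
      _ = B.card * m * lam β := by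
          rw [Finset.sum_const, Finset.card_univ, Fintype.card_coe, nsmul_eq_mul]
          ring
  have h1 := h.energy (B → Fin (m + 1)) u hinj hPu _ hlam (by
      rw [hcard]
      push_cast
      exact hm)
  have hk0 : (0:ℝ) < k := by linarith
  rw [div_le_div_iff₀ (by positivity) hN0, one_mul] at h1
  linarith

end GoodUnits

/-- **The abstract theorem.** -/
theorem abs_main : ∃ C : ℝ, 0 < C ∧ ∀ (K : Type) [Field K] [NumberField K] [IsGalois ℚ K] (k : ℕ)
    (H : Subgroup (K ≃ₐ[ℚ] K)) (Q : K → Prop), GoodUnits K k H Q → ∀ x : K, Q x → x ≠ 1 →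
    (finrank ℚ K : ℝ) ≤ C * (k * Real.exp (9 * Real.sqrt (Real.log (2 * k)))) * lam x := by
  classical
  obtain ⟨c0, hc0, hdob⟩ := dob
  refine ⟨32 + 1 / c0, by positivity, ?_⟩
  intro K _ _ _ kn H Q hQ x0 hx0 hx01
  have hkk : (1:ℝ) ≤ (kn : ℝ) := by exact_mod_cast hQ.one_le_k
  obtain ⟨β, hPβ, hβ1, hmin⟩ := hQ.exists_min' hx0 hx01
  have hβ0 := hQ.ne_zero β hPβ
  have hrβ : ∀ n : ℕ, 0 < n → β ^ n ≠ 1 := fun n hn h1 => hβ1 (hQ.torsion β hPβ n hn h1)
  have hτ : 0 < lam β := lam_pos (hQ.int β hPβ) hβ0 hrβ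
  have hβα : lam β ≤ lam x0 := hmin x0 hx0 hx01
  have horb : ∀ x ∈ orb H β, Q x ∧ lam x = lam β := by
    intro x hx
    obtain ⟨g, hg, rfl⟩ := mem_orb.mp hx
    exact ⟨hQ.aut g hg β hPβ, lam_aut g β⟩
  obtain ⟨B, hBind, hBcard⟩ := exists_indep (V := (K →ₐ[ℚ] ℂ) → ℝ) len len_add len_neg len_three
    (fun x : orb H β => lg (x : K))
    (fun x y h => Subtype.ext (hQ.lg_inj' (horb x x.2).1 (horb y y.2).1 h)) (τ := 2 * lam β)
    (by linarith) hQ.lat (fun x => ⟨x, (horb x x.2).1, rfl⟩)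
    (fun x => by rw [hQ.len_lg' (horb x x.2).1, (horb x x.2).2])
    (by
      rintro _ ⟨x, hx, rfl⟩ hx0'
      rw [hQ.len_lg' hx]
      have : x ≠ 1 := by
        rintro rfl
        exact hx0' lg_one
      linarith [hmin x hx this])
  rw [Fintype.card_coe] at hBcard
  set k : ℝ := (kn : ℝ) with hk
  set s := Real.sqrt (Real.log (2 * k)) with hs
  obtain ⟨hn1, hn2, hs0⟩ := num_large hkk hs
  have hexp : 0 < Real.exp (9 * s) := Real.exp_pos _
  have hfin : (finrank ℚ K : ℝ) ≤ (32 + 1 / c0) * (k * Real.exp (9 * s)) * lam β := by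
    rcases le_or_gt ⌈s⌉₊ B.card with hr | hr
    · obtain ⟨B', hB', hB'card⟩ := Finset.exists_subset_card_eq hr
      set B2 : Finset K := B'.image Subtype.val with hB2
      have hB2card : B2.card = ⌈s⌉₊ := by
        rw [hB2, Finset.card_image_of_injective _ Subtype.val_injective, hB'card]
      have hB2mem : ∀ x ∈ B2, ∃ h : x ∈ orb H β, (⟨x, h⟩ : orb H β) ∈ B' := by
        intro x hx
        obtain ⟨y, hy, rfl⟩ := Finset.mem_image.mp hx
        exact ⟨y.2, hy⟩
      have hind2 : LinearIndependent ℤ (fun x : B2 => lg (x : K)) := by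
        have h1 := hBind.comp (fun x : B2 =>
          (⟨⟨x, (hB2mem x x.2).1⟩, hB' (hB2mem x x.2).2⟩ : B)) (by
            intro x y h
            have h2 := congrArg (fun z : B => ((z : orb H β) : K)) h
            exact Subtype.ext h2)
        exact h1
      have h1 := hQ.case_large (β := β) B2 (fun x hx => horb x (hB2mem x hx).1) hind2
        ⌈Real.exp (8 * s)⌉₊ (by rw [hB2card]; exact hn1)
      rw [hB2card] at h1
      refine h1.trans ?_
      have h2 : (⌈s⌉₊ : ℝ) * ⌈Real.exp (8 * s)⌉₊ * lam β ≤ 2 * Real.exp (9 * s) * lam β :=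
        mul_le_mul_of_nonneg_right hn2 hτ.le
      have h3 : 16 * k * ((⌈s⌉₊ : ℝ) * ⌈Real.exp (8 * s)⌉₊ * lam β) ≤
          16 * k * (2 * Real.exp (9 * s) * lam β) :=
        mul_le_mul_of_nonneg_left h2 (by positivity)
      refine h3.trans ?_
      have h4 : 0 ≤ 1 / c0 * (k * Real.exp (9 * s)) * lam β := by positivity
      linarith
    · have hd : (finrank ℚ (IntermediateField.adjoin ℚ {β}) : ℝ) ≤ k * 3 ^ B.card := by
        have h1 := degree_le H β
        have h2 : H.index * (orb H β).card ≤ kn * 3 ^ B.card :=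
          Nat.mul_le_mul hQ.index hBcard
        have h3 := h1.trans h2
        calc (finrank ℚ (IntermediateField.adjoin ℚ {β}) : ℝ)
            ≤ ((kn * 3 ^ B.card : ℕ) : ℝ) := by exact_mod_cast h3
          _ = k * 3 ^ B.card := by push_cast; rfl
      have h1 := case_small hc0 hdob (hQ.int β hPβ) hβ0 hrβ hd
      have h2 := num_small hkk hs hs0 hr
      have h3 : c0 * finrank ℚ K ≤ k * Real.exp (9 * s) * lam β :=
        h1.trans (mul_le_mul_of_nonneg_right h2 hτ.le)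
      have h4 : (finrank ℚ K : ℝ) ≤ 1 / c0 * (k * Real.exp (9 * s) * lam β) := by
        rw [one_div, ← div_eq_inv_mul, le_div_iff₀ hc0]
        linarith
      have h5 : 0 ≤ 32 * (k * Real.exp (9 * s)) * lam β := by positivity
      linarith
  refine hfin.trans ?_
  exact mul_le_mul_of_nonneg_left hβα (by positivity)

end Pool.Agent.Run7.h22
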