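import Mathlib
import Pool.Agent.Run7.h22.CC

/-!
# Frobenius automorphisms of a Galois number field
-/

set_option autoImplicit false

open Finset Module NumberField

namespace Pool.Agent.Run7.h22

variable {K : Type*} [Field K] [NumberField K]

/-- `σ` is congruent to the `q`-th power map modulo the prime ideal `𝔓` above `p` -/
def IsFrob (p q : ℕ) (σ : K ≃ₐ[ℚ] K) (𝔓 : Ideal (𝓞 K)) : Prop :=
  𝔓.IsPrime ∧ (p : 𝓞 K) ∈ 𝔓 ∧ ∀ x : 𝓞 K, σ • x - x ^ q ∈ 𝔓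

/-- the automorphisms which are congruent to the `q`-th power map modulo some prime above `p` -/
def frobSet (K : Type*) [Field K] [NumberField K] (p q : ℕ) : Set (K ≃ₐ[ℚ] K) :=
  {σ | ∃ 𝔓 : Ideal (𝓞 K), IsFrob p q σ 𝔓}

lemma under_eq {p : ℕ} (hp : p.Prime) {𝔓 : Ideal (𝓞 K)} (h1 : 𝔓.IsPrime) (h2 : (p : 𝓞 K) ∈ 𝔓) :
    𝔓.under ℤ = Ideal.span {(p : ℤ)} := by
  have hpZ : Prime (p : ℤ) := Nat.prime_iff_prime_int.mp hp
  have hmax : (Ideal.span {(p : ℤ)}).IsMaximal :=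
    PrincipalIdealRing.isMaximal_of_irreducible hpZ.irreducible
  symm
  apply hmax.eq_of_le
  · exact (Ideal.IsPrime.under ℤ 𝔓).ne_top
  · rw [Ideal.span_singleton_le_iff_mem, Ideal.mem_comap]
    simpa using h2

lemma exists_frob [IsGalois ℚ K] {p : ℕ} (hp : p.Prime) {𝔓 : Ideal (𝓞 K)} (h1 : 𝔓.IsPrime)
    (h2 : (p : 𝓞 K) ∈ 𝔓) : ∃ σ : K ≃ₐ[ℚ] K, IsFrob p p σ 𝔓 := by
  have h0 : 𝔓 ≠ ⊥ := by
    rintro rfl
    rw [Ideal.mem_bot] at h2
    exact hp.ne_zero (by exact_mod_cast h2)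
  have hfin : Finite (𝓞 K ⧸ 𝔓) := Ring.HasFiniteQuotients.finiteQuotient h0
  obtain ⟨σ, hσ⟩ := IsArithFrobAt.exists_of_isInvariant ℤ (K ≃ₐ[ℚ] K) 𝔓
  refine ⟨σ, h1, h2, fun x => ?_⟩
  have h3 := hσ x
  have h4 : Nat.card (ℤ ⧸ 𝔓.under ℤ) = p := by
    rw [under_eq hp h1 h2]
    have : Nat.card (ℤ ⧸ Ideal.span {(p : ℤ)}) = (p : ℤ).natAbs := by
      rw [← Submodule.cardQuot_apply, ← Ideal.absNorm_apply, Ideal.absNorm_span_singleton]
      simp
    simpa using this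
  rw [h4] at h3
  exact h3

lemma exists_frob_pow [IsGalois ℚ K] {p : ℕ} (hp : p.Prime) (a : ℕ) {𝔓 : Ideal (𝓞 K)}
    (h1 : 𝔓.IsPrime) (h2 : (p : 𝓞 K) ∈ 𝔓) : ∃ σ : K ≃ₐ[ℚ] K, IsFrob p (p ^ a) σ 𝔓 := by
  obtain ⟨σ, _, _, hσ⟩ := exists_frob hp h1 h2
  refine ⟨σ ^ a, h1, h2, ?_⟩
  induction a with
  | zero => intro x; simp
  | succ a ih =>
    intro x
    have h3 := hσ (σ ^ a • x)
    have h4 := ih x
    have h5 : (σ ^ (a + 1)) • x = σ • (σ ^ a • x) := by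
      rw [smul_smul, ← pow_succ']
    obtain ⟨w, hw⟩ : (σ ^ a • x) - x ^ p ^ a ∣ (σ ^ a • x) ^ p - (x ^ p ^ a) ^ p :=
      sub_dvd_pow_sub_pow _ _ p
    have h6 : (σ ^ a • x) ^ p - (x ^ p ^ a) ^ p ∈ 𝔓 := by
      rw [hw]
      exact Ideal.mul_mem_right _ _ h4
    have h7 : (σ ^ (a + 1)) • x - x ^ p ^ (a + 1) =
        (σ • (σ ^ a • x) - (σ ^ a • x) ^ p) + ((σ ^ a • x) ^ p - (x ^ p ^ a) ^ p) := by
      rw [h5, pow_succ p a, pow_mul]
      ring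
    rw [h7]
    exact Ideal.add_mem _ h3 h6

/-- conjugation -/
lemma IsFrob.comap {p q : ℕ} {σ : K ≃ₐ[ℚ] K} {𝔓 : Ideal (𝓞 K)} (h : IsFrob p q σ 𝔓)
    (g : K ≃ₐ[ℚ] K) :
    IsFrob p q (g⁻¹ * σ * g) (𝔓.comap (MulSemiringAction.toRingHom (K ≃ₐ[ℚ] K) (𝓞 K) g)) := by
  obtain ⟨h1, h2, h3⟩ := h
  refine ⟨Ideal.comap_isPrime _ _, ?_, fun x => ?_⟩
  · rw [Ideal.mem_comap, map_natCast]; exact h2
  · rw [Ideal.mem_comap, map_sub, map_pow]
    have h4 := h3 (g • x)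
    have h5 : g • ((g⁻¹ * σ * g) • x) = σ • (g • x) := by
      rw [smul_smul, smul_smul]
      congr 1
      group
    show g • ((g⁻¹ * σ * g) • x) - (g • x) ^ q ∈ 𝔓
    rw [h5]
    exact h4

lemma index_le_of_conj {σ : K ≃ₐ[ℚ] K} {S : Set (K ≃ₐ[ℚ] K)} (hS : ∀ g : K ≃ₐ[ℚ] K, g * σ * g⁻¹ ∈ S) :
    (Subgroup.centralizer {σ}).index ≤ S.ncard := by
  set H := Subgroup.centralizer {σ} with hH
  have hfin : Finite S := inferInstance
  have hinj : Function.Injective (fun q : (K ≃ₐ[ℚ] K) ⧸ H =>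
      (⟨q.out * σ * q.out⁻¹, hS q.out⟩ : S)) := by
    intro q q' hqq
    have h1 : q.out * σ * q.out⁻¹ = q'.out * σ * q'.out⁻¹ := congrArg Subtype.val hqq
    have h2 : q'.out⁻¹ * q.out * σ = σ * (q'.out⁻¹ * q.out) := by
      have h3 : q'.out⁻¹ * q.out * σ = q'.out⁻¹ * (q.out * σ * q.out⁻¹) * q.out := by group
      rw [h3, h1]
      group
    rw [← QuotientGroup.out_eq' q, ← QuotientGroup.out_eq' q']
    symm
    rw [QuotientGroup.eq]
    exact Subgroup.mem_centralizer_singleton_iff.mpr h2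
  have := Nat.card_le_card_of_injective _ hinj
  rwa [Nat.card_coe_set_eq] at this

lemma frob_index_le {p q : ℕ} {σ : K ≃ₐ[ℚ] K} (hσ : σ ∈ frobSet K p q) :
    (Subgroup.centralizer {σ}).index ≤ (frobSet K p q).ncard := by
  obtain ⟨𝔓, h𝔓⟩ := hσ
  apply index_le_of_conj
  intro g
  have h := h𝔓.comap g⁻¹
  rw [inv_inv] at h
  exact ⟨_, h⟩

/-- the prime ideals above `p` at which `σ` is a Frobenius automorphism contain together a
proportion of at least `1 / k` of the norm of `p` -/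
lemma exists_sigma [IsGalois ℚ K] {p : ℕ} (hp : p.Prime) (a : ℕ)
    (hunr : ∀ 𝔓 : Ideal (𝓞 K), 𝔓.IsPrime → (p : 𝓞 K) ∈ 𝔓 → (p : 𝓞 K) ∉ 𝔓 ^ 2) :
    ∃ (σ : K ≃ₐ[ℚ] K) (Φ : Finset (Ideal (𝓞 K))), Φ.Nonempty ∧ (∀ 𝔓 ∈ Φ, IsFrob p (p ^ a) σ 𝔓) ∧
      (finrank ℚ K : ℝ) * Real.log p ≤
        (frobSet K p (p ^ a)).ncard * ∑ 𝔓 ∈ Φ, Real.log (Ideal.absNorm 𝔓) := by
  classical
  set I : Ideal (𝓞 K) := Ideal.span {(p : 𝓞 K)} with hI
  have hI0 : I ≠ ⊥ := by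
    rw [hI, Ne, Ideal.span_singleton_eq_bot]
    exact_mod_cast hp.ne_zero
  set F := (UniqueFactorizationMonoid.normalizedFactors I) with hF
  have hFprime : ∀ 𝔓 ∈ F, 𝔓.IsPrime ∧ (p : 𝓞 K) ∈ 𝔓 ∧ 𝔓 ≠ ⊥ := by
    intro 𝔓 h
    have h1 := UniqueFactorizationMonoid.prime_of_normalized_factor 𝔓 h
    have h2 := UniqueFactorizationMonoid.dvd_of_mem_normalizedFactors h
    refine ⟨Ideal.isPrime_of_prime h1, ?_, h1.ne_zero⟩
    have h3 : I ≤ 𝔓 := Ideal.dvd_iff_le.mp h2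
    exact h3 (Ideal.mem_span_singleton_self _)
  have hprod : F.prod = I := by
    rw [hF]
    exact Ideal.prod_normalizedFactors_eq_self hI0
  have hnodup : F.Nodup := by
    rw [Multiset.nodup_iff_count_le_one]
    intro 𝔓
    by_contra hc
    push Not at hc
    have hmem : 𝔓 ∈ F := Multiset.count_pos.mp (by omega)
    have h1 := hFprime 𝔓 hmem
    have h2 : 𝔓 ^ 2 ∣ I := by
      rw [← hprod]
      have h3 : Multiset.replicate 2 𝔓 ≤ F := Multiset.le_count_iff_replicate_le.mp hc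
      have h4 := Multiset.prod_dvd_prod_of_le h3
      rwa [Multiset.prod_replicate] at h4
    have h3 : I ≤ 𝔓 ^ 2 := Ideal.dvd_iff_le.mp h2
    exact hunr 𝔓 h1.1 h1.2.1 (h3 (Ideal.mem_span_singleton_self _))
  have hnorm : ((F.map (fun 𝔓 => Real.log (Ideal.absNorm 𝔓))).sum) = finrank ℚ K * Real.log p := by
    have h1 : ((Ideal.absNorm I : ℕ) : ℝ) = (p : ℝ) ^ finrank ℚ K := by
      rw [hI, Ideal.absNorm_span_natCast, RingOfIntegers.rank]
      push_cast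
      rfl
    have h2 : Real.log (Ideal.absNorm I) = finrank ℚ K * Real.log p := by
      rw [h1, Real.log_pow]
    rw [← h2, ← hprod]
    have h3 : ∀ s : Multiset (Ideal (𝓞 K)), (∀ 𝔓 ∈ s, 𝔓 ≠ ⊥) →
        (s.map (fun 𝔓 => Real.log (Ideal.absNorm 𝔓))).sum = Real.log (Ideal.absNorm s.prod) := by
      intro s
      induction s using Multiset.induction_on with
      | empty => intro _; simp
      | cons a s ih =>
        intro h
        rw [Multiset.map_cons, Multiset.sum_cons, Multiset.prod_cons, map_mul,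
          ih fun 𝔓 h𝔓 => h 𝔓 (Multiset.mem_cons_of_mem h𝔓)]
        push_cast
        rw [Real.log_mul]
        · have := h a (Multiset.mem_cons_self a s)
          exact_mod_cast (Ideal.absNorm_eq_zero_iff.not.mpr this)
        · have : s.prod ≠ 0 := by
            rw [Ne, Multiset.prod_eq_zero_iff]
            intro h0
            exact h 0 (Multiset.mem_cons_of_mem h0) rfl
          exact_mod_cast (Ideal.absNorm_eq_zero_iff.not.mpr this)
    exact h3 F fun 𝔓 h => (hFprime 𝔓 h).2.2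
  -- the distribution over the Frobenius automorphisms
  set T : Finset (Ideal (𝓞 K)) := ⟨F, hnodup⟩ with hT
  have hex : ∀ 𝔓 : Ideal (𝓞 K), ∃ σ : K ≃ₐ[ℚ] K, 𝔓 ∈ T → IsFrob p (p ^ a) σ 𝔓 := by
    intro 𝔓
    by_cases h : 𝔓 ∈ T
    · have h1 := hFprime 𝔓 h
      obtain ⟨σ, hσ⟩ := exists_frob_pow hp a h1.1 h1.2.1
      exact ⟨σ, fun _ => hσ⟩
    · exact ⟨1, fun h' => absurd h' h⟩
  choose s hs using hex
  set S : Finset (K ≃ₐ[ℚ] K) := (Set.toFinite (frobSet K p (p ^ a))).toFinset with hS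
  have hmaps : ∀ 𝔓 ∈ T, s 𝔓 ∈ S := by
    intro 𝔓 h
    rw [hS, Set.Finite.mem_toFinset]
    exact ⟨𝔓, hs 𝔓 h⟩
  have hsum : ∑ 𝔓 ∈ T, Real.log (Ideal.absNorm 𝔓) = finrank ℚ K * Real.log p := hnorm
  have hsum2 : ∑ σ ∈ S, ∑ 𝔓 ∈ T.filter (fun 𝔓 => s 𝔓 = σ), Real.log (Ideal.absNorm 𝔓) =
      finrank ℚ K * Real.log p := by
    rw [Finset.sum_fiberwise_of_maps_to hmaps, hsum]
  have hSne : S.Nonempty := by
    by_contra h
    rw [Finset.not_nonempty_iff_eq_empty] at h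
    rw [h, Finset.sum_empty] at hsum2
    have h1 : 0 < (finrank ℚ K : ℝ) * Real.log p := by
      apply mul_pos
      · exact_mod_cast (finrank_pos : 0 < finrank ℚ K)
      · exact Real.log_pos (by exact_mod_cast hp.one_lt)
    linarith
  obtain ⟨σ, hσS, hσ⟩ := Finset.exists_le_of_sum_le hSne
    (f := fun _ => (finrank ℚ K : ℝ) * Real.log p / S.card)
    (g := fun σ => ∑ 𝔓 ∈ T.filter (fun 𝔓 => s 𝔓 = σ), Real.log (Ideal.absNorm 𝔓)) (by
      rw [hsum2, Finset.sum_const, nsmul_eq_mul]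
      apply le_of_eq
      have : (S.card : ℝ) ≠ 0 := by exact_mod_cast hSne.card_pos.ne'
      field_simp)
  have hScard : S.card = (frobSet K p (p ^ a)).ncard := (Set.ncard_eq_toFinset_card _ _).symm
  have hSpos : (0:ℝ) < S.card := by exact_mod_cast hSne.card_pos
  have hfinal : (finrank ℚ K : ℝ) * Real.log p ≤
      S.card * ∑ 𝔓 ∈ T.filter (fun 𝔓 => s 𝔓 = σ), Real.log (Ideal.absNorm 𝔓) := by
    have h1 : (finrank ℚ K : ℝ) * Real.log p / S.card ≤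
      ∑ 𝔓 ∈ T.filter (fun 𝔓 => s 𝔓 = σ), Real.log (Ideal.absNorm 𝔓) := hσ
    rw [div_le_iff₀ hSpos] at h1
    linarith
  refine ⟨σ, T.filter (fun 𝔓 => s 𝔓 = σ), ?_, ?_, ?_⟩
  · by_contra h
    rw [Finset.not_nonempty_iff_eq_empty] at h
    rw [h, Finset.sum_empty, mul_zero] at hfinal
    have h1 : 0 < (finrank ℚ K : ℝ) * Real.log p := by
      apply mul_pos
      · exact_mod_cast (finrank_pos : 0 < finrank ℚ K)
      · exact Real.log_pos (by exact_mod_cast hp.one_lt)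
    linarith
  · intro 𝔓 h
    rw [Finset.mem_filter] at h
    have := hs 𝔓 h.1
    rwa [h.2] at this
  · rw [← hScard]
    exact hfinal

end Pool.Agent.Run7.h22
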