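import Mathlib
import Pool.Agent.Run7.h22.Abs
import Pool.Agent.Run7.h22.Frob

/-!
# Units which are congruent to one modulo many primes above `p`
-/

set_option autoImplicit false

open Finset Module NumberField

namespace Pool.Agent.Run7.h22

open Pool.Agent.H388SL

variable {K : Type} [Field K] [NumberField K]

/-- the energy bound for units whose differences have large norms -/
theorem energy_bound_norm {ι : Type} [Fintype ι] (u : ι → K)
    (hu : Function.Injective u) {k : ℝ} (hk1 : 1 ≤ k)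
    (hsep : ∀ i j, i ≠ j → (finrank ℚ K : ℝ) * Real.log 2 ≤
      k * ∑ φ : K →ₐ[ℚ] ℂ, Real.log ‖φ (u i) - φ (u j)‖)
    {τ : ℝ} (hτ : ∀ i, lam (u i) ≤ finrank ℚ K * τ)
    (hX : 256 * k ^ 2 ≤ Fintype.card ι) : 1 / (16 * k) ≤ τ := by
  classical
  by_contra hlt
  push Not at hlt
  set N : ℝ := (finrank ℚ K : ℝ) with hN
  set X : ℝ := (Fintype.card ι : ℝ) with hXdef
  have hX256 : 256 ≤ X := by nlinarith
  have hX0 : 0 < X := by linarith
  have hk0 : 0 < k := by linarith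
  have hN0 : 0 < N := by rw [hN]; exact_mod_cast (finrank_pos : 0 < finrank ℚ K)
  have hcard : Fintype.card (K →ₐ[ℚ] ℂ) = finrank ℚ K := AlgHom.card ℚ K ℂ
  have hE : ∀ φ : K →ₐ[ℚ] ℂ, ∑ i : ι, ∑ j : ι, (if i = j then 0 else Real.log ‖φ (u i) - φ (u j)‖)
      ≤ 2 * X * (∑ i : ι, Real.log (max 1 ‖φ (u i)‖)) + (X + X * Real.log X) := by
    intro φ
    have ht0 : 0 ≤ 1 - 1 / X := by
      rw [sub_nonneg, div_le_one hX0]; linarith
    have ht1 : 1 - 1 / X < 1 := by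
      have : 0 < 1 / X := by positivity
      linarith
    have h := energy (Finset.univ : Finset ι) (fun _ => 1) (fun _ _ => zero_le_one)
      (fun i => φ (u i)) (fun i _ j _ hij h => hij (hu (φ.injective h))) ht0 ht1
    simp only [one_mul, Finset.sum_const, Finset.card_univ, nsmul_eq_mul, mul_one, one_pow,
      Complex.ofReal_one] at h
    rw [← hXdef] at h
    have h1 : X ^ 2 * Real.log (2 / (1 + (1 - 1 / X))) ≤ X := by
      have h2 : 2 / (1 + (1 - 1 / X)) = 1 + 1 / (2 * X - 1) := by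
        have h6 : 2 * X - 1 ≠ 0 := by linarith
        have h7 : 1 + (1 - 1 / X) = (2 * X - 1) / X := by
          field_simp
          ring
        rw [h7, div_div_eq_mul_div, div_eq_iff h6, add_mul, one_div_mul_cancel h6]
        ring
      have h3 : Real.log (1 + 1 / (2 * X - 1)) ≤ 1 / (2 * X - 1) := by
        have h5 : 0 < 1 / (2 * X - 1) := by apply one_div_pos.mpr; linarith
        have := Real.log_le_sub_one_of_pos (show 0 < 1 + 1 / (2 * X - 1) by linarith)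
        linarith
      have h4 : 1 / (2 * X - 1) ≤ 1 / X := one_div_le_one_div_of_le hX0 (by linarith)
      rw [h2]
      calc X ^ 2 * Real.log (1 + 1 / (2 * X - 1)) ≤ X ^ 2 * (1 / X) := by
            apply mul_le_mul_of_nonneg_left (h3.trans h4) (by positivity)
        _ = X := by field_simp
    have h5 : Real.log (1 / (1 - (1 - 1 / X))) = Real.log X := by
      congr 1
      field_simp
      ring
    rw [h5] at h
    have h6 : 0 ≤ (1 - 1 / X) * ‖∑ i : ι, H388SL.refl (φ (u i))‖ ^ 2 := by positivity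
    linarith
  have hsum := Finset.sum_le_sum fun φ (_ : φ ∈ (Finset.univ : Finset (K →ₐ[ℚ] ℂ))) => hE φ
  rw [Finset.sum_add_distrib, ← Finset.mul_sum,
    Finset.sum_const, Finset.card_univ, hcard, nsmul_eq_mul, ← hN] at hsum
  have ha : X * (X - 1) * (N * Real.log 2) ≤ k * ∑ φ : K →ₐ[ℚ] ℂ, ∑ i : ι, ∑ j : ι,
      (if i = j then 0 else Real.log ‖φ (u i) - φ (u j)‖) := by
    have h1 : ∑ φ : K →ₐ[ℚ] ℂ, ∑ i : ι, ∑ j : ι,
      (if i = j then 0 else Real.log ‖φ (u i) - φ (u j)‖) = ∑ i : ι, ∑ j : ι,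
      (if i = j then 0 else ∑ φ : K →ₐ[ℚ] ℂ, Real.log ‖φ (u i) - φ (u j)‖) := by
      rw [Finset.sum_comm]
      refine Finset.sum_congr rfl fun i _ => ?_
      rw [Finset.sum_comm]
      refine Finset.sum_congr rfl fun j _ => ?_
      split_ifs
      · simp
      · rfl
    rw [h1, Finset.mul_sum]
    have h2 : ∀ i : ι, (X - 1) * (N * Real.log 2) ≤ k * ∑ j : ι,
      (if i = j then 0 else ∑ φ : K →ₐ[ℚ] ℂ, Real.log ‖φ (u i) - φ (u j)‖) := by
      intro i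
      rw [Finset.mul_sum]
      have h3 : ∑ j : ι, (if i = j then 0 else N * Real.log 2) = (X - 1) * (N * Real.log 2) := by
        have h4 : ∀ j : ι, (if i = j then 0 else N * Real.log 2) =
            N * Real.log 2 - (if i = j then N * Real.log 2 else 0) := by
          intro j
          split_ifs <;> ring
        simp_rw [h4]
        rw [Finset.sum_sub_distrib, Finset.sum_const, Finset.card_univ, nsmul_eq_mul,
          Finset.sum_ite_eq, if_pos (Finset.mem_univ i)]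
        ring
      rw [← h3]
      apply Finset.sum_le_sum
      intro j _
      split_ifs with hij
      · simp
      · exact hsep i j hij
    calc X * (X - 1) * (N * Real.log 2) = ∑ _i : ι, (X - 1) * (N * Real.log 2) := by
          rw [Finset.sum_const, Finset.card_univ, nsmul_eq_mul]; ring
      _ ≤ _ := Finset.sum_le_sum fun i _ => h2 i
  have hb : ∑ φ : K →ₐ[ℚ] ℂ, ∑ i : ι, Real.log (max 1 ‖φ (u i)‖) ≤ X * (N * τ) := by
    rw [Finset.sum_comm]
    calc ∑ i : ι, ∑ φ : K →ₐ[ℚ] ℂ, Real.log (max 1 ‖φ (u i)‖) ≤ ∑ _i : ι, N * τ := by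
          apply Finset.sum_le_sum
          intro i _
          exact hτ i
      _ = X * (N * τ) := by
          rw [Finset.sum_const, Finset.card_univ, nsmul_eq_mul]
  have he : X * (X - 1) * (N * Real.log 2) ≤
      k * (2 * X * (X * (N * τ)) + N * (X + X * Real.log X)) := by
    refine ha.trans ?_
    apply mul_le_mul_of_nonneg_left _ hk0.le
    have h2 := mul_le_mul_of_nonneg_left hb (show 0 ≤ 2 * X by linarith)
    linarith
  have hf0 : (X * N) * ((X - 1) * Real.log 2) ≤ (X * N) * (2 * X * (k * τ) + k * (1 + Real.log X)) := by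
    calc (X * N) * ((X - 1) * Real.log 2) = X * (X - 1) * (N * Real.log 2) := by ring
      _ ≤ _ := he
      _ = _ := by ring
  have hf1 := le_of_mul_le_mul_left hf0 (by positivity)
  have hlog : Real.log X ≤ Real.sqrt X := log_le_sqrt hX0
  have hs : Real.sqrt X ^ 2 = X := Real.sq_sqrt hX0.le
  have hs16 : 16 ≤ Real.sqrt X := by
    rw [show (16:ℝ) = Real.sqrt 256 by
      rw [show (256:ℝ) = 16 ^ 2 by norm_num, Real.sqrt_sq (by norm_num)]]
    exact Real.sqrt_le_sqrt hX256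
  have hks : 16 * k ≤ Real.sqrt X := by
    apply Real.le_sqrt_of_sq_le
    nlinarith
  have hf : k * (1 + Real.log X) ≤ X / 8 := by
    have h1 : k * (1 + Real.log X) ≤ k * (1 + Real.sqrt X) :=
      mul_le_mul_of_nonneg_left (by linarith) (by linarith)
    nlinarith
  have hkτ : k * τ ≤ 1 / 16 := by
    calc k * τ ≤ k * (1 / (16 * k)) := mul_le_mul_of_nonneg_left hlt.le hk0.le
      _ = 1 / 16 := by field_simp
  have hlog2 := Real.log_two_gt_d9
  nlinarith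

/-- the units which are congruent to one modulo the squares of the primes with Frobenius `σ` -/
def CongOne (p q : ℕ) (σ : K ≃ₐ[ℚ] K) (x : K) : Prop :=
  ∃ s : (𝓞 K)ˣ, algebraMap (𝓞 K) K (s : 𝓞 K) = x ∧ ∀ 𝔓 : Ideal (𝓞 K), IsFrob p q σ 𝔓 → (s : 𝓞 K) - 1 ∈ 𝔓 ^ 2

lemma smul_coe (g : K ≃ₐ[ℚ] K) (s : 𝓞 K) :
    algebraMap (𝓞 K) K (g • s) = g (algebraMap (𝓞 K) K s) := rfl

lemma good {p a : ℕ} (hp : p.Prime) {σ : K ≃ₐ[ℚ] K} {Φ : Finset (Ideal (𝓞 K))} (hΦ : Φ.Nonempty)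
    (hF : ∀ 𝔓 ∈ Φ, IsFrob p (p ^ a) σ 𝔓)
    (hN : (finrank ℚ K : ℝ) * Real.log p ≤
        (frobSet K p (p ^ a)).ncard * ∑ 𝔓 ∈ Φ, Real.log (Ideal.absNorm 𝔓))
    (hunr : ∀ 𝔓 : Ideal (𝓞 K), 𝔓.IsPrime → (p : 𝓞 K) ∈ 𝔓 → (p : 𝓞 K) ∉ 𝔓 ^ 2) :
    GoodUnits K (frobSet K p (p ^ a)).ncard (Subgroup.centralizer {σ}) (CongOne p (p ^ a) σ) where
  index := by
    obtain ⟨𝔓, h𝔓⟩ := hΦ
    exact frob_index_le ⟨𝔓, hF 𝔓 h𝔓⟩
  one := ⟨1, by simp, fun 𝔓 _ => by simp⟩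
  mul := by
    rintro _ _ ⟨s, rfl, hs⟩ ⟨t, rfl, ht⟩
    refine ⟨s * t, by simp, fun 𝔓 h𝔓 => ?_⟩
    have h1 : ((s * t : (𝓞 K)ˣ) : 𝓞 K) - 1 = ((s : 𝓞 K) - 1) * t + ((t : 𝓞 K) - 1) := by
      push_cast
      ring
    rw [h1]
    exact Ideal.add_mem _ (Ideal.mul_mem_right _ _ (hs 𝔓 h𝔓)) (ht 𝔓 h𝔓)
  inv := by
    rintro _ ⟨s, rfl, hs⟩
    refine ⟨s⁻¹, ?_, fun 𝔓 h𝔓 => ?_⟩
    · have h1 : algebraMap (𝓞 K) K (s : 𝓞 K) * algebraMap (𝓞 K) K ((s⁻¹ : (𝓞 K)ˣ) : 𝓞 K) = 1 := by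
        rw [← map_mul, ← Units.val_mul, mul_inv_cancel]
        simp
      exact eq_inv_of_mul_eq_one_right h1
    · have h1 : ((s⁻¹ : (𝓞 K)ˣ) : 𝓞 K) - 1 = (-((s⁻¹ : (𝓞 K)ˣ) : 𝓞 K)) * ((s : 𝓞 K) - 1) := by
        have h2 : ((s⁻¹ : (𝓞 K)ˣ) : 𝓞 K) * (s : 𝓞 K) = 1 := by
          rw [← Units.val_mul, inv_mul_cancel, Units.val_one]
        linear_combination h2
      rw [h1]
      exact Ideal.mul_mem_left _ _ (hs 𝔓 h𝔓)
  ne_zero := by
    rintro _ ⟨s, rfl, _⟩ h0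
    have h1 : (s : 𝓞 K) = 0 := by
      apply RingOfIntegers.coe_injective
      rw [h0, map_zero]
    exact s.ne_zero h1
  int := by
    rintro _ ⟨s, rfl, _⟩
    exact RingOfIntegers.isIntegral_coe _
  aut := by
    rintro g hg _ ⟨s, rfl, hs⟩
    set φ := MulSemiringAction.toRingHom (K ≃ₐ[ℚ] K) (𝓞 K) g with hφ
    refine ⟨Units.map (φ : 𝓞 K →* 𝓞 K) s, ?_, fun 𝔓 h𝔓 => ?_⟩
    · exact smul_coe g s
    · have h1 := h𝔓.comap g
      have h2 : g⁻¹ * σ * g = σ := by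
        have h3 := Subgroup.mem_centralizer_singleton_iff.mp hg
        rw [mul_assoc, ← h3, inv_mul_cancel_left]
      rw [h2] at h1
      have h4 := hs _ h1
      have h5 : ((Units.map (φ : 𝓞 K →* 𝓞 K) s : (𝓞 K)ˣ) : 𝓞 K) - 1 = φ ((s : 𝓞 K) - 1) := by
        rw [map_sub, map_one]
        rfl
      rw [h5, ← Ideal.mem_comap]
      exact Ideal.le_comap_pow φ 2 h4
  torsion := by
    rintro _ ⟨s, rfl, hs⟩ n hn hn1
    by_contra hne
    obtain ⟨𝔓, h𝔓Φ⟩ := hΦ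
    have h𝔓 := hF 𝔓 h𝔓Φ
    have hs1 := hs 𝔓 h𝔓
    have hsn : (s : 𝓞 K) ^ n = 1 := by
      apply RingOfIntegers.coe_injective
      rw [map_pow, hn1, map_one]
    have hs0 : (s : 𝓞 K) ≠ 1 := by
      intro h
      apply hne
      rw [h, map_one]
    set m := orderOf (s : 𝓞 K) with hm
    have hfo : IsOfFinOrder (s : 𝓞 K) := isOfFinOrder_iff_pow_eq_one.mpr ⟨n, hn, hsn⟩
    have hm0 : 0 < m := hfo.orderOf_pos
    have hm1 : m ≠ 1 := by
      intro h
      exact hs0 (orderOf_eq_one_iff.mp h)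
    obtain ⟨q, hq, hqm⟩ := Nat.exists_prime_and_dvd hm1
    set ζ : 𝓞 K := (s : 𝓞 K) ^ (m / q) with hζ
    have hζq : ζ ^ q = 1 := by
      rw [hζ, ← pow_mul, Nat.div_mul_cancel hqm]
      exact pow_orderOf_eq_one _
    have hζ1 : ζ ≠ 1 := by
      intro h
      have h1 : m ∣ m / q := orderOf_dvd_of_pow_eq_one h
      have h2 : 0 < m / q := Nat.div_pos (Nat.le_of_dvd hm0 hqm) hq.pos
      have h3 := Nat.le_of_dvd h2 h1
      have h4 : m / q < m := Nat.div_lt_self hm0 hq.one_lt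
      omega
    have hcong : ∀ j : ℕ, ∀ y : 𝓞 K, y - 1 ∈ 𝔓 ^ 2 → y ^ j - 1 ∈ 𝔓 ^ 2 := by
      intro j y hy
      obtain ⟨w, hw⟩ : y - 1 ∣ y ^ j - 1 := by simpa using sub_dvd_pow_sub_pow y 1 j
      rw [hw]
      exact Ideal.mul_mem_right _ _ hy
    have hζc : ζ - 1 ∈ 𝔓 ^ 2 := hcong _ _ hs1
    have hgeom : ∑ j ∈ Finset.range q, ζ ^ j = 0 := by
      have h1 := mul_geom_sum ζ q
      rw [hζq, sub_self] at h1
      exact (mul_eq_zero.mp h1).resolve_left (sub_ne_zero.mpr hζ1)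
    have hq2 : (q : 𝓞 K) ∈ 𝔓 ^ 2 := by
      have h1 : ∑ j ∈ Finset.range q, (ζ ^ j - 1) ∈ 𝔓 ^ 2 :=
        Ideal.sum_mem _ fun j _ => hcong j ζ hζc
      rw [Finset.sum_sub_distrib, hgeom, Finset.sum_const, Finset.card_range, nsmul_eq_mul, mul_one,
        zero_sub] at h1
      exact neg_mem_iff.mp h1
    have hqp : q = p := by
      by_contra hqp
      have hcop : Nat.Coprime q p := (Nat.coprime_primes hq hp).mpr hqp
      have h1 : IsCoprime (q : ℤ) (p : ℤ) := Nat.isCoprime_iff_coprime.mpr hcop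
      obtain ⟨a', b, hab⟩ := h1
      have h2 : (q : 𝓞 K) ∈ 𝔓 := Ideal.pow_le_self (by norm_num) hq2
      have h3 : (1 : 𝓞 K) ∈ 𝔓 := by
        have h4 : (1 : 𝓞 K) = (a' : 𝓞 K) * q + (b : 𝓞 K) * p := by
          have := congrArg (fun z : ℤ => (z : 𝓞 K)) hab
          push_cast at this
          exact this.symm
        rw [h4]
        exact Ideal.add_mem _ (Ideal.mul_mem_left _ _ h2) (Ideal.mul_mem_left _ _ h𝔓.2.1)
      exact h𝔓.1.ne_top ((Ideal.eq_top_iff_one _).mpr h3)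
    rw [hqp] at hq2
    exact hunr 𝔓 h𝔓.1 h𝔓.2.1 hq2
  energy := by
    intro ι _ u hu hQ τ hτ hX
    have hfrob : (frobSet K p (p ^ a)).Nonempty := by
      obtain ⟨𝔓, h𝔓⟩ := hΦ
      exact ⟨σ, 𝔓, hF 𝔓 h𝔓⟩
    have hk1 : (1:ℝ) ≤ ((frobSet K p (p ^ a)).ncard : ℝ) := by
      have := (Set.ncard_pos (Set.toFinite _)).mpr hfrob
      exact_mod_cast this
    apply energy_bound_norm u hu hk1 _ hτ hX
    intro i j hij
    obtain ⟨s, hs, hs2⟩ := hQ i
    obtain ⟨t, ht, ht2⟩ := hQ j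
    set x : 𝓞 K := (s : 𝓞 K) - t with hx
    have hx0 : x ≠ 0 := by
      intro h0
      apply hij
      apply hu
      rw [← hs, ← ht]
      rw [hx, sub_eq_zero] at h0
      rw [h0]
    have hxu : algebraMap (𝓞 K) K x = u i - u j := by
      rw [hx, map_sub, hs, ht]
    have hxm : ∀ 𝔓 ∈ Φ, x ∈ 𝔓 := by
      intro 𝔓 h𝔓
      have h1 := Ideal.sub_mem _ (hs2 𝔓 (hF 𝔓 h𝔓)) (ht2 𝔓 (hF 𝔓 h𝔓))
      have h2 : (s : 𝓞 K) - 1 - ((t : 𝓞 K) - 1) = x := by rw [hx]; ring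
      rw [h2] at h1
      exact Ideal.pow_le_self (by norm_num) h1
    have hbot : ∀ 𝔓 ∈ Φ, 𝔓 ≠ ⊥ := by
      rintro 𝔓 h𝔓 rfl
      have h1 := (hF _ h𝔓).2.1
      rw [Ideal.mem_bot] at h1
      exact hp.ne_zero (by exact_mod_cast h1)
    have hdvd : ∏ 𝔓 ∈ Φ, 𝔓 ∣ Ideal.span {x} := by
      apply Finset.prod_primes_dvd
      · intro 𝔓 h𝔓
        exact Ideal.prime_of_isPrime (hbot 𝔓 h𝔓) (hF 𝔓 h𝔓).1
      · intro 𝔓 h𝔓
        rw [Ideal.dvd_span_singleton]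
        exact hxm 𝔓 h𝔓
    have hdvd2 : ∏ 𝔓 ∈ Φ, Ideal.absNorm 𝔓 ∣ (Algebra.norm ℤ x).natAbs := by
      rw [← Ideal.absNorm_span_singleton, ← map_prod]
      exact map_dvd Ideal.absNorm hdvd
    have hnx0 : (Algebra.norm ℤ x).natAbs ≠ 0 := by
      rw [Int.natAbs_ne_zero]
      exact Algebra.norm_ne_zero_iff.mpr hx0
    have hle : ∏ 𝔓 ∈ Φ, Ideal.absNorm 𝔓 ≤ (Algebra.norm ℤ x).natAbs :=
      Nat.le_of_dvd (Nat.pos_of_ne_zero hnx0) hdvd2
    have hpos : ∀ 𝔓 ∈ Φ, (0:ℝ) < (Ideal.absNorm 𝔓 : ℝ) := by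
      intro 𝔓 h𝔓
      have := Ideal.absNorm_eq_zero_iff.not.mpr (hbot 𝔓 h𝔓)
      exact_mod_cast Nat.pos_of_ne_zero this
    have hlogle : ∑ 𝔓 ∈ Φ, Real.log (Ideal.absNorm 𝔓) ≤ Real.log ((Algebra.norm ℤ x).natAbs : ℝ) := by
      rw [← Real.log_prod fun 𝔓 h𝔓 => (hpos 𝔓 h𝔓).ne']
      apply Real.log_le_log (Finset.prod_pos hpos)
      exact_mod_cast hle
    have hsumlog : ∑ φ : K →ₐ[ℚ] ℂ, Real.log ‖φ (u i) - φ (u j)‖ =
        Real.log ((Algebra.norm ℤ x).natAbs : ℝ) := by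
      have h1 : ∀ φ : K →ₐ[ℚ] ℂ, φ (u i) - φ (u j) = φ (algebraMap (𝓞 K) K x) := by
        intro φ
        rw [hxu, map_sub]
      simp_rw [h1]
      have hxK : algebraMap (𝓞 K) K x ≠ 0 := by
        intro h0
        exact hx0 (RingOfIntegers.coe_injective (by rw [h0, map_zero]))
      rw [← Real.log_prod fun φ _ => norm_ne_zero_iff.mpr ((map_ne_zero φ).mpr hxK)]
      congr 1
      rw [← norm_prod, ← Algebra.norm_eq_prod_embeddings ℚ ℂ (algebraMap (𝓞 K) K x),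
        ← Algebra.coe_norm_int]
      rw [eq_ratCast, Rat.cast_intCast, Complex.norm_intCast, Nat.cast_natAbs, Int.cast_abs]
    rw [hsumlog]
    have hlp : Real.log 2 ≤ Real.log p := by
      apply Real.log_le_log (by norm_num)
      exact_mod_cast hp.two_le
    calc (finrank ℚ K : ℝ) * Real.log 2 ≤ finrank ℚ K * Real.log p := by gcongr
      _ ≤ _ := hN
      _ ≤ _ := by gcongr

end Pool.Agent.Run7.h22
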