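import Mathlib
import Pool.Agent.Run7.h22.Ep

/-!
# Heights of units of a Galois number field with few Frobenius automorphisms above `p`
-/

set_option autoImplicit false

open Finset Module NumberField

namespace Pool.Agent.Run7.h22

open Pool.Agent.H388SL

lemma pow_sub_mem_sq {R : Type*} [CommRing R] {I : Ideal R} {p : ℕ} (hp : (p : R) ∈ I) {x y : R}
    (h : x - y ∈ I) : x ^ p - y ^ p ∈ I ^ 2 := by
  rw [← geom_sum₂_mul x y p, sq]
  apply Ideal.mul_mem_mul _ h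
  have hx : Ideal.Quotient.mk I x = Ideal.Quotient.mk I y := Ideal.Quotient.eq.mpr h
  rw [← Ideal.Quotient.eq_zero_iff_mem, map_sum]
  have h1 : ∀ i ∈ Finset.range p, Ideal.Quotient.mk I (x ^ i * y ^ (p - 1 - i)) =
      Ideal.Quotient.mk I y ^ (p - 1) := by
    intro i hi
    rw [map_mul, map_pow, map_pow, hx, ← pow_add]
    congr 1
    have := Finset.mem_range.mp hi
    omega
  rw [Finset.sum_congr rfl h1, Finset.sum_const, Finset.card_range, nsmul_eq_mul,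
    ← map_natCast (Ideal.Quotient.mk I), Ideal.Quotient.eq_zero_iff_mem.mpr hp, zero_mul]

lemma lam_inv {K : Type} [Field K] [NumberField K] {x : K} (hx : IsIntegral ℤ x)
    (hx' : IsIntegral ℤ x⁻¹) (h0 : x ≠ 0) : lam x⁻¹ = lam x := by
  have hprod : ∀ y : K, IsIntegral ℤ y → IsIntegral ℤ y⁻¹ → y ≠ 0 →
      ∏ σ : K →ₐ[ℚ] ℂ, ‖σ y‖ = 1 := by
    intro y hy hy' hy0
    have h1 := one_le_prod_norm hy hy0
    have h2 := one_le_prod_norm hy' (inv_ne_zero hy0)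
    have h3 : (∏ σ : K →ₐ[ℚ] ℂ, ‖σ y‖) * ∏ σ : K →ₐ[ℚ] ℂ, ‖σ y⁻¹‖ = 1 := by
      rw [← Finset.prod_mul_distrib]
      apply Finset.prod_eq_one
      intro σ _
      rw [← norm_mul, ← map_mul, mul_inv_cancel₀ hy0, map_one, norm_one]
    nlinarith
  have h1 := sum_abs_log h0 (hprod x hx hx' h0)
  have h2 := sum_abs_log (inv_ne_zero h0) (hprod x⁻¹ hx' (by rwa [inv_inv]) (inv_ne_zero h0))
  have h3 : ∑ σ : K →ₐ[ℚ] ℂ, |Real.log ‖σ x⁻¹‖| = ∑ σ : K →ₐ[ℚ] ℂ, |Real.log ‖σ x‖| := by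
    refine Finset.sum_congr rfl fun σ _ => ?_
    rw [map_inv₀, norm_inv, Real.log_inv, abs_neg]
  linarith

/-- **The height of a unit which is not a root of unity, in a Galois number field with `k` Frobenius
automorphisms above the unramified prime `p`.** -/
theorem field_main_p : ∃ C : ℝ, 0 < C ∧ ∀ (K : Type) [Field K] [NumberField K] [IsGalois ℚ K] (p a : ℕ),
    p.Prime → 1 ≤ a → (∀ 𝔓 : Ideal (𝓞 K), 𝔓.IsPrime → (p : 𝓞 K) ∈ 𝔓 → (p : 𝓞 K) ∉ 𝔓 ^ 2) → ∀ α : K,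
    IsIntegral ℤ α → IsIntegral ℤ α⁻¹ → α ≠ 0 → (∀ n : ℕ, 0 < n → α ^ n ≠ 1) →
    (finrank ℚ K : ℝ) ≤ C * (p : ℝ) ^ (a + 1) * ((frobSet K p (p ^ a)).ncard *
      Real.exp (9 * Real.sqrt (Real.log (2 * (frobSet K p (p ^ a)).ncard)))) * lam α := by
  obtain ⟨C, hC, hmain⟩ := abs_main
  refine ⟨2 * C, by positivity, ?_⟩
  intro K _ _ _ p a hp ha1 hunr α hi hi' h0 hroot
  obtain ⟨σ, Φ, hΦ, hF, hN⟩ := exists_sigma (K := K) hp a hunr
  have hgood := good hp hΦ hF hN hunr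
  have hlam : 0 < lam α := lam_pos hi h0 hroot
  -- the unit
  set b : 𝓞 K := ⟨α, hi⟩ with hb
  set b' : 𝓞 K := ⟨α⁻¹, hi'⟩ with hb'
  have hbα : algebraMap (𝓞 K) K b = α := rfl
  have hbα' : algebraMap (𝓞 K) K b' = α⁻¹ := rfl
  have hbb : b * b' = 1 := by
    apply RingOfIntegers.coe_injective
    rw [map_mul, hbα, hbα', mul_inv_cancel₀ h0, map_one]
  set v : (𝓞 K)ˣ := ⟨b, b', hbb, by rw [mul_comm]; exact hbb⟩ with hv
  have haα : algebraMap (𝓞 K) K (v : 𝓞 K) = α := rfl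
  set φ := MulSemiringAction.toRingHom (K ≃ₐ[ℚ] K) (𝓞 K) σ with hφ
  set c : (𝓞 K)ˣ := Units.map (φ : 𝓞 K →* 𝓞 K) v with hc
  have hcσ : algebraMap (𝓞 K) K (c : 𝓞 K) = σ α := smul_coe σ b
  have hσ0 : σ α ≠ 0 := (map_ne_zero σ).mpr h0
  set γ : K := α ^ (p ^ a * p) * ((σ α)⁻¹) ^ p with hγ
  have hQ : CongOne p (p ^ a) σ γ := by
    refine ⟨v ^ (p ^ a * p) * (c⁻¹) ^ p, ?_, fun 𝔓 h𝔓 => ?_⟩
    · rw [Units.val_mul, map_mul, Units.val_pow_eq_pow_val, Units.val_pow_eq_pow_val, map_pow, map_pow,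
        haα]
      have h1 : algebraMap (𝓞 K) K ((c⁻¹ : (𝓞 K)ˣ) : 𝓞 K) = (σ α)⁻¹ := by
        apply eq_inv_of_mul_eq_one_right
        rw [← hcσ, ← map_mul, ← Units.val_mul, mul_inv_cancel]
        simp
      rw [h1]
    · have h1 : (v : 𝓞 K) ^ (p ^ a) - c ∈ 𝔓 := by
        have h2 := h𝔓.2.2 (v : 𝓞 K)
        have h3 : (c : 𝓞 K) = σ • (v : 𝓞 K) := rfl
        rw [h3, ← neg_sub]
        exact neg_mem h2
      have h2 := pow_sub_mem_sq h𝔓.2.1 h1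
      have h3 : ((v ^ (p ^ a * p) * (c⁻¹) ^ p : (𝓞 K)ˣ) : 𝓞 K) - 1 =
          (((v : 𝓞 K) ^ (p ^ a)) ^ p - (c : 𝓞 K) ^ p) * ((c⁻¹ : (𝓞 K)ˣ) : 𝓞 K) ^ p := by
        have h4 : (c : 𝓞 K) ^ p * ((c⁻¹ : (𝓞 K)ˣ) : 𝓞 K) ^ p = 1 := by
          rw [← mul_pow, ← Units.val_mul, mul_inv_cancel, Units.val_one, one_pow]
        rw [sub_mul, h4, Units.val_mul, Units.val_pow_eq_pow_val, Units.val_pow_eq_pow_val, pow_mul]
      rw [h3]
      exact Ideal.mul_mem_right _ _ h2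
  have hp1 : (1:ℝ) < p := by exact_mod_cast hp.one_lt
  have hγ1 : γ ≠ 1 := by
    intro h
    have h1 : α ^ (p ^ a * p) = (σ α) ^ p := by
      rw [hγ, inv_pow, mul_inv_eq_one₀ (pow_ne_zero _ hσ0)] at h
      exact h
    have h2 := congrArg lam h1
    rw [lam_pow, lam_pow, lam_aut] at h2
    push_cast at h2
    have h3 : (p : ℝ) * lam α * ((p : ℝ) ^ a - 1) = 0 := by linarith
    have h4 : 0 < (p : ℝ) * lam α * ((p : ℝ) ^ a - 1) := by
      have : (0:ℝ) < (p : ℝ) ^ a - 1 := by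
        have := one_lt_pow₀ hp1 (Nat.one_le_iff_ne_zero.mp ha1)
        linarith
      positivity
    linarith
  have hlγ : lam γ ≤ 2 * (p : ℝ) ^ (a + 1) * lam α := by
    rw [hγ]
    refine (lam_mul_le _ _).trans ?_
    have hs1 : IsIntegral ℤ (σ α) := hi.map (σ : K →ₐ[ℚ] K)
    have hs2 : IsIntegral ℤ (σ α)⁻¹ := by
      rw [← map_inv₀]
      exact hi'.map (σ : K →ₐ[ℚ] K)
    rw [lam_pow, lam_pow, lam_inv hs1 hs2 hσ0, lam_aut]
    push_cast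
    have hpp : (p : ℝ) ≤ (p : ℝ) ^ (a + 1) := by
      have := one_le_pow₀ hp1.le (n := a)
      rw [pow_succ]
      nlinarith
    have := mul_le_mul_of_nonneg_right hpp hlam.le
    rw [pow_succ] at this ⊢
    linarith
  have h1 := hmain K (frobSet K p (p ^ a)).ncard (Subgroup.centralizer {σ}) (CongOne p (p ^ a) σ) hgood γ hQ hγ1
  refine h1.trans ?_
  have h2 : 0 ≤ C * ((frobSet K p (p ^ a)).ncard *
      Real.exp (9 * Real.sqrt (Real.log (2 * (frobSet K p (p ^ a)).ncard)))) := by positivity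
  calc C * ((frobSet K p (p ^ a)).ncard *
      Real.exp (9 * Real.sqrt (Real.log (2 * (frobSet K p (p ^ a)).ncard)))) * lam γ
      ≤ C * ((frobSet K p (p ^ a)).ncard *
      Real.exp (9 * Real.sqrt (Real.log (2 * (frobSet K p (p ^ a)).ncard)))) * (2 * (p : ℝ) ^ (a + 1) * lam α) :=
        mul_le_mul_of_nonneg_left hlγ h2
    _ = _ := by ring

end Pool.Agent.Run7.h22
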