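import Mathlib
import Pool.Agent.Run7.h22.MainP

/-!
# Distribution of the primes above `p` over classes of Frobenius automorphisms
-/

set_option autoImplicit false

open Finset Module NumberField

namespace Pool.Agent.Run7.h22

open Pool.Agent.H388SL

/-- the index of a centralizer is at most the number of the elements of a set which contains the
conjugates -/
lemma index_le_gen {G : Type*} [Group G] {σ : G} {S : Set G} (hfin : S.Finite)
    (hS : ∀ g : G, g * σ * g⁻¹ ∈ S) : (Subgroup.centralizer {σ}).index ≤ S.ncard := by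
  set H := Subgroup.centralizer {σ} with hH
  have : Finite S := hfin
  have hinj : Function.Injective (fun q : G ⧸ H => (⟨q.out * σ * q.out⁻¹, hS q.out⟩ : S)) := by
    intro q q' hqq
    have h1 : q.out * σ * q.out⁻¹ = q'.out * σ * q'.out⁻¹ := congrArg Subtype.val hqq
    have h2 : q'.out⁻¹ * q.out * σ = σ * (q'.out⁻¹ * q.out) := by
      have h3 : q'.out⁻¹ * q.out * σ = q'.out⁻¹ * (q.out * σ * q.out⁻¹) * q.out := by group
      rw [h3, h1]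
      group
    rw [← QuotientGroup.out_eq' q, ← QuotientGroup.out_eq' q']
    symm
    rw [QuotientGroup.eq]
    exact Subgroup.mem_centralizer_singleton_iff.mpr h2
  have := Nat.card_le_card_of_injective _ hinj
  rwa [Nat.card_coe_set_eq] at this

variable {K : Type} [Field K] [NumberField K]

/-- the primes above `p` for which a given function of the Frobenius automorphism has a certain value
contain together a proportion of at least `1 / M` of the norm of `p`, if there are at most `M`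
values -/
lemma exists_class [IsGalois ℚ K] {p : ℕ} (hp : p.Prime) (a : ℕ)
    (hunr : ∀ 𝔓 : Ideal (𝓞 K), 𝔓.IsPrime → (p : 𝓞 K) ∈ 𝔓 → (p : 𝓞 K) ∉ 𝔓 ^ 2) {Y : Type*}
    (f : (K ≃ₐ[ℚ] K) → Y) {M : ℕ} (hM : (f '' frobSet K p (p ^ a)).ncard ≤ M) :
    ∃ (σ : K ≃ₐ[ℚ] K) (Φ : Finset (Ideal (𝓞 K))), Φ.Nonempty ∧ σ ∈ frobSet K p (p ^ a) ∧
      (∀ 𝔓 ∈ Φ, ∃ σ', IsFrob p (p ^ a) σ' 𝔓 ∧ f σ' = f σ) ∧
      (finrank ℚ K : ℝ) * Real.log p ≤ M * ∑ 𝔓 ∈ Φ, Real.log (Ideal.absNorm 𝔓) := by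
  classical
  set I : Ideal (𝓞 K) := Ideal.span {(p : 𝓞 K)} with hI
  have hI0 : I ≠ ⊥ := by
    rw [hI, Ne, Ideal.span_singleton_eq_bot]
    exact_mod_cast hp.ne_zero
  set F := (UniqueFactorizationMonoid.normalizedFactors I) with hF
  have hFprime : ∀ 𝔓 ∈ F, 𝔓.IsPrime ∧ (p : 𝓞 K) ∈ 𝔓 ∧ 𝔓 ≠ ⊥ := by
    intro 𝔓 h
    have h1 := UniqueFactorizationMonoid.prime_of_normalized_factor 𝔓 h
    have h2 := UniqueFactorizationMonoid.dvd_of_mem_normalizedFactors h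
    refine ⟨Ideal.isPrime_of_prime h1, ?_, h1.ne_zero⟩
    have h3 : I ≤ 𝔓 := Ideal.dvd_iff_le.mp h2
    exact h3 (Ideal.mem_span_singleton_self _)
  have hprod : F.prod = I := by
    rw [hF]
    exact Ideal.prod_normalizedFactors_eq_self hI0
  have hnodup : F.Nodup := by
    rw [Multiset.nodup_iff_count_le_one]
    intro 𝔓
    by_contra hc
    push Not at hc
    have hmem : 𝔓 ∈ F := Multiset.count_pos.mp (by omega)
    have h1 := hFprime 𝔓 hmem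
    have h2 : 𝔓 ^ 2 ∣ I := by
      rw [← hprod]
      have h3 : Multiset.replicate 2 𝔓 ≤ F := Multiset.le_count_iff_replicate_le.mp hc
      have h4 := Multiset.prod_dvd_prod_of_le h3
      rwa [Multiset.prod_replicate] at h4
    have h3 : I ≤ 𝔓 ^ 2 := Ideal.dvd_iff_le.mp h2
    exact hunr 𝔓 h1.1 h1.2.1 (h3 (Ideal.mem_span_singleton_self _))
  have hnorm : ((F.map (fun 𝔓 => Real.log (Ideal.absNorm 𝔓))).sum) = finrank ℚ K * Real.log p := by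
    have h1 : ((Ideal.absNorm I : ℕ) : ℝ) = (p : ℝ) ^ finrank ℚ K := by
      rw [hI, Ideal.absNorm_span_natCast, RingOfIntegers.rank]
      push_cast
      rfl
    have h2 : Real.log (Ideal.absNorm I) = finrank ℚ K * Real.log p := by
      rw [h1, Real.log_pow]
    rw [← h2, ← hprod]
    have h3 : ∀ s : Multiset (Ideal (𝓞 K)), (∀ 𝔓 ∈ s, 𝔓 ≠ ⊥) →
        (s.map (fun 𝔓 => Real.log (Ideal.absNorm 𝔓))).sum = Real.log (Ideal.absNorm s.prod) := by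
      intro s
      induction s using Multiset.induction_on with
      | empty => intro _; simp
      | cons a s ih =>
        intro h
        rw [Multiset.map_cons, Multiset.sum_cons, Multiset.prod_cons, map_mul,
          ih fun 𝔓 h𝔓 => h 𝔓 (Multiset.mem_cons_of_mem h𝔓)]
        push_cast
        rw [Real.log_mul]
        · have := h a (Multiset.mem_cons_self a s)
          exact_mod_cast (Ideal.absNorm_eq_zero_iff.not.mpr this)
        · have : s.prod ≠ 0 := by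
            rw [Ne, Multiset.prod_eq_zero_iff]
            intro h0
            exact h 0 (Multiset.mem_cons_of_mem h0) rfl
          exact_mod_cast (Ideal.absNorm_eq_zero_iff.not.mpr this)
    exact h3 F fun 𝔓 h => (hFprime 𝔓 h).2.2
  -- the distribution over the values
  set T : Finset (Ideal (𝓞 K)) := ⟨F, hnodup⟩ with hT
  have hex : ∀ 𝔓 : Ideal (𝓞 K), ∃ σ : K ≃ₐ[ℚ] K, 𝔓 ∈ T → IsFrob p (p ^ a) σ 𝔓 := by
    intro 𝔓
    by_cases h : 𝔓 ∈ T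
    · have h1 := hFprime 𝔓 h
      obtain ⟨σ, hσ⟩ := exists_frob_pow hp a h1.1 h1.2.1
      exact ⟨σ, fun _ => hσ⟩
    · exact ⟨1, fun h' => absurd h' h⟩
  choose s hs using hex
  set S : Finset (K ≃ₐ[ℚ] K) := (Set.toFinite (frobSet K p (p ^ a))).toFinset with hS
  set V : Finset Y := S.image f with hV
  have hVcard : V.card ≤ M := by
    refine le_trans (le_of_eq ?_) hM
    rw [← Set.ncard_coe_finset, hV, Finset.coe_image, hS, Set.Finite.coe_toFinset]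
  have hmapsS : ∀ 𝔓 ∈ T, s 𝔓 ∈ S := by
    intro 𝔓 h
    rw [hS, Set.Finite.mem_toFinset]
    exact ⟨𝔓, hs 𝔓 h⟩
  have hmaps : ∀ 𝔓 ∈ T, f (s 𝔓) ∈ V := fun 𝔓 h => Finset.mem_image_of_mem f (hmapsS 𝔓 h)
  have hsum : ∑ 𝔓 ∈ T, Real.log (Ideal.absNorm 𝔓) = finrank ℚ K * Real.log p := hnorm
  have hsum2 : ∑ y ∈ V, ∑ 𝔓 ∈ T.filter (fun 𝔓 => f (s 𝔓) = y), Real.log (Ideal.absNorm 𝔓) =
      finrank ℚ K * Real.log p := by
    rw [Finset.sum_fiberwise_of_maps_to hmaps, hsum]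
  have hN0 : 0 < (finrank ℚ K : ℝ) * Real.log p := by
    apply mul_pos
    · exact_mod_cast (finrank_pos : 0 < finrank ℚ K)
    · exact Real.log_pos (by exact_mod_cast hp.one_lt)
  have hVne : V.Nonempty := by
    by_contra h
    rw [Finset.not_nonempty_iff_eq_empty] at h
    rw [h, Finset.sum_empty] at hsum2
    linarith
  obtain ⟨y, hyV, hy⟩ := Finset.exists_le_of_sum_le hVne
    (f := fun _ => (finrank ℚ K : ℝ) * Real.log p / V.card)
    (g := fun y => ∑ 𝔓 ∈ T.filter (fun 𝔓 => f (s 𝔓) = y), Real.log (Ideal.absNorm 𝔓)) (by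
      rw [hsum2, Finset.sum_const, nsmul_eq_mul]
      apply le_of_eq
      have : (V.card : ℝ) ≠ 0 := by exact_mod_cast hVne.card_pos.ne'
      field_simp)
  have hVpos : (0:ℝ) < V.card := by exact_mod_cast hVne.card_pos
  have hsum0 : 0 ≤ ∑ 𝔓 ∈ T.filter (fun 𝔓 => f (s 𝔓) = y), Real.log (Ideal.absNorm 𝔓) :=
    Finset.sum_nonneg fun 𝔓 _ => Real.log_natCast_nonneg _
  have hfinal : (finrank ℚ K : ℝ) * Real.log p ≤
      M * ∑ 𝔓 ∈ T.filter (fun 𝔓 => f (s 𝔓) = y), Real.log (Ideal.absNorm 𝔓) := by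
    have h1 : (finrank ℚ K : ℝ) * Real.log p / V.card ≤
      ∑ 𝔓 ∈ T.filter (fun 𝔓 => f (s 𝔓) = y), Real.log (Ideal.absNorm 𝔓) := hy
    rw [div_le_iff₀ hVpos] at h1
    have h2 : (V.card : ℝ) ≤ M := by exact_mod_cast hVcard
    have h3 := mul_le_mul_of_nonneg_right h2 hsum0
    linarith
  have hne : (T.filter (fun 𝔓 => f (s 𝔓) = y)).Nonempty := by
    by_contra h
    rw [Finset.not_nonempty_iff_eq_empty] at h
    rw [h, Finset.sum_empty, mul_zero] at hfinal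
    linarith
  obtain ⟨𝔓₀, h𝔓₀⟩ := hne
  obtain ⟨h𝔓T, h𝔓y⟩ := Finset.mem_filter.mp h𝔓₀
  refine ⟨s 𝔓₀, T.filter (fun 𝔓 => f (s 𝔓) = y), ⟨𝔓₀, h𝔓₀⟩, ⟨𝔓₀, hs 𝔓₀ h𝔓T⟩, ?_, hfinal⟩
  intro 𝔓 h
  obtain ⟨h1, h2⟩ := Finset.mem_filter.mp h
  exact ⟨s 𝔓, hs 𝔓 h1, by rw [h2, h𝔓y]⟩

/-- an element of the ring of integers which is in many primes has a large norm -/
lemma log_norm_ge {Φ : Finset (Ideal (𝓞 K))} (hbot : ∀ 𝔓 ∈ Φ, 𝔓 ≠ ⊥) (hpr : ∀ 𝔓 ∈ Φ, 𝔓.IsPrime)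
    {x : 𝓞 K} (hx0 : x ≠ 0) (hxm : ∀ 𝔓 ∈ Φ, x ∈ 𝔓) :
    ∑ 𝔓 ∈ Φ, Real.log (Ideal.absNorm 𝔓) ≤
      ∑ φ : K →ₐ[ℚ] ℂ, Real.log ‖φ (algebraMap (𝓞 K) K x)‖ := by
  have hdvd : ∏ 𝔓 ∈ Φ, 𝔓 ∣ Ideal.span {x} := by
    apply Finset.prod_primes_dvd
    · intro 𝔓 h𝔓
      exact Ideal.prime_of_isPrime (hbot 𝔓 h𝔓) (hpr 𝔓 h𝔓)
    · intro 𝔓 h𝔓
      rw [Ideal.dvd_span_singleton]
      exact hxm 𝔓 h𝔓
  have hdvd2 : ∏ 𝔓 ∈ Φ, Ideal.absNorm 𝔓 ∣ (Algebra.norm ℤ x).natAbs := by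
    rw [← Ideal.absNorm_span_singleton, ← map_prod]
    exact map_dvd Ideal.absNorm hdvd
  have hnx0 : (Algebra.norm ℤ x).natAbs ≠ 0 := by
    rw [Int.natAbs_ne_zero]
    exact Algebra.norm_ne_zero_iff.mpr hx0
  have hle : ∏ 𝔓 ∈ Φ, Ideal.absNorm 𝔓 ≤ (Algebra.norm ℤ x).natAbs :=
    Nat.le_of_dvd (Nat.pos_of_ne_zero hnx0) hdvd2
  have hpos : ∀ 𝔓 ∈ Φ, (0:ℝ) < (Ideal.absNorm 𝔓 : ℝ) := by
    intro 𝔓 h𝔓
    have := Ideal.absNorm_eq_zero_iff.not.mpr (hbot 𝔓 h𝔓)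
    exact_mod_cast Nat.pos_of_ne_zero this
  have hlogle : ∑ 𝔓 ∈ Φ, Real.log (Ideal.absNorm 𝔓) ≤ Real.log ((Algebra.norm ℤ x).natAbs : ℝ) := by
    rw [← Real.log_prod fun 𝔓 h𝔓 => (hpos 𝔓 h𝔓).ne']
    apply Real.log_le_log (Finset.prod_pos hpos)
    exact_mod_cast hle
  have hsumlog : ∑ φ : K →ₐ[ℚ] ℂ, Real.log ‖φ (algebraMap (𝓞 K) K x)‖ =
      Real.log ((Algebra.norm ℤ x).natAbs : ℝ) := by
    have hxK : algebraMap (𝓞 K) K x ≠ 0 := by
      intro h0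
      exact hx0 (RingOfIntegers.coe_injective (by rw [h0, map_zero]))
    rw [← Real.log_prod fun φ _ => norm_ne_zero_iff.mpr ((map_ne_zero φ).mpr hxK)]
    congr 1
    rw [← norm_prod, ← Algebra.norm_eq_prod_embeddings ℚ ℂ (algebraMap (𝓞 K) K x),
      ← Algebra.coe_norm_int]
    rw [eq_ratCast, Rat.cast_intCast, Complex.norm_intCast, Nat.cast_natAbs, Int.cast_abs]
  rw [hsumlog]
  exact hlogle

/-- a unit of finite order which is congruent to one modulo the square of an unramified prime above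
`p` is one -/
lemma torsion_one {p : ℕ} (hp : p.Prime) {𝔓 : Ideal (𝓞 K)} (hpr : 𝔓.IsPrime) (hpm : (p : 𝓞 K) ∈ 𝔓)
    (hunr : (p : 𝓞 K) ∉ 𝔓 ^ 2) {s : 𝓞 K} (hs1 : s - 1 ∈ 𝔓 ^ 2) {n : ℕ} (hn : 0 < n)
    (hsn : s ^ n = 1) : s = 1 := by
  by_contra hs0
  set m := orderOf s with hm
  have hfo : IsOfFinOrder s := isOfFinOrder_iff_pow_eq_one.mpr ⟨n, hn, hsn⟩
  have hm0 : 0 < m := hfo.orderOf_pos
  have hm1 : m ≠ 1 := by
    intro h
    exact hs0 (orderOf_eq_one_iff.mp h)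
  obtain ⟨q, hq, hqm⟩ := Nat.exists_prime_and_dvd hm1
  set ζ : 𝓞 K := s ^ (m / q) with hζ
  have hζq : ζ ^ q = 1 := by
    rw [hζ, ← pow_mul, Nat.div_mul_cancel hqm]
    exact pow_orderOf_eq_one _
  have hζ1 : ζ ≠ 1 := by
    intro h
    have h1 : m ∣ m / q := orderOf_dvd_of_pow_eq_one h
    have h2 : 0 < m / q := Nat.div_pos (Nat.le_of_dvd hm0 hqm) hq.pos
    have h3 := Nat.le_of_dvd h2 h1
    have h4 : m / q < m := Nat.div_lt_self hm0 hq.one_lt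
    omega
  have hcong : ∀ j : ℕ, ∀ y : 𝓞 K, y - 1 ∈ 𝔓 ^ 2 → y ^ j - 1 ∈ 𝔓 ^ 2 := by
    intro j y hy
    obtain ⟨w, hw⟩ : y - 1 ∣ y ^ j - 1 := by simpa using sub_dvd_pow_sub_pow y 1 j
    rw [hw]
    exact Ideal.mul_mem_right _ _ hy
  have hζc : ζ - 1 ∈ 𝔓 ^ 2 := hcong _ _ hs1
  have hgeom : ∑ j ∈ Finset.range q, ζ ^ j = 0 := by
    have h1 := mul_geom_sum ζ q
    rw [hζq, sub_self] at h1
    exact (mul_eq_zero.mp h1).resolve_left (sub_ne_zero.mpr hζ1)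
  have hq2 : (q : 𝓞 K) ∈ 𝔓 ^ 2 := by
    have h1 : ∑ j ∈ Finset.range q, (ζ ^ j - 1) ∈ 𝔓 ^ 2 :=
      Ideal.sum_mem _ fun j _ => hcong j ζ hζc
    rw [Finset.sum_sub_distrib, hgeom, Finset.sum_const, Finset.card_range, nsmul_eq_mul, mul_one,
      zero_sub] at h1
    exact neg_mem_iff.mp h1
  have hqp : q = p := by
    by_contra hqp
    have hcop : Nat.Coprime q p := (Nat.coprime_primes hq hp).mpr hqp
    have h1 : IsCoprime (q : ℤ) (p : ℤ) := Nat.isCoprime_iff_coprime.mpr hcop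
    obtain ⟨a', b, hab⟩ := h1
    have h2 : (q : 𝓞 K) ∈ 𝔓 := Ideal.pow_le_self (by norm_num) hq2
    have h3 : (1 : 𝓞 K) ∈ 𝔓 := by
      have h4 : (1 : 𝓞 K) = (a' : 𝓞 K) * q + (b : 𝓞 K) * p := by
        have := congrArg (fun z : ℤ => (z : 𝓞 K)) hab
        push_cast at this
        exact this.symm
      rw [h4]
      exact Ideal.add_mem _ (Ideal.mul_mem_left _ _ h2) (Ideal.mul_mem_left _ _ hpm)
    exact hpr.ne_top ((Ideal.eq_top_iff_one _).mpr h3)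
  rw [hqp] at hq2
  exact hunr hq2

end Pool.Agent.Run7.h22
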