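import Mathlib
import Pool.Agent.Run7.h22.Rel1

/-!
# Units of the fixed field of a normal subgroup, with few classes of Frobenius automorphisms
-/

set_option autoImplicit false

open Finset Module NumberField

namespace Pool.Agent.Run7.h22

open Pool.Agent.H388SL

variable {K : Type} [Field K] [NumberField K]

/-- the set of the classes, modulo the subgroup `N`, of the Frobenius automorphisms -/
def frobMod (p q : ℕ) (N : Subgroup (K ≃ₐ[ℚ] K)) : Set ((K ≃ₐ[ℚ] K) ⧸ N) :=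
  (fun σ => (QuotientGroup.mk σ : (K ≃ₐ[ℚ] K) ⧸ N)) '' frobSet K p q

/-- the units which are fixed by `N` and are congruent to one modulo the squares of the primes with a
Frobenius automorphism in the class of `σ` -/
def CongOneN (p q : ℕ) (N : Subgroup (K ≃ₐ[ℚ] K)) (σ : K ≃ₐ[ℚ] K) (x : K) : Prop :=
  (∀ n ∈ N, n x = x) ∧ ∃ s : (𝓞 K)ˣ, algebraMap (𝓞 K) K (s : 𝓞 K) = x ∧
    ∀ 𝔓 : Ideal (𝓞 K), (∃ σ', IsFrob p q σ' 𝔓 ∧
      (QuotientGroup.mk σ' : (K ≃ₐ[ℚ] K) ⧸ N) = QuotientGroup.mk σ) → (s : 𝓞 K) - 1 ∈ 𝔓 ^ 2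

/-- the automorphisms which commute with `σ` modulo `N` -/
def centN (N : Subgroup (K ≃ₐ[ℚ] K)) [N.Normal] (σ : K ≃ₐ[ℚ] K) : Subgroup (K ≃ₐ[ℚ] K) :=
  (Subgroup.centralizer {(QuotientGroup.mk σ : (K ≃ₐ[ℚ] K) ⧸ N)}).comap (QuotientGroup.mk' N)

lemma mem_centN {N : Subgroup (K ≃ₐ[ℚ] K)} [N.Normal] {σ g : K ≃ₐ[ℚ] K} (hg : g ∈ centN N σ) :
    (QuotientGroup.mk (g⁻¹ * σ * g) : (K ≃ₐ[ℚ] K) ⧸ N) = QuotientGroup.mk σ := by
  have h1 : QuotientGroup.mk' N g ∈ Subgroup.centralizer {(QuotientGroup.mk σ : (K ≃ₐ[ℚ] K) ⧸ N)} := hg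
  have h2 := Subgroup.mem_centralizer_singleton_iff.mp h1
  rw [QuotientGroup.mk_mul, QuotientGroup.mk_mul, QuotientGroup.mk_inv]
  have h3 : (QuotientGroup.mk g : (K ≃ₐ[ℚ] K) ⧸ N) * QuotientGroup.mk σ =
      QuotientGroup.mk σ * QuotientGroup.mk g := h2
  rw [mul_assoc, ← h3, inv_mul_cancel_left]

lemma centN_index {p q : ℕ} {N : Subgroup (K ≃ₐ[ℚ] K)} [N.Normal] {σ : K ≃ₐ[ℚ] K}
    (hσ : σ ∈ frobSet K p q) : (centN N σ).index ≤ (frobMod p q N).ncard := by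
  unfold centN
  rw [Subgroup.index_comap_of_surjective _ (QuotientGroup.mk'_surjective N)]
  apply index_le_gen (Set.toFinite _)
  intro g
  obtain ⟨g, rfl⟩ := QuotientGroup.mk_surjective g
  obtain ⟨𝔓, h𝔓⟩ := hσ
  have h := h𝔓.comap g⁻¹
  rw [inv_inv] at h
  refine ⟨g * σ * g⁻¹, ⟨_, h⟩, ?_⟩
  simp only [QuotientGroup.mk_mul, QuotientGroup.mk_inv]

lemma goodN {p a : ℕ} (hp : p.Prime) {N : Subgroup (K ≃ₐ[ℚ] K)} [N.Normal] {σ : K ≃ₐ[ℚ] K}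
    (hσ : σ ∈ frobSet K p (p ^ a))
    {Φ : Finset (Ideal (𝓞 K))} (hΦ : Φ.Nonempty)
    (hF : ∀ 𝔓 ∈ Φ, ∃ σ', IsFrob p (p ^ a) σ' 𝔓 ∧
      (QuotientGroup.mk σ' : (K ≃ₐ[ℚ] K) ⧸ N) = QuotientGroup.mk σ)
    (hN : (finrank ℚ K : ℝ) * Real.log p ≤
        (frobMod p (p ^ a) N).ncard * ∑ 𝔓 ∈ Φ, Real.log (Ideal.absNorm 𝔓))
    (hunr : ∀ 𝔓 : Ideal (𝓞 K), 𝔓.IsPrime → (p : 𝓞 K) ∈ 𝔓 → (p : 𝓞 K) ∉ 𝔓 ^ 2) :
    GoodUnits K (frobMod p (p ^ a) N).ncard (centN N σ) (CongOneN p (p ^ a) N σ) where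
  index := centN_index hσ
  one := ⟨fun n _ => map_one n, 1, by simp, fun 𝔓 _ => by simp⟩
  mul := by
    rintro _ _ ⟨hx, s, rfl, hs⟩ ⟨hy, t, rfl, ht⟩
    refine ⟨fun n hn => by rw [map_mul, hx n hn, hy n hn], s * t, by simp, fun 𝔓 h𝔓 => ?_⟩
    have h1 : ((s * t : (𝓞 K)ˣ) : 𝓞 K) - 1 = ((s : 𝓞 K) - 1) * t + ((t : 𝓞 K) - 1) := by
      push_cast
      ring
    rw [h1]
    exact Ideal.add_mem _ (Ideal.mul_mem_right _ _ (hs 𝔓 h𝔓)) (ht 𝔓 h𝔓)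
  inv := by
    rintro _ ⟨hx, s, rfl, hs⟩
    refine ⟨fun n hn => by rw [map_inv₀, hx n hn], s⁻¹, ?_, fun 𝔓 h𝔓 => ?_⟩
    · have h1 : algebraMap (𝓞 K) K (s : 𝓞 K) * algebraMap (𝓞 K) K ((s⁻¹ : (𝓞 K)ˣ) : 𝓞 K) = 1 := by
        rw [← map_mul, ← Units.val_mul, mul_inv_cancel]
        simp
      exact eq_inv_of_mul_eq_one_right h1
    · have h1 : ((s⁻¹ : (𝓞 K)ˣ) : 𝓞 K) - 1 = (-((s⁻¹ : (𝓞 K)ˣ) : 𝓞 K)) * ((s : 𝓞 K) - 1) := by
        have h2 : ((s⁻¹ : (𝓞 K)ˣ) : 𝓞 K) * (s : 𝓞 K) = 1 := by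
          rw [← Units.val_mul, inv_mul_cancel, Units.val_one]
        linear_combination h2
      rw [h1]
      exact Ideal.mul_mem_left _ _ (hs 𝔓 h𝔓)
  ne_zero := by
    rintro _ ⟨_, s, rfl, _⟩ h0
    have h1 : (s : 𝓞 K) = 0 := by
      apply RingOfIntegers.coe_injective
      rw [h0, map_zero]
    exact s.ne_zero h1
  int := by
    rintro _ ⟨_, s, rfl, _⟩
    exact RingOfIntegers.isIntegral_coe _
  aut := by
    rintro g hg _ ⟨hx, s, rfl, hs⟩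
    set φ := MulSemiringAction.toRingHom (K ≃ₐ[ℚ] K) (𝓞 K) g with hφ
    refine ⟨fun n hn => ?_, Units.map (φ : 𝓞 K →* 𝓞 K) s, ?_, fun 𝔓 h𝔓 => ?_⟩
    · have h1 : g⁻¹ * n * g ∈ N := by
        have := (inferInstance : N.Normal).conj_mem n hn g⁻¹
        rwa [inv_inv] at this
      have h2 := hx _ h1
      have h3 : g ((g⁻¹ * n * g) (algebraMap (𝓞 K) K (s : 𝓞 K))) =
          n (g (algebraMap (𝓞 K) K (s : 𝓞 K))) := by
        rw [← AlgEquiv.mul_apply, ← AlgEquiv.mul_apply]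
        congr 1
        group
      rw [← h3, h2]
    · exact smul_coe g s
    · obtain ⟨σ', hσ', hcl⟩ := h𝔓
      have h1 := hσ'.comap g
      have h2 : (QuotientGroup.mk (g⁻¹ * σ' * g) : (K ≃ₐ[ℚ] K) ⧸ N) = QuotientGroup.mk σ := by
        rw [← mem_centN hg]
        simp only [QuotientGroup.mk_mul, hcl]
      have h4 := hs _ ⟨_, h1, h2⟩
      have h5 : ((Units.map (φ : 𝓞 K →* 𝓞 K) s : (𝓞 K)ˣ) : 𝓞 K) - 1 = φ ((s : 𝓞 K) - 1) := by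
        rw [map_sub, map_one]
        rfl
      rw [h5, ← Ideal.mem_comap]
      exact Ideal.le_comap_pow φ 2 h4
  torsion := by
    rintro _ ⟨_, s, rfl, hs⟩ n hn hn1
    obtain ⟨𝔓, h𝔓Φ⟩ := hΦ
    obtain ⟨σ', hσ', hcl⟩ := hF 𝔓 h𝔓Φ
    have hs1 := hs 𝔓 ⟨σ', hσ', hcl⟩
    have hsn : (s : 𝓞 K) ^ n = 1 := by
      apply RingOfIntegers.coe_injective
      rw [map_pow, hn1, map_one]
    have h1 := torsion_one hp hσ'.1 hσ'.2.1 (hunr 𝔓 hσ'.1 hσ'.2.1) hs1 hn hsn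
    rw [h1, map_one]
  energy := by
    intro ι _ u hu hQ τ hτ hX
    have hfrob : (frobMod p (p ^ a) N).Nonempty := ⟨_, σ, hσ, rfl⟩
    have hk1 : (1:ℝ) ≤ ((frobMod p (p ^ a) N).ncard : ℝ) := by
      have := (Set.ncard_pos (Set.toFinite _)).mpr hfrob
      exact_mod_cast this
    apply energy_bound_norm u hu hk1 _ hτ hX
    intro i j hij
    obtain ⟨-, s, hs, hs2⟩ := hQ i
    obtain ⟨-, t, ht, ht2⟩ := hQ j
    set x : 𝓞 K := (s : 𝓞 K) - t with hx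
    have hx0 : x ≠ 0 := by
      intro h0
      apply hij
      apply hu
      rw [← hs, ← ht]
      rw [hx, sub_eq_zero] at h0
      rw [h0]
    have hxu : algebraMap (𝓞 K) K x = u i - u j := by
      rw [hx, map_sub, hs, ht]
    have hxm : ∀ 𝔓 ∈ Φ, x ∈ 𝔓 := by
      intro 𝔓 h𝔓
      have h1 := Ideal.sub_mem _ (hs2 𝔓 (hF 𝔓 h𝔓)) (ht2 𝔓 (hF 𝔓 h𝔓))
      have h2 : (s : 𝓞 K) - 1 - ((t : 𝓞 K) - 1) = x := by rw [hx]; ring
      rw [h2] at h1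
      exact Ideal.pow_le_self (by norm_num) h1
    have hbot : ∀ 𝔓 ∈ Φ, 𝔓 ≠ ⊥ := by
      rintro 𝔓 h𝔓 rfl
      obtain ⟨σ', hσ', -⟩ := hF _ h𝔓
      have h1 := hσ'.2.1
      rw [Ideal.mem_bot] at h1
      exact hp.ne_zero (by exact_mod_cast h1)
    have hpr : ∀ 𝔓 ∈ Φ, 𝔓.IsPrime := by
      intro 𝔓 h𝔓
      obtain ⟨σ', hσ', -⟩ := hF _ h𝔓
      exact hσ'.1
    have hlogle := log_norm_ge hbot hpr hx0 hxm
    have hsumlog : ∑ φ : K →ₐ[ℚ] ℂ, Real.log ‖φ (u i) - φ (u j)‖ =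
        ∑ φ : K →ₐ[ℚ] ℂ, Real.log ‖φ (algebraMap (𝓞 K) K x)‖ := by
      refine Finset.sum_congr rfl fun φ _ => ?_
      rw [hxu, map_sub]
    rw [hsumlog]
    have hlp : Real.log 2 ≤ Real.log p := by
      apply Real.log_le_log (by norm_num)
      exact_mod_cast hp.two_le
    calc (finrank ℚ K : ℝ) * Real.log 2 ≤ finrank ℚ K * Real.log p := by gcongr
      _ ≤ _ := hN
      _ ≤ _ := by gcongr

/-- **The height of a unit which is not a root of unity and is fixed by a normal subgroup `N`, in terms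
of the number of the Frobenius automorphisms modulo `N`.** -/
theorem field_main_N : ∃ C : ℝ, 0 < C ∧ ∀ (K : Type) [Field K] [NumberField K] [IsGalois ℚ K] (p a : ℕ),
    p.Prime → 1 ≤ a → (∀ 𝔓 : Ideal (𝓞 K), 𝔓.IsPrime → (p : 𝓞 K) ∈ 𝔓 → (p : 𝓞 K) ∉ 𝔓 ^ 2) →
    ∀ (N : Subgroup (K ≃ₐ[ℚ] K)) [N.Normal], ∀ α : K, (∀ n ∈ N, n α = α) →
    IsIntegral ℤ α → IsIntegral ℤ α⁻¹ → α ≠ 0 → (∀ n : ℕ, 0 < n → α ^ n ≠ 1) →
    (finrank ℚ K : ℝ) ≤ C * (p : ℝ) ^ (a + 1) * ((frobMod p (p ^ a) N).ncard *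
      Real.exp (9 * Real.sqrt (Real.log (2 * (frobMod p (p ^ a) N).ncard)))) * lam α := by
  obtain ⟨C, hC, hmain⟩ := abs_main
  refine ⟨2 * C, by positivity, ?_⟩
  intro K _ _ _ p a hp ha1 hunr N _ α hαN hi hi' h0 hroot
  obtain ⟨σ, Φ, hΦ, hσ, hF, hN⟩ := exists_class (K := K) hp a hunr
    (fun σ => (QuotientGroup.mk σ : (K ≃ₐ[ℚ] K) ⧸ N)) (M := (frobMod p (p ^ a) N).ncard) le_rfl
  have hgood := goodN hp hσ hΦ hF hN hunr
  have hlam : 0 < lam α := lam_pos hi h0 hroot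
  -- the unit
  set b : 𝓞 K := ⟨α, hi⟩ with hb
  set b' : 𝓞 K := ⟨α⁻¹, hi'⟩ with hb'
  have hbα : algebraMap (𝓞 K) K b = α := rfl
  have hbα' : algebraMap (𝓞 K) K b' = α⁻¹ := rfl
  have hbb : b * b' = 1 := by
    apply RingOfIntegers.coe_injective
    rw [map_mul, hbα, hbα', mul_inv_cancel₀ h0, map_one]
  set v : (𝓞 K)ˣ := ⟨b, b', hbb, by rw [mul_comm]; exact hbb⟩ with hv
  have haα : algebraMap (𝓞 K) K (v : 𝓞 K) = α := rfl
  set φ := MulSemiringAction.toRingHom (K ≃ₐ[ℚ] K) (𝓞 K) σ with hφ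
  set c : (𝓞 K)ˣ := Units.map (φ : 𝓞 K →* 𝓞 K) v with hc
  have hcσ : algebraMap (𝓞 K) K (c : 𝓞 K) = σ α := smul_coe σ b
  have hσ0 : σ α ≠ 0 := (map_ne_zero σ).mpr h0
  have hσN : ∀ n ∈ N, n (σ α) = σ α := by
    intro n hn
    have h1 : σ⁻¹ * n * σ ∈ N := by
      have := (inferInstance : N.Normal).conj_mem n hn σ⁻¹
      rwa [inv_inv] at this
    have h3 : σ ((σ⁻¹ * n * σ) α) = n (σ α) := by
      rw [← AlgEquiv.mul_apply, ← AlgEquiv.mul_apply]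
      congr 1
      group
    rw [← h3, hαN _ h1]
  set γ : K := α ^ (p ^ a * p) * ((σ α)⁻¹) ^ p with hγ
  have hQ : CongOneN p (p ^ a) N σ γ := by
    refine ⟨fun n hn => ?_, v ^ (p ^ a * p) * (c⁻¹) ^ p, ?_, fun 𝔓 h𝔓 => ?_⟩
    · rw [hγ, map_mul, map_pow, map_pow, map_inv₀, hαN n hn, hσN n hn]
    · rw [Units.val_mul, map_mul, Units.val_pow_eq_pow_val, Units.val_pow_eq_pow_val, map_pow, map_pow,
        haα]
      have h1 : algebraMap (𝓞 K) K ((c⁻¹ : (𝓞 K)ˣ) : 𝓞 K) = (σ α)⁻¹ := by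
        apply eq_inv_of_mul_eq_one_right
        rw [← hcσ, ← map_mul, ← Units.val_mul, mul_inv_cancel]
        simp
      rw [h1]
    · obtain ⟨σ', hσ', hcl⟩ := h𝔓
      have hσα : σ' α = σ α := by
        have h1 : σ⁻¹ * σ' ∈ N := QuotientGroup.eq.mp hcl.symm
        have h2 := hαN _ h1
        have h3 : σ ((σ⁻¹ * σ') α) = σ' α := by
          rw [← AlgEquiv.mul_apply, mul_inv_cancel_left]
        rw [← h3, h2]
      have h1 : (v : 𝓞 K) ^ (p ^ a) - c ∈ 𝔓 := by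
        have h2 := hσ'.2.2 (v : 𝓞 K)
        have h3 : (c : 𝓞 K) = σ' • (v : 𝓞 K) := by
          apply RingOfIntegers.coe_injective
          rw [hcσ, smul_coe, haα, hσα]
        rw [h3, ← neg_sub]
        exact neg_mem h2
      have h2 := pow_sub_mem_sq hσ'.2.1 h1
      have h3 : ((v ^ (p ^ a * p) * (c⁻¹) ^ p : (𝓞 K)ˣ) : 𝓞 K) - 1 =
          (((v : 𝓞 K) ^ (p ^ a)) ^ p - (c : 𝓞 K) ^ p) * ((c⁻¹ : (𝓞 K)ˣ) : 𝓞 K) ^ p := by
        have h4 : (c : 𝓞 K) ^ p * ((c⁻¹ : (𝓞 K)ˣ) : 𝓞 K) ^ p = 1 := by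
          rw [← mul_pow, ← Units.val_mul, mul_inv_cancel, Units.val_one, one_pow]
        rw [sub_mul, h4, Units.val_mul, Units.val_pow_eq_pow_val, Units.val_pow_eq_pow_val, pow_mul]
      rw [h3]
      exact Ideal.mul_mem_right _ _ h2
  have hp1 : (1:ℝ) < p := by exact_mod_cast hp.one_lt
  have hγ1 : γ ≠ 1 := by
    intro h
    have h1 : α ^ (p ^ a * p) = (σ α) ^ p := by
      rw [hγ, inv_pow, mul_inv_eq_one₀ (pow_ne_zero _ hσ0)] at h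
      exact h
    have h2 := congrArg lam h1
    rw [lam_pow, lam_pow, lam_aut] at h2
    push_cast at h2
    have h3 : (p : ℝ) * lam α * ((p : ℝ) ^ a - 1) = 0 := by linarith
    have h4 : 0 < (p : ℝ) * lam α * ((p : ℝ) ^ a - 1) := by
      have : (0:ℝ) < (p : ℝ) ^ a - 1 := by
        have := one_lt_pow₀ hp1 (Nat.one_le_iff_ne_zero.mp ha1)
        linarith
      positivity
    linarith
  have hlγ : lam γ ≤ 2 * (p : ℝ) ^ (a + 1) * lam α := by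
    rw [hγ]
    refine (lam_mul_le _ _).trans ?_
    have hs1 : IsIntegral ℤ (σ α) := hi.map (σ : K →ₐ[ℚ] K)
    have hs2 : IsIntegral ℤ (σ α)⁻¹ := by
      rw [← map_inv₀]
      exact hi'.map (σ : K →ₐ[ℚ] K)
    rw [lam_pow, lam_pow, lam_inv hs1 hs2 hσ0, lam_aut]
    push_cast
    have hpp : (p : ℝ) ≤ (p : ℝ) ^ (a + 1) := by
      have := one_le_pow₀ hp1.le (n := a)
      rw [pow_succ]
      nlinarith
    have := mul_le_mul_of_nonneg_right hpp hlam.le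
    rw [pow_succ] at this ⊢
    linarith
  have h1 := hmain K (frobMod p (p ^ a) N).ncard (centN N σ) (CongOneN p (p ^ a) N σ) hgood γ hQ hγ1
  refine h1.trans ?_
  have h2 : 0 ≤ C * ((frobMod p (p ^ a) N).ncard *
      Real.exp (9 * Real.sqrt (Real.log (2 * (frobMod p (p ^ a) N).ncard)))) := by positivity
  calc C * ((frobMod p (p ^ a) N).ncard *
      Real.exp (9 * Real.sqrt (Real.log (2 * (frobMod p (p ^ a) N).ncard)))) * lam γ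
      ≤ C * ((frobMod p (p ^ a) N).ncard *
      Real.exp (9 * Real.sqrt (Real.log (2 * (frobMod p (p ^ a) N).ncard)))) * (2 * (p : ℝ) ^ (a + 1) * lam α) :=
        mul_le_mul_of_nonneg_left hlγ h2
    _ = _ := by ring

end Pool.Agent.Run7.h22
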