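import Mathlib
import Pool.Agent.Run7.h22.Rel2

/-!
# Several multiplicatively independent conjugates with few joint Frobenius images
-/

set_option autoImplicit false

open Finset Module NumberField

namespace Pool.Agent.Run7.h22

open Pool.Agent.H388SL

variable {K : Type} [Field K] [NumberField K]

/-- a unit, as an element of the field -/
def IsU (x : K) : Prop := x ≠ 0 ∧ IsIntegral ℤ x ∧ IsIntegral ℤ x⁻¹

lemma IsU.aut {x : K} (h : IsU x) (g : K ≃ₐ[ℚ] K) : IsU (g x) := by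
  refine ⟨(map_ne_zero g).mpr h.1, h.2.1.map (g : K →ₐ[ℚ] K), ?_⟩
  rw [← map_inv₀]
  exact h.2.2.map (g : K →ₐ[ℚ] K)

lemma IsU.pow {x : K} (h : IsU x) (n : ℕ) : IsU (x ^ n) := by
  refine ⟨pow_ne_zero n h.1, h.2.1.pow n, ?_⟩
  rw [← inv_pow]
  exact h.2.2.pow n

lemma IsU.prod_norm {x : K} (h : IsU x) : ∏ σ : K →ₐ[ℚ] ℂ, ‖σ x‖ = 1 := by
  have h1 := one_le_prod_norm h.2.1 h.1
  have h2 := one_le_prod_norm h.2.2 (inv_ne_zero h.1)
  have h3 : (∏ σ : K →ₐ[ℚ] ℂ, ‖σ x‖) * ∏ σ : K →ₐ[ℚ] ℂ, ‖σ x⁻¹‖ = 1 := by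
    rw [← Finset.prod_mul_distrib]
    apply Finset.prod_eq_one
    intro σ _
    rw [← norm_mul, ← map_mul, mul_inv_cancel₀ h.1, map_one, norm_one]
  nlinarith

lemma IsU.len {x : K} (h : IsU x) : len (lg x) = 2 * lam x := sum_abs_log h.1 h.prod_norm

/-- a unit with trivial logarithms is a root of unity -/
lemma IsU.root {x : K} (h : IsU x) (h0 : lg x = 0) : ∃ n : ℕ, 0 < n ∧ x ^ n = 1 := by
  have h1 : ∀ φ : K →+* ℂ, ‖φ x‖ = 1 := by
    intro φ
    have h2 : Real.log ‖RingHom.equivRatAlgHom K ℂ φ x‖ = 0 := congrFun h0 (RingHom.equivRatAlgHom K ℂ φ)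
    have h3 : Real.log ‖φ x‖ = 0 := h2
    have h4 : 0 < ‖φ x‖ := norm_pos_iff.mpr ((map_ne_zero φ).mpr h.1)
    rcases Real.log_eq_zero.mp h3 with h5 | h5 | h5
    · exact absurd h5 h4.ne'
    · exact h5
    · linarith
  obtain ⟨n, hn, hn1⟩ := NumberField.Embeddings.pow_eq_one_of_norm_eq_one K ℂ h.2.1 h1
  exact ⟨n, hn, hn1⟩

lemma lg_root {x : K} {n : ℕ} (hn : 0 < n) (h : x ^ n = 1) : lg x = 0 := by
  have h1 : n • lg x = 0 := by rw [← lg_pow, h, lg_one]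
  exact (smul_eq_zero.mp h1).resolve_left hn.ne'

/-- the action of an automorphism on the logarithmic space -/
noncomputable def act (g : K ≃ₐ[ℚ] K) (v : (K →ₐ[ℚ] ℂ) → ℝ) : (K →ₐ[ℚ] ℂ) → ℝ := fun φ =>
  v (φ.comp (g : K →ₐ[ℚ] K))

lemma lg_act (g : K ≃ₐ[ℚ] K) (x : K) : lg (g x) = act g (lg x) := rfl

lemma len_act (g : K ≃ₐ[ℚ] K) (v : (K →ₐ[ℚ] ℂ) → ℝ) : len (act g v) = len v := by
  unfold len act
  let e : (K →ₐ[ℚ] ℂ) → (K →ₐ[ℚ] ℂ) := fun σ => σ.comp (g : K →ₐ[ℚ] K)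
  have he : Function.Injective e := by
    intro σ τ h
    apply AlgHom.ext
    intro y
    have h1 := AlgHom.congr_fun h (g.symm y)
    have h2 : σ (g (g.symm y)) = τ (g (g.symm y)) := h1
    rwa [AlgEquiv.apply_symm_apply] at h2
  have hb : Function.Bijective e := Finite.injective_iff_bijective.mp he
  exact hb.sum_comp (fun σ : K →ₐ[ℚ] ℂ => |v σ|)

/-- the operator `q - g` preserves the linear independence -/
lemma indep_act {r : ℕ} {v : Fin r → (K →ₐ[ℚ] ℂ) → ℝ} (hind : LinearIndependent ℤ v)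
    (g : K ≃ₐ[ℚ] K) {q : ℕ} (hq : 2 ≤ q) :
    LinearIndependent ℤ (fun j => (q : ℤ) • v j - act g (v j)) := by
  rw [Fintype.linearIndependent_iff] at hind ⊢
  intro c hc
  apply hind
  set w : (K →ₐ[ℚ] ℂ) → ℝ := ∑ j, c j • v j with hw
  have h1 : (q : ℤ) • w = act g w := by
    have h2 : act g w = ∑ j, c j • act g (v j) := by
      funext φ
      unfold act
      rw [hw]
      simp only [Finset.sum_apply, Pi.smul_apply]
    rw [h2, hw, Finset.smul_sum]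
    have h3 : ∑ j, c j • ((q : ℤ) • v j - act g (v j)) =
        ∑ j, (q : ℤ) • c j • v j - ∑ j, c j • act g (v j) := by
      rw [← Finset.sum_sub_distrib]
      refine Finset.sum_congr rfl fun j _ => ?_
      rw [smul_sub, smul_comm]
    rw [h3] at hc
    exact sub_eq_zero.mp hc
  have h2 : len ((q : ℤ) • w) = q * len w := by
    unfold len
    rw [Finset.mul_sum]
    refine Finset.sum_congr rfl fun φ _ => ?_
    rw [Pi.smul_apply, zsmul_eq_mul, abs_mul]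
    congr 1
    push_cast
    exact abs_of_nonneg (Nat.cast_nonneg q)
  have h3 : (q : ℝ) * len w = len w := by rw [← h2, h1, len_act]
  have hq2 : (2:ℝ) ≤ q := by exact_mod_cast hq
  have h4 : 0 ≤ len w := Finset.sum_nonneg fun φ _ => abs_nonneg _
  have h5 : len w = 0 := by nlinarith
  funext φ
  have h6 := (Finset.sum_eq_zero_iff_of_nonneg (fun φ _ => abs_nonneg (w φ))).mp h5 φ (Finset.mem_univ φ)
  exact abs_eq_zero.mp h6

/-- **Many multiplicatively independent units whose joint images under the Frobenius automorphisms are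
few.** -/
theorem high_rank [IsGalois ℚ K] {p a : ℕ} (hp : p.Prime) (ha : 1 ≤ a)
    (hunr : ∀ 𝔓 : Ideal (𝓞 K), 𝔓.IsPrime → (p : 𝓞 K) ∈ 𝔓 → (p : 𝓞 K) ∉ 𝔓 ^ 2)
    {r T M : ℕ} (B : Fin r → K) (hB : ∀ j, IsU (B j)) {Λ : ℝ} (hΛ : ∀ j, lam (B j) ≤ Λ)
    (hind : LinearIndependent ℤ fun j => lg (B j))
    (hM : ((fun σ : K ≃ₐ[ℚ] K => fun j => σ (B j)) '' frobSet K p (p ^ a)).ncard ≤ M)
    (hT : 256 * (M : ℝ) ^ 2 ≤ (T : ℝ) ^ r) :
    (finrank ℚ K : ℝ) ≤ 16 * M * (r * T * ((p : ℝ) ^ a + 1) * Λ) := by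
  classical
  obtain ⟨σ, Φ, hΦ, hσ, hF, hN⟩ := exists_class (K := K) hp a hunr
    (fun σ : K ≃ₐ[ℚ] K => fun j => σ (B j)) hM
  set q : ℕ := p ^ a with hqdef
  have hq2 : 2 ≤ q := by
    calc 2 ≤ p := hp.two_le
      _ = p ^ 1 := (pow_one p).symm
      _ ≤ p ^ a := Nat.pow_le_pow_right hp.pos ha
  have hM1 : 1 ≤ M := by
    have h1 : ((fun σ : K ≃ₐ[ℚ] K => fun j => σ (B j)) '' frobSet K p q).Nonempty := ⟨_, σ, hσ, rfl⟩
    exact ((Set.ncard_pos (Set.toFinite _)).mpr h1).trans_le hM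
  have hM1' : (1:ℝ) ≤ M := by exact_mod_cast hM1
  have hN0 : (0:ℝ) < finrank ℚ K := by exact_mod_cast (finrank_pos : 0 < finrank ℚ K)
  -- units
  have hunit : ∀ x : K, IsU x → ∃ v : (𝓞 K)ˣ, algebraMap (𝓞 K) K (v : 𝓞 K) = x ∧
      algebraMap (𝓞 K) K ((v⁻¹ : (𝓞 K)ˣ) : 𝓞 K) = x⁻¹ := by
    intro x hx
    set b : 𝓞 K := ⟨x, hx.2.1⟩ with hb
    set b' : 𝓞 K := ⟨x⁻¹, hx.2.2⟩ with hb'
    have hbα : algebraMap (𝓞 K) K b = x := rfl
    have hbα' : algebraMap (𝓞 K) K b' = x⁻¹ := rfl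
    have hbb : b * b' = 1 := by
      apply RingOfIntegers.coe_injective
      rw [map_mul, hbα, hbα', mul_inv_cancel₀ hx.1, map_one]
    exact ⟨⟨b, b', hbb, by rw [mul_comm]; exact hbb⟩, rfl, rfl⟩
  choose b hb hb' using fun j => hunit (B j) (hB j)
  choose c hc hc' using fun j => hunit (σ (B j)) ((hB j).aut σ)
  set e : Fin r → (𝓞 K)ˣ := fun j => b j ^ q * (c j)⁻¹ with he
  set w : (Fin r → Fin T) → (𝓞 K)ˣ := fun s => ∏ j, e j ^ (s j : ℕ) with hw
  have heK : ∀ j, algebraMap (𝓞 K) K (e j : 𝓞 K) = B j ^ q * (σ (B j))⁻¹ := by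
    intro j
    rw [he]
    simp only [Units.val_mul, Units.val_pow_eq_pow_val, map_mul, map_pow, hb, hc']
  have hwK : ∀ s, algebraMap (𝓞 K) K (w s : 𝓞 K) = ∏ j, (B j ^ q * (σ (B j))⁻¹) ^ (s j : ℕ) := by
    intro s
    rw [hw]
    simp only [Units.coe_prod, Units.val_pow_eq_pow_val, map_prod, map_pow, heK]
  -- congruences
  have hcong : ∀ 𝔓 ∈ Φ, ∀ s, (w s : 𝓞 K) - 1 ∈ 𝔓 := by
    intro 𝔓 h𝔓 s
    obtain ⟨σ', hσ', hcl⟩ := hF 𝔓 h𝔓
    have he1 : ∀ j, (e j : 𝓞 K) - 1 ∈ 𝔓 := by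
      intro j
      have h1 : (c j : 𝓞 K) = σ' • (b j : 𝓞 K) := by
        apply RingOfIntegers.coe_injective
        rw [hc, smul_coe, hb]
        exact (congrFun hcl j).symm
      have h2 : (b j : 𝓞 K) ^ q - c j ∈ 𝔓 := by
        rw [h1, ← neg_sub]
        exact neg_mem (hσ'.2.2 _)
      have h3 : (e j : 𝓞 K) - 1 = ((b j : 𝓞 K) ^ q - c j) * ((c j)⁻¹ : (𝓞 K)ˣ) := by
        rw [sub_mul, ← Units.val_mul (c j), mul_inv_cancel, Units.val_one, he]
        simp only [Units.val_mul, Units.val_pow_eq_pow_val]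
      rw [h3]
      exact Ideal.mul_mem_right _ _ h2
    have hmk : ∀ j, Ideal.Quotient.mk 𝔓 (e j : 𝓞 K) = 1 := by
      intro j
      rw [← map_one (Ideal.Quotient.mk 𝔓)]
      exact Ideal.Quotient.eq.mpr (he1 j)
    have h4 : Ideal.Quotient.mk 𝔓 (w s : 𝓞 K) = 1 := by
      rw [hw]
      simp only [Units.coe_prod, Units.val_pow_eq_pow_val, map_prod, map_pow, hmk, one_pow,
        Finset.prod_const_one]
    rw [← map_one (Ideal.Quotient.mk 𝔓)] at h4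
    exact Ideal.Quotient.eq.mp h4
  -- independence
  have hne : ∀ j, B j ^ q * (σ (B j))⁻¹ ≠ 0 := fun j =>
    mul_ne_zero (pow_ne_zero _ (hB j).1) (inv_ne_zero ((hB j).aut σ).1)
  have hlge : ∀ j, lg (B j ^ q * (σ (B j))⁻¹) = (q : ℤ) • lg (B j) - act σ (lg (B j)) := by
    intro j
    rw [lg_mul (pow_ne_zero _ (hB j).1) (inv_ne_zero ((hB j).aut σ).1), lg_pow, lg_inv, lg_act,
      natCast_zsmul, sub_eq_add_neg]
  have hlgprod : ∀ s : Fin r → Fin T, lg (algebraMap (𝓞 K) K (w s : 𝓞 K)) =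
      ∑ j, ((s j : ℕ) : ℤ) • ((q : ℤ) • lg (B j) - act σ (lg (B j))) := by
    intro s
    rw [hwK]
    have h1 : ∀ S : Finset (Fin r), (∏ j ∈ S, (B j ^ q * (σ (B j))⁻¹) ^ (s j : ℕ)) ≠ 0 ∧
        lg (∏ j ∈ S, (B j ^ q * (σ (B j))⁻¹) ^ (s j : ℕ)) =
        ∑ j ∈ S, ((s j : ℕ) : ℤ) • ((q : ℤ) • lg (B j) - act σ (lg (B j))) := by
      intro S
      induction S using Finset.induction_on with
      | empty => exact ⟨by simp, by rw [Finset.prod_empty, Finset.sum_empty]; exact lg_one⟩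
      | insert i S hi ih =>
        rw [Finset.prod_insert hi, Finset.sum_insert hi]
        refine ⟨mul_ne_zero (pow_ne_zero _ (hne i)) ih.1, ?_⟩
        rw [lg_mul (pow_ne_zero _ (hne i)) ih.1, ih.2, lg_pow, hlge, ← natCast_zsmul]
    exact (h1 Finset.univ).2
  have hinj : Function.Injective (fun s : Fin r → Fin T => algebraMap (𝓞 K) K (w s : 𝓞 K)) := by
    intro s s' hss
    have h1 := congrArg lg hss
    simp only [hlgprod] at h1
    have h2 : ∑ j, (((s j : ℕ) : ℤ) - ((s' j : ℕ) : ℤ)) • ((q : ℤ) • lg (B j) - act σ (lg (B j))) = 0 := by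
      simp_rw [sub_smul]
      rw [Finset.sum_sub_distrib, h1, sub_self]
    have h3 := (Fintype.linearIndependent_iff.mp (indep_act hind σ hq2)) _ h2
    funext j
    apply Fin.ext
    have := h3 j
    omega
  -- heights
  have hlame : ∀ j, lam (B j ^ q * (σ (B j))⁻¹) ≤ ((p : ℝ) ^ a + 1) * Λ := by
    intro j
    refine (lam_mul_le _ _).trans ?_
    have h1 := (hB j).aut σ
    rw [lam_pow, lam_inv h1.2.1 h1.2.2 h1.1, lam_aut, hqdef]
    push_cast
    have h2 := hΛ j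
    have h3 : (0:ℝ) ≤ (p : ℝ) ^ a := by positivity
    nlinarith
  have hlam : ∀ s, lam (algebraMap (𝓞 K) K (w s : 𝓞 K)) ≤ r * T * ((p : ℝ) ^ a + 1) * Λ := by
    intro s
    rw [hwK]
    refine (lam_prod_le _ _ _).trans ?_
    have h1 : ∀ j ∈ (Finset.univ : Finset (Fin r)),
        ((s j : ℕ) : ℝ) * lam (B j ^ q * (σ (B j))⁻¹) ≤ T * (((p : ℝ) ^ a + 1) * Λ) := by
      intro j _
      apply mul_le_mul _ (hlame j) (lam_nonneg _) (Nat.cast_nonneg _)
      exact_mod_cast (s j).2.le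
    refine (Finset.sum_le_sum h1).trans (le_of_eq ?_)
    rw [Finset.sum_const, Finset.card_univ, Fintype.card_fin, nsmul_eq_mul]
    ring
  -- the energy
  have hfin := energy_bound_norm (K := K) (ι := Fin r → Fin T)
    (fun s => algebraMap (𝓞 K) K (w s : 𝓞 K)) hinj hM1' (by
      intro s s' hss
      set x : 𝓞 K := (w s : 𝓞 K) - w s' with hx
      have hx0 : x ≠ 0 := by
        intro h0
        apply hss
        apply hinj
        show algebraMap (𝓞 K) K (w s : 𝓞 K) = algebraMap (𝓞 K) K (w s' : 𝓞 K)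
        rw [sub_eq_zero.mp h0]
      have hxm : ∀ 𝔓 ∈ Φ, x ∈ 𝔓 := by
        intro 𝔓 h𝔓
        have h1 := Ideal.sub_mem _ (hcong 𝔓 h𝔓 s) (hcong 𝔓 h𝔓 s')
        have h2 : (w s : 𝓞 K) - 1 - ((w s' : 𝓞 K) - 1) = x := by rw [hx]; ring
        rwa [h2] at h1
      have hbot : ∀ 𝔓 ∈ Φ, 𝔓 ≠ ⊥ := by
        rintro 𝔓 h𝔓 rfl
        obtain ⟨σ', hσ', -⟩ := hF _ h𝔓
        have h1 := hσ'.2.1
        rw [Ideal.mem_bot] at h1
        exact hp.ne_zero (by exact_mod_cast h1)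
      have hpr : ∀ 𝔓 ∈ Φ, 𝔓.IsPrime := by
        intro 𝔓 h𝔓
        obtain ⟨σ', hσ', -⟩ := hF _ h𝔓
        exact hσ'.1
      have hlogle := log_norm_ge hbot hpr hx0 hxm
      have hsumlog : ∑ φ : K →ₐ[ℚ] ℂ, Real.log ‖φ (algebraMap (𝓞 K) K (w s : 𝓞 K)) -
          φ (algebraMap (𝓞 K) K (w s' : 𝓞 K))‖ =
          ∑ φ : K →ₐ[ℚ] ℂ, Real.log ‖φ (algebraMap (𝓞 K) K x)‖ := by
        refine Finset.sum_congr rfl fun φ _ => ?_
        rw [hx, map_sub, map_sub]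
      rw [hsumlog]
      have hlp : Real.log 2 ≤ Real.log p := by
        apply Real.log_le_log (by norm_num)
        exact_mod_cast hp.two_le
      calc (finrank ℚ K : ℝ) * Real.log 2 ≤ finrank ℚ K * Real.log p := by gcongr
        _ ≤ _ := hN
        _ ≤ _ := by gcongr)
    (τ := r * T * ((p : ℝ) ^ a + 1) * Λ / finrank ℚ K) (by
      intro s
      refine (hlam s).trans (le_of_eq ?_)
      field_simp)
    (by
      rw [Fintype.card_fun, Fintype.card_fin, Fintype.card_fin]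
      push_cast
      exact hT)
  rw [le_div_iff₀ hN0] at hfin
  have h3 : (0:ℝ) < 16 * M := by positivity
  calc (finrank ℚ K : ℝ) = 16 * M * (1 / (16 * M) * finrank ℚ K) := by field_simp
    _ ≤ _ := mul_le_mul_of_nonneg_left hfin h3.le

end Pool.Agent.Run7.h22
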