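import Mathlib
import Pool.Agent.Run7.h22.Rel3

/-!
# Units of bounded degree over a Galois field with few Frobenius automorphisms: the low rank case
-/

set_option autoImplicit false

open Finset Module NumberField

namespace Pool.Agent.Run7.h22

open Pool.Agent.H388SL

lemma ncard_image_le_of_factor {X Y Z : Type*} {S : Set X} (hS : S.Finite) (f : X → Y) (g : X → Z)
    (h : ∀ x ∈ S, ∀ y ∈ S, g x = g y → f x = f y) : (f '' S).ncard ≤ (g '' S).ncard := by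
  classical
  rcases S.eq_empty_or_nonempty with hS0 | ⟨x₀, hx₀⟩
  · rw [hS0, Set.image_empty, Set.image_empty, Set.ncard_empty, Set.ncard_empty]
  set F : Z → Y := fun z => if hz : ∃ x ∈ S, g x = z then f hz.choose else f x₀ with hF
  have h1 : f '' S ⊆ F '' (g '' S) := by
    rintro _ ⟨x, hx, rfl⟩
    refine ⟨g x, ⟨x, hx, rfl⟩, ?_⟩
    have hz : ∃ y ∈ S, g y = g x := ⟨x, hx, rfl⟩
    rw [hF]
    simp only [dif_pos hz]
    exact h _ hz.choose_spec.1 x hx hz.choose_spec.2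
  calc (f '' S).ncard ≤ (F '' (g '' S)).ncard :=
        Set.ncard_le_ncard h1 ((hS.image g).image F)
    _ ≤ (g '' S).ncard := Set.ncard_image_le (hS.image g)

variable {K : Type} [Field K] [NumberField K]

/-- the orbit of an element under a group of automorphisms -/
def orbN (N : Subgroup (K ≃ₐ[ℚ] K)) (x : K) : Set K := (fun τ : K ≃ₐ[ℚ] K => τ x) '' (N : Set (K ≃ₐ[ℚ] K))

lemma orbN_finite (N : Subgroup (K ≃ₐ[ℚ] K)) (x : K) : (orbN N x).Finite := (Set.toFinite _).image _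

/-- the orbits of conjugate elements under a normal subgroup -/
lemma orbN_conj (N : Subgroup (K ≃ₐ[ℚ] K)) [N.Normal] (g : K ≃ₐ[ℚ] K) (x : K) :
    (orbN N (g x)).ncard ≤ (orbN N x).ncard := by
  have h1 : orbN N (g x) ⊆ g '' orbN N x := by
    rintro _ ⟨τ, hτ, rfl⟩
    refine ⟨(g⁻¹ * τ * g) x, ⟨g⁻¹ * τ * g, ?_, rfl⟩, ?_⟩
    · have := (inferInstance : N.Normal).conj_mem τ hτ g⁻¹
      rwa [inv_inv] at this
    · rw [← AlgEquiv.mul_apply]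
      show (g * (g⁻¹ * τ * g)) x = τ (g x)
      rw [← AlgEquiv.mul_apply]
      congr 1
      group
  calc (orbN N (g x)).ncard ≤ (g '' orbN N x).ncard :=
        Set.ncard_le_ncard h1 ((orbN_finite N x).image g)
    _ ≤ (orbN N x).ncard := Set.ncard_image_le (orbN_finite N x)

/-- the number of the joint images of several elements under the automorphisms of a given set -/
lemma tuple_count (N : Subgroup (K ≃ₐ[ℚ] K)) (S : Set (K ≃ₐ[ℚ] K)) {r D k : ℕ} (B : Fin r → K)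
    (hD : ∀ j, (orbN N (B j)).ncard ≤ D)
    (hk : ((fun σ => (QuotientGroup.mk σ : (K ≃ₐ[ℚ] K) ⧸ N)) '' S).ncard ≤ k) :
    ((fun σ : K ≃ₐ[ℚ] K => ((QuotientGroup.mk σ : (K ≃ₐ[ℚ] K) ⧸ N), fun j => σ (B j))) '' S).ncard ≤
      k * D ^ r := by
  classical
  set C : Finset ((K ≃ₐ[ℚ] K) ⧸ N) :=
    ((Set.toFinite S).image (fun σ => (QuotientGroup.mk σ : (K ≃ₐ[ℚ] K) ⧸ N))).toFinset with hC
  have hCcard : C.card ≤ k := by
    rwa [Set.ncard_eq_toFinset_card _ ((Set.toFinite S).image _)] at hk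
  set P : (K ≃ₐ[ℚ] K) ⧸ N → Finset (((K ≃ₐ[ℚ] K) ⧸ N) × (Fin r → K)) := fun c =>
    ({c} : Finset ((K ≃ₐ[ℚ] K) ⧸ N)) ×ˢ
      Fintype.piFinset (fun j => ((orbN_finite N (B j)).toFinset).image (c.out : K ≃ₐ[ℚ] K)) with hP
  have hPcard : ∀ c, (P c).card ≤ D ^ r := by
    intro c
    rw [hP]
    simp only [Finset.card_product, Finset.card_singleton, one_mul, Fintype.card_piFinset]
    calc ∏ j : Fin r, (((orbN_finite N (B j)).toFinset).image (c.out : K ≃ₐ[ℚ] K)).card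
        ≤ ∏ _j : Fin r, D := by
          apply Finset.prod_le_prod' fun j _ => ?_
          refine Finset.card_image_le.trans ?_
          rw [← Set.ncard_eq_toFinset_card _ (orbN_finite N (B j))]
          exact hD j
      _ = D ^ r := by rw [Finset.prod_const, Finset.card_univ, Fintype.card_fin]
  have hsub : ((fun σ : K ≃ₐ[ℚ] K => ((QuotientGroup.mk σ : (K ≃ₐ[ℚ] K) ⧸ N), fun j => σ (B j))) '' S) ⊆
      (C.biUnion P : Finset _) := by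
    rintro _ ⟨σ, hσ, rfl⟩
    rw [Finset.mem_coe, Finset.mem_biUnion]
    refine ⟨QuotientGroup.mk σ, ?_, ?_⟩
    · rw [hC, Set.Finite.mem_toFinset]
      exact ⟨σ, hσ, rfl⟩
    · rw [hP]
      simp only [Finset.mem_product, Finset.mem_singleton, Fintype.mem_piFinset, true_and]
      intro j
      set σ₀ : K ≃ₐ[ℚ] K := (QuotientGroup.mk σ : (K ≃ₐ[ℚ] K) ⧸ N).out with hσ₀
      have h1 : σ₀⁻¹ * σ ∈ N := by
        rw [← QuotientGroup.eq]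
        exact QuotientGroup.out_eq' _
      refine Finset.mem_image.mpr ⟨(σ₀⁻¹ * σ) (B j), ?_, ?_⟩
      · rw [Set.Finite.mem_toFinset]
        exact ⟨σ₀⁻¹ * σ, h1, rfl⟩
      · rw [← AlgEquiv.mul_apply, mul_inv_cancel_left]
  calc _ ≤ ((C.biUnion P : Finset _) : Set (((K ≃ₐ[ℚ] K) ⧸ N) × (Fin r → K))).ncard :=
        Set.ncard_le_ncard hsub (Finset.finite_toSet _)
    _ = (C.biUnion P).card := Set.ncard_coe_finset _
    _ ≤ ∑ c ∈ C, (P c).card := Finset.card_biUnion_le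
    _ ≤ ∑ _c ∈ C, D ^ r := Finset.sum_le_sum fun c _ => hPcard c
    _ = C.card * D ^ r := by rw [Finset.sum_const, smul_eq_mul]
    _ ≤ k * D ^ r := Nat.mul_le_mul_right _ hCcard

lemma act_mul (g h : K ≃ₐ[ℚ] K) (v : (K →ₐ[ℚ] ℂ) → ℝ) : act (g * h) v = act g (act h v) := rfl

lemma act_one (v : (K →ₐ[ℚ] ℂ) → ℝ) : act (1 : K ≃ₐ[ℚ] K) v = v := rfl

/-- the automorphisms in `N` which act trivially on the conjugates of `α`, up to roots of unity, and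
on the `p`-th powers of the roots of unity -/
def kerN (p : ℕ) (N : Subgroup (K ≃ₐ[ℚ] K)) (α : K) : Subgroup (K ≃ₐ[ℚ] K) where
  carrier := {τ | τ ∈ N ∧ (∀ ζ : K, (∃ n : ℕ, 0 < n ∧ ζ ^ n = 1) → τ (ζ ^ p) = ζ ^ p) ∧
    ∀ g : K ≃ₐ[ℚ] K, lg (τ (g α)) = lg (g α)}
  one_mem' := ⟨N.one_mem, fun _ _ => rfl, fun _ => rfl⟩
  mul_mem' := by
    rintro τ₁ τ₂ ⟨h1, h2, h3⟩ ⟨h1', h2', h3'⟩
    refine ⟨N.mul_mem h1 h1', fun ζ hζ => ?_, fun g => ?_⟩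
    · rw [AlgEquiv.mul_apply, h2' ζ hζ, h2 ζ hζ]
    · have h4 := h3 (τ₂ * g)
      rw [AlgEquiv.mul_apply] at h4
      rw [AlgEquiv.mul_apply, h4, h3']
  inv_mem' := by
    rintro τ ⟨h1, h2, h3⟩
    refine ⟨N.inv_mem h1, fun ζ hζ => ?_, fun g => ?_⟩
    · apply τ.injective
      rw [h2 ζ hζ, ← AlgEquiv.mul_apply, mul_inv_cancel, AlgEquiv.one_apply]
    · have h4 := h3 (τ⁻¹ * g)
      rw [AlgEquiv.mul_apply, ← AlgEquiv.mul_apply, mul_inv_cancel, AlgEquiv.one_apply] at h4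
      exact h4.symm

lemma kerN_normal (p : ℕ) (N : Subgroup (K ≃ₐ[ℚ] K)) [hN : N.Normal] (α : K) : (kerN p N α).Normal := by
  refine ⟨fun τ hτ h => ?_⟩
  obtain ⟨h1, h2, h3⟩ := hτ
  refine ⟨hN.conj_mem τ h1 h, fun ζ hζ => ?_, fun g => ?_⟩
  · obtain ⟨n, hn, hn1⟩ := hζ
    have h4 := h2 (h⁻¹ ζ) ⟨n, hn, by rw [← map_pow, hn1, map_one]⟩
    rw [AlgEquiv.mul_apply, AlgEquiv.mul_apply, map_pow h⁻¹, h4, map_pow, ← AlgEquiv.mul_apply,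
      mul_inv_cancel, AlgEquiv.one_apply]
  · have h4 := h3 (h⁻¹ * g)
    rw [AlgEquiv.mul_apply, AlgEquiv.mul_apply, lg_act h]
    rw [AlgEquiv.mul_apply] at h4
    rw [h4, ← lg_act, ← AlgEquiv.mul_apply, mul_inv_cancel, AlgEquiv.one_apply]

/-- the images of roots of unity under Frobenius automorphisms -/
lemma frob_root {p a : ℕ} (hp : p.Prime)
    (hunr : ∀ 𝔓 : Ideal (𝓞 K), 𝔓.IsPrime → (p : 𝓞 K) ∈ 𝔓 → (p : 𝓞 K) ∉ 𝔓 ^ 2) {σ : K ≃ₐ[ℚ] K}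
    (hσ : σ ∈ frobSet K p (p ^ a)) {ζ : K} {n : ℕ} (hn : 0 < n) (hζ : ζ ^ n = 1) :
    σ (ζ ^ p) = (ζ ^ p ^ a) ^ p := by
  obtain ⟨𝔓, h𝔓⟩ := hσ
  have hζi : IsIntegral ℤ ζ := by
    refine ⟨Polynomial.X ^ n - 1, Polynomial.monic_X_pow_sub_C 1 hn.ne', ?_⟩
    simp [hζ]
  set z : 𝓞 K := ⟨ζ, hζi⟩ with hz
  have hzζ : algebraMap (𝓞 K) K z = ζ := rfl
  have hzn : z ^ n = 1 := by
    apply RingOfIntegers.coe_injective
    rw [map_pow, hzζ, hζ, map_one]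
  have h1 : σ • z - z ^ p ^ a ∈ 𝔓 := h𝔓.2.2 z
  have h2 := pow_sub_mem_sq h𝔓.2.1 h1
  set y : 𝓞 K := (σ • z) ^ p * ((z ^ p ^ a) ^ p) ^ (n - 1) with hy
  have hzz : ((z ^ p ^ a) ^ p) ^ n = 1 := by
    have h0 : ((z ^ p ^ a) ^ p) ^ n = ((z ^ n) ^ p ^ a) ^ p := by ring
    rw [h0, hzn, one_pow, one_pow]
  have h3 : y - 1 ∈ 𝔓 ^ 2 := by
    have h4 : y - 1 = ((σ • z) ^ p - (z ^ p ^ a) ^ p) * ((z ^ p ^ a) ^ p) ^ (n - 1) := by
      rw [sub_mul, hy]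
      congr 1
      rw [← pow_succ', Nat.sub_add_cancel hn, hzz]
    rw [h4]
    exact Ideal.mul_mem_right _ _ h2
  have h4 : y ^ n = 1 := by
    rw [hy, mul_pow]
    have h5 : ((σ • z) ^ p) ^ n = 1 := by
      rw [← pow_mul, mul_comm, pow_mul]
      have h6 : (σ • z) ^ n = 1 := by rw [← smul_pow', hzn, smul_one]
      rw [h6, one_pow]
    rw [h5, one_mul, ← pow_mul, mul_comm, pow_mul, hzz, one_pow]
  have h5 : y = 1 := torsion_one hp h𝔓.1 h𝔓.2.1 (hunr 𝔓 h𝔓.1 h𝔓.2.1) h3 hn h4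
  have h6 : (σ • z) ^ p = (z ^ p ^ a) ^ p := by
    calc (σ • z) ^ p = (σ • z) ^ p * ((z ^ p ^ a) ^ p) ^ n := by rw [hzz, mul_one]
      _ = y * (z ^ p ^ a) ^ p := by
          rw [hy, mul_assoc, ← pow_succ, Nat.sub_add_cancel hn]
      _ = (z ^ p ^ a) ^ p := by rw [h5, one_mul]
  have h7 := congrArg (algebraMap (𝓞 K) K) h6
  rw [map_pow, map_pow, map_pow, smul_coe, hzζ] at h7
  rw [map_pow]
  exact h7

/-- the number of the Frobenius automorphisms modulo `kerN` -/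
lemma kerN_count {p a : ℕ} (hp : p.Prime)
    (hunr : ∀ 𝔓 : Ideal (𝓞 K), 𝔓.IsPrime → (p : 𝓞 K) ∈ 𝔓 → (p : 𝓞 K) ∉ 𝔓 ^ 2)
    (N : Subgroup (K ≃ₐ[ℚ] K)) [N.Normal] {α : K} {D k R : ℕ} (hD : (orbN N α).ncard ≤ D)
    (hk : (frobMod p (p ^ a) N).ncard ≤ k) (B : Fin R → K) (hB : ∀ j, ∃ g : K ≃ₐ[ℚ] K, g α = B j)
    (hspan : ∀ g : K ≃ₐ[ℚ] K, lg (g α) ∈ Submodule.span ℚ (Set.range fun j => lg (B j))) :
    (frobMod p (p ^ a) (kerN p N α)).ncard ≤ k * D ^ R := by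
  have hDB : ∀ j, (orbN N (B j)).ncard ≤ D := by
    intro j
    obtain ⟨g, hg⟩ := hB j
    rw [← hg]
    exact (orbN_conj N g α).trans hD
  refine le_trans ?_ (tuple_count N (frobSet K p (p ^ a)) B hDB hk)
  unfold frobMod
  apply ncard_image_le_of_factor (Set.toFinite _)
  intro σ hσ σ' hσ' heq
  have he1 : (QuotientGroup.mk σ : (K ≃ₐ[ℚ] K) ⧸ N) = QuotientGroup.mk σ' := congrArg Prod.fst heq
  have he2 : ∀ j, σ (B j) = σ' (B j) := fun j => congrFun (congrArg Prod.snd heq) j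
  rw [QuotientGroup.eq]
  refine ⟨QuotientGroup.eq.mp he1, fun ζ hζ => ?_, fun g => ?_⟩
  · obtain ⟨n, hn, hn1⟩ := hζ
    rw [AlgEquiv.mul_apply, frob_root hp hunr hσ' hn hn1, ← frob_root hp hunr hσ hn hn1,
      ← AlgEquiv.mul_apply, inv_mul_cancel, AlgEquiv.one_apply]
  · set τ := σ⁻¹ * σ' with hτ
    -- the action on the span
    let A : ((K →ₐ[ℚ] ℂ) → ℝ) →ₗ[ℚ] ((K →ₐ[ℚ] ℂ) → ℝ) :=
      { toFun := act τ
        map_add' := fun v w => rfl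
        map_smul' := fun c v => rfl }
    have h1 : Set.EqOn A (LinearMap.id : ((K →ₐ[ℚ] ℂ) → ℝ) →ₗ[ℚ] ((K →ₐ[ℚ] ℂ) → ℝ))
        (Set.range fun j => lg (B j)) := by
      rintro _ ⟨j, rfl⟩
      show act τ (lg (B j)) = lg (B j)
      rw [← lg_act]
      congr 1
      rw [hτ, AlgEquiv.mul_apply, ← he2 j, ← AlgEquiv.mul_apply, inv_mul_cancel, AlgEquiv.one_apply]
    have h2 := LinearMap.eqOn_span h1 (hspan g)
    exact h2

/-- a power of `α` is fixed by `kerN` -/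
lemma kerN_fixed {p : ℕ} (N : Subgroup (K ≃ₐ[ℚ] K)) {α : K} (hα : IsU α) {D : ℕ}
    (hD : (orbN N α).ncard ≤ D) :
    ∃ e : ℕ, 1 ≤ e ∧ e ≤ D ∧ ∀ τ ∈ kerN p N α, τ (α ^ (p * e)) = α ^ (p * e) := by
  classical
  set M := kerN p N α with hM
  have hα0 := hα.1
  have hroot : ∀ τ ∈ M, ∃ n : ℕ, 0 < n ∧ (τ α * α⁻¹) ^ n = 1 := by
    intro τ hτ
    have h1 := hτ.2.2 1
    rw [AlgEquiv.one_apply] at h1
    have hU : IsU (τ α * α⁻¹) := by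
      have h2 := hα.aut τ
      refine ⟨mul_ne_zero h2.1 (inv_ne_zero hα0), h2.2.1.mul hα.2.2, ?_⟩
      rw [mul_inv, inv_inv]
      exact h2.2.2.mul hα.2.1
    apply hU.root
    rw [lg_mul ((map_ne_zero τ).mpr hα0) (inv_ne_zero hα0), lg_inv, h1, add_neg_cancel]
  have hne : ∀ τ : K ≃ₐ[ℚ] K, (τ α * α⁻¹) ^ p ≠ 0 := fun τ =>
    pow_ne_zero _ (mul_ne_zero ((map_ne_zero τ).mpr hα0) (inv_ne_zero hα0))
  let χ : M →* Kˣ :=
    { toFun := fun τ => Units.mk0 (((τ : K ≃ₐ[ℚ] K) α * α⁻¹) ^ p) (hne τ)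
      map_one' := by
        apply Units.ext
        show (((1 : K ≃ₐ[ℚ] K) α * α⁻¹) ^ p) = 1
        rw [AlgEquiv.one_apply, mul_inv_cancel₀ hα0, one_pow]
      map_mul' := by
        intro τ₁ τ₂
        apply Units.ext
        show (((τ₁ : K ≃ₐ[ℚ] K) * (τ₂ : K ≃ₐ[ℚ] K)) α * α⁻¹) ^ p =
          ((τ₁ : K ≃ₐ[ℚ] K) α * α⁻¹) ^ p * ((τ₂ : K ≃ₐ[ℚ] K) α * α⁻¹) ^ p
        set ζ := (τ₂ : K ≃ₐ[ℚ] K) α * α⁻¹ with hζ
        have h1 : (τ₂ : K ≃ₐ[ℚ] K) α = ζ * α := by rw [hζ, inv_mul_cancel_right₀ hα0]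
        have h2 : (τ₁ : K ≃ₐ[ℚ] K) (ζ ^ p) = ζ ^ p := τ₁.2.2.1 ζ (hroot τ₂ τ₂.2)
        rw [AlgEquiv.mul_apply, h1, map_mul, mul_assoc, mul_pow, ← map_pow, h2, mul_comm] }
  have hcard : Nat.card χ.range ≤ D := by
    have h1 : ((χ.range : Subgroup Kˣ) : Set Kˣ).ncard ≤ (orbN N α).ncard := by
      have h2 : ((χ.range : Subgroup Kˣ) : Set Kˣ) ⊆
          (fun y : K => if hy : y ≠ 0 then Units.mk0 ((y * α⁻¹) ^ p)
            (pow_ne_zero _ (mul_ne_zero hy (inv_ne_zero hα0))) else 1) '' orbN N α := by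
        rintro _ ⟨τ, rfl⟩
        refine ⟨(τ : K ≃ₐ[ℚ] K) α, ⟨τ, τ.2.1, rfl⟩, ?_⟩
        have h3 : (τ : K ≃ₐ[ℚ] K) α ≠ 0 := (map_ne_zero (τ : K ≃ₐ[ℚ] K)).mpr hα0
        simp only [dif_pos h3]
        rfl
      exact (Set.ncard_le_ncard h2 ((orbN_finite N α).image _)).trans
        (Set.ncard_image_le (orbN_finite N α))
    rw [← Nat.card_coe_set_eq] at h1
    exact h1.trans hD
  have hfin : Finite χ.range := by
    have : Finite M := inferInstance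
    exact Set.finite_range χ
  refine ⟨Nat.card χ.range, Nat.card_pos, hcard, fun τ hτ => ?_⟩
  have h1 : (⟨χ ⟨τ, hτ⟩, ⟨⟨τ, hτ⟩, rfl⟩⟩ : χ.range) ^ Nat.card χ.range = 1 := pow_card_eq_one'
  have h2 : ((((⟨χ ⟨τ, hτ⟩, ⟨⟨τ, hτ⟩, rfl⟩⟩ : χ.range) ^ Nat.card χ.range : χ.range) : Kˣ) : K) =
      ((1 : χ.range) : Kˣ) := by rw [h1]
  have h3 : ((χ ⟨τ, hτ⟩ : Kˣ) : K) = (τ α * α⁻¹) ^ p := rfl
  rw [Subgroup.coe_pow, Units.val_pow_eq_pow_val, Subgroup.coe_one, Units.val_one] at h2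
  have h4 : (((⟨χ ⟨τ, hτ⟩, ⟨⟨τ, hτ⟩, rfl⟩⟩ : χ.range) : Kˣ) : K) = (τ α * α⁻¹) ^ p := rfl
  rw [h4, ← pow_mul, mul_pow, inv_pow, mul_inv_eq_one₀ (pow_ne_zero _ hα0)] at h2
  rw [map_pow]
  exact h2

end Pool.Agent.Run7.h22
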