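import Mathlib
import Pool.Agent.Run7.h22.Abs

/-!
# The logarithms of all absolute values of an element of a number field
-/

set_option autoImplicit false

open Finset Module NumberField

namespace Pool.Agent.Run7.h22

open Pool.Agent.H388SL

variable {K : Type*} [Field K] [NumberField K]

lemma fsupp {x : K} (hx : x ≠ 0) : {v : FinitePlace K | Real.log (v x) ≠ 0}.Finite := by
  refine (FinitePlace.hasFiniteMulSupport hx).subset ?_
  intro v hv h1
  apply hv
  show Real.log (v x) = 0
  have h2 : v x = 1 := h1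
  rw [h2, Real.log_one]

lemma fp_pos (v : FinitePlace K) {x : K} (hx : x ≠ 0) : 0 < v x := by
  rw [v.pos_iff]
  exact hx

open Classical in
/-- the logarithms of the nonarchimedean absolute values -/
noncomputable def fl (x : K) : FinitePlace K →₀ ℝ :=
  if h : x = 0 then 0 else Finsupp.ofSupportFinite (fun v => Real.log (v x)) (fsupp h)

lemma fl_apply {x : K} (hx : x ≠ 0) (v : FinitePlace K) : fl x v = Real.log (v x) := by
  unfold fl
  rw [dif_neg hx]
  rfl

lemma fl_one : fl (1 : K) = 0 := by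
  ext v
  rw [fl_apply one_ne_zero, map_one, Real.log_one]
  rfl

lemma fl_mul {x y : K} (hx : x ≠ 0) (hy : y ≠ 0) : fl (x * y) = fl x + fl y := by
  ext v
  rw [fl_apply (mul_ne_zero hx hy), Finsupp.add_apply, fl_apply hx, fl_apply hy, map_mul,
    Real.log_mul (fp_pos v hx).ne' (fp_pos v hy).ne']

lemma fl_inv (x : K) : fl x⁻¹ = - fl x := by
  by_cases hx : x = 0
  · rw [hx, inv_zero]
    unfold fl
    simp
  · ext v
    rw [fl_apply (inv_ne_zero hx), Finsupp.neg_apply, fl_apply hx, map_inv₀, Real.log_inv]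

/-- the nonarchimedean part of the height -/
noncomputable def hf (x : K) : ℝ := (fl x).sum fun _ r => max 0 r

lemma hf_nonneg (x : K) : 0 ≤ hf x := Finset.sum_nonneg fun _ _ => le_max_left _ _

lemma finsum_eq {x : K} (F : ℝ → ℝ) (hF : F 0 = 0) (hx : x ≠ 0) :
    ∑ᶠ v : FinitePlace K, F (Real.log (v x)) = (fl x).sum fun _ r => F r := by
  rw [Finsupp.sum]
  rw [finsum_eq_sum_of_support_subset (s := (fl x).support)]
  · exact Finset.sum_congr rfl fun v _ => by rw [fl_apply hx]
  · intro v hv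
    rw [Finset.mem_coe, Finsupp.mem_support_iff, fl_apply hx]
    intro h
    apply hv
    show F (Real.log (v x)) = 0
    rw [h, hF]

/-- sums over the embeddings and over the infinite places -/
lemma sum_places (F : ℝ → ℝ) (x : K) :
    ∑ v : InfinitePlace K, v.mult * F (v x) = ∑ φ : K →ₐ[ℚ] ℂ, F ‖φ x‖ := by
  classical
  have h1 : ∑ φ : K →ₐ[ℚ] ℂ, F ‖φ x‖ = ∑ φ : K →+* ℂ, F ‖φ x‖ := by
    refine Fintype.sum_equiv (RingHom.equivRatAlgHom K ℂ).symm _ _ ?_
    intro φ
    rfl
  rw [h1]
  rw [← Finset.sum_fiberwise (s := (Finset.univ : Finset (K →+* ℂ))) (g := InfinitePlace.mk)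
    (f := fun φ => F ‖φ x‖)]
  refine Finset.sum_congr rfl fun v _ => ?_
  have h2 : ∀ φ ∈ (Finset.univ : Finset (K →+* ℂ)).filter (fun φ => InfinitePlace.mk φ = v),
      F ‖φ x‖ = F (v x) := by
    intro φ hφ
    rw [Finset.mem_filter] at hφ
    rw [← hφ.2]
    rfl
  rw [Finset.sum_congr rfl h2, Finset.sum_const, InfinitePlace.card_filter_mk_eq, nsmul_eq_mul]

/-- the relative height -/
lemma ht_eq {x : K} (hx : x ≠ 0) : Height.logHeight₁ x = lam x + hf x := by
  rw [NumberField.logHeight₁_eq]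
  have h1 : ∑ v : InfinitePlace K, (v.mult : ℝ) * Real.posLog (v x) = lam x := by
    rw [sum_places Real.posLog x]
    unfold lam
    refine Finset.sum_congr rfl fun φ _ => ?_
    rw [Real.posLog_eq_log_max_one (norm_nonneg _)]
  have h2 : ∑ᶠ v : FinitePlace K, Real.posLog (v x) = hf x := by
    unfold hf
    rw [← finsum_eq (fun r => max 0 r) (by simp) hx]
    refine finsum_congr fun v => ?_
    rw [Real.posLog]
  rw [h1, h2]

/-- the product formula -/
lemma product_formula {x : K} (hx : x ≠ 0) :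
    ∑ φ : K →ₐ[ℚ] ℂ, Real.log ‖φ x‖ = - (fl x).sum fun _ r => r := by
  have h1 := prod_abs_eq_one hx
  have h2 : Real.log (∏ᶠ w : FinitePlace K, w x) = (fl x).sum fun _ r => r := by
    rw [← finsum_eq (fun r => r) rfl hx]
    have hfin : (Function.mulSupport fun w : FinitePlace K => w x).Finite :=
      FinitePlace.hasFiniteMulSupport hx
    rw [finprod_eq_prod_of_mulSupport_subset (s := hfin.toFinset) _ (by
      intro v hv
      rw [Finset.mem_coe, Set.Finite.mem_toFinset]
      exact hv)]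
    rw [Real.log_prod (fun v _ => (fp_pos v hx).ne')]
    rw [finsum_eq_sum_of_support_subset (s := hfin.toFinset)]
    intro v hv
    rw [Finset.mem_coe, Set.Finite.mem_toFinset]
    intro h
    apply hv
    show Real.log (v x) = 0
    have h' : v x = 1 := h
    rw [h', Real.log_one]
  have h3 : Real.log (∏ w : InfinitePlace K, w x ^ w.mult) = ∑ φ : K →ₐ[ℚ] ℂ, Real.log ‖φ x‖ := by
    rw [← sum_places Real.log x, Real.log_prod]
    · refine Finset.sum_congr rfl fun w _ => ?_
      rw [Real.log_pow]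
    · intro w _
      exact pow_ne_zero _ ((map_ne_zero w).mpr hx)
  have h4 : 0 < ∏ w : InfinitePlace K, w x ^ w.mult :=
    Finset.prod_pos fun w _ => pow_pos ((InfinitePlace.pos_iff).mpr hx) _
  have h5 : ∏ᶠ w : FinitePlace K, w x ≠ 0 := by
    intro h
    rw [h, mul_zero] at h1
    exact zero_ne_one h1
  have h6 := congrArg Real.log h1
  rw [Real.log_mul h4.ne' h5, Real.log_one, h2, h3] at h6
  linarith

/-- the difference of two elements -/
lemma sum_log_sub {x y : K} (hx : x ≠ 0) (hy : y ≠ 0) (hxy : x ≠ y) :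
    -(hf x + hf y) ≤ ∑ φ : K →ₐ[ℚ] ℂ, Real.log ‖φ x - φ y‖ := by
  have hne : x - y ≠ 0 := sub_ne_zero.mpr hxy
  have h1 := product_formula hne
  have h2 : ∑ φ : K →ₐ[ℚ] ℂ, Real.log ‖φ x - φ y‖ = ∑ φ : K →ₐ[ℚ] ℂ, Real.log ‖φ (x - y)‖ :=
    Finset.sum_congr rfl fun φ _ => by rw [map_sub]
  rw [h2, h1, neg_le_neg_iff]
  classical
  set S := (fl (x - y)).support ∪ (fl x).support ∪ (fl y).support with hS
  have e1 : ((fl (x - y)).sum fun _ r => r) = ∑ v ∈ S, fl (x - y) v := by
    rw [Finsupp.sum_of_support_subset _ 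
      (Finset.subset_union_left.trans Finset.subset_union_left) _ (by simp)]
  have e2 : hf x = ∑ v ∈ S, max 0 (fl x v) := by
    unfold hf
    rw [Finsupp.sum_of_support_subset _ 
      (Finset.subset_union_right.trans Finset.subset_union_left) _ (by simp)]
  have e3 : hf y = ∑ v ∈ S, max 0 (fl y v) := by
    unfold hf
    rw [Finsupp.sum_of_support_subset _ 
      Finset.subset_union_right _ (by simp)]
  rw [e1, e2, e3, ← Finset.sum_add_distrib]
  apply Finset.sum_le_sum
  intro v _
  rw [fl_apply hne, fl_apply hx, fl_apply hy]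
  have h3 : v (x - y) ≤ max (v x) (v y) := by
    have h4 := FinitePlace.add_le v x (-y)
    have h5 : v (-y) = v y := by
      have : (v (-y)) = v y := by
        rw [← neg_one_mul, map_mul]
        have h6 : v (-1 : K) = 1 := by
          have h7 : v (-1 : K) ^ 2 = 1 := by
            rw [← map_pow]; simp
          have h8 : 0 ≤ v (-1 : K) := apply_nonneg v _
          exact (pow_eq_one_iff_of_nonneg h8 (by norm_num)).mp h7
        rw [h6, one_mul]
      exact this
    rw [h5] at h4
    rwa [sub_eq_add_neg]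
  have h4 : 0 < v (x - y) := fp_pos v hne
  rcases le_total (v x) (v y) with h5 | h5
  · rw [max_eq_right h5] at h3
    have h6 := Real.log_le_log h4 h3
    have h7 := le_max_right 0 (Real.log (v y))
    have h8 := le_max_left 0 (Real.log (v x))
    linarith
  · rw [max_eq_left h5] at h3
    have h6 := Real.log_le_log h4 h3
    have h7 := le_max_right 0 (Real.log (v x))
    have h8 := le_max_left 0 (Real.log (v y))
    linarith

/-- the sum of the absolute values of the logarithms -/
lemma abs_sum_eq {x : K} (hx : x ≠ 0) :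
    (∑ φ : K →ₐ[ℚ] ℂ, |Real.log ‖φ x‖|) + ((fl x).sum fun _ r => |r|) = 2 * Height.logHeight₁ x := by
  have h1 := product_formula hx
  have h2 : ∑ φ : K →ₐ[ℚ] ℂ, |Real.log ‖φ x‖| = 2 * lam x - ∑ φ : K →ₐ[ℚ] ℂ, Real.log ‖φ x‖ := by
    unfold lam
    rw [Finset.mul_sum, ← Finset.sum_sub_distrib]
    refine Finset.sum_congr rfl fun φ _ => ?_
    have h3 : 0 < ‖φ x‖ := norm_pos_iff.mpr ((map_ne_zero φ).mpr hx)
    rcases le_total ‖φ x‖ 1 with h4 | h4
    · rw [max_eq_left h4, Real.log_one, abs_of_nonpos (Real.log_nonpos h3.le h4)]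
      ring
    · rw [max_eq_right h4, abs_of_nonneg (Real.log_nonneg h4)]
      ring
  have h3 : ((fl x).sum fun _ r => |r|) = 2 * hf x - (fl x).sum fun _ r => r := by
    unfold hf
    rw [Finsupp.sum, Finsupp.sum, Finsupp.sum, Finset.mul_sum, ← Finset.sum_sub_distrib]
    refine Finset.sum_congr rfl fun v _ => ?_
    rcases le_total (fl x v) 0 with h4 | h4
    · rw [max_eq_left h4, abs_of_nonpos h4]; ring
    · rw [max_eq_right h4, abs_of_nonneg h4]; ring
  rw [h2, h3, ht_eq hx, h1]
  ring

lemma sum_abs_le {x : K} (hx : x ≠ 0) :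
    ∑ φ : K →ₐ[ℚ] ℂ, |Real.log ‖φ x‖| ≤ 2 * Height.logHeight₁ x := by
  rw [← abs_sum_eq hx]
  have : 0 ≤ (fl x).sum fun _ r => |r| := Finset.sum_nonneg fun _ _ => abs_nonneg _
  linarith

/-- the logarithmic space -/
abbrev LV (K : Type*) [Field K] [NumberField K] : Type _ := ((K →ₐ[ℚ] ℂ) → ℝ) × (FinitePlace K →₀ ℝ)

/-- the vector of the logarithms of all absolute values -/
noncomputable def LL (x : K) : LV K := (lg x, fl x)

/-- the norm on the logarithmic space -/
noncomputable def Len (v : LV K) : ℝ := len v.1 + v.2.sum fun _ r => |r|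

lemma Len_add (v w : LV K) : Len (v + w) ≤ Len v + Len w := by
  classical
  unfold Len
  have h1 := len_add v.1 w.1
  have h2 : ((v.2 + w.2).sum fun _ r => |r|) ≤ (v.2.sum fun _ r => |r|) + (w.2.sum fun _ r => |r|) := by
    set S := v.2.support ∪ w.2.support with hS
    rw [Finsupp.sum_of_support_subset (v.2 + w.2) (s := S) Finsupp.support_add _ (by simp),
      Finsupp.sum_of_support_subset v.2 (s := S) Finset.subset_union_left _ (by simp),
      Finsupp.sum_of_support_subset w.2 (s := S) Finset.subset_union_right _ (by simp),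
      ← Finset.sum_add_distrib]
    apply Finset.sum_le_sum
    intro i _
    rw [Finsupp.add_apply]
    exact abs_add_le _ _
  have h3 : len (v + w).1 = len (v.1 + w.1) := rfl
  have h4 : (v + w).2 = v.2 + w.2 := rfl
  rw [h3, h4]
  linarith

lemma Len_neg (v : LV K) : Len (-v) = Len v := by
  unfold Len
  have h3 : (-v).1 = -v.1 := rfl
  have h4 : (-v).2 = -v.2 := rfl
  rw [h3, h4, len_neg, Finsupp.sum_neg_index (by simp)]
  simp

lemma Len_three (v : LV K) : Len ((3 : ℤ) • v) = 3 * Len v := by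
  unfold Len
  have h3 : ((3 : ℤ) • v).1 = (3 : ℤ) • v.1 := rfl
  have h4 : ((3 : ℤ) • v).2 = (3 : ℤ) • v.2 := rfl
  rw [h3, h4, len_three, mul_add, Finsupp.sum_smul_index' (by simp), Finsupp.mul_sum]
  congr 1
  refine Finsupp.sum_congr fun i _ => ?_
  rw [zsmul_eq_mul, abs_mul]
  norm_num

lemma LL_one : LL (1 : K) = 0 := by
  unfold LL
  rw [lg_one, fl_one]
  rfl

lemma LL_mul {x y : K} (hx : x ≠ 0) (hy : y ≠ 0) : LL (x * y) = LL x + LL y := by
  unfold LL
  rw [lg_mul hx hy, fl_mul hx hy]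
  rfl

lemma LL_inv (x : K) : LL x⁻¹ = - LL x := by
  unfold LL
  rw [lg_inv, fl_inv]
  rfl

lemma LL_pow {x : K} (hx : x ≠ 0) (n : ℕ) : LL (x ^ n) = n • LL x := by
  induction n with
  | zero => rw [pow_zero, LL_one, zero_smul]
  | succ n ih => rw [pow_succ, LL_mul (pow_ne_zero n hx) hx, ih, succ_nsmul]

lemma Len_LL {x : K} (hx : x ≠ 0) : Len (LL x) = 2 * Height.logHeight₁ x := abs_sum_eq hx

/-- an element with trivial logarithms is a root of unity -/
lemma LL_eq_zero {x : K} (hx : x ≠ 0) (h : LL x = 0) : ∃ n : ℕ, 0 < n ∧ x ^ n = 1 := by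
  have h1 : Height.logHeight₁ x = 0 := by
    have h2 := Len_LL hx
    rw [h] at h2
    have h3 : Len (0 : LV K) = 0 := by
      unfold Len len
      simp
    rw [h3] at h2
    linarith
  have hfl : fl x = 0 := congrArg Prod.snd h
  have hlg : lg x = 0 := congrArg Prod.fst h
  -- integrality
  have hint : IsIntegral ℤ x := by
    have h2 : ∀ v : FinitePlace K, v x ≤ 1 := by
      intro v
      have h3 : Real.log (v x) = 0 := by rw [← fl_apply hx, hfl]; rfl
      have h4 := fp_pos v hx
      have h5 := Real.log_eq_zero.mp h3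
      rcases h5 with h5 | h5 | h5
      · linarith
      · exact h5.le
      · linarith
    have h3 : x ∈ (algebraMap (𝓞 K) K).range := by
      refine IsDedekindDomain.HeightOneSpectrum.mem_integers_of_valuation_le_one (R := 𝓞 K) K x
        fun v => ?_
      have h4 := h2 (FinitePlace.mk v)
      rw [FinitePlace.mk_apply, FinitePlace.norm_embedding, HeightOneSpectrum.adicAbv_def] at h4
      have h5 : WithZeroMulInt.toNNReal (HeightOneSpectrum.absNorm_ne_zero v) (v.valuation K x) ≤ 1 := by
        exact_mod_cast h4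
      exact (WithZeroMulInt.toNNReal_le_one_iff (HeightOneSpectrum.one_lt_absNorm_nnreal v)).mp h5
    obtain ⟨y, hy⟩ := h3
    rw [← hy]
    exact y.2
  have h2 : ∀ φ : K →+* ℂ, ‖φ x‖ = 1 := by
    intro φ
    have h2 : Real.log ‖RingHom.equivRatAlgHom K ℂ φ x‖ = 0 := congrFun hlg (RingHom.equivRatAlgHom K ℂ φ)
    have h3 : Real.log ‖φ x‖ = 0 := h2
    have h4 : 0 < ‖φ x‖ := norm_pos_iff.mpr ((map_ne_zero φ).mpr hx)
    rcases Real.log_eq_zero.mp h3 with h5 | h5 | h5
    · exact absurd h5 h4.ne'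
    · exact h5
    · linarith
  obtain ⟨n, hn, hn1⟩ := NumberField.Embeddings.pow_eq_one_of_norm_eq_one K ℂ hint h2
  exact ⟨n, hn, hn1⟩

end Pool.Agent.Run7.h22
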