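import Mathlib
import Pool.Agent.Run7.h22.Main
import Pool.Agent.Run7.h22.EnN
import Pool.Agent.W469.CV.MH

/-!
# The abstract form of the argument, for all nonzero elements of a number field

`GoodNumbers k H Q`: `Q` is a torsion free group of nonzero elements of the number field `K`, stable
under the group `H` of automorphisms, whose index is at most `k`, and `256 k²` elements of `Q` cannot
all have height less than `1/(16 k)`.
-/

set_option autoImplicit false

open Finset Module NumberField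

namespace Pool.Agent.Run7.h22

open Pool.Agent.H388SL

lemma lh_ht (L : Type) [Field L] [NumberField L] (φ : L →+* Pool.Agent.H58P.Qb) (x : L) :
    Height.logHeight₁ x = finrank ℚ L * Pool.Agent.H58P.ht (φ x) := by
  have h1 := Pool.Agent.W469.CV.MH.ht_emb L φ x
  rw [← Height.logHeight₁_eq_log_mulHeight₁] at h1
  have h2 : (0:ℝ) < finrank ℚ L := by exact_mod_cast (finrank_pos : 0 < finrank ℚ L)
  rw [h1]
  field_simp

/-- an embedding into the algebraic numbers -/
noncomputable def embQb (L : Type) [Field L] [NumberField L] : L →+* Pool.Agent.H58P.Qb :=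
  (IsAlgClosed.lift (R := ℚ) (S := L) (M := AlgebraicClosure ℚ) : L →ₐ[ℚ] AlgebraicClosure ℚ)

lemma lh_aut {K : Type} [Field K] [NumberField K] (g : K ≃ₐ[ℚ] K) (x : K) :
    Height.logHeight₁ (g x) = Height.logHeight₁ x := by
  rw [lh_ht K (embQb K) (g x), lh_ht K ((embQb K).comp (g : K →+* K)) x]
  rfl

lemma lh_ext {F K : Type} [Field F] [NumberField F] [Field K] [NumberField K] [Algebra F K] (x : F) :
    Height.logHeight₁ (algebraMap F K x) = finrank F K * Height.logHeight₁ x := by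
  rw [lh_ht K (embQb K) (algebraMap F K x), lh_ht F ((embQb K).comp (algebraMap F K)) x,
    ← finrank_mul_finrank ℚ F K]
  push_cast
  rw [RingHom.comp_apply]
  ring

lemma lam_le_lh {K : Type*} [Field K] [NumberField K] {x : K} (hx : x ≠ 0) :
    lam x ≤ Height.logHeight₁ x := by
  rw [ht_eq hx]
  linarith [hf_nonneg x]

lemma lh_prod_le {K : Type*} [Field K] [NumberField K] {ι : Type*} (s : Finset ι) (f : ι → K)
    (n : ι → ℕ) :
    Height.logHeight₁ (∏ i ∈ s, f i ^ n i) ≤ ∑ i ∈ s, n i * Height.logHeight₁ (f i) := by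
  refine (Height.logHeight₁_prod_le s _).trans (le_of_eq ?_)
  refine Finset.sum_congr rfl fun i _ => ?_
  rw [Height.logHeight₁_pow]

lemma lh_of_not_integral {K : Type*} [Field K] [NumberField K] {x : K} (hx : ¬ IsIntegral ℤ x) :
    Real.log 2 ≤ Height.logHeight₁ x := by
  obtain ⟨n, hn0, hn1, hn2⟩ := NumberField.exists_nat_le_mulHeight₁ x
  have hn3 : 2 ≤ n := by
    rcases Nat.lt_or_ge n 2 with h | h
    · exfalso
      have h1 : n = 1 := by omega
      rw [h1, Nat.cast_one, one_mul] at hn2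
      exact hx hn2
    · exact h
  have h1 : (2 : ℝ) ≤ Height.mulHeight₁ x := le_trans (by exact_mod_cast hn3) hn1
  rw [Height.logHeight₁_eq_log_mulHeight₁]
  exact Real.log_le_log (by norm_num) h1

lemma lh_pos {K : Type*} [Field K] [NumberField K] {x : K} (hx : x ≠ 0)
    (hroot : ∀ n : ℕ, 0 < n → x ^ n ≠ 1) : 0 < Height.logHeight₁ x := by
  have hl2 : 0 < Real.log 2 := Real.log_pos (by norm_num)
  by_cases h1 : IsIntegral ℤ x
  · exact (lam_pos h1 hx hroot).trans_le (lam_le_lh hx)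
  · exact hl2.trans_le (lh_of_not_integral h1)

/-- lower bound from the degree of `β` -/
lemma case_small_gen : ∃ c0 : ℝ, 0 < c0 ∧ ∀ (K : Type) [Field K] [NumberField K] (β : K), β ≠ 0 →
    (∀ n : ℕ, 0 < n → β ^ n ≠ 1) → ∀ d : ℝ,
    (finrank ℚ (IntermediateField.adjoin ℚ {β}) : ℝ) ≤ d →
    c0 * finrank ℚ K ≤ d * (Real.log (2 * d)) ^ 3 * Height.logHeight₁ β := by
  obtain ⟨c0, hc0, hdob⟩ := dob
  have hl2 : 0 < Real.log 2 := Real.log_pos (by norm_num)
  refine ⟨min c0 (Real.log 2 ^ 4), lt_min hc0 (by positivity), ?_⟩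
  -- the case where `β` is not integral
  have key : ∀ (K : Type) [Field K] [NumberField K] (β : K), ¬ IsIntegral ℤ β → ∀ d : ℝ,
      (finrank ℚ (IntermediateField.adjoin ℚ {β}) : ℝ) ≤ d →
      Real.log 2 ^ 4 * finrank ℚ K ≤ d * (Real.log (2 * d)) ^ 3 * Height.logHeight₁ β := by
    intro K _ _ β hβ d hd
    set F := IntermediateField.adjoin ℚ {β} with hF
    set γ : F := IntermediateField.AdjoinSimple.gen ℚ β with hγ
    have hγβ : algebraMap F K γ = β := IntermediateField.AdjoinSimple.algebraMap_gen ℚ β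
    have hinj : Function.Injective (algebraMap F K) := (algebraMap F K).injective
    have hγi : ¬ IsIntegral ℤ γ := by
      intro h
      apply hβ
      rw [← hγβ]
      exact (isIntegral_algebraMap_iff hinj).mpr h
    have h1 := lh_of_not_integral hγi
    have h2 : Height.logHeight₁ β = finrank F K * Height.logHeight₁ γ := by
      rw [← lh_ext, hγβ]
    have h3 : (finrank ℚ K : ℝ) = finrank ℚ F * finrank F K := by
      rw [← finrank_mul_finrank ℚ F K]
      push_cast
      rfl
    have hF1 : (1:ℝ) ≤ finrank ℚ F := by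
      exact_mod_cast (finrank_pos : 0 < finrank ℚ F)
    have hd0 : 1 ≤ d := by linarith
    have hl : Real.log 2 ≤ Real.log (2 * d) := Real.log_le_log (by norm_num) (by linarith)
    have h4 : Real.log 2 ^ 3 ≤ Real.log (2 * d) ^ 3 := pow_le_pow_left₀ hl2.le hl 3
    have h5 : Real.log 2 ^ 4 ≤ Real.log (2 * d) ^ 3 * Height.logHeight₁ γ := by
      calc Real.log 2 ^ 4 = Real.log 2 ^ 3 * Real.log 2 := by ring
        _ ≤ _ := mul_le_mul h4 h1 hl2.le (pow_nonneg (hl2.le.trans hl) 3)
    rw [h2, h3]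
    calc Real.log 2 ^ 4 * (finrank ℚ F * finrank F K)
        = (finrank ℚ F * finrank F K) * Real.log 2 ^ 4 := by ring
      _ ≤ (d * finrank F K) * (Real.log (2 * d) ^ 3 * Height.logHeight₁ γ) := by
          apply mul_le_mul _ h5 (by positivity) (mul_nonneg (by linarith) (by positivity))
          exact mul_le_mul_of_nonneg_right hd (by positivity)
      _ = _ := by ring
  intro K _ _ β h0 hroot d hd
  have hd1 : 1 ≤ d := by
    have hF1 : (1:ℝ) ≤ finrank ℚ (IntermediateField.adjoin ℚ {β}) := by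
      exact_mod_cast (finrank_pos : 0 < finrank ℚ (IntermediateField.adjoin ℚ {β}))
    linarith
  have hN : (0:ℝ) ≤ finrank ℚ K := by positivity
  by_cases h1 : IsIntegral ℤ β
  · have h2 := case_small hc0 hdob h1 h0 hroot hd
    have h3 : 0 ≤ d * (Real.log (2 * d)) ^ 3 := by
      have : 0 ≤ Real.log (2 * d) := Real.log_nonneg (by linarith)
      positivity
    calc min c0 (Real.log 2 ^ 4) * finrank ℚ K ≤ c0 * finrank ℚ K :=
          mul_le_mul_of_nonneg_right (min_le_left _ _) hN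
      _ ≤ _ := h2
      _ ≤ _ := mul_le_mul_of_nonneg_left (lam_le_lh h0) h3
  · exact (mul_le_mul_of_nonneg_right (min_le_right _ _) hN).trans (key K β h1 d hd)

/-- the properties of the group -/
structure GoodNumbers (K : Type) [Field K] [NumberField K] (k : ℕ) (H : Subgroup (K ≃ₐ[ℚ] K))
    (Q : K → Prop) : Prop where
  index : H.index ≤ k
  one : Q 1
  mul : ∀ x y, Q x → Q y → Q (x * y)
  inv : ∀ x, Q x → Q x⁻¹
  ne_zero : ∀ x, Q x → x ≠ 0
  aut : ∀ g ∈ H, ∀ x, Q x → Q (g x)
  torsion : ∀ x, Q x → ∀ n : ℕ, 0 < n → x ^ n = 1 → x = 1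
  energy : ∀ (ι : Type) [Fintype ι] (u : ι → K), Function.Injective u → (∀ i, Q (u i)) → ∀ τ : ℝ,
    (∀ i, Height.logHeight₁ (u i) ≤ finrank ℚ K * τ) → 256 * (k : ℝ) ^ 2 ≤ Fintype.card ι → 1 / (16 * (k : ℝ)) ≤ τ

namespace GoodNumbers

variable {K : Type} [Field K] [NumberField K] {k : ℕ} {H : Subgroup (K ≃ₐ[ℚ] K)} {Q : K → Prop}

lemma pow (h : GoodNumbers K k H Q) {x : K} (hx : Q x) (n : ℕ) : Q (x ^ n) := by
  induction n with
  | zero => rw [pow_zero]; exact h.one
  | succ n ih => rw [pow_succ]; exact h.mul _ _ ih hx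

lemma prod (h : GoodNumbers K k H Q) {ι : Type*} (s : Finset ι) (f : ι → K) (hf : ∀ i ∈ s, Q (f i)) :
    Q (∏ i ∈ s, f i) := by
  classical
  induction s using Finset.induction_on with
  | empty => rw [Finset.prod_empty]; exact h.one
  | insert a s ha ih =>
    rw [Finset.prod_insert ha]
    exact h.mul _ _ (hf a (Finset.mem_insert_self a s))
      (ih fun i hi => hf i (Finset.mem_insert_of_mem hi))

lemma LL_prod (h : GoodNumbers K k H Q) {ι : Type*} (s : Finset ι) (f : ι → K)
    (hf : ∀ i ∈ s, Q (f i)) : LL (∏ i ∈ s, f i) = ∑ i ∈ s, LL (f i) := by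
  classical
  induction s using Finset.induction_on with
  | empty => rw [Finset.prod_empty, Finset.sum_empty]; exact LL_one
  | insert a s ha ih =>
    have h1 := h.prod s f (fun i hi => hf i (Finset.mem_insert_of_mem hi))
    rw [Finset.prod_insert ha, Finset.sum_insert ha,
      LL_mul (h.ne_zero _ (hf a (Finset.mem_insert_self a s))) (h.ne_zero _ h1),
      ih fun i hi => hf i (Finset.mem_insert_of_mem hi)]

/-- the image of the group in the logarithmic space -/
def lat (h : GoodNumbers K k H Q) : AddSubgroup (LV K) where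
  carrier := {v | ∃ x : K, Q x ∧ LL x = v}
  zero_mem' := ⟨1, h.one, LL_one⟩
  add_mem' := by
    rintro _ _ ⟨x, hx, rfl⟩ ⟨y, hy, rfl⟩
    exact ⟨x * y, h.mul _ _ hx hy, LL_mul (h.ne_zero _ hx) (h.ne_zero _ hy)⟩
  neg_mem' := by
    rintro _ ⟨x, hx, rfl⟩
    exact ⟨x⁻¹, h.inv _ hx, LL_inv x⟩

lemma LL_eq_zero' (h : GoodNumbers K k H Q) {x : K} (hx : Q x) (h0 : LL x = 0) : x = 1 := by
  obtain ⟨n, hn, hn1⟩ := LL_eq_zero (h.ne_zero x hx) h0
  exact h.torsion x hx n hn hn1

lemma LL_inj' (h : GoodNumbers K k H Q) {x y : K} (hx : Q x) (hy : Q y) (he : LL x = LL y) : x = y := by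
  have hx0 := h.ne_zero x hx
  have hy0 := h.ne_zero y hy
  have h1 : LL (x * y⁻¹) = 0 := by
    rw [LL_mul hx0 (inv_ne_zero hy0), LL_inv, he, add_neg_cancel]
  have h2 := h.LL_eq_zero' (h.mul _ _ hx (h.inv _ hy)) h1
  exact (mul_inv_eq_one₀ hy0).mp h2

lemma Len_LL' (h : GoodNumbers K k H Q) {x : K} (hx : Q x) :
    Len (LL x) = 2 * Height.logHeight₁ x := Len_LL (h.ne_zero x hx)

lemma exists_min' (h : GoodNumbers K k H Q) {x : K} (hx : Q x) (h1 : x ≠ 1) :
    ∃ β : K, Q β ∧ β ≠ 1 ∧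
      (∀ y : K, Q y → y ≠ 1 → Height.logHeight₁ β ≤ Height.logHeight₁ y) := by
  set T : Set K := {y | Q y ∧ y ≠ 1 ∧ Height.logHeight₁ y ≤ Height.logHeight₁ x} with hT
  have hfin : T.Finite := by
    apply (NumberField.finite_setOfPred_logHeight₁_le K (Height.logHeight₁ x)).subset
    intro y hy
    exact hy.2.2
  obtain ⟨β, hβ, hmin⟩ := Set.exists_min_image T Height.logHeight₁ hfin ⟨x, hx, h1, le_rfl⟩
  refine ⟨β, hβ.1, hβ.2.1, fun y hy hy1 => ?_⟩
  by_cases h2 : Height.logHeight₁ y ≤ Height.logHeight₁ x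
  · exact hmin y ⟨hy, hy1, h2⟩
  · push Not at h2
    exact hβ.2.2.trans h2.le

lemma one_le_k (h : GoodNumbers K k H Q) : 1 ≤ k := by
  have h1 : 0 < H.index := Nat.pos_of_ne_zero Subgroup.FiniteIndex.index_ne_zero
  exact h1.trans_le h.index

/-- many independent units of minimal height -/
lemma case_large (h : GoodNumbers K k H Q) {β : K} (B : Finset K) (hB : ∀ x ∈ B, Q x ∧ Height.logHeight₁ x = Height.logHeight₁ β)
    (hind : LinearIndependent ℤ (fun x : B => LL (x : K))) (m : ℕ)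
    (hm : 256 * (k : ℝ) ^ 2 ≤ ((m : ℝ) + 1) ^ B.card) :
    (finrank ℚ K : ℝ) ≤ 16 * k * (B.card * m * Height.logHeight₁ β) := by
  classical
  have hk1 : (1:ℝ) ≤ k := by exact_mod_cast h.one_le_k
  have hN0 : (0:ℝ) < finrank ℚ K := by exact_mod_cast (finrank_pos : 0 < finrank ℚ K)
  let u : (B → Fin (m + 1)) → K := fun e => ∏ b : B, (b : K) ^ (e b : ℕ)
  have hPu : ∀ e, Q (u e) := fun e =>
    h.prod Finset.univ (fun b : B => (b : K) ^ (e b : ℕ)) (fun b _ => h.pow (hB b.1 b.2).1 _)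
  have hlg : ∀ e, LL (u e) = ∑ b : B, ((e b : ℕ) : ℤ) • LL (b : K) := by
    intro e
    rw [h.LL_prod Finset.univ (fun b : B => (b : K) ^ (e b : ℕ))
      (fun b _ => h.pow (hB b.1 b.2).1 (e b : ℕ))]
    refine Finset.sum_congr rfl fun b _ => ?_
    rw [LL_pow (h.ne_zero _ (hB b.1 b.2).1), natCast_zsmul]
  have hinj : Function.Injective u := by
    intro e e' he
    have h1 : ∑ b : B, (((e b : ℕ) : ℤ) - ((e' b : ℕ) : ℤ)) • LL (b : K) = 0 := by
      simp_rw [sub_smul]
      rw [Finset.sum_sub_distrib, ← hlg, ← hlg, he, sub_self]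
    have h2 := (Fintype.linearIndependent_iff.mp hind) _ h1
    funext b
    apply Fin.ext
    have := h2 b
    omega
  have hcard : Fintype.card (B → Fin (m + 1)) = (m + 1) ^ B.card := by
    rw [Fintype.card_fun, Fintype.card_fin, Fintype.card_coe]
  have hlam : ∀ e, Height.logHeight₁ (u e) ≤ finrank ℚ K * ((B.card * m * Height.logHeight₁ β) / finrank ℚ K) := by
    intro e
    rw [mul_div_cancel₀ _ hN0.ne']
    refine (lh_prod_le _ _ _).trans ?_
    calc ∑ b : B, ((e b : ℕ) : ℝ) * Height.logHeight₁ (b : K) ≤ ∑ _b : B, (m : ℝ) * Height.logHeight₁ β := by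
          apply Finset.sum_le_sum
          intro b _
          rw [(hB b b.2).2]
          apply mul_le_mul_of_nonneg_right _ (Height.zero_le_logHeight₁ β)
          exact_mod_cast Nat.lt_succ_iff.mp (e b).2
      _ = B.card * m * Height.logHeight₁ β := by
          rw [Finset.sum_const, Finset.card_univ, Fintype.card_coe, nsmul_eq_mul]
          ring
  have h1 := h.energy (B → Fin (m + 1)) u hinj hPu _ hlam (by
      rw [hcard]
      push_cast
      exact hm)
  have hk0 : (0:ℝ) < k := by linarith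
  rw [div_le_div_iff₀ (by positivity) hN0, one_mul] at h1
  linarith

end GoodNumbers

/-- **The abstract theorem.** -/
theorem abs_gen : ∃ C : ℝ, 0 < C ∧ ∀ (K : Type) [Field K] [NumberField K] [IsGalois ℚ K] (k : ℕ)
    (H : Subgroup (K ≃ₐ[ℚ] K)) (Q : K → Prop), GoodNumbers K k H Q → ∀ x : K, Q x → x ≠ 1 →
    (finrank ℚ K : ℝ) ≤ C * (k * Real.exp (9 * Real.sqrt (Real.log (2 * k)))) * Height.logHeight₁ x := by
  classical
  obtain ⟨c0, hc0, hsm⟩ := case_small_gen
  refine ⟨32 + 1 / c0, by positivity, ?_⟩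
  intro K _ _ _ kn H Q hQ x0 hx0 hx01
  have hkk : (1:ℝ) ≤ (kn : ℝ) := by exact_mod_cast hQ.one_le_k
  obtain ⟨β, hPβ, hβ1, hmin⟩ := hQ.exists_min' hx0 hx01
  have hβ0 := hQ.ne_zero β hPβ
  have hrβ : ∀ n : ℕ, 0 < n → β ^ n ≠ 1 := fun n hn h1 => hβ1 (hQ.torsion β hPβ n hn h1)
  have hτ : 0 < Height.logHeight₁ β := lh_pos hβ0 hrβ
  have hβα : Height.logHeight₁ β ≤ Height.logHeight₁ x0 := hmin x0 hx0 hx01
  have horb : ∀ x ∈ orb H β, Q x ∧ Height.logHeight₁ x = Height.logHeight₁ β := by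
    intro x hx
    obtain ⟨g, hg, rfl⟩ := mem_orb.mp hx
    exact ⟨hQ.aut g hg β hPβ, lh_aut g β⟩
  obtain ⟨B, hBind, hBcard⟩ := exists_indep (V := LV K) Len Len_add Len_neg Len_three
    (fun x : orb H β => LL (x : K))
    (fun x y h => Subtype.ext (hQ.LL_inj' (horb x x.2).1 (horb y y.2).1 h)) (τ := 2 * Height.logHeight₁ β)
    (by linarith) hQ.lat (fun x => ⟨x, (horb x x.2).1, rfl⟩)
    (fun x => by rw [hQ.Len_LL' (horb x x.2).1, (horb x x.2).2])
    (by
      rintro _ ⟨x, hx, rfl⟩ hx0'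
      rw [hQ.Len_LL' hx]
      have : x ≠ 1 := by
        rintro rfl
        exact hx0' LL_one
      linarith [hmin x hx this])
  rw [Fintype.card_coe] at hBcard
  set k : ℝ := (kn : ℝ) with hk
  set s := Real.sqrt (Real.log (2 * k)) with hs
  obtain ⟨hn1, hn2, hs0⟩ := num_large hkk hs
  have hexp : 0 < Real.exp (9 * s) := Real.exp_pos _
  have hfin : (finrank ℚ K : ℝ) ≤ (32 + 1 / c0) * (k * Real.exp (9 * s)) * Height.logHeight₁ β := by
    rcases le_or_gt ⌈s⌉₊ B.card with hr | hr
    · obtain ⟨B', hB', hB'card⟩ := Finset.exists_subset_card_eq hr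
      set B2 : Finset K := B'.image Subtype.val with hB2
      have hB2card : B2.card = ⌈s⌉₊ := by
        rw [hB2, Finset.card_image_of_injective _ Subtype.val_injective, hB'card]
      have hB2mem : ∀ x ∈ B2, ∃ h : x ∈ orb H β, (⟨x, h⟩ : orb H β) ∈ B' := by
        intro x hx
        obtain ⟨y, hy, rfl⟩ := Finset.mem_image.mp hx
        exact ⟨y.2, hy⟩
      have hind2 : LinearIndependent ℤ (fun x : B2 => LL (x : K)) := by
        have h1 := hBind.comp (fun x : B2 =>
          (⟨⟨x, (hB2mem x x.2).1⟩, hB' (hB2mem x x.2).2⟩ : B)) (by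
            intro x y h
            have h2 := congrArg (fun z : B => ((z : orb H β) : K)) h
            exact Subtype.ext h2)
        exact h1
      have h1 := hQ.case_large (β := β) B2 (fun x hx => horb x (hB2mem x hx).1) hind2
        ⌈Real.exp (8 * s)⌉₊ (by rw [hB2card]; exact hn1)
      rw [hB2card] at h1
      refine h1.trans ?_
      have h2 : (⌈s⌉₊ : ℝ) * ⌈Real.exp (8 * s)⌉₊ * Height.logHeight₁ β ≤ 2 * Real.exp (9 * s) * Height.logHeight₁ β :=
        mul_le_mul_of_nonneg_right hn2 hτ.le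
      have h3 : 16 * k * ((⌈s⌉₊ : ℝ) * ⌈Real.exp (8 * s)⌉₊ * Height.logHeight₁ β) ≤
          16 * k * (2 * Real.exp (9 * s) * Height.logHeight₁ β) :=
        mul_le_mul_of_nonneg_left h2 (by positivity)
      refine h3.trans ?_
      have h4 : 0 ≤ 1 / c0 * (k * Real.exp (9 * s)) * Height.logHeight₁ β := by positivity
      linarith
    · have hd : (finrank ℚ (IntermediateField.adjoin ℚ {β}) : ℝ) ≤ k * 3 ^ B.card := by
        have h1 := degree_le H β
        have h2 : H.index * (orb H β).card ≤ kn * 3 ^ B.card :=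
          Nat.mul_le_mul hQ.index hBcard
        have h3 := h1.trans h2
        calc (finrank ℚ (IntermediateField.adjoin ℚ {β}) : ℝ)
            ≤ ((kn * 3 ^ B.card : ℕ) : ℝ) := by exact_mod_cast h3
          _ = k * 3 ^ B.card := by push_cast; rfl
      have h1 := hsm K β hβ0 hrβ _ hd
      have h2 := num_small hkk hs hs0 hr
      have h3 : c0 * finrank ℚ K ≤ k * Real.exp (9 * s) * Height.logHeight₁ β :=
        h1.trans (mul_le_mul_of_nonneg_right h2 hτ.le)
      have h4 : (finrank ℚ K : ℝ) ≤ 1 / c0 * (k * Real.exp (9 * s) * Height.logHeight₁ β) := by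
        rw [one_div, ← div_eq_inv_mul, le_div_iff₀ hc0]
        linarith
      have h5 : 0 ≤ 32 * (k * Real.exp (9 * s)) * Height.logHeight₁ β := by positivity
      linarith
  refine hfin.trans ?_
  exact mul_le_mul_of_nonneg_left hβα (by positivity)

end Pool.Agent.Run7.h22
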