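import Mathlib
import Pool.Agent.H388SL.Fin
import Pool.Agent.H45R3.UG.NT
import Pool.Agent.Run7.h22.Main

/-!
# Lehmer's problem for polynomials with few complex conjugations
-/

set_option autoImplicit false

open Finset Module Polynomial

namespace Pool.Agent.Run7.h22

open Pool.Agent.H388SL

/-- the automorphisms of the splitting field which are induced by the complex conjugation -/
def complexConjugations (f : ℤ[X]) :
    Set ((f.map (Int.castRingHom ℚ)).SplittingField ≃ₐ[ℚ] (f.map (Int.castRingHom ℚ)).SplittingField) :=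
  {σ | ∃ φ : (f.map (Int.castRingHom ℚ)).SplittingField →+* ℂ, ∀ x, φ (σ x) = starRingEnd ℂ (φ x)}

lemma numberField_splitting (f : ℚ[X]) : NumberField f.SplittingField :=
  { to_charZero := inferInstance
    to_finiteDimensional := inferInstance }

lemma isGalois_splitting (f : ℚ[X]) : IsGalois ℚ f.SplittingField where
  to_isSeparable := inferInstance
  to_normal := by
    convert SplittingField.instNormal f
    exact Subsingleton.elim _ _

lemma poly_main {A : ℝ}
    (h : ∀ (K : Type) [Field K] [NumberField K] [IsGalois ℚ K] (α : K),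
    IsIntegral ℤ α → IsIntegral ℤ α⁻¹ → α ≠ 0 → (∀ n : ℕ, 0 < n → α ^ n ≠ 1) →
    (finrank ℚ K : ℝ) ≤ A * ((ccSet K).ncard *
      Real.exp (9 * Real.sqrt (Real.log (2 * (ccSet K).ncard)))) * lam α) (f : ℤ[X])
    (hf : Irreducible f) (h1 : 1 < MM f) (h2 : MM f < 2) :
    (f.natDegree : ℝ) ≤ A * ((complexConjugations f).ncard *
      Real.exp (9 * Real.sqrt (Real.log (2 * (complexConjugations f).ncard)))) * Real.log (MM f) := by
  classical
  have hf0 : f ≠ 0 := hf.ne_zero
  -- leading and constant coefficients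
  have hlc : |f.leadingCoeff| = 1 := by
    have h3 : 1 ≤ |f.leadingCoeff| := Int.one_le_abs (leadingCoeff_ne_zero.mpr hf0)
    have h4 := leadingCoeff_le_MM f
    have h5 : (|f.leadingCoeff| : ℝ) < 2 := by linarith
    have h6 : |f.leadingCoeff| < 2 := by exact_mod_cast h5
    omega
  set fQ := f.map (Int.castRingHom ℚ) with hfQ
  have hinjQ : Function.Injective (Int.castRingHom ℚ) := (Int.castRingHom ℚ).injective_int
  have hfQ0 : fQ ≠ 0 := (Polynomial.map_ne_zero_iff hinjQ).mpr hf0
  have hdeg : f.natDegree ≠ 0 := by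
    intro h3
    have h4 : f = C (f.leadingCoeff) := by
      have h5 := eq_C_of_natDegree_eq_zero h3
      rw [Polynomial.leadingCoeff, h3]
      exact h5
    have h5 : IsUnit f := by
      rw [h4, isUnit_C, Int.isUnit_iff_abs_eq]
      exact hlc
    exact hf.not_isUnit h5
  have hfQdeg : fQ.natDegree = f.natDegree := natDegree_map_eq_of_injective hinjQ f
  set K := fQ.SplittingField with hK
  have : NumberField K := numberField_splitting fQ
  have : IsGalois ℚ K := isGalois_splitting fQ
  -- a root
  have hsplit : (fQ.map (algebraMap ℚ K)).Splits := SplittingField.splits fQ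
  obtain ⟨α, hα⟩ : ∃ α : K, aeval α f = 0 := by
    have h3 : (fQ.map (algebraMap ℚ K)).degree ≠ 0 := by
      rw [degree_map]
      intro h4
      exact hdeg (hfQdeg ▸ natDegree_eq_of_degree_eq_some h4)
    obtain ⟨a, ha⟩ := hsplit.exists_eval_eq_zero h3
    refine ⟨a, ?_⟩
    rw [eval_map_algebraMap] at ha
    have h5 : aeval a (f.map (algebraMap ℤ ℚ)) = aeval a f := Polynomial.aeval_map_algebraMap ℚ a f
    rw [← h5]
    exact ha
  -- the monic version
  obtain ⟨g, hgm, hgα, hgM, hgdeg, hgirr⟩ : ∃ g : ℤ[X], g.Monic ∧ aeval α g = 0 ∧ MM g = MM f ∧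
      g.natDegree = f.natDegree ∧ Irreducible g := by
    rcases (abs_eq (by norm_num : (0:ℤ) ≤ 1)).mp hlc with h3 | h3
    · exact ⟨f, h3, hα, rfl, rfl, hf⟩
    · refine ⟨-f, ?_, ?_, MM_neg f, natDegree_neg f, ?_⟩
      · rw [Monic, leadingCoeff_neg, h3]; norm_num
      · rw [map_neg, hα, neg_zero]
      · simpa using (irreducible_units_mul (-1 : ℤ[X]ˣ)).mpr hf
  have hαi : IsIntegral ℤ α := ⟨g, hgm, by rw [← Polynomial.aeval_def]; exact hgα⟩
  have hmin : minpoly ℤ α = g := by
    have h3 := minpoly.isIntegrallyClosed_dvd hαi hgα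
    have h4 : Associated (minpoly ℤ α) g :=
      (minpoly.irreducible hαi).associated_of_dvd hgirr h3
    exact eq_of_monic_of_associated (minpoly.monic hαi) hgm h4
  have hg0 : g.coeff 0 ≠ 0 := by
    intro h3
    have h4 : X ∣ g := X_dvd_iff.mpr h3
    have h5 : Associated X g := (irreducible_X).associated_of_dvd hgirr h4
    have h6 : X = g := eq_of_monic_of_associated monic_X hgm h5
    have h7 : MM g = 1 := by
      have h8 := mahlerMeasure_X_sub_C (0 : ℂ)
      rw [C_0, sub_zero, norm_zero, max_eq_left zero_le_one] at h8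
      rw [← h6, MM, Polynomial.map_X, h8]
    rw [hgM] at h7
    linarith
  have hgc : |g.coeff 0| = 1 := by
    have h3 : 1 ≤ |g.coeff 0| := Int.one_le_abs hg0
    have h4 := coeff_zero_le_MM g
    rw [hgM] at h4
    have h5 : (|g.coeff 0| : ℝ) < 2 := by linarith
    have h6 : |g.coeff 0| < 2 := by exact_mod_cast h5
    omega
  have hα0 : α ≠ 0 := by
    rintro rfl
    rw [← Polynomial.coeff_zero_eq_aeval_zero', eq_intCast, Int.cast_eq_zero] at hgα
    exact hg0 hgα
  have hαinv : IsIntegral ℤ α⁻¹ := by
    have h3 : g = X * g.divX + C (g.coeff 0) := (X_mul_divX_add g).symm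
    have h4 : aeval α g = α * aeval α g.divX + (g.coeff 0 : K) := by
      conv_lhs => rw [h3]
      simp
    rw [hgα] at h4
    have h5 : α⁻¹ = - (g.coeff 0 : K) * aeval α g.divX := by
      have h6 : ((g.coeff 0 : ℤ) : K) * (g.coeff 0 : K) = 1 := by
        have h7 : g.coeff 0 * g.coeff 0 = 1 := by
          rcases (abs_eq (by norm_num : (0:ℤ) ≤ 1)).mp hgc with h8 | h8 <;> rw [h8] <;> norm_num
        rw [← Int.cast_mul, h7, Int.cast_one]
      rw [inv_eq_iff_eq_inv, eq_comm, inv_eq_iff_eq_inv, eq_comm, ← mul_right_inj' hα0,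
        mul_inv_cancel₀ hα0]
      linear_combination (-(g.coeff 0 : K)) * h4 - h6
    rw [h5]
    apply IsIntegral.mul
    · rw [← Int.cast_neg]
      exact isIntegral_intCast _
    · exact isIntegral_aevalZ hαi _
  -- the Mahler measure
  set F := IntermediateField.adjoin ℚ {α} with hF
  set γ : F := IntermediateField.AdjoinSimple.gen ℚ α with hγ
  have hγα : algebraMap F K γ = α := IntermediateField.AdjoinSimple.algebraMap_gen ℚ α
  have hγi : IsIntegral ℤ γ := by
    rw [← hγα] at hαi
    exact (isIntegral_algebraMap_iff (algebraMap F K).injective).mp hαi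
  have hγm : minpoly ℤ γ = g := by
    rw [← hmin, ← hγα]
    exact (minpoly.algebraMap_eq (algebraMap F K).injective γ).symm
  have hlog : Real.log (MM f) = lam γ := by
    have h3 := Pool.Agent.H45R3.UG.log_MM_minpoly hγi (CInj_gen α)
    have h4 : MM (minpoly ℤ γ) = MM f := (congrArg MM hγm).trans hgM
    exact (congrArg Real.log h4).symm.trans h3
  have hlamα : lam α = finrank F K * lam γ := by
    have := sum_embeddings' α (fun z => Real.log (max 1 ‖z‖))
    rw [nsmul_eq_mul] at this
    exact this
  have hFdeg : finrank ℚ F = f.natDegree := by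
    rw [hF, IntermediateField.adjoin.finrank (hαi.tower_top),
      minpoly.isIntegrallyClosed_eq_field_fractions' ℚ hαi, hmin,
      natDegree_map_eq_of_injective (algebraMap ℤ ℚ).injective_int, hgdeg]
  have hroot : ∀ n : ℕ, 0 < n → α ^ n ≠ 1 := by
    intro n hn hn1
    have h3 : lam γ = 0 := by
      unfold lam
      apply Finset.sum_eq_zero
      intro σ _
      have h4 : (σ γ) ^ n = 1 := by
        rw [← map_pow]
        have h5 : γ ^ n = 1 := by
          apply (algebraMap F K).injective
          rw [map_pow, hγα, hn1, map_one]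
        rw [h5, map_one]
      have h5 : ‖σ γ‖ = 1 := by
        have h6 := congrArg norm h4
        rw [norm_pow, norm_one] at h6
        exact (pow_eq_one_iff_of_nonneg (norm_nonneg _) hn.ne').mp h6
      rw [h5, max_self, Real.log_one]
    have h4 : 0 < Real.log (MM f) := Real.log_pos h1
    linarith
  have hmain := h K α hαi hαinv hα0 hroot
  have hset : (ccSet K) = complexConjugations f := by
    ext σ
    constructor
    · rintro ⟨φ, hφ⟩
      exact ⟨(φ : K →+* ℂ), hφ⟩
    · rintro ⟨φ, hφ⟩
      exact ⟨RingHom.equivRatAlgHom K ℂ φ, hφ⟩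
  rw [hset, hlamα] at hmain
  have hmul : (finrank ℚ K : ℝ) = finrank ℚ F * finrank F K := by
    rw [← finrank_mul_finrank ℚ F K]
    push_cast
    rfl
  rw [hmul, hFdeg, ← hlog] at hmain
  have hFK : (0:ℝ) < finrank F K := by exact_mod_cast (finrank_pos : 0 < finrank F K)
  have h3 : (f.natDegree : ℝ) * finrank F K ≤ (A * ((complexConjugations f).ncard *
      Real.exp (9 * Real.sqrt (Real.log (2 * (complexConjugations f).ncard)))) * Real.log (MM f)) *
      finrank F K := by
    refine hmain.trans (le_of_eq ?_)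
    ring
  exact le_of_mul_le_mul_right h3 hFK

end Pool.Agent.Run7.h22
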