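import Mathlib
import Pool.Agent.Run7.h22.Rel5
import Pool.Agent.Run7.h22.FinP

/-!
# Units of bounded degree over a Galois field with few Frobenius automorphisms: fields
-/

set_option autoImplicit false

open Finset Module NumberField Polynomial

namespace Pool.Agent.Run7.h22

open Pool.Agent.H388SL

variable {K : Type} [Field K] [NumberField K]

/-- the automorphisms over `E` which fix the `p`-th powers of the roots of unity -/
def NE (p : ℕ) (E : IntermediateField ℚ K) : Subgroup (K ≃ₐ[ℚ] K) where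
  carrier := {τ | τ ∈ E.fixingSubgroup ∧
    ∀ ζ : K, (∃ n : ℕ, 0 < n ∧ ζ ^ n = 1) → τ (ζ ^ p) = ζ ^ p}
  one_mem' := ⟨E.fixingSubgroup.one_mem, fun _ _ => rfl⟩
  mul_mem' := by
    rintro τ₁ τ₂ ⟨h1, h2⟩ ⟨h1', h2'⟩
    refine ⟨E.fixingSubgroup.mul_mem h1 h1', fun ζ hζ => ?_⟩
    rw [AlgEquiv.mul_apply, h2' ζ hζ, h2 ζ hζ]
  inv_mem' := by
    rintro τ ⟨h1, h2⟩
    refine ⟨E.fixingSubgroup.inv_mem h1, fun ζ hζ => ?_⟩
    apply τ.injective
    rw [h2 ζ hζ, ← AlgEquiv.mul_apply, mul_inv_cancel, AlgEquiv.one_apply]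

lemma mem_fix_iff (E : IntermediateField ℚ K) [Normal ℚ E] (σ : K ≃ₐ[ℚ] K) :
    σ ∈ E.fixingSubgroup ↔ AlgEquiv.restrictNormalHom E σ = 1 := by
  rw [IntermediateField.mem_fixingSubgroup_iff]
  constructor
  · intro h
    apply AlgEquiv.ext
    intro x
    apply (algebraMap E K).injective
    have h1 : algebraMap E K (AlgEquiv.restrictNormalHom E σ x) = σ (algebraMap E K x) :=
      AlgEquiv.restrictNormal_commutes σ E x
    rw [h1]
    exact h x x.2
  · intro h x hx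
    have h1 : algebraMap E K (AlgEquiv.restrictNormalHom E σ ⟨x, hx⟩) = σ (algebraMap E K ⟨x, hx⟩) :=
      AlgEquiv.restrictNormal_commutes σ E ⟨x, hx⟩
    rw [h] at h1
    exact h1.symm

lemma NE_normal (p : ℕ) (E : IntermediateField ℚ K) [Normal ℚ E] : (NE p E).Normal := by
  refine ⟨fun τ hτ h => ?_⟩
  obtain ⟨h1, h2⟩ := hτ
  refine ⟨?_, fun ζ hζ => ?_⟩
  · rw [mem_fix_iff] at h1 ⊢
    rw [map_mul, map_mul, h1, mul_one, map_inv, mul_inv_cancel]
  · obtain ⟨n, hn, hn1⟩ := hζ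
    have h4 := h2 (h⁻¹ ζ) ⟨n, hn, by rw [← map_pow, hn1, map_one]⟩
    rw [AlgEquiv.mul_apply, AlgEquiv.mul_apply, map_pow h⁻¹, h4, map_pow, ← AlgEquiv.mul_apply,
      mul_inv_cancel, AlgEquiv.one_apply]

lemma frob_restrict {p q : ℕ} (E : IntermediateField ℚ K) [Normal ℚ E] {σ : K ≃ₐ[ℚ] K}
    (hσ : σ ∈ frobSet K p q) : AlgEquiv.restrictNormalHom E σ ∈ frobSet E p q := by
  obtain ⟨𝔓, h1, h2, h3⟩ := hσ
  refine ⟨𝔓.comap (algebraMap (𝓞 E) (𝓞 K)), Ideal.comap_isPrime _ _, ?_, fun x => ?_⟩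
  · rw [Ideal.mem_comap, map_natCast]
    exact h2
  · rw [Ideal.mem_comap, map_sub, map_pow]
    have h4 : algebraMap (𝓞 E) (𝓞 K) (AlgEquiv.restrictNormalHom E σ • x) =
        σ • algebraMap (𝓞 E) (𝓞 K) x := by
      apply RingOfIntegers.coe_injective
      exact AlgEquiv.restrictNormal_commutes σ E (algebraMap (𝓞 E) E x)
    rw [h4]
    exact h3 _

lemma NE_count {p a : ℕ} (hp : p.Prime)
    (hunr : ∀ 𝔓 : Ideal (𝓞 K), 𝔓.IsPrime → (p : 𝓞 K) ∈ 𝔓 → (p : 𝓞 K) ∉ 𝔓 ^ 2)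
    (E : IntermediateField ℚ K) [Normal ℚ E] :
    (frobMod p (p ^ a) (NE p E)).ncard ≤ (frobSet E p (p ^ a)).ncard := by
  have h1 : (frobMod p (p ^ a) (NE p E)).ncard ≤
      ((fun σ => AlgEquiv.restrictNormalHom E σ) '' frobSet K p (p ^ a)).ncard := by
    apply ncard_image_le_of_factor (Set.toFinite _)
    intro σ hσ σ' hσ' heq
    rw [QuotientGroup.eq]
    refine ⟨?_, fun ζ hζ => ?_⟩
    · rw [mem_fix_iff, map_mul, map_inv]
      have h2 : AlgEquiv.restrictNormalHom E σ = AlgEquiv.restrictNormalHom E σ' := heq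
      rw [h2, inv_mul_cancel]
    · obtain ⟨n, hn, hn1⟩ := hζ
      rw [AlgEquiv.mul_apply, frob_root hp hunr hσ' hn hn1, ← frob_root hp hunr hσ hn hn1,
        ← AlgEquiv.mul_apply, inv_mul_cancel, AlgEquiv.one_apply]
  refine h1.trans (Set.ncard_le_ncard ?_ (Set.toFinite _))
  rintro _ ⟨σ, hσ, rfl⟩
  exact frob_restrict E hσ

/-- the field generated over `E` by the `p`-th powers of the roots of unity -/
def cycE (p : ℕ) (E : IntermediateField ℚ K) : IntermediateField ℚ K :=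
  E ⊔ IntermediateField.adjoin ℚ {x | ∃ ζ : K, (∃ n : ℕ, 0 < n ∧ ζ ^ n = 1) ∧ x = ζ ^ p}

lemma NE_le (p : ℕ) (E : IntermediateField ℚ K) : NE p E ≤ (cycE p E).fixingSubgroup := by
  unfold cycE
  rw [IntermediateField.fixingSubgroup_sup, le_inf_iff]
  refine ⟨fun τ hτ => hτ.1, ?_⟩
  rw [← IntermediateField.le_iff_le, IntermediateField.adjoin_le_iff]
  rintro x ⟨ζ, hζ, rfl⟩ ⟨τ, hτ⟩
  exact hτ.2 ζ hζ

lemma orb_le_degree (N : Subgroup (K ≃ₐ[ℚ] K)) (F : IntermediateField ℚ K) (h : N ≤ F.fixingSubgroup)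
    (α : K) : (orbN N α).ncard ≤ (minpoly F α).natDegree := by
  have hint : IsIntegral F α := IsIntegral.of_finite F α
  have h1 : orbN N α ⊆ (minpoly F α).rootSet K := by
    rintro _ ⟨τ, hτ, rfl⟩
    rw [mem_rootSet]
    refine ⟨minpoly.ne_zero hint, ?_⟩
    have h2 : ∀ x : F, τ (algebraMap F K x) = algebraMap F K x := fun x =>
      (IntermediateField.mem_fixingSubgroup_iff F τ).mp (h hτ) x x.2
    let τ' : K →ₐ[F] K := { (τ : K →+* K) with commutes' := h2 }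
    have h3 : aeval (τ' α) (minpoly F α) = τ' (aeval α (minpoly F α)) := aeval_algHom_apply τ' α _
    rw [minpoly.aeval, map_zero] at h3
    exact h3
  have h2 : ((minpoly F α).rootSet K).ncard ≤ (minpoly F α).natDegree := by
    exact ncard_rootSet_le _ _
  exact (Set.ncard_le_ncard h1 (Set.toFinite _)).trans h2

end Pool.Agent.Run7.h22
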