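import Mathlib
import Pool.Agent.Run7.h22.Rel6

/-!
# Lehmer's problem for polynomials of small relative degree over a field with few Frobenius automorphisms
-/

set_option autoImplicit false

open Finset Module Polynomial NumberField

namespace Pool.Agent.Run7.h22

open Pool.Agent.H388SL

/-- a zero of an irreducible polynomial of Mahler measure less than two is a unit -/
lemma unit_of_root {K : Type} [Field K] [NumberField K] (f : ℤ[X]) (hf : Irreducible f) (h1 : 1 < MM f)
    (h2 : MM f < 2) {α : K} (hα : aeval α f = 0) :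
    IsU α ∧ (∀ n : ℕ, 0 < n → α ^ n ≠ 1) ∧
      (finrank ℚ K : ℝ) * Real.log (MM f) = f.natDegree * lam α := by
  classical
  have hf0 : f ≠ 0 := hf.ne_zero
  -- leading and constant coefficients
  have hlc : |f.leadingCoeff| = 1 := by
    have h3 : 1 ≤ |f.leadingCoeff| := Int.one_le_abs (leadingCoeff_ne_zero.mpr hf0)
    have h4 := leadingCoeff_le_MM f
    have h5 : (|f.leadingCoeff| : ℝ) < 2 := by linarith
    have h6 : |f.leadingCoeff| < 2 := by exact_mod_cast h5
    omega
  set fQ := f.map (Int.castRingHom ℚ) with hfQ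
  have hinjQ : Function.Injective (Int.castRingHom ℚ) := (Int.castRingHom ℚ).injective_int
  have hfQ0 : fQ ≠ 0 := (Polynomial.map_ne_zero_iff hinjQ).mpr hf0
  have hdeg : f.natDegree ≠ 0 := by
    intro h3
    have h4 : f = C (f.leadingCoeff) := by
      have h5 := eq_C_of_natDegree_eq_zero h3
      rw [Polynomial.leadingCoeff, h3]
      exact h5
    have h5 : IsUnit f := by
      rw [h4, isUnit_C, Int.isUnit_iff_abs_eq]
      exact hlc
    exact hf.not_isUnit h5
  have hfQdeg : fQ.natDegree = f.natDegree := natDegree_map_eq_of_injective hinjQ f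
  -- the monic version
  obtain ⟨g, hgm, hgα, hgM, hgdeg, hgirr⟩ : ∃ g : ℤ[X], g.Monic ∧ aeval α g = 0 ∧ MM g = MM f ∧
      g.natDegree = f.natDegree ∧ Irreducible g := by
    rcases (abs_eq (by norm_num : (0:ℤ) ≤ 1)).mp hlc with h3 | h3
    · exact ⟨f, h3, hα, rfl, rfl, hf⟩
    · refine ⟨-f, ?_, ?_, MM_neg f, natDegree_neg f, ?_⟩
      · rw [Monic, leadingCoeff_neg, h3]; norm_num
      · rw [map_neg, hα, neg_zero]
      · simpa using (irreducible_units_mul (-1 : ℤ[X]ˣ)).mpr hf
  have hαi : IsIntegral ℤ α := ⟨g, hgm, by rw [← Polynomial.aeval_def]; exact hgα⟩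
  have hmin : minpoly ℤ α = g := by
    have h3 := minpoly.isIntegrallyClosed_dvd hαi hgα
    have h4 : Associated (minpoly ℤ α) g :=
      (minpoly.irreducible hαi).associated_of_dvd hgirr h3
    exact eq_of_monic_of_associated (minpoly.monic hαi) hgm h4
  have hg0 : g.coeff 0 ≠ 0 := by
    intro h3
    have h4 : X ∣ g := X_dvd_iff.mpr h3
    have h5 : Associated X g := (irreducible_X).associated_of_dvd hgirr h4
    have h6 : X = g := eq_of_monic_of_associated monic_X hgm h5
    have h7 : MM g = 1 := by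
      have h8 := mahlerMeasure_X_sub_C (0 : ℂ)
      rw [C_0, sub_zero, norm_zero, max_eq_left zero_le_one] at h8
      rw [← h6, MM, Polynomial.map_X, h8]
    rw [hgM] at h7
    linarith
  have hgc : |g.coeff 0| = 1 := by
    have h3 : 1 ≤ |g.coeff 0| := Int.one_le_abs hg0
    have h4 := coeff_zero_le_MM g
    rw [hgM] at h4
    have h5 : (|g.coeff 0| : ℝ) < 2 := by linarith
    have h6 : |g.coeff 0| < 2 := by exact_mod_cast h5
    omega
  have hα0 : α ≠ 0 := by
    rintro rfl
    rw [← Polynomial.coeff_zero_eq_aeval_zero', eq_intCast, Int.cast_eq_zero] at hgα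
    exact hg0 hgα
  have hαinv : IsIntegral ℤ α⁻¹ := by
    have h3 : g = X * g.divX + C (g.coeff 0) := (X_mul_divX_add g).symm
    have h4 : aeval α g = α * aeval α g.divX + (g.coeff 0 : K) := by
      conv_lhs => rw [h3]
      simp
    rw [hgα] at h4
    have h5 : α⁻¹ = - (g.coeff 0 : K) * aeval α g.divX := by
      have h6 : ((g.coeff 0 : ℤ) : K) * (g.coeff 0 : K) = 1 := by
        have h7 : g.coeff 0 * g.coeff 0 = 1 := by
          rcases (abs_eq (by norm_num : (0:ℤ) ≤ 1)).mp hgc with h8 | h8 <;> rw [h8] <;> norm_num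
        rw [← Int.cast_mul, h7, Int.cast_one]
      rw [inv_eq_iff_eq_inv, eq_comm, inv_eq_iff_eq_inv, eq_comm, ← mul_right_inj' hα0,
        mul_inv_cancel₀ hα0]
      linear_combination (-(g.coeff 0 : K)) * h4 - h6
    rw [h5]
    apply IsIntegral.mul
    · rw [← Int.cast_neg]
      exact isIntegral_intCast _
    · exact isIntegral_aevalZ hαi _
  -- the Mahler measure
  set F := IntermediateField.adjoin ℚ {α} with hF
  set γ : F := IntermediateField.AdjoinSimple.gen ℚ α with hγ
  have hγα : algebraMap F K γ = α := IntermediateField.AdjoinSimple.algebraMap_gen ℚ α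
  have hγi : IsIntegral ℤ γ := by
    rw [← hγα] at hαi
    exact (isIntegral_algebraMap_iff (algebraMap F K).injective).mp hαi
  have hγm : minpoly ℤ γ = g := by
    rw [← hmin, ← hγα]
    exact (minpoly.algebraMap_eq (algebraMap F K).injective γ).symm
  have hlog : Real.log (MM f) = lam γ := by
    have h3 := Pool.Agent.H45R3.UG.log_MM_minpoly hγi (CInj_gen α)
    have h4 : MM (minpoly ℤ γ) = MM f := (congrArg MM hγm).trans hgM
    exact (congrArg Real.log h4).symm.trans h3
  have hlamα : lam α = finrank F K * lam γ := by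
    have := sum_embeddings' α (fun z => Real.log (max 1 ‖z‖))
    rw [nsmul_eq_mul] at this
    exact this
  have hFdeg : finrank ℚ F = f.natDegree := by
    rw [hF, IntermediateField.adjoin.finrank (hαi.tower_top),
      minpoly.isIntegrallyClosed_eq_field_fractions' ℚ hαi, hmin,
      natDegree_map_eq_of_injective (algebraMap ℤ ℚ).injective_int, hgdeg]
  have hroot : ∀ n : ℕ, 0 < n → α ^ n ≠ 1 := by
    intro n hn hn1
    have h3 : lam γ = 0 := by
      unfold lam
      apply Finset.sum_eq_zero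
      intro σ _
      have h4 : (σ γ) ^ n = 1 := by
        rw [← map_pow]
        have h5 : γ ^ n = 1 := by
          apply (algebraMap F K).injective
          rw [map_pow, hγα, hn1, map_one]
        rw [h5, map_one]
      have h5 : ‖σ γ‖ = 1 := by
        have h6 := congrArg norm h4
        rw [norm_pow, norm_one] at h6
        exact (pow_eq_one_iff_of_nonneg (norm_nonneg _) hn.ne').mp h6
      rw [h5, max_self, Real.log_one]
    have h4 : 0 < Real.log (MM f) := Real.log_pos h1
    linarith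
  refine ⟨⟨hα0, hαi, hαinv⟩, hroot, ?_⟩
  have hmul : (finrank ℚ K : ℝ) = finrank ℚ F * finrank F K := by
    rw [← finrank_mul_finrank ℚ F K]
    push_cast
    rfl
  rw [hlamα, hmul, hFdeg, ← hlog]
  ring



/-- the inequality for irreducible polynomials -/
theorem poly_rel : ∃ C : ℝ, 0 < C ∧ ∀ p a : ℕ, p.Prime → 1 ≤ a → ∀ (K : Type) [Field K] [NumberField K]
    [IsGalois ℚ K],
    (∀ 𝔓 : Ideal (𝓞 K), 𝔓.IsPrime → (p : 𝓞 K) ∈ 𝔓 → (p : 𝓞 K) ∉ 𝔓 ^ 2) → ∀ f : ℤ[X],
    Irreducible f → 1 < MM f → MM f < 2 → ∀ α : K, aeval α f = 0 →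
    ∀ (E : IntermediateField ℚ K) [Normal ℚ E] (D : ℕ), (minpoly (cycE p E) α).natDegree ≤ D →
    (f.natDegree : ℝ) ≤ C * (p : ℝ) ^ (a + 2) * ((D : ℝ) ^ 3 * (frobSet E p (p ^ a)).ncard *
      Real.exp (17 * Real.sqrt (Real.log (2 * (frobSet E p (p ^ a)).ncard) * Real.log (2 * D)))) *
        Real.log (MM f) := by
  obtain ⟨C, hC, h⟩ := rel_main
  refine ⟨C, hC, ?_⟩
  intro p a hp ha K _ _ _ hunr f hf h1 h2 α hα E _ D hD
  obtain ⟨hU, hroot, hlam⟩ := unit_of_root f hf h1 h2 hα
  have hN : (NE p E).Normal := NE_normal p E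
  have h3 := h K p a hp ha hunr (NE p E) α hU hroot D
    (frobSet E p (p ^ a)).ncard ((orb_le_degree _ _ (NE_le p E) α).trans hD)
    (NE_count hp hunr E)
  set B : ℝ := C * (p : ℝ) ^ (a + 2) * ((D : ℝ) ^ 3 * (frobSet E p (p ^ a)).ncard *
      Real.exp (17 * Real.sqrt (Real.log (2 * (frobSet E p (p ^ a)).ncard) * Real.log (2 * D)))) with hB
  have hN : (0:ℝ) < finrank ℚ K := by
    exact_mod_cast (finrank_pos : 0 < finrank ℚ K)
  have h4 : (f.natDegree : ℝ) * finrank ℚ K ≤ (B * Real.log (MM f)) * finrank ℚ K := by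
    have h5 : (f.natDegree : ℝ) * finrank ℚ K ≤
        f.natDegree * (B * lam α) := mul_le_mul_of_nonneg_left h3 (Nat.cast_nonneg _)
    have h6 : (f.natDegree : ℝ) * (B * lam α) = (B * Real.log (MM f)) * finrank ℚ K := by
      linear_combination (-B) * hlam
    linarith
  exact le_of_mul_le_mul_right h4 hN

/-- the field generated by the sums of the zeros of `f` and their inverses -/
def trE (K : Type) [Field K] [NumberField K] (f : ℤ[X]) : IntermediateField ℚ K :=
  IntermediateField.adjoin ℚ {x | ∃ α : K, aeval α f = 0 ∧ x = α + α⁻¹}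

lemma trE_normal (K : Type) [Field K] [NumberField K] [IsGalois ℚ K] (f : ℤ[X]) :
    Normal ℚ (trE K f) := by
  have h0 : Normal ℚ K := inferInstance
  apply IntermediateField.normal_iff_forall_map_le'.mpr
  intro σ
  unfold trE
  rw [IntermediateField.adjoin_map]
  apply IntermediateField.adjoin.mono
  rintro _ ⟨_, ⟨α, hα, rfl⟩, rfl⟩
  refine ⟨σ α, ?_, ?_⟩
  · have h1 := aeval_algHom_apply ((σ : K →ₐ[ℚ] K).restrictScalars ℤ) α f
    have h2 : aeval (σ α) f = σ (aeval α f) := h1
    rw [h2, hα, map_zero]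
  · show σ (α + α⁻¹) = σ α + (σ α)⁻¹
    rw [map_add, map_inv₀]

lemma trE_degree {K : Type} [Field K] [NumberField K] (p : ℕ) (f : ℤ[X]) {α : K} (hα0 : α ≠ 0)
    (hα : aeval α f = 0) :
    (minpoly (cycE p (trE K f)) α).natDegree ≤ 2 := by
  have hmem : α + α⁻¹ ∈ cycE p (trE K f) := by
    have h1 : trE K f ≤ cycE p (trE K f) := le_sup_left
    exact h1 (IntermediateField.subset_adjoin _ _ ⟨α, hα, rfl⟩)
  set γ : cycE p (trE K f) := ⟨α + α⁻¹, hmem⟩ with hγ
  set g : (cycE p (trE K f))[X] := X ^ 2 - C γ * X + 1 with hg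
  have hgdeg : g.natDegree = 2 := by
    rw [hg]
    compute_degree!
  have hg0 : g ≠ 0 := by
    intro h
    rw [h, natDegree_zero] at hgdeg
    omega
  have hgα : aeval α g = 0 := by
    rw [hg]
    simp only [map_add, map_sub, map_pow, map_mul, aeval_X, aeval_C, map_one]
    have h1 : algebraMap (cycE p (trE K f)) K γ = α + α⁻¹ := rfl
    rw [h1]
    field_simp
    ring
  have h2 := natDegree_le_of_dvd (minpoly.dvd _ α hgα) hg0
  rwa [hgdeg] at h2

end Pool.Agent.Run7.h22
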