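import Mathlib
import Pool.Agent.Helper259.HtExt
import Pool.Agent.Run7.h22.Rel7

/-!
# Heights of units and of other numbers
-/

set_option autoImplicit false

open Finset Module Polynomial NumberField Height

namespace Pool.Agent.Run7.h22

open Pool.Agent.H388SL

section heights

variable {L : Type} [Field L] [NumberField L]

lemma sum_mult_eq_sum_emb (g : InfinitePlace L → ℝ) :
    ∑ v : InfinitePlace L, (v.mult : ℝ) * g v = ∑ φ : L →+* ℂ, g (InfinitePlace.mk φ) := by
  classical
  rw [← Finset.sum_fiberwise (s := Finset.univ) (g := fun φ : L →+* ℂ => InfinitePlace.mk φ)]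
  apply Finset.sum_congr rfl
  intro v _
  rw [Finset.sum_congr rfl (g := fun _ => g v)]
  · rw [Finset.sum_const, InfinitePlace.card_filter_mk_eq, nsmul_eq_mul]
  · intro φ hφ
    rw [(Finset.mem_filter.mp hφ).2]

lemma lam_eq_ringHom (α : L) : lam α = ∑ φ : L →+* ℂ, Real.log (max 1 ‖φ α‖) := by
  unfold lam
  exact Fintype.sum_equiv (RingHom.equivRatAlgHom (R := L) (S := ℂ)).symm _ _ fun _ => rfl

/-- the height of an algebraic integer is the sum over the embeddings -/
lemma logHeight₁_eq_lam {α : L} (hα : IsIntegral ℤ α) : logHeight₁ α = lam α := by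
  rw [NumberField.logHeight₁_eq, sum_mult_eq_sum_emb (fun v => Real.posLog (v α)), lam_eq_ringHom]
  have h1 : ∑ᶠ v : FinitePlace L, Real.posLog (v α) = 0 := by
    apply finsum_eq_zero_of_forall_eq_zero
    intro v
    have h2 : v α ≤ 1 := by
      have h3 := FinitePlace.norm_le_one L v.maximalIdeal (⟨α, hα⟩ : 𝓞 L)
      rw [FinitePlace.norm_embedding_eq] at h3
      exact h3
    exact Real.posLog_eq_zero_iff _ |>.mpr (by rw [abs_of_nonneg (apply_nonneg v α)]; exact h2)
  rw [h1, add_zero]
  apply Finset.sum_congr rfl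
  intro φ _
  rw [Real.posLog_eq_log_max_one (apply_nonneg _ _)]
  rfl

/-- the height of a number which is not an algebraic integer -/
lemma log_two_le_of_not_integral {α : L} (hα : ¬ IsIntegral ℤ α) : Real.log 2 ≤ logHeight₁ α := by
  obtain ⟨n, hn0, hn, hint⟩ := NumberField.exists_nat_le_mulHeight₁ α
  have h1 : 2 ≤ n := by
    by_contra h
    have h2 : n = 1 := by omega
    rw [h2, Nat.cast_one, one_mul] at hint
    exact hα hint
  rw [logHeight₁_eq_log_mulHeight₁]
  apply Real.log_le_log (by norm_num)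
  have h2 : (2:ℝ) ≤ n := by exact_mod_cast h1
  linarith

lemma logHeight₁_algebraMap {K : Type} [Field K] [NumberField K] [Algebra K L] (x : K) :
    logHeight₁ (algebraMap K L x) = finrank K L * logHeight₁ x := by
  have h := Pool.Agent.Helper259.HtExt.logHeight_ext (K := K) (L := L) ![x, 1]
  have e : (fun i => algebraMap K L (![x, 1] i)) = ![algebraMap K L x, 1] := by
    funext i
    fin_cases i
    · rfl
    · simp
  rw [e] at h
  rw [logHeight₁_eq_logHeight, logHeight₁_eq_logHeight, h]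

/-- **Lehmer's inequality for numbers which are not units** -/
lemma lehmer_nonunit {α : L} (hα : ¬ IsIntegral ℤ α) :
    (finrank ℚ L : ℝ) * Real.log 2 ≤ finrank ℚ (IntermediateField.adjoin ℚ {α}) * logHeight₁ α := by
  set F := IntermediateField.adjoin ℚ {α} with hF
  set γ : F := IntermediateField.AdjoinSimple.gen ℚ α with hγ
  have hγα : algebraMap F L γ = α := IntermediateField.AdjoinSimple.algebraMap_gen ℚ α
  have hγi : ¬ IsIntegral ℤ γ := by
    intro h
    apply hα
    rw [← hγα]
    exact h.algebraMap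
  have h1 := log_two_le_of_not_integral hγi
  have h2 := logHeight₁_algebraMap (L := L) γ
  rw [hγα] at h2
  rw [h2]
  have h3 : (finrank ℚ L : ℝ) = finrank ℚ F * finrank F L := by
    rw [← finrank_mul_finrank ℚ F L]
    push_cast
    rfl
  rw [h3]
  have h4 : (0:ℝ) ≤ finrank ℚ F * finrank F L := by positivity
  calc (finrank ℚ F : ℝ) * finrank F L * Real.log 2 ≤ (finrank ℚ F : ℝ) * finrank F L * logHeight₁ γ :=
        mul_le_mul_of_nonneg_left h1 h4
    _ = _ := by ring

lemma lehmer_not_isU {α : L} (h0 : α ≠ 0) (hα : ¬ IsU α) :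
    (finrank ℚ L : ℝ) * Real.log 2 ≤ finrank ℚ (IntermediateField.adjoin ℚ {α}) * logHeight₁ α := by
  by_cases h : IsIntegral ℤ α
  · have h1 : ¬ IsIntegral ℤ α⁻¹ := fun h1 => hα ⟨h0, h, h1⟩
    have h2 := lehmer_nonunit h1
    have h3 : IntermediateField.adjoin ℚ {α⁻¹} = IntermediateField.adjoin ℚ {α} := by
      apply le_antisymm
      · rw [IntermediateField.adjoin_simple_le_iff]
        exact inv_mem (IntermediateField.mem_adjoin_simple_self ℚ α)
      · rw [IntermediateField.adjoin_simple_le_iff]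
        have := inv_mem (IntermediateField.mem_adjoin_simple_self ℚ α⁻¹)
        rwa [inv_inv] at this
    rw [h3, logHeight₁_inv] at h2
    exact h2
  · exact lehmer_nonunit h

end heights

/-- **Lehmer's problem, relative version, for all numbers** -/
theorem number_rel : ∃ C : ℝ, 0 < C ∧ ∀ p a : ℕ, p.Prime → 1 ≤ a → ∀ (K : Type) [Field K] [NumberField K]
    [IsGalois ℚ K],
    (∀ 𝔓 : Ideal (𝓞 K), 𝔓.IsPrime → (p : 𝓞 K) ∈ 𝔓 → (p : 𝓞 K) ∉ 𝔓 ^ 2) → ∀ α : K,
    α ≠ 0 → (∀ n : ℕ, 0 < n → α ^ n ≠ 1) →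
    ∀ (E : IntermediateField ℚ K) [Normal ℚ E] (D : ℕ), (minpoly (cycE p E) α).natDegree ≤ D →
    (finrank ℚ K : ℝ) * Real.log 2 ≤ finrank ℚ (IntermediateField.adjoin ℚ {α}) * logHeight₁ α ∨
    (finrank ℚ K : ℝ) ≤ C * (p : ℝ) ^ (a + 2) * ((D : ℝ) ^ 3 * (frobSet E p (p ^ a)).ncard *
      Real.exp (17 * Real.sqrt (Real.log (2 * (frobSet E p (p ^ a)).ncard) * Real.log (2 * D)))) *
        logHeight₁ α := by
  obtain ⟨C, hC, h⟩ := rel_main
  refine ⟨C, hC, ?_⟩
  intro p a hp ha K _ _ _ hunr α h0 hroot E _ D hD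
  by_cases hU : IsU α
  · right
    rw [logHeight₁_eq_lam hU.2.1]
    have hN : (NE p E).Normal := NE_normal p E
    exact h K p a hp ha hunr (NE p E) α hU hroot D
      (frobSet E p (p ^ a)).ncard ((orb_le_degree _ _ (NE_le p E) α).trans hD)
      (NE_count hp hunr E)
  · left
    exact lehmer_not_isU h0 hU

end Pool.Agent.Run7.h22
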