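import Mathlib
import Pool.Agent.Run7.h22.Frob

/-!
# Frobenius automorphisms above a prime which may be ramified
-/

set_option autoImplicit false

open Finset Module NumberField

namespace Pool.Agent.Run7.h22

variable {K : Type*} [Field K] [NumberField K]

/-- the prime ideals above `p` at which `σ` is a Frobenius automorphism contain together a
proportion of at least `1 / k` of the norm of `p`; here `p` may be ramified -/
lemma exists_sigma_ram [IsGalois ℚ K] {p : ℕ} (hp : p.Prime) (a : ℕ) :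
    ∃ (σ : K ≃ₐ[ℚ] K) (Φ : Finset (Ideal (𝓞 K))), Φ.Nonempty ∧ (∀ 𝔓 ∈ Φ, IsFrob p (p ^ a) σ 𝔓) ∧
      (finrank ℚ K : ℝ) * Real.log p ≤
        (frobSet K p (p ^ a)).ncard * ∑ 𝔓 ∈ Φ, Real.log (Ideal.absNorm 𝔓) := by
  classical
  set P : Ideal ℤ := Ideal.span {(p : ℤ)} with hP
  have hpZ : Prime (p : ℤ) := Nat.prime_iff_prime_int.mp hp
  have hPmax : P.IsMaximal := PrincipalIdealRing.isMaximal_of_irreducible hpZ.irreducible
  have hPprime : P.IsPrime := hPmax.isPrime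
  have hP0 : P ≠ ⊥ := by
    rw [hP, Ne, Ideal.span_singleton_eq_bot]
    exact_mod_cast hp.ne_zero
  have hfinT : (P.primesOver (𝓞 K)).Finite := IsDedekindDomain.primesOver_finite P (𝓞 K)
  set T : Finset (Ideal (𝓞 K)) := hfinT.toFinset with hT
  have hTmem : ∀ 𝔓, 𝔓 ∈ T ↔ 𝔓.IsPrime ∧ 𝔓.LiesOver P := by
    intro 𝔓
    rw [hT, Set.Finite.mem_toFinset]
    rfl
  have hTne : T.Nonempty := by
    obtain ⟨𝔓, h1, h2⟩ := Ideal.exists_maximal_ideal_liesOver_of_isIntegral (S := 𝓞 K) P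
    exact ⟨𝔓, (hTmem 𝔓).mpr ⟨h1.isPrime, h2⟩⟩
  have hmemp : ∀ 𝔓 ∈ T, (p : 𝓞 K) ∈ 𝔓 := by
    intro 𝔓 h
    have h1 := ((hTmem 𝔓).mp h).2
    have h2 : (p : ℤ) ∈ P := Ideal.mem_span_singleton_self _
    rw [h1.over, Ideal.mem_comap] at h2
    simpa using h2
  have hcardG : Nat.card (K ≃ₐ[ℚ] K) = finrank ℚ K := IsGalois.card_aut_eq_finrank ℚ K
  have hfin : ∀ 𝔓 ∈ T, (T.card : ℝ) * (Nat.card (𝔓.inertia (K ≃ₐ[ℚ] K)) * Real.log (Ideal.absNorm 𝔓)) =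
      finrank ℚ K * Real.log p := by
    intro 𝔓 h
    obtain ⟨h1, h2⟩ := (hTmem 𝔓).mp h
    have h3 := Ideal.ncard_primesOver_mul_card_inertia_mul_finrank (G := K ≃ₐ[ℚ] K) P 𝔓
    have h4 : T.card = (P.primesOver (𝓞 K)).ncard := (Set.ncard_eq_toFinset_card _ hfinT).symm
    have h5 : Ideal.absNorm 𝔓 = p ^ 𝔓.inertiaDeg ℤ := (Ideal.pow_inertiaDeg p 𝔓).symm
    rw [h5]
    push_cast
    rw [Real.log_pow, ← hcardG, ← h3, h4]
    push_cast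
    ring
  set S : Finset (K ≃ₐ[ℚ] K) := (Set.toFinite (frobSet K p (p ^ a))).toFinset with hS
  have hSmem : ∀ σ, σ ∈ S ↔ σ ∈ frobSet K p (p ^ a) := by
    intro σ
    rw [hS, Set.Finite.mem_toFinset]
  -- the automorphisms for one prime
  have hcardF : ∀ 𝔓 ∈ T, Nat.card (𝔓.inertia (K ≃ₐ[ℚ] K)) ≤
      (S.filter (fun σ => IsFrob p (p ^ a) σ 𝔓)).card := by
    intro 𝔓 h
    obtain ⟨h1, h2⟩ := (hTmem 𝔓).mp h
    obtain ⟨σ₀, hσ₀⟩ := exists_frob_pow hp a h1 (hmemp 𝔓 h)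
    have hfi : Finite (𝔓.inertia (K ≃ₐ[ℚ] K)) := Subtype.finite
    have : Fintype (𝔓.inertia (K ≃ₐ[ℚ] K)) := Fintype.ofFinite _
    rw [Nat.card_eq_fintype_card, ← Finset.card_univ]
    apply Finset.card_le_card_of_injOn (fun τ : 𝔓.inertia (K ≃ₐ[ℚ] K) => σ₀ * (τ : K ≃ₐ[ℚ] K))
    · intro τ _
      have h3 : IsFrob p (p ^ a) (σ₀ * (τ : K ≃ₐ[ℚ] K)) 𝔓 := by
        refine ⟨h1, hmemp 𝔓 h, fun x => ?_⟩
        have h4 : (τ : K ≃ₐ[ℚ] K) • x - x ∈ 𝔓 := τ.2 x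
        have h5 := hσ₀.2.2 ((τ : K ≃ₐ[ℚ] K) • x)
        have h6 : ((τ : K ≃ₐ[ℚ] K) • x) ^ (p ^ a) - x ^ (p ^ a) ∈ 𝔓 := by
          obtain ⟨w, hw⟩ := sub_dvd_pow_sub_pow ((τ : K ≃ₐ[ℚ] K) • x) x (p ^ a)
          rw [hw]
          exact Ideal.mul_mem_right _ _ h4
        have h7 := Ideal.add_mem _ h5 h6
        rw [mul_smul]
        have h8 : σ₀ • (τ : K ≃ₐ[ℚ] K) • x - ((τ : K ≃ₐ[ℚ] K) • x) ^ (p ^ a) +
            (((τ : K ≃ₐ[ℚ] K) • x) ^ (p ^ a) - x ^ (p ^ a)) =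
            σ₀ • (τ : K ≃ₐ[ℚ] K) • x - x ^ (p ^ a) := by ring
        rwa [h8] at h7
      exact Finset.mem_coe.mpr (Finset.mem_filter.mpr ⟨(hSmem _).mpr ⟨𝔓, h3⟩, h3⟩)
    · intro τ _ τ' _ hττ
      exact Subtype.ext (mul_left_cancel hττ)
  have hlogpos : ∀ 𝔓 : Ideal (𝓞 K), 0 ≤ Real.log (Ideal.absNorm 𝔓) := fun 𝔓 =>
    Real.log_natCast_nonneg _
  have hTcard : (0:ℝ) < T.card := by exact_mod_cast hTne.card_pos
  have hsum : (finrank ℚ K : ℝ) * Real.log p ≤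
      ∑ σ ∈ S, ∑ 𝔓 ∈ T.filter (fun 𝔓 => IsFrob p (p ^ a) σ 𝔓), Real.log (Ideal.absNorm 𝔓) := by
    have h1 : ∑ σ ∈ S, ∑ 𝔓 ∈ T.filter (fun 𝔓 => IsFrob p (p ^ a) σ 𝔓),
        Real.log (Ideal.absNorm 𝔓) = ∑ 𝔓 ∈ T, ∑ σ ∈ S.filter (fun σ => IsFrob p (p ^ a) σ 𝔓),
        Real.log (Ideal.absNorm 𝔓) := by
      simp_rw [Finset.sum_filter]
      rw [Finset.sum_comm]
    rw [h1]
    have h2 : ∑ 𝔓 ∈ T, (finrank ℚ K : ℝ) * Real.log p / T.card = finrank ℚ K * Real.log p := by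
      rw [Finset.sum_const, nsmul_eq_mul]
      field_simp
    rw [← h2]
    apply Finset.sum_le_sum
    intro 𝔓 h
    rw [Finset.sum_const, nsmul_eq_mul, ← hfin 𝔓 h, mul_div_cancel_left₀ _ hTcard.ne']
    apply mul_le_mul_of_nonneg_right _ (hlogpos 𝔓)
    exact_mod_cast hcardF 𝔓 h
  have hN0 : 0 < (finrank ℚ K : ℝ) * Real.log p := by
    apply mul_pos
    · exact_mod_cast (finrank_pos : 0 < finrank ℚ K)
    · exact Real.log_pos (by exact_mod_cast hp.one_lt)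
  have hSne : S.Nonempty := by
    by_contra h
    rw [Finset.not_nonempty_iff_eq_empty] at h
    rw [h, Finset.sum_empty] at hsum
    linarith
  have hSpos : (0:ℝ) < S.card := by exact_mod_cast hSne.card_pos
  obtain ⟨σ, hσS, hσ⟩ := Finset.exists_le_of_sum_le hSne
    (f := fun _ => (finrank ℚ K : ℝ) * Real.log p / S.card)
    (g := fun σ => ∑ 𝔓 ∈ T.filter (fun 𝔓 => IsFrob p (p ^ a) σ 𝔓), Real.log (Ideal.absNorm 𝔓)) (by
      refine le_trans (le_of_eq ?_) hsum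
      rw [Finset.sum_const, nsmul_eq_mul]
      field_simp)
  have hScard : S.card = (frobSet K p (p ^ a)).ncard := (Set.ncard_eq_toFinset_card _ _).symm
  have hfinal : (finrank ℚ K : ℝ) * Real.log p ≤
      S.card * ∑ 𝔓 ∈ T.filter (fun 𝔓 => IsFrob p (p ^ a) σ 𝔓), Real.log (Ideal.absNorm 𝔓) := by
    have h1 : (finrank ℚ K : ℝ) * Real.log p / S.card ≤
      ∑ 𝔓 ∈ T.filter (fun 𝔓 => IsFrob p (p ^ a) σ 𝔓), Real.log (Ideal.absNorm 𝔓) := hσ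
    rw [div_le_iff₀ hSpos] at h1
    linarith
  refine ⟨σ, T.filter (fun 𝔓 => IsFrob p (p ^ a) σ 𝔓), ?_, ?_, ?_⟩
  · by_contra h
    rw [Finset.not_nonempty_iff_eq_empty] at h
    rw [h, Finset.sum_empty, mul_zero] at hfinal
    linarith
  · intro 𝔓 h
    exact (Finset.mem_filter.mp h).2
  · rw [← hScard]
    exact hfinal

end Pool.Agent.Run7.h22
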