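import Mathlib
import Pool.Agent.Run7.h22.Fin
import Pool.Agent.Run7.h22.FinP

/-!
# Mahler measures of the elements of Galois extensions with few complex conjugations
-/

set_option autoImplicit false

open Finset Module Polynomial

namespace Pool.Agent.Run7.h22

open Pool.Agent.H388SL

/-- from a field bound to a bound for the Mahler measure -/
lemma deg_le_of_field {K : Type} [Field K] [NumberField K] {α : K} (hα : IsIntegral ℤ α) {B : ℝ}
    (h : (finrank ℚ K : ℝ) ≤ B * lam α) :
    ((minpoly ℤ α).natDegree : ℝ) ≤ B * Real.log (MM (minpoly ℤ α)) := by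
  set F := IntermediateField.adjoin ℚ {α} with hF
  set γ : F := IntermediateField.AdjoinSimple.gen ℚ α with hγ
  have hγα : algebraMap F K γ = α := IntermediateField.AdjoinSimple.algebraMap_gen ℚ α
  have hγi : IsIntegral ℤ γ := by
    rw [← hγα] at hα
    exact (isIntegral_algebraMap_iff (algebraMap F K).injective).mp hα
  have hγm : minpoly ℤ γ = minpoly ℤ α := by
    rw [← hγα]
    exact (minpoly.algebraMap_eq (algebraMap F K).injective γ).symm
  have hlog : Real.log (MM (minpoly ℤ α)) = lam γ := by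
    have h3 := Pool.Agent.H45R3.UG.log_MM_minpoly hγi (CInj_gen α)
    rw [hγm] at h3
    exact h3
  have hlamα : lam α = finrank F K * lam γ := by
    have := sum_embeddings' α (fun z => Real.log (max 1 ‖z‖))
    rw [nsmul_eq_mul] at this
    exact this
  have hFdeg : finrank ℚ F = (minpoly ℤ α).natDegree := by
    rw [hF, IntermediateField.adjoin.finrank (hα.tower_top),
      minpoly.isIntegrallyClosed_eq_field_fractions' ℚ hα,
      natDegree_map_eq_of_injective (algebraMap ℤ ℚ).injective_int]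
  have hmul : (finrank ℚ K : ℝ) = finrank ℚ F * finrank F K := by
    rw [← finrank_mul_finrank ℚ F K]
    push_cast
    rfl
  rw [hlamα, hmul, hFdeg, ← hlog] at h
  have hFK : (0:ℝ) < finrank F K := by exact_mod_cast (finrank_pos : 0 < finrank F K)
  refine le_of_mul_le_mul_right ?_ hFK
  refine h.trans (le_of_eq ?_)
  ring

/-- the complex conjugations of a subfield of `ℂ` -/
def conjugations (L : IntermediateField ℚ ℂ) : Set (L ≃ₐ[ℚ] L) :=
  {σ | ∃ φ : L →+* ℂ, ∀ x, φ (σ x) = starRingEnd ℂ (φ x)}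

lemma conjugations_eq (L : IntermediateField ℚ ℂ) [NumberField L] : conjugations L = ccSet L := by
  ext σ
  constructor
  · rintro ⟨φ, hφ⟩
    exact ⟨RingHom.equivRatAlgHom L ℂ φ, hφ⟩
  · rintro ⟨φ, hφ⟩
    exact ⟨(φ : L →+* ℂ), hφ⟩

/-- the Galois closure of `ℚ(z)` -/
noncomputable def gcl (z : ℂ) : IntermediateField ℚ ℂ :=
  IntermediateField.adjoin ℚ ((minpoly ℚ z).rootSet ℂ)

lemma mem_gcl {z : ℂ} (hz : IsIntegral ℚ z) : z ∈ gcl z := by
  apply IntermediateField.subset_adjoin
  rw [mem_rootSet]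
  exact ⟨minpoly.ne_zero hz, minpoly.aeval _ _⟩

instance gcl_split (z : ℂ) : (minpoly ℚ z).IsSplittingField ℚ (gcl z) := by
  apply IntermediateField.adjoin_rootSet_isSplittingField
  exact IsAlgClosed.splits _

instance gcl_fd (z : ℂ) : FiniteDimensional ℚ (gcl z) :=
  IsSplittingField.finiteDimensional (gcl z) (minpoly ℚ z)

instance gcl_nf (z : ℂ) : NumberField (gcl z) :=
  { to_charZero := inferInstance
    to_finiteDimensional := inferInstance }

instance gcl_galois (z : ℂ) : IsGalois ℚ (gcl z) where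
  to_isSeparable := inferInstance
  to_normal := Normal.of_isSplittingField (minpoly ℚ z)

lemma gcl_le {z : ℂ} {L : IntermediateField ℚ ℂ} [Normal ℚ L] (hz : z ∈ L) : gcl z ≤ L := by
  unfold gcl
  rw [IntermediateField.adjoin_le_iff]
  intro y hy
  have h1 : IsIntegral ℚ (⟨z, hz⟩ : L) := Normal.isIntegral inferInstance _
  have h2 : minpoly ℚ (⟨z, hz⟩ : L) = minpoly ℚ z :=
    (minpoly.algebraMap_eq (algebraMap L ℂ).injective (⟨z, hz⟩ : L)).symm
  have h3 : ((minpoly ℚ z).map (algebraMap ℚ L)).Splits := by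
    rw [← h2]
    exact Normal.splits inferInstance _
  have h5 := IsScalarTower.toAlgHom ℚ L ℂ
  have h4 : (minpoly ℚ z).rootSet ℂ = (algebraMap L ℂ) '' (minpoly ℚ z).rootSet L := by
    have := h3.image_rootSet (IsScalarTower.toAlgHom ℚ L ℂ)
    exact this.symm
  rw [h4] at hy
  obtain ⟨x, -, rfl⟩ := hy
  exact x.2

/-- the restriction of the complex conjugations of a normal extension to a normal subextension -/
lemma conj_restrict {L Ω : IntermediateField ℚ ℂ} (hle : L ≤ Ω) [Normal ℚ L] [Normal ℚ Ω]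
    (hfin : (conjugations Ω).Finite) :
    (conjugations L).ncard ≤ (conjugations Ω).ncard := by
  classical
  letI : Algebra L Ω := (IntermediateField.inclusion hle).toAlgebra
  haveI : IsScalarTower ℚ L Ω := IsScalarTower.of_algebraMap_eq (fun x => rfl)
  have hinc : ∀ x : L, ((algebraMap L Ω x : Ω) : ℂ) = (x : ℂ) := fun x => rfl
  have hsub : conjugations L ⊆ (fun σ : Ω ≃ₐ[ℚ] Ω => σ.restrictNormal L) '' (conjugations Ω) := by
    rintro σ ⟨φ, hφ⟩
    set φ' : L →ₐ[ℚ] ℂ := RingHom.equivRatAlgHom L ℂ φ with hφ'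
    have hφ'x : ∀ x, φ' x = φ x := fun x => rfl
    set g : L ≃ₐ[ℚ] L := φ'.restrictNormal' L with hg
    have hgx : ∀ x : L, ((g x : L) : ℂ) = φ x := by
      intro x
      have h1 := AlgHom.restrictNormal_commutes φ' L x
      exact h1
    obtain ⟨g', hg'⟩ := AlgEquiv.restrictNormalHom_surjective (F := ℚ) (K₁ := L) Ω g
    have hg'x : ∀ x : L, g' (algebraMap L Ω x) = algebraMap L Ω (g x) := by
      intro x
      rw [← hg']
      exact (AlgEquiv.restrictNormal_commutes g' L x).symm
    set cj : ℂ →ₐ[ℚ] ℂ := RingHom.equivRatAlgHom ℂ ℂ (starRingEnd ℂ) with hcj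
    have hcjx : ∀ x, cj x = starRingEnd ℂ x := fun x => rfl
    set cΩ : Ω ≃ₐ[ℚ] Ω := cj.restrictNormal' Ω with hcΩ
    have hcΩx : ∀ x : Ω, ((cΩ x : Ω) : ℂ) = starRingEnd ℂ (x : ℂ) := by
      intro x
      have h1 := AlgHom.restrictNormal_commutes cj Ω x
      exact h1
    refine ⟨g'⁻¹ * cΩ * g', ?_, ?_⟩
    · refine ⟨(algebraMap Ω ℂ).comp (g' : Ω →+* Ω), fun x => ?_⟩
      show ((g' ((g'⁻¹ * cΩ * g') x) : Ω) : ℂ) = starRingEnd ℂ ((g' x : Ω) : ℂ)
      rw [← hcΩx]
      congr 1
      rw [← AlgEquiv.mul_apply, ← AlgEquiv.mul_apply]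
      congr 1
      group
    · ext x
      show (((g'⁻¹ * cΩ * g').restrictNormal L x : L) : ℂ) = _
      congr 1
      apply (algebraMap L Ω).injective
      rw [AlgEquiv.restrictNormal_commutes]
      apply g'.injective
      have h1 : g' ((g'⁻¹ * cΩ * g') (algebraMap L Ω x)) = cΩ (g' (algebraMap L Ω x)) := by
        rw [← AlgEquiv.mul_apply, ← AlgEquiv.mul_apply]
        congr 1
        group
      rw [h1]
      apply Subtype.ext
      rw [hcΩx, hg'x, hg'x, hinc, hinc, hgx, hgx, hφ]
  calc (conjugations L).ncard ≤ ((fun σ : Ω ≃ₐ[ℚ] Ω => σ.restrictNormal L) '' (conjugations Ω)).ncard :=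
        Set.ncard_le_ncard hsub (hfin.image _)
    _ ≤ (conjugations Ω).ncard := Set.ncard_image_le hfin

lemma conj_nonempty (Ω : IntermediateField ℚ ℂ) [Normal ℚ Ω] : (conjugations Ω).Nonempty := by
  set cj : ℂ →ₐ[ℚ] ℂ := RingHom.equivRatAlgHom ℂ ℂ (starRingEnd ℂ) with hcj
  refine ⟨cj.restrictNormal' Ω, algebraMap Ω ℂ, fun x => ?_⟩
  have h1 := AlgHom.restrictNormal_commutes cj Ω x
  exact h1

/-- **the Mahler measure of a unit which is not a root of unity, in a normal extension of `ℚ` with few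
complex conjugations** -/
theorem mahler_few : ∃ C : ℝ, 0 < C ∧ ∀ (Ω : IntermediateField ℚ ℂ) [Normal ℚ Ω] (z : ℂ), z ∈ Ω →
    (conjugations Ω).Finite → IsIntegral ℤ z → IsIntegral ℤ z⁻¹ → z ≠ 0 →
    (∀ n : ℕ, 0 < n → z ^ n ≠ 1) →
    ((minpoly ℤ z).natDegree : ℝ) ≤ C * ((conjugations Ω).ncard *
      Real.exp (9 * Real.sqrt (Real.log (2 * (conjugations Ω).ncard)))) *
        Real.log (MM (minpoly ℤ z)) := by
  obtain ⟨C, hC, h⟩ := field_main
  refine ⟨C, hC, ?_⟩
  intro Ω _ z hz hfin hi hi' h0 hroot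
  have hzg : z ∈ gcl z := mem_gcl hi.tower_top
  set L := gcl z with hL
  have hle : L ≤ Ω := gcl_le hz
  have hcard : (conjugations L).ncard ≤ (conjugations Ω).ncard := conj_restrict hle hfin
  set α : L := ⟨z, hzg⟩ with hα
  have hαz : algebraMap L ℂ α = z := rfl
  have hinj : Function.Injective (algebraMap L ℂ) := (algebraMap L ℂ).injective
  have hαi : IsIntegral ℤ α := (isIntegral_algebraMap_iff hinj).mp (by rw [hαz]; exact hi)
  have hαi' : IsIntegral ℤ α⁻¹ := (isIntegral_algebraMap_iff hinj).mp (by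
    rw [map_inv₀, hαz]; exact hi')
  have hα0 : α ≠ 0 := by
    intro h1
    rw [h1, map_zero] at hαz
    exact h0 hαz.symm
  have hαr : ∀ n : ℕ, 0 < n → α ^ n ≠ 1 := by
    intro n hn h1
    have h2 := congrArg (algebraMap L ℂ) h1
    rw [map_pow, hαz, map_one] at h2
    exact hroot n hn h2
  have h1 := deg_le_of_field hαi (h L α hαi hαi' hα0 hαr)
  have hmin : minpoly ℤ α = minpoly ℤ z := by
    rw [← hαz]
    exact (minpoly.algebraMap_eq hinj α).symm
  rw [hmin, ← conjugations_eq] at h1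
  have hlog : 0 ≤ Real.log (MM (minpoly ℤ z)) := by
    by_contra hneg
    push Not at hneg
    have h2 : C * ((conjugations L).ncard *
      Real.exp (9 * Real.sqrt (Real.log (2 * (conjugations L).ncard)))) *
        Real.log (MM (minpoly ℤ z)) ≤ 0 := mul_nonpos_of_nonneg_of_nonpos (by positivity) hneg.le
    have h3 : 0 < (minpoly ℤ z).natDegree := minpoly.natDegree_pos hi
    have h4 : (0:ℝ) < (minpoly ℤ z).natDegree := by exact_mod_cast h3
    linarith
  refine h1.trans ?_
  have hpos : 0 < (conjugations L).ncard := by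
    have hfinL : (conjugations L).Finite := Set.toFinite _
    exact (Set.ncard_pos hfinL).mpr (conj_nonempty L)
  have hpos' : (0:ℝ) < (conjugations L).ncard := by exact_mod_cast hpos
  have hc : ((conjugations L).ncard : ℝ) ≤ (conjugations Ω).ncard := by exact_mod_cast hcard
  gcongr

end Pool.Agent.Run7.h22
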