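import Mathlib
import Pool.Agent.Run7.h22.Ep

/-!
# Units whose products of differences lie in a large ideal

The numbers `u_j = b_j ^ q c_j⁻¹` and `v_j = b_j ^ q c_j` satisfy `(u_j - 1) (v_j - 1) ∈ I` for an ideal
`I` of large norm. The energy inequality, summed over all choices of one of `u_j`, `v_j` for every `j`,
gives a lower bound for the heights.
-/

set_option autoImplicit false

open Finset Module NumberField

namespace Pool.Agent.Run7.h22

open Pool.Agent.H388SL

/-- a choice function on sign vectors takes some value `j` at two vectors with different signs at `j` -/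
lemma exists_sign {r : ℕ} (f : (Fin r → Bool) → Fin r) :
    ∃ (j : Fin r) (ε ε' : Fin r → Bool), f ε = j ∧ f ε' = j ∧ ε j = true ∧ ε' j = false := by
  classical
  obtain ⟨s, hs⟩ : ∃ s : Fin r → Bool, ∀ j, s j = true ↔ ¬ ∃ ε, f ε = j ∧ ε j = true :=
    ⟨fun j => decide (¬ ∃ ε, f ε = j ∧ ε j = true), fun j => decide_eq_true_iff⟩
  have h1 : s (f s) = false := by
    by_contra h
    rw [Bool.not_eq_false] at h
    exact (hs (f s)).mp h ⟨s, rfl, h⟩
  have h2 : ∃ ε, f ε = f s ∧ ε (f s) = true := by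
    by_contra h3
    have h4 := (hs (f s)).mpr h3
    rw [h1] at h4
    exact absurd h4 (by decide)
  obtain ⟨ε, h3, h4⟩ := h2
  exact ⟨f s, ε, s, h3, rfl, h4, h1⟩

lemma prod_mem_of_signs {R : Type*} [CommRing R] (I : Ideal R) {r : ℕ} (A : Fin r → Bool → R)
    (hA : ∀ j, A j true * A j false ∈ I) (x : (Fin r → Bool) → R)
    (hx : ∀ ε, x ε ∈ Ideal.span (Set.range fun j => A j (ε j))) : ∏ ε, x ε ∈ I := by
  classical
  have hx' : ∀ ε, ∃ c : Fin r → R, ∑ j, c j * A j (ε j) = x ε := fun ε =>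
    Ideal.mem_span_range_iff_exists_fun.mp (hx ε)
  choose c hc using hx'
  simp_rw [← hc]
  rw [Finset.prod_univ_sum]
  refine Ideal.sum_mem _ fun f _ => ?_
  obtain ⟨j, ε, ε', h1, h2, h3, h4⟩ := exists_sign f
  have hne : ε ≠ ε' := by
    rintro rfl
    rw [h3] at h4
    exact absurd h4 (by decide)
  have h5 : ∏ e ∈ ({ε, ε'} : Finset (Fin r → Bool)), c e (f e) * A (f e) (e (f e)) ∣
      ∏ e, c e (f e) * A (f e) (e (f e)) :=
    Finset.prod_dvd_prod_of_subset _ _ _ (Finset.subset_univ _)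
  rw [Finset.prod_pair hne, h1, h2, h3, h4] at h5
  refine Ideal.mem_of_dvd _ h5 ?_
  have h6 : c ε j * A j true * (c ε' j * A j false) = c ε j * c ε' j * (A j true * A j false) := by
    ring
  rw [h6]
  exact Ideal.mul_mem_left _ _ (hA j)

variable {K : Type} [Field K] [NumberField K]

lemma sum_log_norm {x : 𝓞 K} (hx : x ≠ 0) :
    ∑ φ : K →ₐ[ℚ] ℂ, Real.log ‖φ (algebraMap (𝓞 K) K x)‖ =
      Real.log ((Algebra.norm ℤ x).natAbs : ℝ) := by
  have hxK : algebraMap (𝓞 K) K x ≠ 0 := by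
    intro h0
    exact hx (RingOfIntegers.coe_injective (by rw [h0, map_zero]))
  rw [← Real.log_prod fun φ _ => norm_ne_zero_iff.mpr ((map_ne_zero φ).mpr hxK)]
  congr 1
  rw [← norm_prod, ← Algebra.norm_eq_prod_embeddings ℚ ℂ (algebraMap (𝓞 K) K x),
    ← Algebra.coe_norm_int]
  rw [eq_ratCast, Rat.cast_intCast, Complex.norm_intCast, Nat.cast_natAbs, Int.cast_abs]

/-- the energy bound for several families of units for which the products of the differences have
large norms -/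
theorem energy_sum {ι S : Type} [Fintype ι] [Fintype S] [Nonempty S] (u : S → ι → K)
    (hu : ∀ s, Function.Injective (u s)) {k : ℝ} (hk1 : 1 ≤ k)
    (hsep : ∀ i j, i ≠ j → (Fintype.card S : ℝ) * ((finrank ℚ K : ℝ) * Real.log 2) ≤
      k * ∑ s : S, ∑ φ : K →ₐ[ℚ] ℂ, Real.log ‖φ (u s i) - φ (u s j)‖)
    {τ : ℝ} (hτ : ∀ s i, lam (u s i) ≤ finrank ℚ K * τ)
    (hX : 256 * k ^ 2 ≤ Fintype.card ι) : 1 / (16 * k) ≤ τ := by
  classical
  by_contra hlt
  push Not at hlt
  set N : ℝ := (finrank ℚ K : ℝ) with hN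
  set X : ℝ := (Fintype.card ι : ℝ) with hXdef
  set m : ℝ := (Fintype.card S : ℝ) with hm
  have hm0 : 0 < m := by rw [hm]; exact_mod_cast Fintype.card_pos
  have hX256 : 256 ≤ X := by nlinarith
  have hX0 : 0 < X := by linarith
  have hk0 : 0 < k := by linarith
  have hN0 : 0 < N := by rw [hN]; exact_mod_cast (finrank_pos : 0 < finrank ℚ K)
  have hcard : Fintype.card (K →ₐ[ℚ] ℂ) = finrank ℚ K := AlgHom.card ℚ K ℂ
  have hE : ∀ (s : S) (φ : K →ₐ[ℚ] ℂ),
      ∑ i : ι, ∑ j : ι, (if i = j then 0 else Real.log ‖φ (u s i) - φ (u s j)‖)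
      ≤ 2 * X * (∑ i : ι, Real.log (max 1 ‖φ (u s i)‖)) + (X + X * Real.log X) := by
    intro s φ
    have ht0 : 0 ≤ 1 - 1 / X := by
      rw [sub_nonneg, div_le_one hX0]; linarith
    have ht1 : 1 - 1 / X < 1 := by
      have : 0 < 1 / X := by positivity
      linarith
    have h := energy (Finset.univ : Finset ι) (fun _ => 1) (fun _ _ => zero_le_one)
      (fun i => φ (u s i)) (fun i _ j _ hij h => hij (hu s (φ.injective h))) ht0 ht1
    simp only [one_mul, Finset.sum_const, Finset.card_univ, nsmul_eq_mul, mul_one, one_pow,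
      Complex.ofReal_one] at h
    rw [← hXdef] at h
    have h1 : X ^ 2 * Real.log (2 / (1 + (1 - 1 / X))) ≤ X := by
      have h2 : 2 / (1 + (1 - 1 / X)) = 1 + 1 / (2 * X - 1) := by
        have h6 : 2 * X - 1 ≠ 0 := by linarith
        have h7 : 1 + (1 - 1 / X) = (2 * X - 1) / X := by
          field_simp
          ring
        rw [h7, div_div_eq_mul_div, div_eq_iff h6, add_mul, one_div_mul_cancel h6]
        ring
      have h3 : Real.log (1 + 1 / (2 * X - 1)) ≤ 1 / (2 * X - 1) := by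
        have h5 : 0 < 1 / (2 * X - 1) := by apply one_div_pos.mpr; linarith
        have := Real.log_le_sub_one_of_pos (show 0 < 1 + 1 / (2 * X - 1) by linarith)
        linarith
      have h4 : 1 / (2 * X - 1) ≤ 1 / X := one_div_le_one_div_of_le hX0 (by linarith)
      rw [h2]
      calc X ^ 2 * Real.log (1 + 1 / (2 * X - 1)) ≤ X ^ 2 * (1 / X) := by
            apply mul_le_mul_of_nonneg_left (h3.trans h4) (by positivity)
        _ = X := by field_simp
    have h5 : Real.log (1 / (1 - (1 - 1 / X))) = Real.log X := by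
      congr 1
      field_simp
      ring
    rw [h5] at h
    have h6 : 0 ≤ (1 - 1 / X) * ‖∑ i : ι, H388SL.refl (φ (u s i))‖ ^ 2 := by positivity
    linarith
  -- the upper bound for one family
  have hup : ∀ s : S, ∑ φ : K →ₐ[ℚ] ℂ, ∑ i : ι, ∑ j : ι,
      (if i = j then 0 else Real.log ‖φ (u s i) - φ (u s j)‖) ≤
        2 * X * (X * (N * τ)) + N * (X + X * Real.log X) := by
    intro s
    have hsum := Finset.sum_le_sum fun φ (_ : φ ∈ (Finset.univ : Finset (K →ₐ[ℚ] ℂ))) => hE s φ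
    rw [Finset.sum_add_distrib, ← Finset.mul_sum,
      Finset.sum_const, Finset.card_univ, hcard, nsmul_eq_mul, ← hN] at hsum
    have hb : ∑ φ : K →ₐ[ℚ] ℂ, ∑ i : ι, Real.log (max 1 ‖φ (u s i)‖) ≤ X * (N * τ) := by
      rw [Finset.sum_comm]
      calc ∑ i : ι, ∑ φ : K →ₐ[ℚ] ℂ, Real.log (max 1 ‖φ (u s i)‖) ≤ ∑ _i : ι, N * τ := by
            apply Finset.sum_le_sum
            intro i _
            exact hτ s i
        _ = X * (N * τ) := by
            rw [Finset.sum_const, Finset.card_univ, nsmul_eq_mul]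
    have h2 := mul_le_mul_of_nonneg_left hb (show 0 ≤ 2 * X by linarith)
    linarith
  have hup2 : ∑ s : S, ∑ φ : K →ₐ[ℚ] ℂ, ∑ i : ι, ∑ j : ι,
      (if i = j then 0 else Real.log ‖φ (u s i) - φ (u s j)‖) ≤
        m * (2 * X * (X * (N * τ)) + N * (X + X * Real.log X)) := by
    calc _ ≤ ∑ _s : S, (2 * X * (X * (N * τ)) + N * (X + X * Real.log X)) :=
          Finset.sum_le_sum fun s _ => hup s
      _ = _ := by rw [Finset.sum_const, Finset.card_univ, nsmul_eq_mul]
  have ha : X * (X - 1) * (m * (N * Real.log 2)) ≤ k * ∑ s : S, ∑ φ : K →ₐ[ℚ] ℂ, ∑ i : ι, ∑ j : ι,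
      (if i = j then 0 else Real.log ‖φ (u s i) - φ (u s j)‖) := by
    have h1 : ∑ s : S, ∑ φ : K →ₐ[ℚ] ℂ, ∑ i : ι, ∑ j : ι,
      (if i = j then 0 else Real.log ‖φ (u s i) - φ (u s j)‖) = ∑ i : ι, ∑ j : ι,
      (if i = j then 0 else ∑ s : S, ∑ φ : K →ₐ[ℚ] ℂ, Real.log ‖φ (u s i) - φ (u s j)‖) := by
      have h0 : ∀ s : S, ∑ φ : K →ₐ[ℚ] ℂ, ∑ i : ι, ∑ j : ι,
        (if i = j then 0 else Real.log ‖φ (u s i) - φ (u s j)‖) = ∑ i : ι, ∑ j : ι,
        (if i = j then 0 else ∑ φ : K →ₐ[ℚ] ℂ, Real.log ‖φ (u s i) - φ (u s j)‖) := by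
        intro s
        rw [Finset.sum_comm]
        refine Finset.sum_congr rfl fun i _ => ?_
        rw [Finset.sum_comm]
        refine Finset.sum_congr rfl fun j _ => ?_
        split_ifs
        · simp
        · rfl
      simp_rw [h0]
      rw [Finset.sum_comm]
      refine Finset.sum_congr rfl fun i _ => ?_
      rw [Finset.sum_comm]
      refine Finset.sum_congr rfl fun j _ => ?_
      split_ifs
      · simp
      · rfl
    rw [h1, Finset.mul_sum]
    have h2 : ∀ i : ι, (X - 1) * (m * (N * Real.log 2)) ≤ k * ∑ j : ι,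
      (if i = j then 0 else ∑ s : S, ∑ φ : K →ₐ[ℚ] ℂ, Real.log ‖φ (u s i) - φ (u s j)‖) := by
      intro i
      rw [Finset.mul_sum]
      have h3 : ∑ j : ι, (if i = j then 0 else m * (N * Real.log 2)) =
          (X - 1) * (m * (N * Real.log 2)) := by
        have h4 : ∀ j : ι, (if i = j then 0 else m * (N * Real.log 2)) =
            m * (N * Real.log 2) - (if i = j then m * (N * Real.log 2) else 0) := by
          intro j
          split_ifs <;> ring
        simp_rw [h4]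
        rw [Finset.sum_sub_distrib, Finset.sum_const, Finset.card_univ, nsmul_eq_mul,
          Finset.sum_ite_eq, if_pos (Finset.mem_univ i)]
        ring
      rw [← h3]
      apply Finset.sum_le_sum
      intro j _
      split_ifs with hij
      · simp
      · exact hsep i j hij
    calc X * (X - 1) * (m * (N * Real.log 2)) = ∑ _i : ι, (X - 1) * (m * (N * Real.log 2)) := by
          rw [Finset.sum_const, Finset.card_univ, nsmul_eq_mul]; ring
      _ ≤ _ := Finset.sum_le_sum fun i _ => h2 i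
  have he : X * (X - 1) * (m * (N * Real.log 2)) ≤
      k * (m * (2 * X * (X * (N * τ)) + N * (X + X * Real.log X))) :=
    ha.trans (mul_le_mul_of_nonneg_left hup2 hk0.le)
  have hf0 : (m * (X * N)) * ((X - 1) * Real.log 2) ≤
      (m * (X * N)) * (2 * X * (k * τ) + k * (1 + Real.log X)) := by
    calc (m * (X * N)) * ((X - 1) * Real.log 2) = X * (X - 1) * (m * (N * Real.log 2)) := by ring
      _ ≤ _ := he
      _ = _ := by ring
  have hf1 := le_of_mul_le_mul_left hf0 (by positivity)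
  have hlog : Real.log X ≤ Real.sqrt X := log_le_sqrt hX0
  have hs : Real.sqrt X ^ 2 = X := Real.sq_sqrt hX0.le
  have hs16 : 16 ≤ Real.sqrt X := by
    rw [show (16:ℝ) = Real.sqrt 256 by
      rw [show (256:ℝ) = 16 ^ 2 by norm_num, Real.sqrt_sq (by norm_num)]]
    exact Real.sqrt_le_sqrt hX256
  have hks : 16 * k ≤ Real.sqrt X := by
    apply Real.le_sqrt_of_sq_le
    nlinarith
  have hf : k * (1 + Real.log X) ≤ X / 8 := by
    have h1 : k * (1 + Real.log X) ≤ k * (1 + Real.sqrt X) :=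
      mul_le_mul_of_nonneg_left (by linarith) (by linarith)
    nlinarith
  have hkτ : k * τ ≤ 1 / 16 := by
    calc k * τ ≤ k * (1 / (16 * k)) := mul_le_mul_of_nonneg_left hlt.le hk0.le
      _ = 1 / 16 := by field_simp
  have hlog2 := Real.log_two_gt_d9
  nlinarith

lemma lam_prod_le' {ι : Type*} (s : Finset ι) (f : ι → K) : lam (∏ i ∈ s, f i) ≤ ∑ i ∈ s, lam (f i) := by
  classical
  induction s using Finset.induction_on with
  | empty =>
    rw [Finset.prod_empty, Finset.sum_empty]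
    unfold lam
    simp
  | insert a s ha ih =>
    rw [Finset.prod_insert ha, Finset.sum_insert ha]
    exact (lam_mul_le _ _).trans (by linarith)

/-- **The main inequality.** -/
theorem master {r q T : ℕ} (hq : 2 ≤ q) (b c : Fin r → (𝓞 K)ˣ) (I : Ideal (𝓞 K))
    (hI : ∀ j, ((b j : 𝓞 K) ^ q - c j) * ((b j : 𝓞 K) ^ q * c j - 1) ∈ I) {κ : ℝ} (hκ : 1 ≤ κ)
    (hN : (finrank ℚ K : ℝ) * Real.log 2 ≤ κ * Real.log (Ideal.absNorm I))
    (ψ : Fin r → (K →ₐ[ℚ] ℂ)) {ℓ : ℝ} (hℓ : 0 < ℓ)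
    (h1 : ∀ j i, i ≠ j → Real.log ‖ψ j (algebraMap (𝓞 K) K (b i))‖ = 0)
    (h1' : ∀ j, Real.log ‖ψ j (algebraMap (𝓞 K) K (b j))‖ = ℓ)
    (h2 : ∀ j, ∃ i₀, |Real.log ‖ψ j (algebraMap (𝓞 K) K (c i₀))‖| ≤ ℓ ∧
      ∀ i, i ≠ i₀ → Real.log ‖ψ j (algebraMap (𝓞 K) K (c i))‖ = 0)
    {Λ : ℝ} (hb : ∀ j, lam (algebraMap (𝓞 K) K (b j)) ≤ Λ)
    (hc : ∀ j, lam (algebraMap (𝓞 K) K (c j)) ≤ Λ)
    (hc' : ∀ j, lam (algebraMap (𝓞 K) K ((c j)⁻¹ : (𝓞 K)ˣ)) ≤ Λ)
    (hT : 256 * (2 ^ r * κ) ^ 2 ≤ (T : ℝ) ^ r) :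
    (finrank ℚ K : ℝ) ≤ 16 * (2 ^ r * κ) * (r * T * (q + 1) * Λ) := by
  classical
  set N : ℝ := (finrank ℚ K : ℝ) with hNdef
  have hN0 : 0 < N := by rw [hNdef]; exact_mod_cast (finrank_pos : 0 < finrank ℚ K)
  -- the units
  set e : Fin r → Bool → (𝓞 K)ˣ := fun j s => if s then b j ^ q * (c j)⁻¹ else b j ^ q * c j with he
  set w : (Fin r → Bool) → (Fin r → Fin T) → (𝓞 K)ˣ := fun ε a => ∏ j, e j (ε j) ^ (a j : ℕ) with hw
  set A : Fin r → Bool → 𝓞 K := fun j s => (e j s : 𝓞 K) - 1 with hA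
  have hAI : ∀ j, A j true * A j false ∈ I := by
    intro j
    have h3 : A j true * A j false =
        ((c j)⁻¹ : (𝓞 K)ˣ) * (((b j : 𝓞 K) ^ q - c j) * ((b j : 𝓞 K) ^ q * c j - 1)) := by
      simp only [hA, he, if_true, Bool.false_eq_true, if_false]
      push_cast
      have h4 : (((c j)⁻¹ : (𝓞 K)ˣ) : 𝓞 K) * (c j : 𝓞 K) = 1 := by
        rw [← Units.val_mul, inv_mul_cancel, Units.val_one]
      linear_combination ((b j : 𝓞 K) ^ q * (c j : 𝓞 K) - 1) * h4
    rw [h3]
    exact Ideal.mul_mem_left _ _ (hI j)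
  have hwJ : ∀ ε a, (w ε a : 𝓞 K) - 1 ∈ Ideal.span (Set.range fun j => A j (ε j)) := by
    intro ε a
    rw [← Ideal.Quotient.eq_zero_iff_mem, map_sub, map_one, sub_eq_zero]
    simp only [hw, Units.coe_prod, Units.val_pow_eq_pow_val, map_prod, map_pow]
    apply Finset.prod_eq_one
    intro j _
    have h3 : (e j (ε j) : 𝓞 K) - 1 ∈ Ideal.span (Set.range fun j => A j (ε j)) :=
      Ideal.subset_span ⟨j, rfl⟩
    rw [← Ideal.Quotient.eq_zero_iff_mem, map_sub, map_one, sub_eq_zero] at h3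
    rw [h3, one_pow]
  -- logarithms
  have hlog : ∀ (φ : K →ₐ[ℚ] ℂ) (ε : Fin r → Bool) (a : Fin r → Fin T),
      Real.log ‖φ (algebraMap (𝓞 K) K (w ε a))‖ =
        ∑ j, (a j : ℕ) * (q * Real.log ‖φ (algebraMap (𝓞 K) K (b j))‖ +
          (if ε j then -1 else 1) * Real.log ‖φ (algebraMap (𝓞 K) K (c j))‖) := by
    intro φ ε a
    have hne : ∀ x : (𝓞 K)ˣ, ‖φ (algebraMap (𝓞 K) K (x : 𝓞 K))‖ ≠ 0 := by
      intro x
      rw [norm_ne_zero_iff, map_ne_zero φ]
      intro h0
      exact x.ne_zero (RingOfIntegers.coe_injective (by rw [h0, map_zero]))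
    simp only [hw, Units.coe_prod, Units.val_pow_eq_pow_val, map_prod, map_pow, norm_prod, norm_pow]
    rw [Real.log_prod fun j _ => pow_ne_zero _ (hne _)]
    refine Finset.sum_congr rfl fun j _ => ?_
    rw [Real.log_pow]
    congr 1
    rcases hε : ε j with _ | _
    · simp only [he, Bool.false_eq_true, if_false, Units.val_mul, Units.val_pow_eq_pow_val, map_mul,
        map_pow, norm_mul, norm_pow, one_mul]
      rw [Real.log_mul (pow_ne_zero _ (hne _)) (hne _), Real.log_pow]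
    · have hinv : ‖φ (algebraMap (𝓞 K) K (((c j)⁻¹ : (𝓞 K)ˣ) : 𝓞 K))‖ =
          ‖φ (algebraMap (𝓞 K) K (c j : 𝓞 K))‖⁻¹ := by
        apply eq_inv_of_mul_eq_one_left
        rw [← norm_mul, ← map_mul, ← map_mul, ← Units.val_mul, inv_mul_cancel, Units.val_one,
          map_one, map_one, norm_one]
      simp only [he, if_true, Units.val_mul, Units.val_pow_eq_pow_val, map_mul,
        map_pow, norm_mul, norm_pow]
      rw [Real.log_mul (pow_ne_zero _ (hne _)) (hne _), Real.log_pow, hinv, Real.log_inv]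
      ring
  -- injectivity
  have hinj : ∀ ε, Function.Injective (fun a : Fin r → Fin T => algebraMap (𝓞 K) K (w ε a : 𝓞 K)) := by
    intro ε a a' haa
    by_contra hne
    have hex : ∃ j, a j ≠ a' j := by
      by_contra h
      push Not at h
      exact hne (funext h)
    obtain ⟨j₀, hj₀⟩ := hex
    obtain ⟨j, -, hj⟩ := Finset.exists_max_image (Finset.univ : Finset (Fin r))
      (fun j => |(((a j : ℕ) : ℝ) - ((a' j : ℕ) : ℝ))|) ⟨j₀, Finset.mem_univ _⟩
    set D : ℝ := |(((a j : ℕ) : ℝ) - ((a' j : ℕ) : ℝ))| with hD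
    have hD0 : 0 < D := by
      have h3 := hj j₀ (Finset.mem_univ _)
      have h4 : 0 < |(((a j₀ : ℕ) : ℝ) - ((a' j₀ : ℕ) : ℝ))| := by
        rw [abs_pos, sub_ne_zero]
        intro h5
        apply hj₀
        apply Fin.ext
        exact_mod_cast h5
      exact lt_of_lt_of_le h4 h3
    have h3 := hlog (ψ j) ε a
    have h4 := hlog (ψ j) ε a'
    have h5 : algebraMap (𝓞 K) K (w ε a : 𝓞 K) = algebraMap (𝓞 K) K (w ε a' : 𝓞 K) := haa
    rw [h5, h4] at h3
    have h6 : ∑ i, (((a i : ℕ) : ℝ) - ((a' i : ℕ) : ℝ)) *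
        (q * Real.log ‖ψ j (algebraMap (𝓞 K) K (b i))‖ +
          (if ε i then -1 else 1) * Real.log ‖ψ j (algebraMap (𝓞 K) K (c i))‖) = 0 := by
      simp_rw [sub_mul]
      rw [Finset.sum_sub_distrib, h3, sub_self]
    obtain ⟨i₀, hi₀, hi₁⟩ := h2 j
    have h7 : ∀ i, (((a i : ℕ) : ℝ) - ((a' i : ℕ) : ℝ)) *
        (q * Real.log ‖ψ j (algebraMap (𝓞 K) K (b i))‖ +
          (if ε i then -1 else 1) * Real.log ‖ψ j (algebraMap (𝓞 K) K (c i))‖) =
        (if i = j then (((a i : ℕ) : ℝ) - ((a' i : ℕ) : ℝ)) * (q * ℓ) else 0) +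
        (if i = i₀ then (((a i : ℕ) : ℝ) - ((a' i : ℕ) : ℝ)) *
          ((if ε i then -1 else 1) * Real.log ‖ψ j (algebraMap (𝓞 K) K (c i))‖) else 0) := by
      intro i
      have h8 : Real.log ‖ψ j (algebraMap (𝓞 K) K (b i))‖ = if i = j then ℓ else 0 := by
        split_ifs with h
        · rw [h]; exact h1' j
        · exact h1 j i h
      rw [h8]
      by_cases hi : i = i₀
      · rw [if_pos hi]
        split_ifs <;> ring
      · rw [if_neg hi, hi₁ i hi]
        split_ifs <;> ring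
    simp_rw [h7] at h6
    rw [Finset.sum_add_distrib, Finset.sum_ite_eq' , Finset.sum_ite_eq', if_pos (Finset.mem_univ _),
      if_pos (Finset.mem_univ _)] at h6
    have h9 : |(((a i₀ : ℕ) : ℝ) - ((a' i₀ : ℕ) : ℝ)) *
          ((if ε i₀ then -1 else 1) * Real.log ‖ψ j (algebraMap (𝓞 K) K (c i₀))‖)| ≤ D * ℓ := by
      rw [abs_mul, abs_mul]
      have h10 : |(if ε i₀ then (-1:ℝ) else 1)| = 1 := by
        split_ifs <;> simp
      rw [h10, one_mul]
      exact mul_le_mul (hj i₀ (Finset.mem_univ _)) hi₀ (abs_nonneg _) hD0.le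
    have h11 : |(((a j : ℕ) : ℝ) - ((a' j : ℕ) : ℝ)) * (q * ℓ)| = D * (q * ℓ) := by
      rw [abs_mul, abs_of_nonneg (by positivity : (0:ℝ) ≤ q * ℓ)]
    have h12 : (((a j : ℕ) : ℝ) - ((a' j : ℕ) : ℝ)) * (q * ℓ) =
        -((((a i₀ : ℕ) : ℝ) - ((a' i₀ : ℕ) : ℝ)) *
          ((if ε i₀ then -1 else 1) * Real.log ‖ψ j (algebraMap (𝓞 K) K (c i₀))‖)) := by
      linarith
    rw [h12, abs_neg] at h11
    rw [h11] at h9
    have h13 : (2:ℝ) ≤ q := by exact_mod_cast hq
    have h14 : 0 < D * ℓ := mul_pos hD0 hℓ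
    nlinarith
  -- heights
  have hlame : ∀ j s, lam (algebraMap (𝓞 K) K (e j s : 𝓞 K)) ≤ (q + 1) * Λ := by
    intro j s
    rcases s with _ | _
    · simp only [he, Bool.false_eq_true, if_false, Units.val_mul, Units.val_pow_eq_pow_val, map_mul,
        map_pow]
      refine (lam_mul_le _ _).trans ?_
      rw [lam_pow]
      have h3 : (q : ℝ) * lam (algebraMap (𝓞 K) K (b j)) ≤ q * Λ :=
        mul_le_mul_of_nonneg_left (hb j) (Nat.cast_nonneg _)
      have h4 := hc j
      linarith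
    · simp only [he, if_true, Units.val_mul, Units.val_pow_eq_pow_val, map_mul, map_pow]
      refine (lam_mul_le _ _).trans ?_
      rw [lam_pow]
      have h3 : (q : ℝ) * lam (algebraMap (𝓞 K) K (b j)) ≤ q * Λ :=
        mul_le_mul_of_nonneg_left (hb j) (Nat.cast_nonneg _)
      have h4 := hc' j
      linarith
  have hΛ0 : ∀ j : Fin r, 0 ≤ Λ := fun j => (lam_nonneg _).trans (hb j)
  have hlam : ∀ ε a, lam (algebraMap (𝓞 K) K (w ε a : 𝓞 K)) ≤ r * T * (q + 1) * Λ := by
    intro ε a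
    simp only [hw, Units.coe_prod, Units.val_pow_eq_pow_val, map_prod, map_pow]
    refine (lam_prod_le' _ _).trans ?_
    have h3 : ∀ j ∈ (Finset.univ : Finset (Fin r)),
        lam (algebraMap (𝓞 K) K (e j (ε j) : 𝓞 K) ^ (a j : ℕ)) ≤ T * ((q + 1) * Λ) := by
      intro j _
      rw [lam_pow]
      apply mul_le_mul _ (hlame j (ε j)) (lam_nonneg _) (Nat.cast_nonneg _)
      exact_mod_cast (a j).2.le
    refine (Finset.sum_le_sum h3).trans (le_of_eq ?_)
    rw [Finset.sum_const, Finset.card_univ, Fintype.card_fin, nsmul_eq_mul]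
    ring
  -- the energy
  have hcardS : (Fintype.card (Fin r → Bool) : ℝ) = 2 ^ r := by
    rw [Fintype.card_fun, Fintype.card_bool, Fintype.card_fin]
    push_cast
    rfl
  have hcardι : (Fintype.card (Fin r → Fin T) : ℝ) = (T : ℝ) ^ r := by
    rw [Fintype.card_fun, Fintype.card_fin, Fintype.card_fin]
    push_cast
    rfl
  have h2r : (1:ℝ) ≤ 2 ^ r := one_le_pow₀ (by norm_num)
  have hk1 : 1 ≤ 2 ^ r * κ := by nlinarith
  have hI0 : I ≠ ⊥ := by
    rintro rfl
    rw [Ideal.absNorm_bot] at hN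
    simp only [CharP.cast_eq_zero, Real.log_zero, mul_zero] at hN
    have : 0 < N * Real.log 2 := mul_pos hN0 (Real.log_pos (by norm_num))
    linarith
  have hfin := energy_sum (K := K) (S := Fin r → Bool) (ι := Fin r → Fin T)
    (fun ε a => algebraMap (𝓞 K) K (w ε a : 𝓞 K)) hinj hk1 (by
      intro a a' haa
      have hx0 : ∀ ε, (w ε a : 𝓞 K) - w ε a' ≠ 0 := by
        intro ε h0
        apply haa
        apply hinj ε
        show algebraMap (𝓞 K) K (w ε a : 𝓞 K) = algebraMap (𝓞 K) K (w ε a' : 𝓞 K)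
        rw [sub_eq_zero.mp h0]
      have hxJ : ∀ ε, (w ε a : 𝓞 K) - w ε a' ∈ Ideal.span (Set.range fun j => A j (ε j)) := by
        intro ε
        have h3 := Ideal.sub_mem _ (hwJ ε a) (hwJ ε a')
        have h4 : (w ε a : 𝓞 K) - 1 - ((w ε a' : 𝓞 K) - 1) = (w ε a : 𝓞 K) - w ε a' := by ring
        rwa [h4] at h3
      have hprod := prod_mem_of_signs I A hAI (fun ε => (w ε a : 𝓞 K) - w ε a') hxJ
      have hprod0 : ∏ ε, ((w ε a : 𝓞 K) - w ε a') ≠ 0 := Finset.prod_ne_zero_iff.mpr fun ε _ => hx0 ε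
      have hle : Ideal.absNorm I ≤ (Algebra.norm ℤ (∏ ε, ((w ε a : 𝓞 K) - w ε a'))).natAbs := by
        apply Nat.le_of_dvd
        · rw [Nat.pos_iff_ne_zero, Int.natAbs_ne_zero]
          exact Algebra.norm_ne_zero_iff.mpr hprod0
        · rw [← Ideal.absNorm_span_singleton]
          apply map_dvd
          rw [Ideal.dvd_span_singleton]
          exact hprod
      have hpos : (0:ℝ) < Ideal.absNorm I := by
        exact_mod_cast Nat.pos_of_ne_zero (Ideal.absNorm_eq_zero_iff.not.mpr hI0)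
      have hloglog : Real.log (Ideal.absNorm I) ≤
          ∑ ε : Fin r → Bool, ∑ φ : K →ₐ[ℚ] ℂ, Real.log ‖φ (algebraMap (𝓞 K) K (w ε a : 𝓞 K)) -
            φ (algebraMap (𝓞 K) K (w ε a' : 𝓞 K))‖ := by
        have h3 : Real.log (Ideal.absNorm I) ≤
            Real.log ((Algebra.norm ℤ (∏ ε, ((w ε a : 𝓞 K) - w ε a'))).natAbs : ℝ) :=
          Real.log_le_log hpos (by exact_mod_cast hle)
        refine h3.trans (le_of_eq ?_)
        rw [← sum_log_norm hprod0, Finset.sum_comm]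
        refine Finset.sum_congr rfl fun φ _ => ?_
        rw [map_prod, map_prod, norm_prod, Real.log_prod]
        · refine Finset.sum_congr rfl fun ε _ => ?_
          rw [map_sub, map_sub]
        · intro ε _
          rw [norm_ne_zero_iff, map_ne_zero φ]
          intro h0
          exact hx0 ε (RingOfIntegers.coe_injective (by rw [h0, map_zero]))
      rw [hcardS]
      calc (2:ℝ) ^ r * (N * Real.log 2) ≤ 2 ^ r * (κ * Real.log (Ideal.absNorm I)) := by
            apply mul_le_mul_of_nonneg_left hN (by positivity)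
        _ = 2 ^ r * κ * Real.log (Ideal.absNorm I) := by ring
        _ ≤ _ := mul_le_mul_of_nonneg_left hloglog (by positivity))
    (τ := r * T * (q + 1) * Λ / N) (by
      intro ε a
      refine (hlam ε a).trans (le_of_eq ?_)
      rw [← hNdef]
      field_simp)
    (by rw [hcardι]; exact hT)
  rw [le_div_iff₀ hN0] at hfin
  have h3 : 0 < 16 * (2 ^ r * κ) := by positivity
  calc N = 16 * (2 ^ r * κ) * (1 / (16 * (2 ^ r * κ)) * N) := by field_simp
    _ ≤ _ := mul_le_mul_of_nonneg_left hfin h3.le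

end Pool.Agent.Run7.h22
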