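import Mathlib
import Pool.Agent.Run7.h22.Sal
import Pool.Agent.Run7.h22.Gr
import Pool.Agent.Run7.h22.Frob2

/-!
# Salem numbers whose trace field has few Frobenius automorphisms: the number fields
-/

set_option autoImplicit false

open Finset Module NumberField Polynomial

namespace Pool.Agent.Run7.h22

open Pool.Agent.H388SL

/-- the height of an algebraic integer in a number field -/
lemma lam_eq_MM {K : Type} [Field K] [NumberField K] {α : K} (hα : IsIntegral ℤ α) :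
    lam α * (minpoly ℤ α).natDegree = finrank ℚ K * Real.log (MM (minpoly ℤ α)) := by
  set F := IntermediateField.adjoin ℚ {α} with hF
  set γ : F := IntermediateField.AdjoinSimple.gen ℚ α with hγ
  have hγα : algebraMap F K γ = α := IntermediateField.AdjoinSimple.algebraMap_gen ℚ α
  have hγi : IsIntegral ℤ γ := by
    rw [← hγα] at hα
    exact (isIntegral_algebraMap_iff (algebraMap F K).injective).mp hα
  have hγm : minpoly ℤ γ = minpoly ℤ α := by
    rw [← hγα]
    exact (minpoly.algebraMap_eq (algebraMap F K).injective γ).symm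
  have hlog : Real.log (MM (minpoly ℤ α)) = lam γ := by
    have h3 := Pool.Agent.H45R3.UG.log_MM_minpoly hγi (CInj_gen α)
    rw [hγm] at h3
    exact h3
  have hlamα : lam α = finrank F K * lam γ := by
    have := sum_embeddings' α (fun z => Real.log (max 1 ‖z‖))
    rw [nsmul_eq_mul] at this
    exact this
  have hFdeg : finrank ℚ F = (minpoly ℤ α).natDegree := by
    rw [hF, IntermediateField.adjoin.finrank (hα.tower_top),
      minpoly.isIntegrallyClosed_eq_field_fractions' ℚ hα,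
      natDegree_map_eq_of_injective (algebraMap ℤ ℚ).injective_int]
  have hmul : (finrank ℚ K : ℝ) = finrank ℚ F * finrank F K := by
    rw [← finrank_mul_finrank ℚ F K]
    push_cast
    rfl
  rw [hlamα, hmul, hFdeg, ← hlog]
  ring

/-- a monic irreducible integer polynomial is the minimal polynomial of its zeros -/
lemma minpoly_eq_of_root {K : Type} [Field K] [NumberField K] {f : ℤ[X]} (hf : Irreducible f)
    (hm : f.Monic) {x : K} (hx : aeval x f = 0) :
    IsIntegral ℤ x ∧ minpoly ℤ x = f ∧ minpoly ℚ x = f.map (algebraMap ℤ ℚ) := by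
  have hint : IsIntegral ℤ x := ⟨f, hm, by rwa [← aeval_def]⟩
  have hq : minpoly ℚ x = f.map (algebraMap ℤ ℚ) := by
    refine (minpoly.eq_of_irreducible_of_monic ?_ ?_ (hm.map _)).symm
    · exact (hm.irreducible_iff_irreducible_map_fraction_map).mp hf
    · rw [aeval_map_algebraMap, hx]
  refine ⟨hint, ?_, hq⟩
  rw [minpoly.isIntegrallyClosed_eq_field_fractions' ℚ hint] at hq
  exact map_injective _ (algebraMap ℤ ℚ).injective_int hq

/-- the conjugates -/
lemma exists_embedding {K : Type} [Field K] [NumberField K] {f : ℤ[X]} (hf : Irreducible f)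
    (hm : f.Monic) {x : K} (hx : aeval x f = 0) {z : ℂ} (hz : aeval z f = 0) :
    ∃ φ : K →ₐ[ℚ] ℂ, φ x = z := by
  have h1 : z ∈ (minpoly ℚ x).rootSet ℂ := by
    rw [(minpoly_eq_of_root hf hm hx).2.2, mem_rootSet]
    refine ⟨(hm.map _).ne_zero, ?_⟩
    rw [aeval_map_algebraMap, hz]
  rw [← (Algebra.IsAlgebraic.range_eval_eq_rootSet_minpoly (F := ℚ) (K := K) ℂ x)] at h1
  obtain ⟨φ, hφ⟩ := h1
  exact ⟨φ, hφ⟩

/-- the congruence -/
lemma congruence {R : Type*} [CommRing R] (I : Ideal R) {p a : ℕ} (hp : p.Prime) (hpI : (p : R) ∈ I)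
    {b b' c c' t s : R} (hbb : b * b' = 1) (hcc : c * c' = 1) (hb : b + b' = t) (hc : c + c' = s)
    (hts : t ^ (p ^ a) - s ∈ I) :
    (b ^ (p ^ a) - c) * (b ^ (p ^ a) * c - 1) ∈ I := by
  obtain ⟨r₀, hr₀⟩ := (Commute.all b b').exists_add_pow_prime_pow_eq hp a
  obtain ⟨r, hr⟩ : ∃ r : R, (b + b') ^ p ^ a = b ^ p ^ a + b' ^ p ^ a + p * r :=
    ⟨b * b' * r₀, by rw [hr₀]; ring⟩
  have h1 : (b ^ (p ^ a) - c) * (b ^ (p ^ a) * c - 1) =
      b ^ (p ^ a) * c * ((t ^ (p ^ a) - s) - p * r) := by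
    have h2 : b ^ (p ^ a) * b' ^ (p ^ a) = 1 := by rw [← mul_pow, hbb, one_pow]
    have h3 : t ^ (p ^ a) = b ^ p ^ a + b' ^ p ^ a + p * r := by rw [← hb, hr]
    rw [h3, ← hc]
    linear_combination (-c) * h2 + (b ^ (p ^ a)) * hcc
  rw [h1]
  exact Ideal.mul_mem_left _ _ (Ideal.sub_mem _ hts (Ideal.mul_mem_right _ _ hpI))

variable {L L' : Type} [Field L] [NumberField L] [Field L'] [NumberField L'] [Algebra L L']

lemma log_absNorm_map (J : Ideal (𝓞 L)) :
    Real.log (Ideal.absNorm (J.map (algebraMap (𝓞 L) (𝓞 L')))) =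
      finrank L L' * Real.log (Ideal.absNorm J) := by
  rw [Ideal.absNorm_algebraMap, IsFractionRing.finrank_eq (𝓞 L) L (𝓞 L') L']
  push_cast
  rw [Real.log_pow]

/-- **The inequality for Salem numbers.** -/
theorem salem_core [IsGalois ℚ L] [Normal ℚ L'] {f : ℤ[X]} (hf : Irreducible f) (hm : f.Monic)
    {α : ℝ} (hα : 1 < α) (hroot : aeval (α : ℂ) f = 0) (hroot' : aeval ((α : ℂ)⁻¹) f = 0)
    (hone : ∀ z : ℂ, aeval z f = 0 → z ≠ (α : ℂ) → z ≠ (α : ℂ)⁻¹ → ‖z‖ = 1)
    {p a : ℕ} (hp : p.Prime) (ha : 1 ≤ a)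
    {r T : ℕ} (B : Fin r → L') (t : Fin r → L) (hB : ∀ j, aeval (B j) f = 0)
    (ht : ∀ j, algebraMap L L' (t j) = B j + (B j)⁻¹) (hinj : Function.Injective t)
    (hT : 256 * (2 ^ r * ((frobSet L p (p ^ a)).ncard : ℝ)) ^ 2 ≤ (T : ℝ) ^ r) :
    (f.natDegree : ℝ) ≤ 16 * (2 ^ r * (frobSet L p (p ^ a)).ncard) *
      (r * T * ((p : ℝ) ^ a + 1) * Real.log (MM f)) := by
  classical
  obtain ⟨σ, Φ, hΦ, hF, hN⟩ := exists_sigma_ram (K := L) hp a
  set κ : ℝ := ((frobSet L p (p ^ a)).ncard : ℝ) with hκdef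
  have hκ1 : (1:ℝ) ≤ κ := by
    obtain ⟨𝔓, h𝔓⟩ := hΦ
    have h1 : (frobSet L p (p ^ a)).Nonempty := ⟨σ, 𝔓, hF 𝔓 h𝔓⟩
    have h2 := (Set.ncard_pos (Set.toFinite _)).mpr h1
    rw [hκdef]
    exact_mod_cast h2
  set q : ℕ := p ^ a with hqdef
  have hq2 : 2 ≤ q := by
    calc 2 ≤ p := hp.two_le
      _ = p ^ 1 := (pow_one p).symm
      _ ≤ p ^ a := Nat.pow_le_pow_right hp.pos ha
  -- the ideal
  set J : Ideal (𝓞 L) := ∏ 𝔓 ∈ Φ, 𝔓 with hJ
  set I : Ideal (𝓞 L') := J.map (algebraMap (𝓞 L) (𝓞 L')) with hI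
  have hbot : ∀ 𝔓 ∈ Φ, 𝔓 ≠ ⊥ := by
    rintro 𝔓 h𝔓 rfl
    have h1 := (hF _ h𝔓).2.1
    rw [Ideal.mem_bot] at h1
    exact hp.ne_zero (by exact_mod_cast h1)
  have hmemJ : ∀ x : 𝓞 L, (∀ 𝔓 ∈ Φ, x ∈ 𝔓) → x ∈ J := by
    intro x hx
    have hdvd : J ∣ Ideal.span {x} := by
      apply Finset.prod_primes_dvd
      · intro 𝔓 h𝔓
        exact Ideal.prime_of_isPrime (hbot 𝔓 h𝔓) (hF 𝔓 h𝔓).1
      · intro 𝔓 h𝔓
        rw [Ideal.dvd_span_singleton]
        exact hx 𝔓 h𝔓
    rwa [Ideal.dvd_span_singleton] at hdvd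
  have hmemI : ∀ x : 𝓞 L, (∀ 𝔓 ∈ Φ, x ∈ 𝔓) → algebraMap (𝓞 L) (𝓞 L') x ∈ I := fun x hx =>
    Ideal.mem_map_of_mem _ (hmemJ x hx)
  have hpI : (p : 𝓞 L') ∈ I := by
    have h1 := hmemI (p : 𝓞 L) (fun 𝔓 h𝔓 => (hF 𝔓 h𝔓).2.1)
    rwa [map_natCast] at h1
  have hlogI : (finrank ℚ L' : ℝ) * Real.log 2 ≤ κ * Real.log (Ideal.absNorm I) := by
    have h1 : Real.log (Ideal.absNorm J) = ∑ 𝔓 ∈ Φ, Real.log (Ideal.absNorm 𝔓) := by
      rw [hJ, map_prod]
      push_cast
      rw [Real.log_prod]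
      intro 𝔓 h𝔓
      exact_mod_cast (Ideal.absNorm_eq_zero_iff.not.mpr (hbot 𝔓 h𝔓))
    rw [hI, log_absNorm_map, h1]
    have h2 : (finrank ℚ L' : ℝ) = finrank ℚ L * finrank L L' := by
      rw [← finrank_mul_finrank ℚ L L']
      push_cast
      rfl
    have hlp : Real.log 2 ≤ Real.log p := by
      apply Real.log_le_log (by norm_num)
      exact_mod_cast hp.two_le
    rw [h2]
    calc (finrank ℚ L : ℝ) * finrank L L' * Real.log 2
        ≤ (finrank ℚ L : ℝ) * finrank L L' * Real.log p := by gcongr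
      _ = finrank L L' * (finrank ℚ L * Real.log p) := by ring
      _ ≤ finrank L L' * (κ * ∑ 𝔓 ∈ Φ, Real.log (Ideal.absNorm 𝔓)) := by gcongr
      _ = _ := by ring
  -- the extension of `σ`
  set σ' : L' ≃ₐ[ℚ] L' := σ.liftNormal L' with hσ'
  have hσ'' : ∀ x : L, σ' (algebraMap L L' x) = algebraMap L L' (σ x) := fun x =>
    AlgEquiv.liftNormal_commutes σ L' x
  -- zeros of `f`
  have hα0 : (α : ℂ) ≠ 0 := by
    exact_mod_cast (by linarith : α ≠ 0)
  have hemb : ∀ x : L', aeval x f = 0 → ∃ φ : L' →ₐ[ℚ] ℂ, φ x = α := fun x hx =>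
    exists_embedding hf hm hx hroot
  have hinv : ∀ x : L', aeval x f = 0 → x ≠ 0 ∧ aeval x⁻¹ f = 0 := by
    intro x hx
    obtain ⟨φ, hφ⟩ := hemb x hx
    have hx0 : x ≠ 0 := by
      rintro rfl
      rw [map_zero] at hφ
      exact hα0 hφ.symm
    refine ⟨hx0, ?_⟩
    refine (map_eq_zero φ).mp ?_
    have h1 : φ (aeval x⁻¹ f) = aeval (φ x⁻¹) f := by
      have := aeval_algHom_apply (φ.restrictScalars ℤ) x⁻¹ f
      exact this.symm
    rw [h1, map_inv₀, hφ, hroot']
  have hmul : ∀ x : L', aeval x f = 0 → aeval (σ' x) f = 0 := by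
    intro x hx
    have h1 := aeval_algHom_apply ((σ' : L' →ₐ[ℚ] L').restrictScalars ℤ) x f
    have h2 : aeval (σ' x) f = σ' (aeval x f) := h1
    rw [h2, hx, map_zero]
  set C : Fin r → L' := fun j => σ' (B j) with hC
  have hCroot : ∀ j, aeval (C j) f = 0 := fun j => hmul _ (hB j)
  have hCt : ∀ j, algebraMap L L' (σ (t j)) = C j + (C j)⁻¹ := by
    intro j
    rw [← hσ'', ht j, map_add, map_inv₀]
  -- units
  have hunit : ∀ x : L', aeval x f = 0 → ∃ v : (𝓞 L')ˣ, algebraMap (𝓞 L') L' (v : 𝓞 L') = x ∧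
      algebraMap (𝓞 L') L' ((v⁻¹ : (𝓞 L')ˣ) : 𝓞 L') = x⁻¹ := by
    intro x hx
    have h1 := (minpoly_eq_of_root hf hm hx).1
    have h2 := (minpoly_eq_of_root hf hm (hinv x hx).2).1
    set b : 𝓞 L' := ⟨x, h1⟩ with hb
    set b' : 𝓞 L' := ⟨x⁻¹, h2⟩ with hb'
    have hbα : algebraMap (𝓞 L') L' b = x := rfl
    have hbα' : algebraMap (𝓞 L') L' b' = x⁻¹ := rfl
    have hbb : b * b' = 1 := by
      apply RingOfIntegers.coe_injective
      rw [map_mul, hbα, hbα', mul_inv_cancel₀ (hinv x hx).1, map_one]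
    exact ⟨⟨b, b', hbb, by rw [mul_comm]; exact hbb⟩, rfl, rfl⟩
  choose b hb hb' using fun j => hunit (B j) (hB j)
  choose c hc hc' using fun j => hunit (C j) (hCroot j)
  have htint : ∀ j, IsIntegral ℤ (t j) := by
    intro j
    have h1 : IsIntegral ℤ (algebraMap L L' (t j)) := by
      rw [ht j]
      exact ((minpoly_eq_of_root hf hm (hB j)).1).add ((minpoly_eq_of_root hf hm (hinv _ (hB j)).2).1)
    exact (isIntegral_algebraMap_iff (algebraMap L L').injective).mp h1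
  have hcong : ∀ j, ((b j : 𝓞 L') ^ q - c j) * ((b j : 𝓞 L') ^ q * c j - 1) ∈ I := by
    intro j
    set t' : 𝓞 L := ⟨t j, htint j⟩ with ht'
    have htt : algebraMap (𝓞 L) L t' = t j := rfl
    have hdiag : ∀ y : 𝓞 L, algebraMap (𝓞 L') L' (algebraMap (𝓞 L) (𝓞 L') y) =
        algebraMap L L' (algebraMap (𝓞 L) L y) := fun y => rfl
    refine congruence I hp hpI (b := (b j : 𝓞 L')) (b' := ((b j)⁻¹ : (𝓞 L')ˣ)) (c := (c j : 𝓞 L'))
      (c' := ((c j)⁻¹ : (𝓞 L')ˣ)) (t := algebraMap (𝓞 L) (𝓞 L') t')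
      (s := algebraMap (𝓞 L) (𝓞 L') (σ • t')) ?_ ?_ ?_ ?_ ?_
    · rw [← Units.val_mul, mul_inv_cancel, Units.val_one]
    · rw [← Units.val_mul, mul_inv_cancel, Units.val_one]
    · apply RingOfIntegers.coe_injective
      rw [map_add, hb, hb', hdiag, htt, ht]
    · apply RingOfIntegers.coe_injective
      rw [map_add, hc, hc', hdiag, smul_coe, htt, hCt]
    · rw [← map_pow, ← map_sub]
      apply hmemI
      intro 𝔓 h𝔓
      rw [← neg_sub]
      exact neg_mem ((hF 𝔓 h𝔓).2.2 t')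
  -- embeddings
  choose ψ hψ using fun j => hemb (B j) (hB j)
  have hrootψ : ∀ (φ : L' →ₐ[ℚ] ℂ) (x : L'), aeval x f = 0 → aeval (φ x) f = 0 := by
    intro φ x hx
    have h1 : aeval (φ x) f = φ (aeval x f) := aeval_algHom_apply (φ.restrictScalars ℤ) x f
    rw [h1, hx, map_zero]
  have hsum : ∀ (j : Fin r) (x : L'), aeval x f = 0 → ‖ψ j x‖ ≠ 1 →
      ψ j (x + x⁻¹) = (α : ℂ) + (α : ℂ)⁻¹ := by
    intro j x hx hne
    have h1 := hrootψ (ψ j) x hx
    rw [map_add, map_inv₀]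
    by_cases h2 : ψ j x = α
    · rw [h2]
    by_cases h3 : ψ j x = (α : ℂ)⁻¹
    · rw [h3, inv_inv, add_comm]
    exact absurd (hone _ h1 h2 h3) hne
  have hℓ : 0 < Real.log α := Real.log_pos hα
  have hnormα : ‖(α : ℂ)‖ = α := by
    rw [Complex.norm_real, Real.norm_eq_abs, abs_of_pos (by linarith)]
  have key := master (K := L') hq2 b c I hcong hκ1 hlogI ψ hℓ (by
      intro j i hij
      rw [hb]
      by_contra h0
      have h1 : ‖ψ j (B i)‖ ≠ 1 := by
        intro h2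
        rw [h2, Real.log_one] at h0
        exact h0 rfl
      have h2 := hsum j (B i) (hB i) h1
      have h3 : ψ j (B j + (B j)⁻¹) = (α : ℂ) + (α : ℂ)⁻¹ := by
        rw [map_add, map_inv₀, hψ]
      have h4 := (ψ j).injective (h2.trans h3.symm)
      rw [← ht, ← ht] at h4
      exact hij (hinj ((algebraMap L L').injective h4)))
    (by
      intro j
      rw [hb, hψ, hnormα])
    (by
      intro j
      by_cases hex : ∃ i, ‖ψ j (C i)‖ ≠ 1
      · obtain ⟨i₀, hi₀⟩ := hex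
        refine ⟨i₀, ?_, ?_⟩
        · rw [hc]
          have h1 := hrootψ (ψ j) (C i₀) (hCroot i₀)
          by_cases h2 : ψ j (C i₀) = α
          · rw [h2, hnormα, abs_of_pos hℓ]
          by_cases h3 : ψ j (C i₀) = (α : ℂ)⁻¹
          · rw [h3, norm_inv, hnormα, Real.log_inv, abs_neg, abs_of_pos hℓ]
          exact absurd (hone _ h1 h2 h3) hi₀
        · intro i hi
          rw [hc]
          by_contra h0
          have h1 : ‖ψ j (C i)‖ ≠ 1 := by
            intro h2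
            rw [h2, Real.log_one] at h0
            exact h0 rfl
          have h2 := hsum j (C i) (hCroot i) h1
          have h3 := hsum j (C i₀) (hCroot i₀) hi₀
          have h4 := (ψ j).injective (h2.trans h3.symm)
          rw [← hCt, ← hCt] at h4
          exact hi (hinj (σ.injective ((algebraMap L L').injective h4)))
      · push Not at hex
        refine ⟨j, ?_, ?_⟩
        · rw [hc, hex, Real.log_one, abs_zero]
          exact hℓ.le
        · intro i _
          rw [hc, hex, Real.log_one])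
    (Λ := finrank ℚ L' * Real.log (MM f) / f.natDegree)
    (by
      intro j
      have h1 := minpoly_eq_of_root hf hm (hB j)
      have h2 := lam_eq_MM h1.1
      have hdeg : (0:ℝ) < f.natDegree := by
        rw [← h1.2.1]
        exact_mod_cast minpoly.natDegree_pos h1.1
      rw [h1.2.1] at h2
      rw [hb, le_div_iff₀ hdeg, h2])
    (by
      intro j
      have h1 := minpoly_eq_of_root hf hm (hCroot j)
      have h2 := lam_eq_MM h1.1
      have hdeg : (0:ℝ) < f.natDegree := by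
        rw [← h1.2.1]
        exact_mod_cast minpoly.natDegree_pos h1.1
      rw [h1.2.1] at h2
      rw [hc, le_div_iff₀ hdeg, h2])
    (by
      intro j
      have h1 := minpoly_eq_of_root hf hm (hinv _ (hCroot j)).2
      have h2 := lam_eq_MM h1.1
      have hdeg : (0:ℝ) < f.natDegree := by
        rw [← h1.2.1]
        exact_mod_cast minpoly.natDegree_pos h1.1
      rw [h1.2.1] at h2
      rw [hc', le_div_iff₀ hdeg, h2])
    hT
  have hdeg : (0:ℝ) < f.natDegree := by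
    rcases Nat.eq_zero_or_pos f.natDegree with h0 | h0
    · exfalso
      have h1 : f = 1 := eq_one_of_monic_natDegree_zero hm h0
      rw [h1] at hf
      exact hf.not_isUnit isUnit_one
    · exact_mod_cast h0
  have hL0 : (0:ℝ) < finrank ℚ L' := by exact_mod_cast (finrank_pos : 0 < finrank ℚ L')
  have h3 : (f.natDegree : ℝ) * finrank ℚ L' ≤ (16 * (2 ^ r * κ) *
      (r * T * ((p : ℝ) ^ a + 1) * Real.log (MM f))) * finrank ℚ L' := by
    have h4 := mul_le_mul_of_nonneg_left key hdeg.le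
    refine h4.trans (le_of_eq ?_)
    rw [hqdef]
    push_cast
    field_simp
  exact le_of_mul_le_mul_right h3 hL0

end Pool.Agent.Run7.h22
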