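import Mathlib
import Pool.Agent.Run7.h22.AbsN

/-!
# Heights of the elements of a Galois number field with few complex conjugations
-/

set_option autoImplicit false

open Finset Module NumberField

namespace Pool.Agent.Run7.h22

open Pool.Agent.H388SL

/-- elements which are positive for all the embeddings with complex conjugation `c` -/
def PosN {K : Type*} [Field K] [NumberField K] (c : K ≃ₐ[ℚ] K) (x : K) : Prop :=
  x ≠ 0 ∧ ∀ φ : K →ₐ[ℚ] ℂ, IsCC c φ → ∃ r : ℝ, 0 < r ∧ φ x = r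

/-- the positive elements satisfy the hypotheses of `abs_gen` -/
lemma goodNumbers_cc {K : Type} [Field K] [NumberField K] [IsGalois ℚ K] {c : K ≃ₐ[ℚ] K}
    {φ : K →ₐ[ℚ] ℂ} (hφ : IsCC c φ) :
    GoodNumbers K (ccSet K).ncard (Subgroup.centralizer {c}) (PosN c) where
  index := index_le hφ
  one := ⟨one_ne_zero, fun φ _ => ⟨1, one_pos, by simp⟩⟩
  mul x y hx hy := by
    refine ⟨mul_ne_zero hx.1 hy.1, fun φ hφ => ?_⟩
    obtain ⟨r, hr, hr2⟩ := hx.2 φ hφ
    obtain ⟨t, ht, ht2⟩ := hy.2 φ hφ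
    exact ⟨r * t, mul_pos hr ht, by rw [map_mul, hr2, ht2]; push_cast; rfl⟩
  inv x hx := by
    refine ⟨inv_ne_zero hx.1, fun φ hφ => ?_⟩
    obtain ⟨r, hr, hr2⟩ := hx.2 φ hφ
    exact ⟨r⁻¹, inv_pos.mpr hr, by rw [map_inv₀, hr2]; push_cast; rfl⟩
  ne_zero x hx := hx.1
  aut g hg x hx := by
    refine ⟨(map_ne_zero g).mpr hx.1, fun φ hφ => ?_⟩
    exact hx.2 (φ.comp (g : K →ₐ[ℚ] K)) (hφ.comp (Subgroup.mem_centralizer_singleton_iff.mp hg))
  torsion x hx n hn h := by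
    obtain ⟨r, hr, hr2⟩ := hx.2 φ hφ
    have h1 : (r : ℂ) ^ n = 1 := by rw [← hr2, ← map_pow, h, map_one]
    have h2 : r ^ n = 1 := by exact_mod_cast h1
    have h3 : r = 1 := (pow_eq_one_iff_of_nonneg hr.le hn.ne').mp h2
    have h4 : φ x = φ 1 := by rw [hr2, h3, map_one, Complex.ofReal_one]
    exact φ.injective h4
  energy ι _ u hu hQ τ hτ hX := by
    have hk1 : (1:ℝ) ≤ ((ccSet K).ncard : ℝ) := by
      have h1 : (ccSet K).Nonempty := ⟨c, φ, hφ⟩
      have h2 := (Set.ncard_pos (Set.toFinite _)).mpr h1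
      exact_mod_cast h2
    exact energy_bound_gen (Phi c) u hu (fun i => (hQ i).1)
      (fun i ψ hψ => (hQ i).2 ψ (mem_Phi.mp hψ)) hk1 (by exact_mod_cast finrank_le hφ) hτ hX

/-- **The height of an element of a Galois number field with `k` complex conjugations**, not all of
whose conjugates are on the unit circle. -/
theorem field_gen : ∃ C : ℝ, 0 < C ∧ ∀ (K : Type) [Field K] [NumberField K] [IsGalois ℚ K] (α : K),
    α ≠ 0 → (∃ φ : K →ₐ[ℚ] ℂ, ‖φ α‖ ≠ 1) →
    (finrank ℚ K : ℝ) ≤ C * ((ccSet K).ncard *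
      Real.exp (9 * Real.sqrt (Real.log (2 * (ccSet K).ncard)))) * Height.logHeight₁ α := by
  obtain ⟨C, hC, h⟩ := abs_gen
  refine ⟨2 * C, by positivity, ?_⟩
  intro K _ _ _ α h0 ⟨φ, hφ⟩
  obtain ⟨c, hc⟩ := exists_cc φ
  have hG := goodNumbers_cc hc
  have hc0 : c α ≠ 0 := (map_ne_zero c).mpr h0
  have hP : PosN c (α * c α) := by
    refine ⟨mul_ne_zero h0 hc0, fun ψ hψ => ?_⟩
    refine ⟨‖ψ α‖ ^ 2, ?_, ?_⟩
    · have : 0 < ‖ψ α‖ := norm_pos_iff.mpr ((map_ne_zero ψ).mpr h0)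
      positivity
    · rw [map_mul, hψ α, Complex.mul_conj, Complex.normSq_eq_norm_sq]
  have hne : α * c α ≠ 1 := by
    intro h1
    have h2 := congrArg φ h1
    rw [map_mul, hc α, Complex.mul_conj, Complex.normSq_eq_norm_sq, map_one] at h2
    have h3 : ‖φ α‖ ^ 2 = 1 := by exact_mod_cast h2
    exact hφ ((pow_eq_one_iff_of_nonneg (norm_nonneg _) two_ne_zero).mp h3)
  have h1 := h K _ _ _ hG (α * c α) hP hne
  have h2 : Height.logHeight₁ (α * c α) ≤ 2 * Height.logHeight₁ α := by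
    refine (Height.logHeight₁_mul_le _ _).trans ?_
    rw [lh_aut]
    linarith
  refine h1.trans ?_
  calc C * ((ccSet K).ncard * Real.exp (9 * Real.sqrt (Real.log (2 * (ccSet K).ncard)))) *
        Height.logHeight₁ (α * c α)
      ≤ C * ((ccSet K).ncard * Real.exp (9 * Real.sqrt (Real.log (2 * (ccSet K).ncard)))) *
        (2 * Height.logHeight₁ α) := mul_le_mul_of_nonneg_left h2 (by positivity)
    _ = _ := by ring

end Pool.Agent.Run7.h22
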