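import Mathlib
import Pool.Agent.H58R.Loc
import Pool.Agent.Run7.h22.Rel8

/-!
# Translates of subtori

The lemmas `chi_injective`, `mono_eval`, `exists_exponent` are copied from the starting file
`Pool/Agent/Results/MP_187c26_nt/RadicalTranslates.lean`.
-/

set_option autoImplicit false

open Finset Module Polynomial NumberField Height

namespace Pool.Agent.Run7.h22

open Pool.Agent.H58P (ht Qb)
open Pool.Agent.H58R (ht_nonneg ht_zpow ht_prod_le)

/-- the translate by the point `x` of the subtorus which consists of the points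
`(t^(e_1), ..., t^(e_n))`, where `t^(e_i)` is the product of the `t_j^(e_ij)` -/
def trans {n d : ℕ} (x : Fin n → AlgebraicClosure ℚ) (e : Fin n → Fin d → ℤ) :
    Set (Fin n → AlgebraicClosure ℚ) :=
  {y | ∃ t : Fin d → (AlgebraicClosure ℚ)ˣ,
    ∀ i, y i = x i * ∏ j, (t j : AlgebraicClosure ℚ) ^ e i j}

/-- the character `t ↦ ∏ t_j^(u_j)` -/
noncomputable def chi {d : ℕ} (u : Fin d → ℤ) :
    (Fin d → (AlgebraicClosure ℚ)ˣ) →* AlgebraicClosure ℚ where
  toFun t := ∏ j, (t j : AlgebraicClosure ℚ) ^ u j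
  map_one' := by simp
  map_mul' s t := by
    rw [← Finset.prod_mul_distrib]
    refine Finset.prod_congr rfl fun j _ => ?_
    rw [Pi.mul_apply, Units.val_mul, mul_zpow]

lemma chi_apply {d : ℕ} (u : Fin d → ℤ) (t : Fin d → (AlgebraicClosure ℚ)ˣ) :
    chi u t = ∏ j, (t j : AlgebraicClosure ℚ) ^ u j := rfl

lemma two_zpow_inj {m k : ℤ} (h : (2 : AlgebraicClosure ℚ) ^ m = 2 ^ k) : m = k := by
  have h1 : (algebraMap ℚ (AlgebraicClosure ℚ)) ((2 : ℚ) ^ m) =
      (algebraMap ℚ (AlgebraicClosure ℚ)) ((2 : ℚ) ^ k) := by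
    rw [map_zpow₀, map_zpow₀, map_ofNat]
    exact h
  have h2 : (2 : ℚ) ^ m = 2 ^ k := (algebraMap ℚ (AlgebraicClosure ℚ)).injective h1
  exact zpow_right_injective₀ (by norm_num) (by norm_num) h2

lemma chi_injective {d : ℕ} : Function.Injective (chi (d := d)) := by
  intro u u' h
  funext j
  have h2 : (2 : AlgebraicClosure ℚ) ≠ 0 := two_ne_zero
  have h1 := DFunLike.congr_fun h (Pi.mulSingle j (Units.mk0 2 h2))
  rw [chi_apply, chi_apply] at h1
  have key : ∀ w : Fin d → ℤ, ∏ k, ((Pi.mulSingle j (Units.mk0 (2 : AlgebraicClosure ℚ) h2) :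
      Fin d → (AlgebraicClosure ℚ)ˣ) k : AlgebraicClosure ℚ) ^ w k = 2 ^ w j := by
    intro w
    rw [Finset.prod_eq_single j]
    · simp
    · intro k _ hk
      rw [Pi.mulSingle_eq_of_ne hk]
      simp
    · intro hj
      exact absurd (Finset.mem_univ j) hj
  rw [key, key] at h1
  exact two_zpow_inj h1

/-- the value of a Laurent monomial at a point of the translate -/
lemma mono_eval {n d : ℕ} (x : Fin n → AlgebraicClosure ℚ) (e : Fin n → Fin d → ℤ)
    (t : Fin d → (AlgebraicClosure ℚ)ˣ) (v : Fin n → ℤ) :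
    ∏ i, (x i * ∏ j, (t j : AlgebraicClosure ℚ) ^ e i j) ^ v i =
      (∏ i, x i ^ v i) * chi (fun j => ∑ i, v i * e i j) t := by
  rw [chi_apply]
  have h1 : ∀ i, (x i * ∏ j, (t j : AlgebraicClosure ℚ) ^ e i j) ^ v i =
      x i ^ v i * ∏ j, (t j : AlgebraicClosure ℚ) ^ (v i * e i j) := by
    intro i
    rw [mul_zpow, ← Finset.prod_zpow]
    congr 1
    refine Finset.prod_congr rfl fun j _ => ?_
    rw [← zpow_mul, mul_comm]
  simp_rw [h1]
  rw [Finset.prod_mul_distrib, Finset.prod_comm]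
  congr 1
  refine Finset.prod_congr rfl fun j _ => ?_
  have : ∀ s : Finset (Fin n), ∏ i ∈ s, (t j : AlgebraicClosure ℚ) ^ (v i * e i j) =
      (t j : AlgebraicClosure ℚ) ^ (∑ i ∈ s, v i * e i j) := by
    intro s
    classical
    induction s using Finset.induction_on with
    | empty => simp
    | insert b s hb ih =>
      rw [Finset.prod_insert hb, Finset.sum_insert hb, zpow_add₀ (Units.ne_zero _), ih]
  exact this _

/-- a polynomial which vanishes on a translate of a subtorus has two monomials whose quotient is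
constant on the translate -/
lemma exists_exponent {n d : ℕ} (x : Fin n → AlgebraicClosure ℚ) (e : Fin n → Fin d → ℤ)
    (hx : ∀ i, x i ≠ 0) (f : MvPolynomial (Fin n) (AlgebraicClosure ℚ)) (hf : f ≠ 0)
    (hV : ∀ y ∈ trans x e, MvPolynomial.eval y f = 0) :
    ∃ v : Fin n → ℤ, v ≠ 0 ∧ (∀ j, ∑ i, v i * e i j = 0) ∧ ∀ i, |v i| ≤ (f.degreeOf i : ℤ) := by
  classical
  let u : (Fin n →₀ ℕ) → Fin d → ℤ := fun m j => ∑ i, (m i : ℤ) * e i j
  have hninj : ¬ Set.InjOn u (f.support : Set (Fin n →₀ ℕ)) := by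
    intro hinj
    have hli : LinearIndependent (AlgebraicClosure ℚ)
        (fun m : f.support => (chi (u m) : (Fin d → (AlgebraicClosure ℚ)ˣ) → AlgebraicClosure ℚ)) := by
      refine (linearIndependent_monoidHom (Fin d → (AlgebraicClosure ℚ)ˣ)
        (AlgebraicClosure ℚ)).comp (fun m : f.support => chi (u m)) ?_
      intro m m' h
      exact Subtype.ext (hinj m.2 m'.2 (chi_injective h))
    rw [Fintype.linearIndependent_iff] at hli
    have h0 := hli (fun m => f.coeff m * ∏ i, x i ^ (m : Fin n →₀ ℕ) i) (by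
      funext t
      rw [Finset.sum_apply, Pi.zero_apply, ← hV (fun i => x i * ∏ j, (t j : AlgebraicClosure ℚ) ^ e i j)
        ⟨t, fun _ => rfl⟩, MvPolynomial.eval_eq', ← Finset.sum_coe_sort f.support]
      refine Finset.sum_congr rfl fun m _ => ?_
      rw [Pi.smul_apply, smul_eq_mul, mul_assoc]
      congr 1
      have := mono_eval x e t (fun i => ((m : Fin n →₀ ℕ) i : ℤ))
      simp only [zpow_natCast] at this
      rw [this])
    obtain ⟨m, hm⟩ := MvPolynomial.support_nonempty.2 hf
    have h1 := h0 ⟨m, hm⟩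
    rcases mul_eq_zero.1 h1 with h | h
    · exact (MvPolynomial.mem_support_iff.1 hm) h
    · exact (Finset.prod_ne_zero_iff.2 fun i _ => pow_ne_zero _ (hx i)) h
  unfold Set.InjOn at hninj
  push Not at hninj
  obtain ⟨m, hm, m', hm', huu, hne⟩ := hninj
  refine ⟨fun i => (m i : ℤ) - m' i, ?_, ?_, ?_⟩
  · intro h
    apply hne
    ext i
    have := congrFun h i
    simp only [Pi.zero_apply] at this
    omega
  · intro j
    have h := congrFun huu j
    simp only [u] at h
    have : ∑ i, ((m i : ℤ) - m' i) * e i j = ∑ i, (m i : ℤ) * e i j - ∑ i, (m' i : ℤ) * e i j := by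
      rw [← Finset.sum_sub_distrib]
      exact Finset.sum_congr rfl fun i _ => by ring
    rw [this, h, sub_self]
  · intro i
    have h1 := MvPolynomial.monomial_le_degreeOf i hm
    have h2 := MvPolynomial.monomial_le_degreeOf i hm'
    show |((m i : ℤ) - m' i)| ≤ (f.degreeOf i : ℤ)
    rw [abs_le]
    constructor <;> omega

/-- from the heights of the constant monomials to the heights of the points of the translate -/
lemma of_monomials {n d : ℕ} (c : ℝ) (x : Fin n → AlgebraicClosure ℚ) (e : Fin n → Fin d → ℤ)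
    (hx : ∀ i, x i ≠ 0)
    (hc : ∀ v : Fin n → ℤ, v ≠ 0 → (∀ j, ∑ i, v i * e i j = 0) →
      c ≤ NumberField.absLogHeight₁ (∏ i, x i ^ v i))
    (f : MvPolynomial (Fin n) (AlgebraicClosure ℚ)) (hf : f ≠ 0)
    (hV : ∀ y ∈ trans x e, MvPolynomial.eval y f = 0) :
    ∀ y ∈ trans x e, c ≤ ∑ i, (f.degreeOf i : ℝ) * NumberField.absLogHeight₁ (y i) := by
  obtain ⟨v, hv0, hve, hvd⟩ := exists_exponent x e hx f hf hV
  have h1 := hc v hv0 hve
  rintro y ⟨t, hyt⟩
  have hht : ∀ w : AlgebraicClosure ℚ, NumberField.absLogHeight₁ w = ht w := fun w =>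
    Pool.Agent.H58P.absLogHeight₁_eq _
  simp only [hht] at h1 ⊢
  have hy0 : ∀ i, y i ≠ 0 := by
    intro i
    rw [hyt i]
    exact mul_ne_zero (hx i) (Finset.prod_ne_zero_iff.2 fun j _ => zpow_ne_zero _ (Units.ne_zero _))
  have hyx : ∏ i, y i ^ v i = ∏ i, x i ^ v i := by
    have h2 : ∏ i, y i ^ v i =
        ∏ i, (x i * ∏ j, (t j : AlgebraicClosure ℚ) ^ e i j) ^ v i :=
      Finset.prod_congr rfl fun i _ => by rw [hyt i]
    rw [h2, mono_eval]
    have h3 : chi (fun j => ∑ i, v i * e i j) t = 1 := by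
      rw [chi_apply]
      exact Finset.prod_eq_one fun j _ => by rw [hve j, zpow_zero]
    rw [h3, mul_one]
  rw [← hyx] at h1
  refine h1.trans ((ht_prod_le _ _).trans (Finset.sum_le_sum fun i _ => ?_))
  rw [ht_zpow _ (hy0 i)]
  refine mul_le_mul_of_nonneg_right ?_ (ht_nonneg _)
  have h4 : ((|v i| : ℤ) : ℝ) ≤ ((f.degreeOf i : ℤ) : ℝ) := by exact_mod_cast hvd i
  rw [Int.cast_abs] at h4
  exact_mod_cast h4

/-- the absolute height of an element of a number field -/
lemma absLogHeight₁_map {K : Type} [Field K] [NumberField K] (φ : K →+* AlgebraicClosure ℚ) (z : K) :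
    NumberField.absLogHeight₁ (φ z) = logHeight₁ z / finrank ℚ K := by
  rw [Pool.Agent.H58P.absLogHeight₁_eq]
  unfold Pool.Agent.H58P.ht
  have h := Pool.Agent.Helper259.AbsHt.absLogHeight_eq K φ ![1, z]
  have e : (fun i => φ (![1, z] i)) = ![1, φ z] := by
    funext i
    fin_cases i
    · simp
    · rfl
  rw [e] at h
  rw [h, logHeight_swap, ← logHeight₁_eq_logHeight]

/-- the degree of a monomial in the coordinates of a point is at most the degree of the point -/
lemma degree_monomial {F K : Type} [Field F] [Field K] [Algebra F K] [FiniteDimensional F K] {n : ℕ}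
    (x : Fin n → K) (v : Fin n → ℤ) :
    (minpoly F (∏ i, x i ^ v i)).natDegree ≤ finrank F (IntermediateField.adjoin F (Set.range x)) := by
  set L := IntermediateField.adjoin F (Set.range x) with hL
  have hmem : ∏ i, x i ^ v i ∈ L :=
    prod_mem fun i _ => zpow_mem (IntermediateField.subset_adjoin _ _ (Set.mem_range_self i)) _
  have h1 : minpoly F (⟨∏ i, x i ^ v i, hmem⟩ : L) = minpoly F (∏ i, x i ^ v i) :=
    (minpoly.algebraMap_eq (algebraMap L K).injective (⟨∏ i, x i ^ v i, hmem⟩ : L)).symm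
  rw [← h1]
  exact minpoly.natDegree_le _

lemma isU_mul {K : Type} [Field K] [NumberField K] {x y : K} (hx : IsU x) (hy : IsU y) : IsU (x * y) := by
  refine ⟨mul_ne_zero hx.1 hy.1, hx.2.1.mul hy.2.1, ?_⟩
  rw [mul_inv]
  exact hx.2.2.mul hy.2.2

lemma isU_one {K : Type} [Field K] [NumberField K] : IsU (1 : K) :=
  ⟨one_ne_zero, isIntegral_one, by rw [inv_one]; exact isIntegral_one⟩

lemma isU_inv {K : Type} [Field K] [NumberField K] {x : K} (hx : IsU x) : IsU x⁻¹ :=
  ⟨inv_ne_zero hx.1, hx.2.2, by rw [inv_inv]; exact hx.2.1⟩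

lemma isU_pow {K : Type} [Field K] [NumberField K] {x : K} (hx : IsU x) (n : ℕ) : IsU (x ^ n) := by
  induction n with
  | zero => rw [pow_zero]; exact isU_one
  | succ n ih => rw [pow_succ]; exact isU_mul ih hx

lemma isU_zpow {K : Type} [Field K] [NumberField K] {x : K} (hx : IsU x) (n : ℤ) : IsU (x ^ n) := by
  cases n with
  | ofNat n => rw [Int.ofNat_eq_natCast, zpow_natCast]; exact isU_pow hx n
  | negSucc n => rw [zpow_negSucc]; exact isU_inv (isU_pow hx _)

lemma isU_prod {K : Type} [Field K] [NumberField K] {n : ℕ} {x : Fin n → K} (hx : ∀ i, IsU (x i))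
    (v : Fin n → ℤ) : IsU (∏ i, x i ^ v i) := by
  classical
  have : ∀ s : Finset (Fin n), IsU (∏ i ∈ s, x i ^ v i) := by
    intro s
    induction s using Finset.induction_on with
    | empty => rw [Finset.prod_empty]; exact isU_one
    | insert b s hb ih =>
      rw [Finset.prod_insert hb]
      exact isU_mul (isU_zpow (hx b) _) ih
  exact this _

end Pool.Agent.Run7.h22
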