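import Mathlib
import Pool.Agent.Run7.h22.Sal2
import Pool.Agent.H196R3.ParryB

/-!
# Salem numbers whose trace field has few Frobenius automorphisms: the final inequality
-/

set_option autoImplicit false

open Finset Module NumberField Polynomial

namespace Pool.Agent.Run7.h22

open Pool.Agent.H388SL

/-- the numerical part -/
lemma sal_num {κ : ℝ} (hκ : 1 ≤ κ) {s : ℝ} (hs : s = Real.sqrt (Real.log (2 * κ))) :
    ∃ r T : ℕ, 1 ≤ r ∧ (r : ℝ) ≤ 2 * s + 1 ∧ 256 * (2 ^ r * κ) ^ 2 ≤ (T : ℝ) ^ r ∧
      16 * (2 ^ r * κ) * (r * T) ≤ 8320 * κ * Real.exp (3 * s) := by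
  have hl2 : (0.6931471803 : ℝ) < Real.log 2 := Real.log_two_gt_d9
  have hl2' : Real.log 2 < 0.6931471808 := Real.log_two_lt_d9
  have hlk : Real.log 2 ≤ Real.log (2 * κ) := Real.log_le_log (by norm_num) (by linarith)
  have hs2 : s ^ 2 = Real.log (2 * κ) := by rw [hs]; exact Real.sq_sqrt (by linarith)
  have hs0 : 0 ≤ s := by rw [hs]; exact Real.sqrt_nonneg _
  have hs8 : (0.8 : ℝ) < s := by
    by_contra h
    push Not at h
    nlinarith
  have hκe : Real.exp (s ^ 2) = 2 * κ := by rw [hs2, Real.exp_log (by linarith)]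
  refine ⟨⌈2 * s⌉₊, ⌈64 * Real.exp s⌉₊, ?_, ?_, ?_, ?_⟩
  · exact Nat.one_le_ceil_iff.mpr (by linarith)
  · exact (Nat.ceil_lt_add_one (by linarith)).le
  · set r := ⌈2 * s⌉₊ with hr
    have hr1 : 2 * s ≤ r := Nat.le_ceil _
    have hr2 : 2 ≤ r := by
      by_contra h
      have h1 : r ≤ 1 := by omega
      have h2 : (r : ℝ) ≤ 1 := by exact_mod_cast h1
      linarith
    have hT : 64 * Real.exp s ≤ (⌈64 * Real.exp s⌉₊ : ℝ) := Nat.le_ceil _
    have h1 : (64 * Real.exp s) ^ r ≤ (⌈64 * Real.exp s⌉₊ : ℝ) ^ r :=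
      pow_le_pow_left₀ (by positivity) hT r
    refine le_trans ?_ h1
    have h2 : (256:ℝ) * (2 ^ r) ^ 2 ≤ 64 ^ r := by
      have h3 : (64:ℝ) ^ r = 16 ^ r * (2 ^ r) ^ 2 := by
        rw [← pow_mul, mul_comm r 2, pow_mul, ← mul_pow]
        norm_num
      rw [h3]
      apply mul_le_mul_of_nonneg_right _ (by positivity)
      calc (256:ℝ) = 16 ^ 2 := by norm_num
        _ ≤ 16 ^ r := pow_le_pow_right₀ (by norm_num) hr2
    have h4 : κ ^ 2 ≤ Real.exp s ^ r := by
      rw [← Real.exp_nat_mul]
      calc κ ^ 2 ≤ (2 * κ) ^ 2 := by nlinarith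
        _ = Real.exp (2 * s ^ 2) := by
            rw [← hκe, ← Real.exp_nat_mul]
            push_cast
            ring_nf
        _ ≤ Real.exp (r * s) := by
            apply Real.exp_le_exp.mpr
            nlinarith
    calc 256 * (2 ^ r * κ) ^ 2 = (256 * (2 ^ r) ^ 2) * κ ^ 2 := by ring
      _ ≤ 64 ^ r * Real.exp s ^ r := mul_le_mul h2 h4 (by positivity) (by positivity)
      _ = (64 * Real.exp s) ^ r := (mul_pow _ _ _).symm
  · set r := ⌈2 * s⌉₊ with hr
    have hr1 : (r : ℝ) ≤ 2 * s + 1 := (Nat.ceil_lt_add_one (by linarith)).le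
    have hT : (⌈64 * Real.exp s⌉₊ : ℝ) ≤ 65 * Real.exp s := by
      have h1 := (Nat.ceil_lt_add_one (show 0 ≤ 64 * Real.exp s by positivity)).le
      have h2 : 1 ≤ Real.exp s := Real.one_le_exp hs0
      linarith
    have h2r : (2:ℝ) ^ r ≤ 2 * Real.exp (1.3863 * s) := by
      have h1 : (2:ℝ) ^ r = Real.exp (r * Real.log 2) := by
        rw [mul_comm, Real.exp_mul, Real.exp_log (by norm_num), Real.rpow_natCast]
      rw [h1]
      calc Real.exp (r * Real.log 2) ≤ Real.exp ((2 * s + 1) * Real.log 2) := by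
            apply Real.exp_le_exp.mpr
            apply mul_le_mul_of_nonneg_right hr1 (by linarith)
        _ = Real.exp (2 * Real.log 2 * s) * 2 := by
            rw [add_mul, one_mul, Real.exp_add, Real.exp_log (by norm_num)]
            ring_nf
        _ ≤ Real.exp (1.3863 * s) * 2 := by
            apply mul_le_mul_of_nonneg_right _ (by norm_num)
            apply Real.exp_le_exp.mpr
            nlinarith
        _ = _ := by ring
    have hlin : 2 * s + 1 ≤ 4 * Real.exp (0.6137 * s) := by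
      have := Real.add_one_le_exp (0.6137 * s)
      linarith
    have hpos1 := Real.exp_pos (1.3863 * s)
    have hpos2 := Real.exp_pos s
    have hpos3 := Real.exp_pos (0.6137 * s)
    calc 16 * (2 ^ r * κ) * (r * (⌈64 * Real.exp s⌉₊ : ℝ))
        ≤ 16 * ((2 * Real.exp (1.3863 * s)) * κ) * ((4 * Real.exp (0.6137 * s)) * (65 * Real.exp s)) := by
          apply mul_le_mul
          · apply mul_le_mul_of_nonneg_left _ (by norm_num)
            exact mul_le_mul_of_nonneg_right h2r (by linarith)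
          · apply mul_le_mul (hr1.trans hlin) hT (Nat.cast_nonneg _) (by positivity)
          · positivity
          · positivity
      _ = 8320 * κ * (Real.exp (1.3863 * s) * Real.exp (0.6137 * s) * Real.exp s) := by ring
      _ = 8320 * κ * Real.exp (3 * s) := by
          rw [← Real.exp_add, ← Real.exp_add]
          congr 2
          ring

/-- number of different values of `x + x⁻¹` -/
lemma exists_family {L L' : Type} [Field L] [Field L'] [Algebra L L'] (R : Finset L')
    (hR : ∀ x ∈ R, x ≠ 0) (t : L' → L) (ht : ∀ x ∈ R, algebraMap L L' (t x) = x + x⁻¹)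
    {r : ℕ} (hr : 2 * r ≤ R.card) :
    ∃ B : Fin r → L', (∀ j, B j ∈ R) ∧ Function.Injective fun j => t (B j) := by
  classical
  have hcard : R.card ≤ 2 * (R.image t).card := by
    apply Finset.card_le_mul_card_image
    intro y hy
    obtain ⟨x, hx, rfl⟩ := Finset.mem_image.mp hy
    calc (R.filter fun z => t z = t x).card ≤ ({x, x⁻¹} : Finset L').card := by
          apply Finset.card_le_card
          intro z hz
          obtain ⟨hz1, hz2⟩ := Finset.mem_filter.mp hz
          have h1 := ht z hz1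
          rw [hz2, ht x hx] at h1
          have hz0 := hR z hz1
          have hx0 := hR x hx
          rw [Finset.mem_insert, Finset.mem_singleton]
          have h2 : (z - x) * (z - x⁻¹) = 0 := by
            have h3 : z * (x + x⁻¹) = z * (z + z⁻¹) := by rw [h1]
            have h4 : x * x⁻¹ = 1 := mul_inv_cancel₀ hx0
            have h5 : z * z⁻¹ = 1 := mul_inv_cancel₀ hz0
            linear_combination -h3 + h4 - h5
          rcases mul_eq_zero.mp h2 with h3 | h3
          · left; exact sub_eq_zero.mp h3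
          · right; exact sub_eq_zero.mp h3
      _ ≤ 2 := Finset.card_le_two
  have hr' : r ≤ (R.image t).card := by omega
  obtain ⟨Y, hY1, hY2⟩ := Finset.exists_subset_card_eq hr'
  have e : Fin r ≃ Y := (Finset.equivFinOfCardEq hY2).symm
  have hex : ∀ j : Fin r, ∃ x ∈ R, t x = (e j : L) := by
    intro j
    exact Finset.mem_image.mp (hY1 (e j).2)
  choose B hB1 hB2 using hex
  refine ⟨B, hB1, ?_⟩
  intro i j hij
  have h1 : t (B i) = t (B j) := hij
  rw [hB2, hB2] at h1
  exact e.injective (Subtype.ext h1)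

lemma le_splits {K : Type} [Field K] [NumberField K] {f : ℤ[X]} (hf : Irreducible f) (hm : f.Monic)
    (hs : ((f.map (Int.castRingHom ℚ)).map (algebraMap ℚ K)).Splits) :
    ∃ R : Finset K, R.card = f.natDegree ∧ ∀ x ∈ R, aeval x f = 0 := by
  classical
  set F : K[X] := (f.map (Int.castRingHom ℚ)).map (algebraMap ℚ K) with hF
  have hirr : Irreducible (f.map (Int.castRingHom ℚ)) :=
    (hm.irreducible_iff_irreducible_map_fraction_map (K := ℚ)).mp hf
  have hsep : F.Separable := (hirr.separable).map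
  have hnd : F.roots.Nodup := nodup_roots hsep
  have hcard : F.roots.card = f.natDegree := by
    rw [← hs.natDegree_eq_card_roots, hF, natDegree_map, natDegree_map_eq_of_injective
      (RingHom.injective_int _)]
  refine ⟨⟨F.roots, hnd⟩, hcard, ?_⟩
  intro x hx
  have h1 : x ∈ F.roots := hx
  rw [mem_roots', IsRoot.def, hF, Polynomial.map_map, eval_map] at h1
  rw [aeval_def, ← h1.2]
  congr 1
  exact RingHom.ext_int _ _

/-- an extension in which a second polynomial splits -/
lemma exists_ext {L : Type} [Field L] [NumberField L] (g h : ℚ[X]) (hg : g ≠ 0) (hh : h ≠ 0)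
    (hL : g.IsSplittingField ℚ L) :
    ∃ (L' : Type) (_ : Field L') (_ : NumberField L') (_ : Algebra L L'), Normal ℚ L' ∧
      (h.map (algebraMap ℚ L')).Splits := by
  let L' := (h.map (algebraMap ℚ L)).SplittingField
  have hc : CharZero L' := charZero_of_injective_algebraMap (algebraMap L L').injective
  have htow : IsScalarTower ℚ L L' := inferInstance
  have hfd : FiniteDimensional L L' := inferInstance
  have hfd2 : FiniteDimensional ℚ L' := FiniteDimensional.trans ℚ L L'
  have hspl : (g * h).IsSplittingField ℚ L' := IsSplittingField.mul L' g h hg hh (K := L)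
  have hnum : NumberField L' := { to_charZero := hc, to_finiteDimensional := hfd2 }
  have hnor : Normal ℚ L' := Normal.of_isSplittingField (g * h)
  refine ⟨L', inferInstance, hnum, inferInstance, hnor, ?_⟩
  have h1 := SplittingField.splits (h.map (algebraMap ℚ L))
  rw [Polynomial.map_map] at h1
  exact h1

/-- **Salem numbers whose trace field has few Frobenius automorphisms.** -/
theorem salem_main : ∃ C : ℝ, 0 < C ∧ ∀ β : ℝ, 1 < β → IsIntegral ℤ β →
    aeval (β⁻¹) (minpoly ℤ β) = 0 →
    (∀ z : ℂ, aeval z (minpoly ℤ β) = 0 → z ≠ (β : ℂ) → ‖z‖ ≤ 1) →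
    ∀ p a : ℕ, p.Prime → 1 ≤ a → ∀ (L : Type) [Field L] [NumberField L] [IsGalois ℚ L],
    ((minpoly ℤ (β + β⁻¹)).map (Int.castRingHom ℚ)).IsSplittingField ℚ L →
    ((minpoly ℤ β).natDegree : ℝ) ≤ C * (p : ℝ) ^ a * ((frobSet L p (p ^ a)).ncard *
      Real.exp (3 * Real.sqrt (Real.log (2 * (frobSet L p (p ^ a)).ncard)))) * Real.log β := by
  classical
  obtain ⟨c0, hc0, hdob⟩ := dob
  refine ⟨12480 + 6473 / c0, by positivity, ?_⟩
  intro β hβ hint hrec hone p a hp ha L _ _ _ hL
  set f : ℤ[X] := minpoly ℤ β with hfdef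
  set g : ℤ[X] := minpoly ℤ (β + β⁻¹) with hgdef
  have hf : Irreducible f := minpoly.irreducible hint
  have hm : f.Monic := minpoly.monic hint
  have hβ0 : (β : ℂ) ≠ 0 := by exact_mod_cast (by linarith : β ≠ 0)
  have hofReal : ∀ (x : ℝ) (q : ℤ[X]), aeval (x : ℂ) q = ((aeval x q : ℝ) : ℂ) := by
    intro x q
    exact aeval_algebraMap_apply ℂ x q
  have hroot : aeval (β : ℂ) f = 0 := by
    rw [hofReal, hfdef, minpoly.aeval, Complex.ofReal_zero]
  have hroot' : aeval ((β : ℂ)⁻¹) f = 0 := by
    rw [← Complex.ofReal_inv, hofReal, hrec, Complex.ofReal_zero]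
  have hint' : IsIntegral ℤ (β + β⁻¹) := hint.add ⟨f, hm, by rw [← aeval_def]; exact hrec⟩
  have hg : g.Monic := minpoly.monic hint'
  -- the other zeros have modulus one
  have hinvC : ∀ z : ℂ, aeval z f = 0 → z ≠ 0 ∧ aeval z⁻¹ f = 0 := by
    have hac : IsIntegral ℤ (β : ℂ) := ⟨f, hm, by rw [← aeval_def]; exact hroot⟩
    intro z hz
    -- the polynomial `f` divides its reverse
    have hirr : Irreducible (f.map (Int.castRingHom ℚ)) :=
      (hm.irreducible_iff_irreducible_map_fraction_map (K := ℚ)).mp hf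
    have hmin : minpoly ℚ (β : ℂ) = f.map (Int.castRingHom ℚ) := by
      refine (minpoly.eq_of_irreducible_of_monic hirr ?_ (hm.map _)).symm
      have : aeval (β : ℂ) (f.map (Int.castRingHom ℚ)) = aeval (β : ℂ) f :=
        aeval_map_algebraMap (A := ℚ) (β : ℂ) f
      rw [this, hroot]
    have hrev : ∀ w : ℂ, w ≠ 0 → (aeval w (f.map (Int.castRingHom ℚ)).reverse = 0 ↔
        aeval w⁻¹ f = 0) := by
      intro w hw
      have h1 : aeval w⁻¹ (f.map (Int.castRingHom ℚ)) = aeval w⁻¹ f :=
        aeval_map_algebraMap (A := ℚ) w⁻¹ f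
      rw [← h1, aeval_def, aeval_def]
      let := invertibleOfNonzero (inv_ne_zero hw)
      have h2 := eval₂_reverse_eq_zero_iff (algebraMap ℚ ℂ) w⁻¹ (f.map (Int.castRingHom ℚ))
      rw [invOf_eq_inv, inv_inv] at h2
      exact h2
    have hdvd : f.map (Int.castRingHom ℚ) ∣ (f.map (Int.castRingHom ℚ)).reverse := by
      rw [← hmin]
      apply minpoly.dvd
      rw [hmin]
      exact (hrev _ hβ0).mpr hroot'
    have hz' : aeval z (f.map (Int.castRingHom ℚ)) = 0 := by
      have : aeval z (f.map (Int.castRingHom ℚ)) = aeval z f := aeval_map_algebraMap (A := ℚ) z f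
      rw [this, hz]
    have hz0 : z ≠ 0 := by
      rintro rfl
      have h1 : aeval (0 : ℂ) f = ((f.coeff 0 : ℤ) : ℂ) := by
        rw [← coeff_zero_eq_aeval_zero']
        rfl
      rw [h1] at hz
      have h2 : f.coeff 0 = 0 := by exact_mod_cast hz
      have h3 : X ∣ f := X_dvd_iff.mpr h2
      have h4 : Associated X f := (prime_X.irreducible).associated_of_dvd hf h3
      have h5 : f = X := (eq_of_monic_of_associated monic_X hm h4).symm
      rw [h5, aeval_X] at hroot
      exact hβ0 hroot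
    refine ⟨hz0, (hrev z hz0).mp ?_⟩
    obtain ⟨w, hw⟩ := hdvd
    rw [hw, map_mul, hz', zero_mul]
  have hone' : ∀ z : ℂ, aeval z f = 0 → z ≠ (β : ℂ) → z ≠ (β : ℂ)⁻¹ → ‖z‖ = 1 := by
    intro z hz h1 h2
    have h3 := hone z hz h1
    obtain ⟨h4, h5⟩ := hinvC z hz
    have h6 : z⁻¹ ≠ (β : ℂ) := by
      intro h
      apply h2
      rw [← h, inv_inv]
    have h7 := hone _ h5 h6
    rw [norm_inv] at h7
    have h8 : 0 < ‖z‖ := norm_pos_iff.mpr h4
    have h9 : 1 ≤ ‖z‖ := by
      rw [inv_le_one₀ h8] at h7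
      exact h7
    linarith
  have hMM : MM f = β := Pool.Agent.H196R3.Parry.mahler_eq hβ hint hone
  have hlogβ : 0 < Real.log β := Real.log_pos hβ
  -- the field
  obtain ⟨L', _, _, _, hnor, hsplit⟩ := exists_ext (L := L) (g.map (Int.castRingHom ℚ))
    (f.map (Int.castRingHom ℚ)) (hg.map _).ne_zero (hm.map _).ne_zero hL
  obtain ⟨R, hRcard, hR⟩ := le_splits (K := L') hf hm hsplit
  set κ : ℝ := ((frobSet L p (p ^ a)).ncard : ℝ) with hκ
  have hκ1 : 1 ≤ κ := by
    obtain ⟨σ, Φ, ⟨𝔓, h𝔓⟩, hF, -⟩ := exists_sigma_ram (K := L) hp a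
    have h1 : (frobSet L p (p ^ a)).Nonempty := ⟨σ, 𝔓, hF 𝔓 h𝔓⟩
    have h2 := (Set.ncard_pos (Set.toFinite _)).mpr h1
    rw [hκ]
    exact_mod_cast h2
  set s := Real.sqrt (Real.log (2 * κ)) with hs
  have hs0 : 0 ≤ s := Real.sqrt_nonneg _
  obtain ⟨r, T, hr1, hr2, hT, hfinal⟩ := sal_num hκ1 hs
  set n : ℝ := (f.natDegree : ℝ) with hn
  have hp1 : (1:ℝ) ≤ p := by exact_mod_cast hp.one_lt.le
  have hp2 : (2:ℝ) ≤ (p : ℝ) ^ a := by
    calc (2:ℝ) ≤ p := by exact_mod_cast hp.two_le
      _ = (p : ℝ) ^ 1 := (pow_one _).symm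
      _ ≤ (p : ℝ) ^ a := pow_le_pow_right₀ hp1 ha
  have hn1 : 0 < f.natDegree := minpoly.natDegree_pos hint
  have he3 : 0 < Real.exp (3 * s) := Real.exp_pos _
  have hW : 0 ≤ (p : ℝ) ^ a * (κ * Real.exp (3 * s)) * Real.log β := by positivity
  rcases le_or_gt (2 * r) f.natDegree with hcase | hcase
  · -- the main case
    have htex : ∀ x : L', ∃ y : L, x ∈ R → algebraMap L L' y = x + x⁻¹ := by
      intro x
      by_cases hx : x ∈ R
      · have hxf := hR x hx
        obtain ⟨φ, hφ⟩ := exists_embedding hf hm hxf hroot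
        have hgx : aeval (x + x⁻¹) g = 0 := by
          refine (map_eq_zero φ).mp ?_
          have h1 : aeval (φ (x + x⁻¹)) g = φ (aeval (x + x⁻¹) g) :=
            aeval_algHom_apply (φ.restrictScalars ℤ) (x + x⁻¹) g
          rw [← h1, map_add, map_inv₀, hφ, ← Complex.ofReal_inv, ← Complex.ofReal_add, hofReal,
            hgdef, minpoly.aeval, Complex.ofReal_zero]
        have hirrg : Irreducible g := minpoly.irreducible hint'
        have h2 := minpoly_eq_of_root hirrg hg hgx
        have h3 : ((minpoly ℚ (x + x⁻¹)).map (algebraMap ℚ L)).Splits := by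
          rw [h2.2.2]
          exact hL.splits
        obtain ⟨y, hy⟩ := IsIntegral.mem_range_algebraMap_of_minpoly_splits
          (R := ℚ) (K := L) (L := L') (h2.1.tower_top) h3
        exact ⟨y, fun _ => hy⟩
      · exact ⟨0, fun h => absurd h hx⟩
    choose t ht using htex
    have hR0 : ∀ x ∈ R, x ≠ 0 := by
      intro x hx h0
      obtain ⟨φ, hφ⟩ := exists_embedding hf hm (hR x hx) hroot
      rw [h0, map_zero] at hφ
      exact hβ0 hφ.symm
    obtain ⟨B, hB1, hB2⟩ := exists_family R hR0 t (fun x hx => ht x hx)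
      (by rw [hRcard]; exact hcase)
    have key := salem_core (L := L) (L' := L') hf hm hβ hroot hroot' hone' hp ha B
      (fun j => t (B j)) (fun j => hR _ (hB1 j)) (fun j => ht _ (hB1 j)) hB2 hT
    rw [hMM] at key
    have hpa : (p : ℝ) ^ a + 1 ≤ 3 / 2 * (p : ℝ) ^ a := by linarith
    calc n ≤ 16 * (2 ^ r * κ) * (r * T * ((p : ℝ) ^ a + 1) * Real.log β) := key
      _ = (16 * (2 ^ r * κ) * (r * T)) * (((p : ℝ) ^ a + 1) * Real.log β) := by ring
      _ ≤ (8320 * κ * Real.exp (3 * s)) * ((3 / 2 * (p : ℝ) ^ a) * Real.log β) := by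
          apply mul_le_mul hfinal _ (by positivity) (by positivity)
          exact mul_le_mul_of_nonneg_right hpa hlogβ.le
      _ = 12480 * ((p : ℝ) ^ a * (κ * Real.exp (3 * s)) * Real.log β) := by ring
      _ ≤ (12480 + 6473 / c0) * ((p : ℝ) ^ a * (κ * Real.exp (3 * s)) * Real.log β) := by
          apply mul_le_mul_of_nonneg_right _ hW
          have : 0 < 6473 / c0 := by positivity
          linarith
      _ = _ := by ring
  · -- few conjugates
    have hns : n ≤ 4 * s + 2 := by
      have h1 : (f.natDegree : ℝ) < 2 * r := by exact_mod_cast hcase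
      linarith
    have hRne : R.Nonempty := by
      rw [← Finset.card_pos, hRcard]
      exact hn1
    obtain ⟨x, hx⟩ := hRne
    have hxf := hR x hx
    obtain ⟨hxi, hxm, hxq⟩ := minpoly_eq_of_root hf hm hxf
    obtain ⟨φ, hφ⟩ := exists_embedding hf hm hxf hroot
    have hx0 : x ≠ 0 := by
      rintro rfl
      rw [map_zero] at hφ
      exact hβ0 hφ.symm
    have hxr : ∀ k : ℕ, 0 < k → x ^ k ≠ 1 := by
      intro k hk h1
      have h2 := congrArg φ h1
      rw [map_pow, hφ, map_one] at h2
      have h3 : β ^ k = 1 := by exact_mod_cast h2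
      have h4 := one_lt_pow₀ hβ hk.ne'
      linarith
    have hdeg : (finrank ℚ (IntermediateField.adjoin ℚ {x}) : ℝ) ≤ n := by
      rw [IntermediateField.adjoin.finrank (hxi.tower_top), hxq,
        natDegree_map_eq_of_injective (algebraMap ℤ ℚ).injective_int]
    have h1 := case_small hc0 hdob hxi hx0 hxr hdeg
    have h2 := lam_eq_MM hxi
    rw [hxm, hMM] at h2
    have hN0 : (0:ℝ) < finrank ℚ L' := by exact_mod_cast (finrank_pos : 0 < finrank ℚ L')
    have hn0 : 0 < n := by rw [hn]; exact_mod_cast hn1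
    have hn1' : 1 ≤ n := by rw [hn]; exact_mod_cast hn1
    have hlog : 0 ≤ Real.log (2 * n) := Real.log_nonneg (by linarith)
    have h3 : c0 ≤ (Real.log (2 * n)) ^ 3 * Real.log β := by
      have h4 : c0 * finrank ℚ L' ≤ ((Real.log (2 * n)) ^ 3 * Real.log β) * finrank ℚ L' := by
        refine h1.trans (le_of_eq ?_)
        calc n * Real.log (2 * n) ^ 3 * lam x = Real.log (2 * n) ^ 3 * (lam x * n) := by ring
          _ = _ := by rw [hn, h2]; ring
      exact le_of_mul_le_mul_right h4 hN0
    have hlog2 : Real.log (2 * n) ≤ 2 * n := by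
      have := Real.log_le_sub_one_of_pos (show 0 < 2 * n by linarith)
      linarith
    have h4 : (Real.log (2 * n)) ^ 3 ≤ (2 * n) ^ 3 := pow_le_pow_left₀ hlog hlog2 3
    have h5 : n * (2 * n) ^ 3 ≤ 6473 * Real.exp (3 * s) := by
      have h6 : n ≤ 16 / 3 * Real.exp (3 / 4 * s) := by
        have := Real.add_one_le_exp (3 / 4 * s)
        linarith
      have h7 : n ^ 4 ≤ (16 / 3 * Real.exp (3 / 4 * s)) ^ 4 := pow_le_pow_left₀ hn0.le h6 4
      have h8 : (Real.exp (3 / 4 * s)) ^ 4 = Real.exp (3 * s) := by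
        rw [← Real.exp_nat_mul]
        congr 1
        push_cast
        ring
      rw [mul_pow, h8] at h7
      have h9 : n * (2 * n) ^ 3 = 8 * n ^ 4 := by ring
      rw [h9]
      norm_num at h7
      linarith
    have h6 : n ≤ 6473 / c0 * Real.exp (3 * s) * Real.log β := by
      have h7 : c0 * n ≤ 6473 * Real.exp (3 * s) * Real.log β := by
        calc c0 * n ≤ ((Real.log (2 * n)) ^ 3 * Real.log β) * n :=
              mul_le_mul_of_nonneg_right h3 hn0.le
          _ ≤ ((2 * n) ^ 3 * Real.log β) * n := by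
              apply mul_le_mul_of_nonneg_right _ hn0.le
              exact mul_le_mul_of_nonneg_right h4 hlogβ.le
          _ = (n * (2 * n) ^ 3) * Real.log β := by ring
          _ ≤ _ := mul_le_mul_of_nonneg_right h5 hlogβ.le
      calc n = (c0 * n) / c0 := by field_simp
        _ ≤ (6473 * Real.exp (3 * s) * Real.log β) / c0 := by gcongr
        _ = _ := by ring
    have h7 : Real.exp (3 * s) * Real.log β ≤
        (p : ℝ) ^ a * (κ * Real.exp (3 * s)) * Real.log β := by
      have h8 : 1 ≤ (p : ℝ) ^ a * κ := by nlinarith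
      have h9 : 0 ≤ Real.exp (3 * s) * Real.log β := by positivity
      nlinarith
    calc n ≤ 6473 / c0 * (Real.exp (3 * s) * Real.log β) := by rw [← mul_assoc]; exact h6
      _ ≤ 6473 / c0 * ((p : ℝ) ^ a * (κ * Real.exp (3 * s)) * Real.log β) :=
          mul_le_mul_of_nonneg_left h7 (by positivity)
      _ ≤ (12480 + 6473 / c0) * ((p : ℝ) ^ a * (κ * Real.exp (3 * s)) * Real.log β) := by
          apply mul_le_mul_of_nonneg_right _ hW
          linarith
      _ = _ := by ring

end Pool.Agent.Run7.h22
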