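import Mathlib
import Pool.Agent.Run7.h22.Rel3

/-!
# The abstract form of the argument, for groups of units with torsion

`GoodT k t H Q`: `Q` is a group of units of the number field `K`, stable under the group `H` of
automorphisms, the `t`-th powers of the roots of unity in `Q` are one, the index of `H` is at most
`k / t`, and `256 k²` elements of `Q` cannot all have height less than `1/(16 k)`.
-/

set_option autoImplicit false

open Finset Module

namespace Pool.Agent.Run7.h22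

open Pool.Agent.H388SL

/-- the properties of the group of units -/
structure GoodT (K : Type) [Field K] [NumberField K] (k t : ℕ) (H : Subgroup (K ≃ₐ[ℚ] K))
    (Q : K → Prop) : Prop where
  tpos : 1 ≤ t
  index : H.index * t ≤ k
  one : Q 1
  mul : ∀ x y, Q x → Q y → Q (x * y)
  inv : ∀ x, Q x → Q x⁻¹
  ne_zero : ∀ x, Q x → x ≠ 0
  int : ∀ x, Q x → IsIntegral ℤ x
  aut : ∀ g ∈ H, ∀ x, Q x → Q (g x)
  torsion : ∀ x, Q x → ∀ n : ℕ, 0 < n → x ^ n = 1 → x ^ t = 1
  energy : ∀ (ι : Type) [Fintype ι] (u : ι → K), Function.Injective u → (∀ i, Q (u i)) → ∀ τ : ℝ,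
    (∀ i, lam (u i) ≤ finrank ℚ K * τ) → 256 * (k : ℝ) ^ 2 ≤ Fintype.card ι → 1 / (16 * (k : ℝ)) ≤ τ

namespace GoodT

variable {K : Type} [Field K] [NumberField K] {k t : ℕ} {H : Subgroup (K ≃ₐ[ℚ] K)} {Q : K → Prop}

lemma pow (h : GoodT K k t H Q) {x : K} (hx : Q x) (n : ℕ) : Q (x ^ n) := by
  induction n with
  | zero => rw [pow_zero]; exact h.one
  | succ n ih => rw [pow_succ]; exact h.mul _ _ ih hx

lemma prod (h : GoodT K k t H Q) {ι : Type*} (s : Finset ι) (f : ι → K) (hf : ∀ i ∈ s, Q (f i)) :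
    Q (∏ i ∈ s, f i) := by
  classical
  induction s using Finset.induction_on with
  | empty => rw [Finset.prod_empty]; exact h.one
  | insert a s ha ih =>
    rw [Finset.prod_insert ha]
    exact h.mul _ _ (hf a (Finset.mem_insert_self a s))
      (ih fun i hi => hf i (Finset.mem_insert_of_mem hi))

lemma isU (h : GoodT K k t H Q) {x : K} (hx : Q x) : IsU x :=
  ⟨h.ne_zero x hx, h.int x hx, h.int _ (h.inv x hx)⟩

lemma lg_prod' (h : GoodT K k t H Q) {ι : Type*} (s : Finset ι) (f : ι → K)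
    (hf : ∀ i ∈ s, Q (f i)) : lg (∏ i ∈ s, f i) = ∑ i ∈ s, lg (f i) := by
  classical
  induction s using Finset.induction_on with
  | empty => rw [Finset.prod_empty, Finset.sum_empty]; exact lg_one
  | insert a s ha ih =>
    have h1 := h.prod s f (fun i hi => hf i (Finset.mem_insert_of_mem hi))
    rw [Finset.prod_insert ha, Finset.sum_insert ha,
      lg_mul (h.ne_zero _ (hf a (Finset.mem_insert_self a s))) (h.ne_zero _ h1),
      ih fun i hi => hf i (Finset.mem_insert_of_mem hi)]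

/-- the image of the group in the logarithmic space -/
def lat (h : GoodT K k t H Q) : AddSubgroup ((K →ₐ[ℚ] ℂ) → ℝ) where
  carrier := {v | ∃ x : K, Q x ∧ lg x = v}
  zero_mem' := ⟨1, h.one, lg_one⟩
  add_mem' := by
    rintro _ _ ⟨x, hx, rfl⟩ ⟨y, hy, rfl⟩
    exact ⟨x * y, h.mul _ _ hx hy, lg_mul (h.ne_zero _ hx) (h.ne_zero _ hy)⟩
  neg_mem' := by
    rintro _ ⟨x, hx, rfl⟩
    exact ⟨x⁻¹, h.inv _ hx, lg_inv x⟩

/-- elements with the same logarithms have the same `t`-th powers -/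
lemma lg_pow_eq (h : GoodT K k t H Q) {x y : K} (hx : Q x) (hy : Q y) (he : lg x = lg y) :
    x ^ t = y ^ t := by
  have hx0 := h.ne_zero x hx
  have hy0 := h.ne_zero y hy
  have h1 : lg (x * y⁻¹) = 0 := by
    rw [lg_mul hx0 (inv_ne_zero hy0), lg_inv, he, add_neg_cancel]
  have hq := h.mul _ _ hx (h.inv _ hy)
  obtain ⟨n, hn, hn1⟩ := (h.isU hq).root h1
  have h2 := h.torsion _ hq n hn hn1
  rw [mul_pow, inv_pow] at h2
  exact (mul_inv_eq_one₀ (pow_ne_zero t hy0)).mp h2

lemma len_lg' (h : GoodT K k t H Q) {x : K} (hx : Q x) : len (lg x) = 2 * lam x := (h.isU hx).len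

lemma exists_min' (h : GoodT K k t H Q) {x : K} (hx : Q x) (h1 : ∀ n : ℕ, 0 < n → x ^ n ≠ 1) :
    ∃ β : K, Q β ∧ (∀ n : ℕ, 0 < n → β ^ n ≠ 1) ∧
      (∀ y : K, Q y → (∀ n : ℕ, 0 < n → y ^ n ≠ 1) → lam β ≤ lam y) := by
  set T : Set K := {y | Q y ∧ (∀ n : ℕ, 0 < n → y ^ n ≠ 1) ∧ lam y ≤ lam x} with hT
  have hfin : T.Finite := by
    apply (NumberField.Embeddings.finite_of_norm_le K ℂ (Real.exp (lam x))).subset
    intro y hy
    refine ⟨h.int y hy.1, fun φ => ?_⟩
    set ψ : K →ₐ[ℚ] ℂ := RingHom.equivRatAlgHom K ℂ φ with hψ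
    have h2 : φ y = ψ y := rfl
    rw [h2]
    have h3 : Real.log (max 1 ‖ψ y‖) ≤ lam y :=
      Finset.single_le_sum (f := fun σ : K →ₐ[ℚ] ℂ => Real.log (max 1 ‖σ y‖))
        (fun _ _ => Real.log_nonneg (le_max_left _ _)) (Finset.mem_univ ψ)
    have h4 : (0:ℝ) < max 1 ‖ψ y‖ := lt_of_lt_of_le one_pos (le_max_left _ _)
    calc ‖ψ y‖ ≤ max 1 ‖ψ y‖ := le_max_right _ _
      _ = Real.exp (Real.log (max 1 ‖ψ y‖)) := (Real.exp_log h4).symm
      _ ≤ Real.exp (lam x) := Real.exp_le_exp.mpr (h3.trans hy.2.2)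
  obtain ⟨β, hβ, hmin⟩ := Set.exists_min_image T lam hfin ⟨x, hx, h1, le_rfl⟩
  refine ⟨β, hβ.1, hβ.2.1, fun y hy hy1 => ?_⟩
  by_cases h2 : lam y ≤ lam x
  · exact hmin y ⟨hy, hy1, h2⟩
  · push Not at h2
    exact hβ.2.2.trans h2.le

lemma one_le_index (_h : GoodT K k t H Q) : 1 ≤ H.index :=
  Nat.pos_of_ne_zero Subgroup.FiniteIndex.index_ne_zero

lemma index_le_k (h : GoodT K k t H Q) : H.index ≤ k :=
  (Nat.le_mul_of_pos_right _ h.tpos).trans h.index

lemma one_le_k (h : GoodT K k t H Q) : 1 ≤ k := h.one_le_index.trans h.index_le_k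

/-- many independent units of minimal height -/
lemma case_large (h : GoodT K k t H Q) {β : K} {ι : Type} [Fintype ι] (b : ι → K)
    (hB : ∀ i, Q (b i) ∧ lam (b i) = lam β)
    (hind : LinearIndependent ℤ (fun i => lg (b i))) (m : ℕ)
    (hm : 256 * (k : ℝ) ^ 2 ≤ ((m : ℝ) + 1) ^ Fintype.card ι) :
    (finrank ℚ K : ℝ) ≤ 16 * k * (Fintype.card ι * m * lam β) := by
  classical
  have hk1 : (1:ℝ) ≤ k := by exact_mod_cast h.one_le_k
  have hN0 : (0:ℝ) < finrank ℚ K := by exact_mod_cast (finrank_pos : 0 < finrank ℚ K)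
  let u : (ι → Fin (m + 1)) → K := fun e => ∏ i : ι, b i ^ (e i : ℕ)
  have hPu : ∀ e, Q (u e) := fun e =>
    h.prod Finset.univ (fun i : ι => b i ^ (e i : ℕ)) (fun i _ => h.pow (hB i).1 _)
  have hlg : ∀ e, lg (u e) = ∑ i : ι, ((e i : ℕ) : ℤ) • lg (b i) := by
    intro e
    rw [h.lg_prod' Finset.univ (fun i : ι => b i ^ (e i : ℕ))
      (fun i _ => h.pow (hB i).1 (e i : ℕ))]
    refine Finset.sum_congr rfl fun i _ => ?_
    rw [lg_pow, natCast_zsmul]
  have hinj : Function.Injective u := by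
    intro e e' he
    have h1 : ∑ i : ι, (((e i : ℕ) : ℤ) - ((e' i : ℕ) : ℤ)) • lg (b i) = 0 := by
      simp_rw [sub_smul]
      rw [Finset.sum_sub_distrib, ← hlg, ← hlg, he, sub_self]
    have h2 := (Fintype.linearIndependent_iff.mp hind) _ h1
    funext i
    apply Fin.ext
    have := h2 i
    omega
  have hcard : Fintype.card (ι → Fin (m + 1)) = (m + 1) ^ Fintype.card ι := by
    rw [Fintype.card_fun, Fintype.card_fin]
  have hlam : ∀ e, lam (u e) ≤ finrank ℚ K * ((Fintype.card ι * m * lam β) / finrank ℚ K) := by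
    intro e
    rw [mul_div_cancel₀ _ hN0.ne']
    refine (lam_prod_le _ _ _).trans ?_
    calc ∑ i : ι, ((e i : ℕ) : ℝ) * lam (b i) ≤ ∑ _i : ι, (m : ℝ) * lam β := by
          apply Finset.sum_le_sum
          intro i _
          rw [(hB i).2]
          apply mul_le_mul_of_nonneg_right _ (lam_nonneg β)
          exact_mod_cast Nat.lt_succ_iff.mp (e i).2
      _ = Fintype.card ι * m * lam β := by
          rw [Finset.sum_const, Finset.card_univ, nsmul_eq_mul]
          ring
  have h1 := h.energy (ι → Fin (m + 1)) u hinj hPu _ hlam (by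
      rw [hcard]
      push_cast
      exact hm)
  have hk0 : (0:ℝ) < k := by linarith
  rw [div_le_div_iff₀ (by positivity) hN0, one_mul] at h1
  linarith

end GoodT

/-- **The abstract theorem, with torsion.** -/
theorem abs_tor : ∃ C : ℝ, 0 < C ∧ ∀ (K : Type) [Field K] [NumberField K] [IsGalois ℚ K] (k t : ℕ)
    (H : Subgroup (K ≃ₐ[ℚ] K)) (Q : K → Prop), GoodT K k t H Q → ∀ x : K, Q x →
    (∀ n : ℕ, 0 < n → x ^ n ≠ 1) →
    (finrank ℚ K : ℝ) ≤ C * (k * Real.exp (9 * Real.sqrt (Real.log (2 * k)))) * lam x := by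
  classical
  obtain ⟨c0, hc0, hdob⟩ := dob
  refine ⟨32 + 1 / c0, by positivity, ?_⟩
  intro K _ _ _ kn t H Q hQ x0 hx0 hx01
  have hkk : (1:ℝ) ≤ (kn : ℝ) := by exact_mod_cast hQ.one_le_k
  obtain ⟨β, hPβ, hrβ, hmin⟩ := hQ.exists_min' hx0 hx01
  have hβ0 := hQ.ne_zero β hPβ
  have hβi := hQ.int β hPβ
  have hτ : 0 < lam β := lam_pos hβi hβ0 hrβ
  have hβα : lam β ≤ lam x0 := hmin x0 hx0 hx01
  have horb : ∀ x ∈ orb H β, Q x ∧ lam x = lam β := by
    intro x hx
    obtain ⟨g, hg, rfl⟩ := mem_orb.mp hx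
    exact ⟨hQ.aut g hg β hPβ, lam_aut g β⟩
  set O : Finset ((K →ₐ[ℚ] ℂ) → ℝ) := (orb H β).image lg with hO
  have hrep : ∀ v : O, ∃ x ∈ orb H β, lg x = (v : (K →ₐ[ℚ] ℂ) → ℝ) := fun v =>
    Finset.mem_image.mp v.2
  choose rep hrepm hrepl using hrep
  obtain ⟨B, hBind, hBcard⟩ := exists_indep (V := (K →ₐ[ℚ] ℂ) → ℝ) len len_add len_neg len_three
    (fun v : O => (v : (K →ₐ[ℚ] ℂ) → ℝ)) Subtype.val_injective (τ := 2 * lam β)
    (by linarith) hQ.lat
    (fun v => ⟨rep v, (horb _ (hrepm v)).1, hrepl v⟩)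
    (fun v => by
      show len (v : (K →ₐ[ℚ] ℂ) → ℝ) ≤ _
      rw [← hrepl v, hQ.len_lg' (horb _ (hrepm v)).1, (horb _ (hrepm v)).2])
    (by
      rintro _ ⟨x, hx, rfl⟩ hx0'
      rw [hQ.len_lg' hx]
      have h1 : ∀ n : ℕ, 0 < n → x ^ n ≠ 1 := fun n hn h => hx0' (lg_root hn h)
      linarith [hmin x hx h1])
  rw [Fintype.card_coe] at hBcard
  set k : ℝ := (kn : ℝ) with hk
  set s := Real.sqrt (Real.log (2 * k)) with hs
  obtain ⟨hn1, hn2, hs0⟩ := num_large hkk hs
  have hexp : 0 < Real.exp (9 * s) := Real.exp_pos _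
  have hfin : (finrank ℚ K : ℝ) ≤ (32 + 1 / c0) * (k * Real.exp (9 * s)) * lam β := by
    rcases le_or_gt ⌈s⌉₊ B.card with hr | hr
    · obtain ⟨B', hB', hB'card⟩ := Finset.exists_subset_card_eq hr
      have hind2 : LinearIndependent ℤ (fun i : B' => lg (rep (i : O))) := by
        have h1 := hBind.comp (fun i : B' => (⟨(i : O), hB' i.2⟩ : B)) (by
            intro x y h
            have h2 := congrArg (fun z : B => (z : O)) h
            exact Subtype.ext h2)
        have h2 : (fun i : B' => lg (rep (i : O))) =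
            (fun i : B => ((i : O) : (K →ₐ[ℚ] ℂ) → ℝ)) ∘ (fun i : B' => (⟨(i : O), hB' i.2⟩ : B)) := by
          funext i
          exact hrepl (i : O)
        rw [h2]
        exact h1
      have hcardB : Fintype.card B' = ⌈s⌉₊ := by rw [Fintype.card_coe, hB'card]
      have h1 := hQ.case_large (β := β) (fun i : B' => rep (i : O)) (fun i => horb _ (hrepm _)) hind2
        ⌈Real.exp (8 * s)⌉₊ (by rw [hcardB]; exact hn1)
      rw [hcardB] at h1
      refine h1.trans ?_
      have h2 : (⌈s⌉₊ : ℝ) * ⌈Real.exp (8 * s)⌉₊ * lam β ≤ 2 * Real.exp (9 * s) * lam β :=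
        mul_le_mul_of_nonneg_right hn2 hτ.le
      have h3 : 16 * k * ((⌈s⌉₊ : ℝ) * ⌈Real.exp (8 * s)⌉₊ * lam β) ≤
          16 * k * (2 * Real.exp (9 * s) * lam β) :=
        mul_le_mul_of_nonneg_left h2 (by positivity)
      refine h3.trans ?_
      have h4 : 0 ≤ 1 / c0 * (k * Real.exp (9 * s)) * lam β := by positivity
      linarith
    · -- the degree of the `t`-th power
      have horbt : orb H (β ^ t) ⊆ O.attach.image (fun v => rep v ^ t) := by
        intro y hy
        obtain ⟨g, hg, rfl⟩ := mem_orb.mp hy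
        have h1 : g β ∈ orb H β := mem_orb.mpr ⟨g, hg, rfl⟩
        have h2 : lg (g β) ∈ O := Finset.mem_image_of_mem _ h1
        refine Finset.mem_image.mpr ⟨⟨lg (g β), h2⟩, Finset.mem_attach _ _, ?_⟩
        rw [map_pow]
        exact hQ.lg_pow_eq (horb _ (hrepm _)).1 (horb _ h1).1 (hrepl ⟨lg (g β), h2⟩)
      have hcardt : (orb H (β ^ t)).card ≤ 3 ^ B.card := by
        refine (Finset.card_le_card horbt).trans ?_
        refine Finset.card_image_le.trans ?_
        rw [Finset.card_attach]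
        exact hBcard
      have hd : (finrank ℚ (IntermediateField.adjoin ℚ {β ^ t}) : ℝ) ≤ H.index * 3 ^ B.card := by
        have h1 := degree_le H (β ^ t)
        have h2 : H.index * (orb H (β ^ t)).card ≤ H.index * 3 ^ B.card :=
          Nat.mul_le_mul le_rfl hcardt
        have h3 := h1.trans h2
        exact_mod_cast h3
      have ht0 : 0 < t := hQ.tpos
      have h1 := case_small hc0 hdob (hβi.pow t) (pow_ne_zero t hβ0)
        (fun n hn h => hrβ (t * n) (Nat.mul_pos ht0 hn) (by rw [pow_mul]; exact h)) hd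
      rw [lam_pow] at h1
      have h2 := num_small hkk hs hs0 hr
      have hidx : (H.index : ℝ) * t ≤ k := by
        rw [hk]
        exact_mod_cast hQ.index
      have hidx2 : (H.index : ℝ) ≤ k := by
        rw [hk]
        exact_mod_cast hQ.index_le_k
      have hidx1 : (1 : ℝ) ≤ H.index := by exact_mod_cast hQ.one_le_index
      have h3p : (1:ℝ) ≤ 3 ^ B.card := one_le_pow₀ (by norm_num)
      have hl1 : 0 ≤ Real.log (2 * ((H.index : ℝ) * 3 ^ B.card)) := by
        apply Real.log_nonneg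
        nlinarith
      have hl2 : Real.log (2 * ((H.index : ℝ) * 3 ^ B.card)) ≤ Real.log (2 * (k * 3 ^ B.card)) := by
        apply Real.log_le_log
        · nlinarith
        · have := mul_le_mul_of_nonneg_right hidx2 (show (0:ℝ) ≤ 3 ^ B.card by positivity)
          linarith
      have hl3 := pow_le_pow_left₀ hl1 hl2 3
      have h3 : c0 * finrank ℚ K ≤ k * Real.exp (9 * s) * lam β := by
        refine h1.trans ?_
        calc (H.index : ℝ) * 3 ^ B.card * Real.log (2 * (H.index * 3 ^ B.card)) ^ 3 * (t * lam β)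
            = ((H.index : ℝ) * t) * 3 ^ B.card *
                Real.log (2 * (H.index * 3 ^ B.card)) ^ 3 * lam β := by ring
          _ ≤ k * 3 ^ B.card * Real.log (2 * (k * 3 ^ B.card)) ^ 3 * lam β := by
              apply mul_le_mul_of_nonneg_right _ hτ.le
              apply mul_le_mul _ hl3 (pow_nonneg hl1 3) (by positivity)
              exact mul_le_mul_of_nonneg_right hidx (by positivity)
          _ ≤ k * Real.exp (9 * s) * lam β := mul_le_mul_of_nonneg_right h2 hτ.le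
      have h4 : (finrank ℚ K : ℝ) ≤ 1 / c0 * (k * Real.exp (9 * s) * lam β) := by
        rw [one_div, ← div_eq_inv_mul, le_div_iff₀ hc0]
        linarith
      have h5 : 0 ≤ 32 * (k * Real.exp (9 * s)) * lam β := by positivity
      linarith
  refine hfin.trans ?_
  exact mul_le_mul_of_nonneg_left hβα (by positivity)

end Pool.Agent.Run7.h22
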