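import Mathlib
import Pool.Agent.Run7.h22.Ine1

/-!
# Automorphisms in decomposition groups: the primes, the roots of unity, the norms
-/

set_option autoImplicit false

open Finset Module NumberField Polynomial

namespace Pool.Agent.Run7.h22

open Pool.Agent.H388SL
open scoped Pointwise

variable {K : Type} [Field K] [NumberField K]

/-- `σ` is congruent to the `q`-th power map modulo `𝔓 ^ s`, where `𝔓` is a prime ideal above `p` -/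
def IsDec (p q s : ℕ) (σ : K ≃ₐ[ℚ] K) (𝔓 : Ideal (𝓞 K)) : Prop :=
  𝔓.IsPrime ∧ (p : 𝓞 K) ∈ 𝔓 ∧ ∀ x : 𝓞 K, σ • x - x ^ q ∈ 𝔓 ^ s

/-- the conjugates of an automorphism -/
def conjSet (σ : K ≃ₐ[ℚ] K) : Set (K ≃ₐ[ℚ] K) := {τ | ∃ g : K ≃ₐ[ℚ] K, τ = g * σ * g⁻¹}

lemma smul_pow_ideal (g : K ≃ₐ[ℚ] K) (I : Ideal (𝓞 K)) (s : ℕ) : g • (I ^ s) = (g • I) ^ s := by
  rw [Ideal.pointwise_smul_def, Ideal.pointwise_smul_def, Ideal.map_pow]

lemma IsDec.smul {p q s : ℕ} {σ : K ≃ₐ[ℚ] K} {𝔓 : Ideal (𝓞 K)} (h : IsDec p q s σ 𝔓)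
    (g : K ≃ₐ[ℚ] K) : IsDec p q s (g * σ * g⁻¹) (g • 𝔓) := by
  obtain ⟨h1, h2, h3⟩ := h
  refine ⟨h1.smul g, ?_, fun x => ?_⟩
  · have h4 := Ideal.smul_mem_pointwise_smul g _ 𝔓 h2
    have h5 : g • (p : 𝓞 K) = (p : 𝓞 K) := by
      have := map_natCast (MulSemiringAction.toRingHom (K ≃ₐ[ℚ] K) (𝓞 K) g) p
      exact this
    rwa [h5] at h4
  · have h4 := h3 (g⁻¹ • x)
    have h5 := Ideal.smul_mem_pointwise_smul g _ _ h4
    rw [smul_pow_ideal] at h5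
    have h6 : g • (σ • g⁻¹ • x - (g⁻¹ • x) ^ q) = (g * σ * g⁻¹) • x - x ^ q := by
      rw [smul_sub, smul_smul, smul_smul, smul_pow', smul_smul, mul_inv_cancel, one_smul]
    rwa [h6] at h5

lemma IsDec.of_comm {p q s : ℕ} {σ : K ≃ₐ[ℚ] K} {𝔓 : Ideal (𝓞 K)} (h : IsDec p q s σ 𝔓)
    {g : K ≃ₐ[ℚ] K} (hg : g * σ = σ * g) : IsDec p q s σ (g • 𝔓) := by
  have h1 := h.smul g
  have h2 : g * σ * g⁻¹ = σ := by rw [hg, mul_assoc, mul_inv_cancel, mul_one]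
  rwa [h2] at h1

/-- an element of the ring of integers which is in the powers of many primes has a large norm -/
lemma log_norm_ge_pow {Φ : Finset (Ideal (𝓞 K))} (hbot : ∀ 𝔓 ∈ Φ, 𝔓 ≠ ⊥)
    (hpr : ∀ 𝔓 ∈ Φ, 𝔓.IsPrime) (s : ℕ)
    {x : 𝓞 K} (hx0 : x ≠ 0) (hxm : ∀ 𝔓 ∈ Φ, x ∈ 𝔓 ^ s) :
    (s : ℝ) * ∑ 𝔓 ∈ Φ, Real.log (Ideal.absNorm 𝔓) ≤
      ∑ φ : K →ₐ[ℚ] ℂ, Real.log ‖φ (algebraMap (𝓞 K) K x)‖ := by
  have hdvd : ∏ 𝔓 ∈ Φ, 𝔓 ^ s ∣ Ideal.span {x} := by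
    apply Finset.prod_dvd_of_coprime
    · intro 𝔓 h𝔓 𝔔 h𝔔 hne
      have h1 : 𝔓.IsMaximal := (hpr 𝔓 h𝔓).isMaximal (hbot 𝔓 h𝔓)
      have h2 : 𝔔.IsMaximal := (hpr 𝔔 h𝔔).isMaximal (hbot 𝔔 h𝔔)
      exact (Ideal.isCoprime_of_isMaximal hne).pow
    · intro 𝔓 h𝔓
      rw [Ideal.dvd_span_singleton]
      exact hxm 𝔓 h𝔓
  have hdvd2 : ∏ 𝔓 ∈ Φ, Ideal.absNorm 𝔓 ^ s ∣ (Algebra.norm ℤ x).natAbs := by
    rw [← Ideal.absNorm_span_singleton]
    have h1 := map_dvd Ideal.absNorm hdvd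
    rw [map_prod] at h1
    simp_rw [map_pow] at h1
    exact h1
  have hnx0 : (Algebra.norm ℤ x).natAbs ≠ 0 := by
    rw [Int.natAbs_ne_zero]
    exact Algebra.norm_ne_zero_iff.mpr hx0
  have hle : ∏ 𝔓 ∈ Φ, Ideal.absNorm 𝔓 ^ s ≤ (Algebra.norm ℤ x).natAbs :=
    Nat.le_of_dvd (Nat.pos_of_ne_zero hnx0) hdvd2
  have hpos : ∀ 𝔓 ∈ Φ, (0:ℝ) < (Ideal.absNorm 𝔓 : ℝ) ^ s := by
    intro 𝔓 h𝔓
    have := Ideal.absNorm_eq_zero_iff.not.mpr (hbot 𝔓 h𝔓)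
    apply pow_pos
    exact_mod_cast Nat.pos_of_ne_zero this
  have hlogle : (s : ℝ) * ∑ 𝔓 ∈ Φ, Real.log (Ideal.absNorm 𝔓) ≤
      Real.log ((Algebra.norm ℤ x).natAbs : ℝ) := by
    have h1 : (s : ℝ) * ∑ 𝔓 ∈ Φ, Real.log (Ideal.absNorm 𝔓) =
        ∑ 𝔓 ∈ Φ, Real.log ((Ideal.absNorm 𝔓 : ℝ) ^ s) := by
      rw [Finset.mul_sum]
      exact Finset.sum_congr rfl fun 𝔓 _ => by rw [Real.log_pow]
    rw [h1, ← Real.log_prod fun 𝔓 h𝔓 => (hpos 𝔓 h𝔓).ne']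
    apply Real.log_le_log (Finset.prod_pos hpos)
    exact_mod_cast hle
  have hsumlog : ∑ φ : K →ₐ[ℚ] ℂ, Real.log ‖φ (algebraMap (𝓞 K) K x)‖ =
      Real.log ((Algebra.norm ℤ x).natAbs : ℝ) := by
    have hxK : algebraMap (𝓞 K) K x ≠ 0 := by
      intro h0
      exact hx0 (RingOfIntegers.coe_injective (by rw [h0, map_zero]))
    rw [← Real.log_prod fun φ _ => norm_ne_zero_iff.mpr ((map_ne_zero φ).mpr hxK)]
    congr 1
    rw [← norm_prod, ← Algebra.norm_eq_prod_embeddings ℚ ℂ (algebraMap (𝓞 K) K x),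
      ← Algebra.coe_norm_int]
    rw [eq_ratCast, Rat.cast_intCast, Complex.norm_intCast, Nat.cast_natAbs, Int.cast_abs]
  rw [hsumlog]
  exact hlogle

/-- roots of unity which are congruent to one modulo a power of a prime ideal above `p` -/
lemma root_order {p e s : ℕ} (hp : p.Prime) {𝔓 : Ideal (𝓞 K)} (hpr : 𝔓.IsPrime)
    (hpm : (p : 𝓞 K) ∈ 𝔓) (hram : (p : 𝓞 K) ∉ 𝔓 ^ (e + 1)) (hs : 1 ≤ s) {ζ : 𝓞 K}
    (h1 : ζ - 1 ∈ 𝔓 ^ s) {n : ℕ} (hn : 0 < n) (hζ : ζ ^ n = 1) :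
    ζ ^ (p ^ Nat.log p (2 * e / s)) = 1 := by
  classical
  have hfo : IsOfFinOrder ζ := isOfFinOrder_iff_pow_eq_one.mpr ⟨n, hn, hζ⟩
  set m := orderOf ζ with hm
  have hm0 : 0 < m := hfo.orderOf_pos
  have hcong : ∀ j : ℕ, ζ ^ j - 1 ∈ 𝔓 ^ s := by
    intro j
    obtain ⟨w, hw⟩ : ζ - 1 ∣ ζ ^ j - 1 := by simpa using sub_dvd_pow_sub_pow ζ 1 j
    rw [hw]
    exact Ideal.mul_mem_right _ _ h1
  have hle : 𝔓 ^ s ≤ 𝔓 := Ideal.pow_le_self (by omega)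
  -- the order is a power of `p`
  have hprim : IsPrimitiveRoot ζ m := IsPrimitiveRoot.orderOf ζ
  have hprime : ∀ l : ℕ, l.Prime → l ∣ m → l = p := by
    intro l hl hlm
    by_contra hne
    have : Fact l.Prime := ⟨hl⟩
    have hη : IsPrimitiveRoot (ζ ^ (m / l)) l := by
      have h2 : m = (m / l) * l := (Nat.div_mul_cancel hlm).symm
      exact hprim.pow hm0 h2
    have h2 : (l : 𝓞 K) ∈ 𝔓 := by
      have h3 := eval_one_cyclotomic_prime_pow (R := 𝓞 K) (p := l) 0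
      rw [zero_add, pow_one] at h3
      rw [← h3, cyclotomic_eq_prod_X_sub_primitiveRoots hη, eval_prod]
      have h4 : ζ ^ (m / l) ∈ primitiveRoots l (𝓞 K) := (mem_primitiveRoots hl.pos).mpr hη
      rw [← Finset.mul_prod_erase _ _ h4]
      apply Ideal.mul_mem_right
      rw [eval_sub, eval_X, eval_C, ← neg_sub]
      exact neg_mem (hle (hcong _))
    have hcop : IsCoprime (l : ℤ) (p : ℤ) :=
      Nat.isCoprime_iff_coprime.mpr ((Nat.coprime_primes hl hp).mpr hne)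
    obtain ⟨a', b, hab⟩ := hcop
    have h3 : (1 : 𝓞 K) ∈ 𝔓 := by
      have h4 : (1 : 𝓞 K) = (a' : 𝓞 K) * l + (b : 𝓞 K) * p := by
        have := congrArg (fun z : ℤ => (z : 𝓞 K)) hab
        push_cast at this
        exact this.symm
      rw [h4]
      exact Ideal.add_mem _ (Ideal.mul_mem_left _ _ h2) (Ideal.mul_mem_left _ _ hpm)
    exact hpr.ne_top ((Ideal.eq_top_iff_one _).mpr h3)
  have hmp : m = p ^ m.primeFactorsList.length :=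
    Nat.eq_prime_pow_of_unique_prime_dvd hm0.ne' fun {d} hd hdm => hprime d hd hdm
  set c := m.primeFactorsList.length with hc
  suffices h : c ≤ Nat.log p (2 * e / s) by
    have h2 : m ∣ p ^ Nat.log p (2 * e / s) := by
      rw [hmp]
      exact pow_dvd_pow p h
    exact orderOf_dvd_iff_pow_eq_one.mp h2
  rcases Nat.eq_zero_or_pos c with hc0 | hc0
  · rw [hc0]
    exact Nat.zero_le _
  obtain ⟨c', hc'⟩ : ∃ c', c = c' + 1 := ⟨c - 1, by omega⟩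
  have : Fact p.Prime := ⟨hp⟩
  have hprim' : IsPrimitiveRoot ζ (p ^ (c' + 1)) := by
    rw [← hc', ← hmp]
    exact hprim
  have hmem : (p : 𝓞 K) ∈ (𝔓 ^ s) ^ (p ^ (c' + 1)).totient := by
    have h3 := eval_one_cyclotomic_prime_pow (R := 𝓞 K) (p := p) c'
    rw [← h3, cyclotomic_eq_prod_X_sub_primitiveRoots hprim', eval_prod]
    have h4 : (p ^ (c' + 1)).totient = (primitiveRoots (p ^ (c' + 1)) (𝓞 K)).card :=
      hprim'.card_primitiveRoots.symm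
    rw [h4, ← Finset.prod_const]
    apply Ideal.prod_mem_prod
    intro μ hμ
    have hne0 : NeZero (p ^ (c' + 1)) := ⟨pow_ne_zero _ hp.ne_zero⟩
    obtain ⟨i, _, _, hi⟩ := (hprim'.isPrimitiveRoot_iff).mp
      (isPrimitiveRoot_of_mem_primitiveRoots hμ)
    rw [eval_sub, eval_X, eval_C, ← neg_sub, ← hi]
    exact neg_mem (hcong i)
  rw [← pow_mul] at hmem
  have hle2 : s * (p ^ (c' + 1)).totient ≤ e := by
    by_contra hlt
    push Not at hlt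
    exact hram (Ideal.pow_le_pow_right hlt hmem)
  rw [Nat.totient_prime_pow_succ hp] at hle2
  rw [hc']
  have h2p : p ≤ 2 * (p - 1) := by
    have := hp.two_le
    omega
  have h5 : p ^ (c' + 1) * s ≤ 2 * e := by
    calc p ^ (c' + 1) * s = s * (p ^ c' * p) := by rw [pow_succ]; ring
      _ ≤ s * (p ^ c' * (2 * (p - 1))) := by gcongr
      _ = 2 * (s * (p ^ c' * (p - 1))) := by ring
      _ ≤ 2 * e := by omega
  have h6 : p ^ (c' + 1) ≤ 2 * e / s := (Nat.le_div_iff_mul_le (by omega)).mpr h5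
  exact Nat.le_log_of_pow_le hp.one_lt h6

/-- the prime ideals above `p` which are good for a conjugate of `σ₀` contain together a
proportion of at least `1 / (e k)` of the norm of `p` -/
lemma exists_sigma_dec [IsGalois ℚ K] {p q s e : ℕ} (hp : p.Prime)
    (hram : ∀ 𝔓 : Ideal (𝓞 K), 𝔓.IsPrime → (p : 𝓞 K) ∈ 𝔓 → (p : 𝓞 K) ∉ 𝔓 ^ (e + 1))
    {σ₀ : K ≃ₐ[ℚ] K} {𝔓₀ : Ideal (𝓞 K)} (h₀ : IsDec p q s σ₀ 𝔓₀) :
    ∃ (σ : K ≃ₐ[ℚ] K) (Φ : Finset (Ideal (𝓞 K))), σ ∈ conjSet σ₀ ∧ Φ.Nonempty ∧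
      (∀ 𝔓 ∈ Φ, IsDec p q s σ 𝔓) ∧ (∀ 𝔓 ∈ Φ, 𝔓 ≠ ⊥) ∧
      (finrank ℚ K : ℝ) * Real.log p ≤
        e * (conjSet σ₀).ncard * ∑ 𝔓 ∈ Φ, Real.log (Ideal.absNorm 𝔓) := by
  classical
  set I : Ideal (𝓞 K) := Ideal.span {(p : 𝓞 K)} with hI
  have hI0 : I ≠ ⊥ := by
    rw [hI, Ne, Ideal.span_singleton_eq_bot]
    exact_mod_cast hp.ne_zero
  set F := (UniqueFactorizationMonoid.normalizedFactors I) with hF
  have hFprime : ∀ 𝔓 ∈ F, 𝔓.IsPrime ∧ (p : 𝓞 K) ∈ 𝔓 ∧ 𝔓 ≠ ⊥ := by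
    intro 𝔓 h
    have h1 := UniqueFactorizationMonoid.prime_of_normalized_factor 𝔓 h
    have h2 := UniqueFactorizationMonoid.dvd_of_mem_normalizedFactors h
    refine ⟨Ideal.isPrime_of_prime h1, ?_, h1.ne_zero⟩
    have h3 : I ≤ 𝔓 := Ideal.dvd_iff_le.mp h2
    exact h3 (Ideal.mem_span_singleton_self _)
  have hprod : F.prod = I := by
    rw [hF]
    exact Ideal.prod_normalizedFactors_eq_self hI0
  have hcount : ∀ 𝔓, F.count 𝔓 ≤ e := by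
    intro 𝔓
    by_contra hc
    push Not at hc
    have hmem : 𝔓 ∈ F := Multiset.count_pos.mp (by omega)
    have h1 := hFprime 𝔓 hmem
    have h2 : 𝔓 ^ (e + 1) ∣ I := by
      rw [← hprod]
      have h3 : Multiset.replicate (e + 1) 𝔓 ≤ F := Multiset.le_count_iff_replicate_le.mp hc
      have h4 := Multiset.prod_dvd_prod_of_le h3
      rwa [Multiset.prod_replicate] at h4
    have h3 : I ≤ 𝔓 ^ (e + 1) := Ideal.dvd_iff_le.mp h2
    exact hram 𝔓 h1.1 h1.2.1 (h3 (Ideal.mem_span_singleton_self _))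
  have hnorm : ((F.map (fun 𝔓 => Real.log (Ideal.absNorm 𝔓))).sum) = finrank ℚ K * Real.log p := by
    have h1 : ((Ideal.absNorm I : ℕ) : ℝ) = (p : ℝ) ^ finrank ℚ K := by
      rw [hI, Ideal.absNorm_span_natCast, RingOfIntegers.rank]
      push_cast
      rfl
    have h2 : Real.log (Ideal.absNorm I) = finrank ℚ K * Real.log p := by
      rw [h1, Real.log_pow]
    rw [← h2, ← hprod]
    have h3 : ∀ s : Multiset (Ideal (𝓞 K)), (∀ 𝔓 ∈ s, 𝔓 ≠ ⊥) →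
        (s.map (fun 𝔓 => Real.log (Ideal.absNorm 𝔓))).sum = Real.log (Ideal.absNorm s.prod) := by
      intro s
      induction s using Multiset.induction_on with
      | empty => intro _; simp
      | cons a s ih =>
        intro h
        rw [Multiset.map_cons, Multiset.sum_cons, Multiset.prod_cons, map_mul,
          ih fun 𝔓 h𝔓 => h 𝔓 (Multiset.mem_cons_of_mem h𝔓)]
        push_cast
        rw [Real.log_mul]
        · have := h a (Multiset.mem_cons_self a s)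
          exact_mod_cast (Ideal.absNorm_eq_zero_iff.not.mpr this)
        · have : s.prod ≠ 0 := by
            rw [Ne, Multiset.prod_eq_zero_iff]
            intro h0
            exact h 0 (Multiset.mem_cons_of_mem h0) rfl
          exact_mod_cast (Ideal.absNorm_eq_zero_iff.not.mpr this)
    exact h3 F fun 𝔓 h => (hFprime 𝔓 h).2.2
  have hlogpos : ∀ 𝔓 : Ideal (𝓞 K), 0 ≤ Real.log (Ideal.absNorm 𝔓) := fun 𝔓 =>
    Real.log_natCast_nonneg _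
  set T : Finset (Ideal (𝓞 K)) := F.toFinset with hT
  have hTmem : ∀ 𝔓, 𝔓 ∈ T ↔ 𝔓 ∈ F := fun 𝔓 => Multiset.mem_toFinset
  have hsum : (finrank ℚ K : ℝ) * Real.log p ≤ e * ∑ 𝔓 ∈ T, Real.log (Ideal.absNorm 𝔓) := by
    rw [← hnorm, Finset.sum_multiset_map_count, Finset.mul_sum]
    apply Finset.sum_le_sum
    intro 𝔓 _
    rw [nsmul_eq_mul]
    apply mul_le_mul_of_nonneg_right _ (hlogpos 𝔓)
    exact_mod_cast hcount 𝔓
  -- transitivity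
  have h₀p := h₀.1
  have hex : ∀ 𝔓 : Ideal (𝓞 K), ∃ σ : K ≃ₐ[ℚ] K, 𝔓 ∈ T → σ ∈ conjSet σ₀ ∧ IsDec p q s σ 𝔓 := by
    intro 𝔓
    by_cases h : 𝔓 ∈ T
    · have h1 := hFprime 𝔓 ((hTmem 𝔓).mp h)
      have h1p := h1.1
      obtain ⟨g, hg⟩ := Algebra.IsInvariant.exists_smul_of_under_eq ℤ (𝓞 K) (K ≃ₐ[ℚ] K) 𝔓₀ 𝔓
        (by rw [under_eq hp h₀.1 h₀.2.1, under_eq hp h1.1 h1.2.1])
      refine ⟨g * σ₀ * g⁻¹, fun _ => ⟨⟨g, rfl⟩, ?_⟩⟩
      rw [hg]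
      exact h₀.smul g
    · exact ⟨1, fun h' => absurd h' h⟩
  choose c hc using hex
  set S : Finset (K ≃ₐ[ℚ] K) := (Set.toFinite (conjSet σ₀)).toFinset with hS
  have hmaps : ∀ 𝔓 ∈ T, c 𝔓 ∈ S := by
    intro 𝔓 h
    rw [hS, Set.Finite.mem_toFinset]
    exact (hc 𝔓 h).1
  have hSne : S.Nonempty := ⟨σ₀, by
    rw [hS, Set.Finite.mem_toFinset]
    exact ⟨1, by group⟩⟩
  have hSpos : (0:ℝ) < S.card := by exact_mod_cast hSne.card_pos
  obtain ⟨σ, hσS, hσ⟩ := Finset.exists_le_of_sum_le hSne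
    (f := fun _ => (∑ 𝔓 ∈ T, Real.log (Ideal.absNorm 𝔓)) / S.card)
    (g := fun σ => ∑ 𝔓 ∈ T.filter (fun 𝔓 => c 𝔓 = σ), Real.log (Ideal.absNorm 𝔓)) (by
      rw [Finset.sum_fiberwise_of_maps_to hmaps, Finset.sum_const, nsmul_eq_mul]
      apply le_of_eq
      field_simp)
  have hScard : S.card = (conjSet σ₀).ncard := (Set.ncard_eq_toFinset_card _ _).symm
  have hfinal : (finrank ℚ K : ℝ) * Real.log p ≤
      e * S.card * ∑ 𝔓 ∈ T.filter (fun 𝔓 => c 𝔓 = σ), Real.log (Ideal.absNorm 𝔓) := by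
    have h1 : (∑ 𝔓 ∈ T, Real.log (Ideal.absNorm 𝔓)) / S.card ≤
      ∑ 𝔓 ∈ T.filter (fun 𝔓 => c 𝔓 = σ), Real.log (Ideal.absNorm 𝔓) := hσ
    rw [div_le_iff₀ hSpos] at h1
    refine hsum.trans ?_
    have h2 := mul_le_mul_of_nonneg_left h1 (Nat.cast_nonneg (α := ℝ) e)
    linarith
  refine ⟨σ, T.filter (fun 𝔓 => c 𝔓 = σ), ?_, ?_, ?_, ?_, ?_⟩
  · rw [hS, Set.Finite.mem_toFinset] at hσS
    exact hσS
  · by_contra h
    rw [Finset.not_nonempty_iff_eq_empty] at h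
    rw [h, Finset.sum_empty, mul_zero] at hfinal
    have h1 : 0 < (finrank ℚ K : ℝ) * Real.log p := by
      apply mul_pos
      · exact_mod_cast (finrank_pos : 0 < finrank ℚ K)
      · exact Real.log_pos (by exact_mod_cast hp.one_lt)
    linarith
  · intro 𝔓 h
    rw [Finset.mem_filter] at h
    have := (hc 𝔓 h.1).2
    rwa [h.2] at this
  · intro 𝔓 h
    rw [Finset.mem_filter] at h
    exact (hFprime 𝔓 ((hTmem 𝔓).mp h.1)).2.2
  · rw [← hScard]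
    exact hfinal

end Pool.Agent.Run7.h22
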