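import Mathlib
import Pool.Agent.Run7.h22.Sal
import Pool.Agent.Run7.h22.Ine2

/-!
# Units whose products of differences lie in a large ideal: disjoint supports
-/

set_option autoImplicit false

open Finset Module NumberField

namespace Pool.Agent.Run7.h22

open Pool.Agent.H388SL

variable {K : Type} [Field K] [NumberField K]

/-- **The main inequality, for units with disjoint supports.** -/
theorem master_disj {r T : ℕ} (b c : Fin r → (𝓞 K)ˣ) (I : Ideal (𝓞 K))
    (hI : ∀ j, ((b j : 𝓞 K) - c j) * ((b j : 𝓞 K) * c j - 1) ∈ I) {κ : ℝ} (hκ : 1 ≤ κ)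
    (hN : (finrank ℚ K : ℝ) * Real.log 2 ≤ κ * Real.log (Ideal.absNorm I))
    (ψ : Fin r → (K →ₐ[ℚ] ℂ)) {ℓ : ℝ} (hℓ : 0 < ℓ)
    (h1 : ∀ j i, i ≠ j → Real.log ‖ψ j (algebraMap (𝓞 K) K (b i))‖ = 0)
    (h1' : ∀ j, Real.log ‖ψ j (algebraMap (𝓞 K) K (b j))‖ = ℓ)
    (h2 : ∀ j i, Real.log ‖ψ j (algebraMap (𝓞 K) K (c i))‖ = 0)
    {Λ : ℝ} (hb : ∀ j, lam (algebraMap (𝓞 K) K (b j)) ≤ Λ)
    (hc : ∀ j, lam (algebraMap (𝓞 K) K (c j)) ≤ Λ)
    (hc' : ∀ j, lam (algebraMap (𝓞 K) K ((c j)⁻¹ : (𝓞 K)ˣ)) ≤ Λ)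
    (hT : 256 * (2 ^ r * κ) ^ 2 ≤ (T : ℝ) ^ r) :
    (finrank ℚ K : ℝ) ≤ 16 * (2 ^ r * κ) * (r * T * 2 * Λ) := by
  classical
  set N : ℝ := (finrank ℚ K : ℝ) with hNdef
  have hN0 : 0 < N := by rw [hNdef]; exact_mod_cast (finrank_pos : 0 < finrank ℚ K)
  -- the units
  set e : Fin r → Bool → (𝓞 K)ˣ := fun j s => if s then b j * (c j)⁻¹ else b j * c j with he
  set w : (Fin r → Bool) → (Fin r → Fin T) → (𝓞 K)ˣ := fun ε a => ∏ j, e j (ε j) ^ (a j : ℕ) with hw
  set A : Fin r → Bool → 𝓞 K := fun j s => (e j s : 𝓞 K) - 1 with hA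
  have hAI : ∀ j, A j true * A j false ∈ I := by
    intro j
    have h3 : A j true * A j false =
        ((c j)⁻¹ : (𝓞 K)ˣ) * (((b j : 𝓞 K) - c j) * ((b j : 𝓞 K) * c j - 1)) := by
      simp only [hA, he, if_true, Bool.false_eq_true, if_false]
      push_cast
      have h4 : (((c j)⁻¹ : (𝓞 K)ˣ) : 𝓞 K) * (c j : 𝓞 K) = 1 := by
        rw [← Units.val_mul, inv_mul_cancel, Units.val_one]
      linear_combination ((b j : 𝓞 K) * (c j : 𝓞 K) - 1) * h4
    rw [h3]
    exact Ideal.mul_mem_left _ _ (hI j)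
  have hwJ : ∀ ε a, (w ε a : 𝓞 K) - 1 ∈ Ideal.span (Set.range fun j => A j (ε j)) := by
    intro ε a
    rw [← Ideal.Quotient.eq_zero_iff_mem, map_sub, map_one, sub_eq_zero]
    simp only [hw, Units.coe_prod, Units.val_pow_eq_pow_val, map_prod, map_pow]
    apply Finset.prod_eq_one
    intro j _
    have h3 : (e j (ε j) : 𝓞 K) - 1 ∈ Ideal.span (Set.range fun j => A j (ε j)) :=
      Ideal.subset_span ⟨j, rfl⟩
    rw [← Ideal.Quotient.eq_zero_iff_mem, map_sub, map_one, sub_eq_zero] at h3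
    rw [h3, one_pow]
  -- logarithms
  have hlog : ∀ (φ : K →ₐ[ℚ] ℂ) (ε : Fin r → Bool) (a : Fin r → Fin T),
      Real.log ‖φ (algebraMap (𝓞 K) K (w ε a))‖ =
        ∑ j, (a j : ℕ) * (Real.log ‖φ (algebraMap (𝓞 K) K (b j))‖ +
          (if ε j then -1 else 1) * Real.log ‖φ (algebraMap (𝓞 K) K (c j))‖) := by
    intro φ ε a
    have hne : ∀ x : (𝓞 K)ˣ, ‖φ (algebraMap (𝓞 K) K (x : 𝓞 K))‖ ≠ 0 := by
      intro x
      rw [norm_ne_zero_iff, map_ne_zero φ]
      intro h0
      exact x.ne_zero (RingOfIntegers.coe_injective (by rw [h0, map_zero]))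
    simp only [hw, Units.coe_prod, Units.val_pow_eq_pow_val, map_prod, map_pow, norm_prod, norm_pow]
    rw [Real.log_prod fun j _ => pow_ne_zero _ (hne _)]
    refine Finset.sum_congr rfl fun j _ => ?_
    rw [Real.log_pow]
    congr 1
    rcases hε : ε j with _ | _
    · simp only [he, Bool.false_eq_true, if_false, Units.val_mul, map_mul, norm_mul, one_mul]
      rw [Real.log_mul (hne _) (hne _)]
    · have hinv : ‖φ (algebraMap (𝓞 K) K (((c j)⁻¹ : (𝓞 K)ˣ) : 𝓞 K))‖ =
          ‖φ (algebraMap (𝓞 K) K (c j : 𝓞 K))‖⁻¹ := by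
        apply eq_inv_of_mul_eq_one_left
        rw [← norm_mul, ← map_mul, ← map_mul, ← Units.val_mul, inv_mul_cancel, Units.val_one,
          map_one, map_one, norm_one]
      simp only [he, if_true, Units.val_mul, map_mul, norm_mul]
      rw [Real.log_mul (hne _) (hne _), hinv, Real.log_inv]
      ring
  -- injectivity
  have hinj : ∀ ε, Function.Injective (fun a : Fin r → Fin T => algebraMap (𝓞 K) K (w ε a : 𝓞 K)) := by
    intro ε a a' haa
    funext j
    apply Fin.ext
    have h3 : ∀ a : Fin r → Fin T, Real.log ‖ψ j (algebraMap (𝓞 K) K (w ε a))‖ = (a j : ℕ) * ℓ := by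
      intro a
      rw [hlog]
      have h4 : ∀ i, ((a i : ℕ) : ℝ) * (Real.log ‖ψ j (algebraMap (𝓞 K) K (b i))‖ +
          (if ε i then -1 else 1) * Real.log ‖ψ j (algebraMap (𝓞 K) K (c i))‖) =
          if i = j then ((a i : ℕ) : ℝ) * ℓ else 0 := by
        intro i
        rw [h2 j i, mul_zero, add_zero]
        split_ifs with h
        · rw [h, h1' j]
        · rw [h1 j i h, mul_zero]
      simp_rw [h4]
      rw [Finset.sum_ite_eq', if_pos (Finset.mem_univ _)]
    have h5 : algebraMap (𝓞 K) K (w ε a : 𝓞 K) = algebraMap (𝓞 K) K (w ε a' : 𝓞 K) := haa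
    have h6 := h3 a
    rw [h5, h3 a'] at h6
    have h7 := mul_right_cancel₀ hℓ.ne' h6
    exact_mod_cast h7.symm
  -- heights
  have hlame : ∀ j s, lam (algebraMap (𝓞 K) K (e j s : 𝓞 K)) ≤ 2 * Λ := by
    intro j s
    rcases s with _ | _
    · simp only [he, Bool.false_eq_true, if_false, Units.val_mul, map_mul]
      refine (lam_mul_le _ _).trans ?_
      have h3 := hb j
      have h4 := hc j
      linarith
    · simp only [he, if_true, Units.val_mul, map_mul]
      refine (lam_mul_le _ _).trans ?_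
      have h3 := hb j
      have h4 := hc' j
      linarith
  have hΛ0 : ∀ j : Fin r, 0 ≤ Λ := fun j => (lam_nonneg _).trans (hb j)
  have hlam : ∀ ε a, lam (algebraMap (𝓞 K) K (w ε a : 𝓞 K)) ≤ r * T * 2 * Λ := by
    intro ε a
    simp only [hw, Units.coe_prod, Units.val_pow_eq_pow_val, map_prod, map_pow]
    refine (lam_prod_le' _ _).trans ?_
    have h3 : ∀ j ∈ (Finset.univ : Finset (Fin r)),
        lam (algebraMap (𝓞 K) K (e j (ε j) : 𝓞 K) ^ (a j : ℕ)) ≤ T * (2 * Λ) := by
      intro j _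
      rw [lam_pow]
      apply mul_le_mul _ (hlame j (ε j)) (lam_nonneg _) (Nat.cast_nonneg _)
      exact_mod_cast (a j).2.le
    refine (Finset.sum_le_sum h3).trans (le_of_eq ?_)
    rw [Finset.sum_const, Finset.card_univ, Fintype.card_fin, nsmul_eq_mul]
    ring
  -- the energy
  have hcardS : (Fintype.card (Fin r → Bool) : ℝ) = 2 ^ r := by
    rw [Fintype.card_fun, Fintype.card_bool, Fintype.card_fin]
    push_cast
    rfl
  have hcardι : (Fintype.card (Fin r → Fin T) : ℝ) = (T : ℝ) ^ r := by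
    rw [Fintype.card_fun, Fintype.card_fin, Fintype.card_fin]
    push_cast
    rfl
  have h2r : (1:ℝ) ≤ 2 ^ r := one_le_pow₀ (by norm_num)
  have hk1 : 1 ≤ 2 ^ r * κ := by nlinarith
  have hI0 : I ≠ ⊥ := by
    rintro rfl
    rw [Ideal.absNorm_bot] at hN
    simp only [CharP.cast_eq_zero, Real.log_zero, mul_zero] at hN
    have : 0 < N * Real.log 2 := mul_pos hN0 (Real.log_pos (by norm_num))
    linarith
  have hfin := energy_sum (K := K) (S := Fin r → Bool) (ι := Fin r → Fin T)
    (fun ε a => algebraMap (𝓞 K) K (w ε a : 𝓞 K)) hinj hk1 (by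
      intro a a' haa
      have hx0 : ∀ ε, (w ε a : 𝓞 K) - w ε a' ≠ 0 := by
        intro ε h0
        apply haa
        apply hinj ε
        show algebraMap (𝓞 K) K (w ε a : 𝓞 K) = algebraMap (𝓞 K) K (w ε a' : 𝓞 K)
        rw [sub_eq_zero.mp h0]
      have hxJ : ∀ ε, (w ε a : 𝓞 K) - w ε a' ∈ Ideal.span (Set.range fun j => A j (ε j)) := by
        intro ε
        have h3 := Ideal.sub_mem _ (hwJ ε a) (hwJ ε a')
        have h4 : (w ε a : 𝓞 K) - 1 - ((w ε a' : 𝓞 K) - 1) = (w ε a : 𝓞 K) - w ε a' := by ring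
        rwa [h4] at h3
      have hprod := prod_mem_of_signs I A hAI (fun ε => (w ε a : 𝓞 K) - w ε a') hxJ
      have hprod0 : ∏ ε, ((w ε a : 𝓞 K) - w ε a') ≠ 0 := Finset.prod_ne_zero_iff.mpr fun ε _ => hx0 ε
      have hle : Ideal.absNorm I ≤ (Algebra.norm ℤ (∏ ε, ((w ε a : 𝓞 K) - w ε a'))).natAbs := by
        apply Nat.le_of_dvd
        · rw [Nat.pos_iff_ne_zero, Int.natAbs_ne_zero]
          exact Algebra.norm_ne_zero_iff.mpr hprod0
        · rw [← Ideal.absNorm_span_singleton]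
          apply map_dvd
          rw [Ideal.dvd_span_singleton]
          exact hprod
      have hpos : (0:ℝ) < Ideal.absNorm I := by
        exact_mod_cast Nat.pos_of_ne_zero (Ideal.absNorm_eq_zero_iff.not.mpr hI0)
      have hloglog : Real.log (Ideal.absNorm I) ≤
          ∑ ε : Fin r → Bool, ∑ φ : K →ₐ[ℚ] ℂ, Real.log ‖φ (algebraMap (𝓞 K) K (w ε a : 𝓞 K)) -
            φ (algebraMap (𝓞 K) K (w ε a' : 𝓞 K))‖ := by
        have h3 : Real.log (Ideal.absNorm I) ≤
            Real.log ((Algebra.norm ℤ (∏ ε, ((w ε a : 𝓞 K) - w ε a'))).natAbs : ℝ) :=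
          Real.log_le_log hpos (by exact_mod_cast hle)
        refine h3.trans (le_of_eq ?_)
        rw [← sum_log_norm hprod0, Finset.sum_comm]
        refine Finset.sum_congr rfl fun φ _ => ?_
        rw [map_prod, map_prod, norm_prod, Real.log_prod]
        · refine Finset.sum_congr rfl fun ε _ => ?_
          rw [map_sub, map_sub]
        · intro ε _
          rw [norm_ne_zero_iff, map_ne_zero φ]
          intro h0
          exact hx0 ε (RingOfIntegers.coe_injective (by rw [h0, map_zero]))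
      rw [hcardS]
      calc (2:ℝ) ^ r * (N * Real.log 2) ≤ 2 ^ r * (κ * Real.log (Ideal.absNorm I)) := by
            apply mul_le_mul_of_nonneg_left hN (by positivity)
        _ = 2 ^ r * κ * Real.log (Ideal.absNorm I) := by ring
        _ ≤ _ := mul_le_mul_of_nonneg_left hloglog (by positivity))
    (τ := r * T * 2 * Λ / N) (by
      intro ε a
      refine (hlam ε a).trans (le_of_eq ?_)
      rw [← hNdef]
      field_simp)
    (by rw [hcardι]; exact hT)
  rw [le_div_iff₀ hN0] at hfin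
  have h3 : 0 < 16 * (2 ^ r * κ) := by positivity
  calc N = 16 * (2 ^ r * κ) * (1 / (16 * (2 ^ r * κ)) * N) := by field_simp
    _ ≤ _ := mul_le_mul_of_nonneg_left hfin h3.le

/-- a permutation without fixed points on a finite set: a third of the set is disjoint from its image -/
lemma exists_disj {X : Type*} [DecidableEq X] (S : Finset X) (f : X → X) (hf : Function.Injective f)
    (hfix : ∀ x ∈ S, f x ≠ x) :
    ∃ J ⊆ S, (∀ x ∈ J, ∀ y ∈ J, f x ≠ y) ∧ S.card ≤ 3 * J.card := by
  classical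
  set P : Finset (Finset X) := S.powerset.filter fun J => ∀ x ∈ J, ∀ y ∈ J, f x ≠ y with hP
  have hne : P.Nonempty := ⟨∅, by
    rw [hP, Finset.mem_filter]
    exact ⟨Finset.empty_mem_powerset S, by simp⟩⟩
  obtain ⟨J, hJP, hmax⟩ := Finset.exists_max_image P (fun J => J.card) hne
  rw [hP, Finset.mem_filter, Finset.mem_powerset] at hJP
  obtain ⟨hJS, hJ⟩ := hJP
  refine ⟨J, hJS, hJ, ?_⟩
  have hcov : S ⊆ J ∪ J.image f ∪ S.filter (fun x => f x ∈ J) := by
    intro x hx
    by_contra hno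
    rw [Finset.mem_union, Finset.mem_union, not_or, not_or] at hno
    obtain ⟨⟨h1, h2⟩, h3⟩ := hno
    have h4 : insert x J ∈ P := by
      rw [hP, Finset.mem_filter, Finset.mem_powerset]
      refine ⟨Finset.insert_subset hx hJS, ?_⟩
      intro y hy z hz
      rw [Finset.mem_insert] at hy hz
      rcases hy with rfl | hy
      · rcases hz with rfl | hz
        · exact hfix _ hx
        · intro h
          apply h3
          rw [Finset.mem_filter]
          exact ⟨hx, by rw [h]; exact hz⟩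
      · rcases hz with rfl | hz
        · intro h
          apply h2
          exact Finset.mem_image.mpr ⟨y, hy, h⟩
        · exact hJ y hy z hz
    have h5 := hmax _ h4
    rw [Finset.card_insert_of_notMem h1] at h5
    omega
  have h1 : (S.filter (fun x => f x ∈ J)).card ≤ J.card := by
    apply Finset.card_le_card_of_injOn f
    · intro x hx
      exact (Finset.mem_filter.mp hx).2
    · exact hf.injOn
  have h2 : (J.image f).card ≤ J.card := Finset.card_image_le
  have h3 := Finset.card_le_card hcov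
  have h4 := Finset.card_union_le (J ∪ J.image f) (S.filter (fun x => f x ∈ J))
  have h5 := Finset.card_union_le J (J.image f)
  omega

end Pool.Agent.Run7.h22
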