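import Mathlib
import Pool.Agent.Run7.h22.Ins1
import Pool.Agent.Run7.h22.Sal3

/-!
# Salem numbers and inertia automorphisms of the trace field: the number fields
-/

set_option autoImplicit false

open Finset Module NumberField Polynomial

namespace Pool.Agent.Run7.h22

open Pool.Agent.H388SL

variable {L L' : Type} [Field L] [NumberField L] [Field L'] [NumberField L'] [Algebra L L']

/-- **The inequality for Salem numbers and inertia automorphisms.** -/
theorem salem_core_in [IsGalois ℚ L] [Normal ℚ L'] {f : ℤ[X]} (hf : Irreducible f) (hm : f.Monic)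
    {α : ℝ} (hα : 1 < α) (hroot : aeval (α : ℂ) f = 0) (hroot' : aeval ((α : ℂ)⁻¹) f = 0)
    (hone : ∀ z : ℂ, aeval z f = 0 → z ≠ (α : ℂ) → z ≠ (α : ℂ)⁻¹ → ‖z‖ = 1)
    {p s : ℕ} (hp : p.Prime) {σ : L ≃ₐ[ℚ] L} {Φ : Finset (Ideal (𝓞 L))}
    (hF : ∀ 𝔓 ∈ Φ, IsDec p 1 s σ 𝔓) (hbot : ∀ 𝔓 ∈ Φ, 𝔓 ≠ ⊥) {κ : ℝ} (hκ1 : 1 ≤ κ)
    (hN : (finrank ℚ L : ℝ) * Real.log p ≤ κ * (s * ∑ 𝔓 ∈ Φ, Real.log (Ideal.absNorm 𝔓)))
    {r T : ℕ} (B : Fin r → L') (t : Fin r → L) (hB : ∀ j, aeval (B j) f = 0)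
    (ht : ∀ j, algebraMap L L' (t j) = B j + (B j)⁻¹) (hinj : Function.Injective t)
    (hdis : ∀ i j, σ (t i) ≠ t j)
    (hT : 256 * (2 ^ r * κ) ^ 2 ≤ (T : ℝ) ^ r) :
    (f.natDegree : ℝ) ≤ 16 * (2 ^ r * κ) * (r * T * 2 * Real.log (MM f)) := by
  classical
  -- the ideal
  set J : Ideal (𝓞 L) := ∏ 𝔓 ∈ Φ, 𝔓 ^ s with hJ
  set I : Ideal (𝓞 L') := J.map (algebraMap (𝓞 L) (𝓞 L')) with hI
  have hmemJ : ∀ x : 𝓞 L, (∀ 𝔓 ∈ Φ, x ∈ 𝔓 ^ s) → x ∈ J := by
    intro x hx
    have hdvd : J ∣ Ideal.span {x} := by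
      apply Finset.prod_dvd_of_coprime
      · intro 𝔓 h𝔓 𝔔 h𝔔 hne
        have h1 : 𝔓.IsMaximal := (hF 𝔓 h𝔓).1.isMaximal (hbot 𝔓 h𝔓)
        have h2 : 𝔔.IsMaximal := (hF 𝔔 h𝔔).1.isMaximal (hbot 𝔔 h𝔔)
        exact (Ideal.isCoprime_of_isMaximal hne).pow
      · intro 𝔓 h𝔓
        rw [Ideal.dvd_span_singleton]
        exact hx 𝔓 h𝔓
    rwa [Ideal.dvd_span_singleton] at hdvd
  have hmemI : ∀ x : 𝓞 L, (∀ 𝔓 ∈ Φ, x ∈ 𝔓 ^ s) → algebraMap (𝓞 L) (𝓞 L') x ∈ I := fun x hx =>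
    Ideal.mem_map_of_mem _ (hmemJ x hx)
  have hlogI : (finrank ℚ L' : ℝ) * Real.log 2 ≤ κ * Real.log (Ideal.absNorm I) := by
    have h1 : Real.log (Ideal.absNorm J) = s * ∑ 𝔓 ∈ Φ, Real.log (Ideal.absNorm 𝔓) := by
      rw [hJ, map_prod, Finset.mul_sum]
      push_cast
      rw [Real.log_prod]
      · refine Finset.sum_congr rfl fun 𝔓 _ => ?_
        rw [map_pow]
        push_cast
        rw [Real.log_pow]
      · intro 𝔓 h𝔓
        rw [map_pow]
        push_cast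
        apply pow_ne_zero
        exact_mod_cast (Ideal.absNorm_eq_zero_iff.not.mpr (hbot 𝔓 h𝔓))
    rw [hI, log_absNorm_map, h1]
    have h2 : (finrank ℚ L' : ℝ) = finrank ℚ L * finrank L L' := by
      rw [← finrank_mul_finrank ℚ L L']
      push_cast
      rfl
    have hlp : Real.log 2 ≤ Real.log p := by
      apply Real.log_le_log (by norm_num)
      exact_mod_cast hp.two_le
    rw [h2]
    calc (finrank ℚ L : ℝ) * finrank L L' * Real.log 2
        ≤ (finrank ℚ L : ℝ) * finrank L L' * Real.log p := by gcongr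
      _ = finrank L L' * (finrank ℚ L * Real.log p) := by ring
      _ ≤ finrank L L' * (κ * (s * ∑ 𝔓 ∈ Φ, Real.log (Ideal.absNorm 𝔓))) := by gcongr
      _ = _ := by ring
  -- the extension of `σ`
  set σ' : L' ≃ₐ[ℚ] L' := σ.liftNormal L' with hσ'
  have hσ'' : ∀ x : L, σ' (algebraMap L L' x) = algebraMap L L' (σ x) := fun x =>
    AlgEquiv.liftNormal_commutes σ L' x
  -- zeros of `f`
  have hα0 : (α : ℂ) ≠ 0 := by
    exact_mod_cast (by linarith : α ≠ 0)
  have hemb : ∀ x : L', aeval x f = 0 → ∃ φ : L' →ₐ[ℚ] ℂ, φ x = α := fun x hx =>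
    exists_embedding hf hm hx hroot
  have hinv : ∀ x : L', aeval x f = 0 → x ≠ 0 ∧ aeval x⁻¹ f = 0 := by
    intro x hx
    obtain ⟨φ, hφ⟩ := hemb x hx
    have hx0 : x ≠ 0 := by
      rintro rfl
      rw [map_zero] at hφ
      exact hα0 hφ.symm
    refine ⟨hx0, ?_⟩
    refine (map_eq_zero φ).mp ?_
    have h1 : φ (aeval x⁻¹ f) = aeval (φ x⁻¹) f := by
      have := aeval_algHom_apply (φ.restrictScalars ℤ) x⁻¹ f
      exact this.symm
    rw [h1, map_inv₀, hφ, hroot']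
  have hmul : ∀ x : L', aeval x f = 0 → aeval (σ' x) f = 0 := by
    intro x hx
    have h1 := aeval_algHom_apply ((σ' : L' →ₐ[ℚ] L').restrictScalars ℤ) x f
    have h2 : aeval (σ' x) f = σ' (aeval x f) := h1
    rw [h2, hx, map_zero]
  set C : Fin r → L' := fun j => σ' (B j) with hC
  have hCroot : ∀ j, aeval (C j) f = 0 := fun j => hmul _ (hB j)
  have hCt : ∀ j, algebraMap L L' (σ (t j)) = C j + (C j)⁻¹ := by
    intro j
    rw [← hσ'', ht j, map_add, map_inv₀]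
  -- units
  have hunit : ∀ x : L', aeval x f = 0 → ∃ v : (𝓞 L')ˣ, algebraMap (𝓞 L') L' (v : 𝓞 L') = x ∧
      algebraMap (𝓞 L') L' ((v⁻¹ : (𝓞 L')ˣ) : 𝓞 L') = x⁻¹ := by
    intro x hx
    have h1 := (minpoly_eq_of_root hf hm hx).1
    have h2 := (minpoly_eq_of_root hf hm (hinv x hx).2).1
    set b : 𝓞 L' := ⟨x, h1⟩ with hb
    set b' : 𝓞 L' := ⟨x⁻¹, h2⟩ with hb'
    have hbα : algebraMap (𝓞 L') L' b = x := rfl
    have hbα' : algebraMap (𝓞 L') L' b' = x⁻¹ := rfl
    have hbb : b * b' = 1 := by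
      apply RingOfIntegers.coe_injective
      rw [map_mul, hbα, hbα', mul_inv_cancel₀ (hinv x hx).1, map_one]
    exact ⟨⟨b, b', hbb, by rw [mul_comm]; exact hbb⟩, rfl, rfl⟩
  choose b hb hb' using fun j => hunit (B j) (hB j)
  choose c hc hc' using fun j => hunit (C j) (hCroot j)
  have htint : ∀ j, IsIntegral ℤ (t j) := by
    intro j
    have h1 : IsIntegral ℤ (algebraMap L L' (t j)) := by
      rw [ht j]
      exact ((minpoly_eq_of_root hf hm (hB j)).1).add ((minpoly_eq_of_root hf hm (hinv _ (hB j)).2).1)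
    exact (isIntegral_algebraMap_iff (algebraMap L L').injective).mp h1
  have hcong : ∀ j, ((b j : 𝓞 L') - c j) * ((b j : 𝓞 L') * c j - 1) ∈ I := by
    intro j
    set t' : 𝓞 L := ⟨t j, htint j⟩ with ht'
    have htt : algebraMap (𝓞 L) L t' = t j := rfl
    have hdiag : ∀ y : 𝓞 L, algebraMap (𝓞 L') L' (algebraMap (𝓞 L) (𝓞 L') y) =
        algebraMap L L' (algebraMap (𝓞 L) L y) := fun y => rfl
    have h1 : ((b j : 𝓞 L') - c j) * ((b j : 𝓞 L') * c j - 1) =
        (-(b j : 𝓞 L') * c j) * algebraMap (𝓞 L) (𝓞 L') (σ • t' - t' ^ 1) := by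
      apply RingOfIntegers.coe_injective
      have hB0 := (hinv _ (hB j)).1
      have hC0 := (hinv _ (hCroot j)).1
      have h2 : algebraMap (𝓞 L') L' (algebraMap (𝓞 L) (𝓞 L') (σ • t' - t' ^ 1)) =
          (C j + (C j)⁻¹) - (B j + (B j)⁻¹) := by
        rw [hdiag, map_sub, pow_one, smul_coe, htt, map_sub, hCt, ht]
      rw [map_mul, map_mul, map_mul, map_sub, map_sub, map_mul, map_neg, map_one, h2, hb, hc]
      field_simp
      ring
    rw [h1]
    exact Ideal.mul_mem_left _ _ (hmemI _ fun 𝔓 h𝔓 => (hF 𝔓 h𝔓).2.2 t')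
  -- embeddings
  choose ψ hψ using fun j => hemb (B j) (hB j)
  have hrootψ : ∀ (φ : L' →ₐ[ℚ] ℂ) (x : L'), aeval x f = 0 → aeval (φ x) f = 0 := by
    intro φ x hx
    have h1 : aeval (φ x) f = φ (aeval x f) := aeval_algHom_apply (φ.restrictScalars ℤ) x f
    rw [h1, hx, map_zero]
  have hsum : ∀ (j : Fin r) (x : L'), aeval x f = 0 → ‖ψ j x‖ ≠ 1 →
      ψ j (x + x⁻¹) = (α : ℂ) + (α : ℂ)⁻¹ := by
    intro j x hx hne
    have h1 := hrootψ (ψ j) x hx
    rw [map_add, map_inv₀]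
    by_cases h2 : ψ j x = α
    · rw [h2]
    by_cases h3 : ψ j x = (α : ℂ)⁻¹
    · rw [h3, inv_inv, add_comm]
    exact absurd (hone _ h1 h2 h3) hne
  have hℓ : 0 < Real.log α := Real.log_pos hα
  have hnormα : ‖(α : ℂ)‖ = α := by
    rw [Complex.norm_real, Real.norm_eq_abs, abs_of_pos (by linarith)]
  have hlamx : ∀ x : L', aeval x f = 0 →
      lam x ≤ finrank ℚ L' * Real.log (MM f) / f.natDegree := by
    intro x hx
    have h1 := minpoly_eq_of_root hf hm hx
    have h2 := lam_eq_MM h1.1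
    have hdeg : (0:ℝ) < f.natDegree := by
      rw [← h1.2.1]
      exact_mod_cast minpoly.natDegree_pos h1.1
    rw [h1.2.1] at h2
    rw [le_div_iff₀ hdeg, h2]
  have key := master_disj (K := L') b c I hcong hκ1 hlogI ψ hℓ (by
      intro j i hij
      rw [hb]
      by_contra h0
      have h1 : ‖ψ j (B i)‖ ≠ 1 := by
        intro h2
        rw [h2, Real.log_one] at h0
        exact h0 rfl
      have h2 := hsum j (B i) (hB i) h1
      have h3 : ψ j (B j + (B j)⁻¹) = (α : ℂ) + (α : ℂ)⁻¹ := by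
        rw [map_add, map_inv₀, hψ]
      have h4 := (ψ j).injective (h2.trans h3.symm)
      rw [← ht, ← ht] at h4
      exact hij (hinj ((algebraMap L L').injective h4)))
    (by
      intro j
      rw [hb, hψ, hnormα])
    (by
      intro j i
      rw [hc]
      by_contra h0
      have h1 : ‖ψ j (C i)‖ ≠ 1 := by
        intro h2
        rw [h2, Real.log_one] at h0
        exact h0 rfl
      have h2 := hsum j (C i) (hCroot i) h1
      have h3 : ψ j (B j + (B j)⁻¹) = (α : ℂ) + (α : ℂ)⁻¹ := by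
        rw [map_add, map_inv₀, hψ]
      have h4 := (ψ j).injective (h2.trans h3.symm)
      rw [← hCt, ← ht] at h4
      exact hdis i j ((algebraMap L L').injective h4))
    (Λ := finrank ℚ L' * Real.log (MM f) / f.natDegree)
    (by
      intro j
      rw [hb]
      exact hlamx _ (hB j))
    (by
      intro j
      rw [hc]
      exact hlamx _ (hCroot j))
    (by
      intro j
      rw [hc']
      exact hlamx _ (hinv _ (hCroot j)).2)
    hT
  have hdeg : (0:ℝ) < f.natDegree := by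
    rcases Nat.eq_zero_or_pos f.natDegree with h0 | h0
    · exfalso
      have h1 : f = 1 := eq_one_of_monic_natDegree_zero hm h0
      rw [h1] at hf
      exact hf.not_isUnit isUnit_one
    · exact_mod_cast h0
  have hL0 : (0:ℝ) < finrank ℚ L' := by exact_mod_cast (finrank_pos : 0 < finrank ℚ L')
  have h3 : (f.natDegree : ℝ) * finrank ℚ L' ≤ (16 * (2 ^ r * κ) *
      (r * T * 2 * Real.log (MM f))) * finrank ℚ L' := by
    have h4 := mul_le_mul_of_nonneg_left key hdeg.le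
    refine h4.trans (le_of_eq ?_)
    field_simp
  exact le_of_mul_le_mul_right h3 hL0

end Pool.Agent.Run7.h22
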