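import Mathlib
import Pool.Agent.Run7.h22.Ins2

/-!
# Salem numbers and inertia automorphisms of the trace field: the final inequality
-/

set_option autoImplicit false

open Finset Module NumberField Polynomial

namespace Pool.Agent.Run7.h22

open Pool.Agent.H388SL

lemma le_splits_iff {K : Type} [Field K] [NumberField K] {f : ℤ[X]} (hf : Irreducible f)
    (hm : f.Monic) (hs : ((f.map (Int.castRingHom ℚ)).map (algebraMap ℚ K)).Splits) :
    ∃ R : Finset K, R.card = f.natDegree ∧ ∀ x, x ∈ R ↔ aeval x f = 0 := by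
  classical
  set F : K[X] := (f.map (Int.castRingHom ℚ)).map (algebraMap ℚ K) with hF
  have hirr : Irreducible (f.map (Int.castRingHom ℚ)) :=
    (hm.irreducible_iff_irreducible_map_fraction_map (K := ℚ)).mp hf
  have hsep : F.Separable := (hirr.separable).map
  have hnd : F.roots.Nodup := nodup_roots hsep
  have hcard : F.roots.card = f.natDegree := by
    rw [← hs.natDegree_eq_card_roots, hF, natDegree_map, natDegree_map_eq_of_injective
      (RingHom.injective_int _)]
  refine ⟨⟨F.roots, hnd⟩, hcard, ?_⟩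
  intro x
  have hF0 : F ≠ 0 := ((hm.map _).map _).ne_zero
  have h1 : x ∈ (⟨F.roots, hnd⟩ : Finset K) ↔ x ∈ F.roots := Iff.rfl
  rw [h1, mem_roots hF0, IsRoot.def, hF, Polynomial.map_map, eval_map, aeval_def]
  have h2 : (algebraMap ℚ K).comp (Int.castRingHom ℚ) = algebraMap ℤ K := RingHom.ext_int _ _
  rw [h2]

/-- at most two numbers have the same sum with their inverse -/
lemma card_traces {L L' : Type} [Field L] [Field L'] [Algebra L L'] [DecidableEq L] (R : Finset L')
    (hR : ∀ x ∈ R, x ≠ 0) (t : L' → L) (ht : ∀ x ∈ R, algebraMap L L' (t x) = x + x⁻¹) :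
    R.card ≤ 2 * (R.image t).card := by
  classical
  apply Finset.card_le_mul_card_image
  intro y hy
  obtain ⟨x, hx, rfl⟩ := Finset.mem_image.mp hy
  calc (R.filter fun z => t z = t x).card ≤ ({x, x⁻¹} : Finset L').card := by
        apply Finset.card_le_card
        intro z hz
        obtain ⟨hz1, hz2⟩ := Finset.mem_filter.mp hz
        have h1 := ht z hz1
        rw [hz2, ht x hx] at h1
        have hz0 := hR z hz1
        have hx0 := hR x hx
        rw [Finset.mem_insert, Finset.mem_singleton]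
        have h2 : (z - x) * (z - x⁻¹) = 0 := by
          have h3 : z * (x + x⁻¹) = z * (z + z⁻¹) := by rw [h1]
          have h4 : x * x⁻¹ = 1 := mul_inv_cancel₀ hx0
          have h5 : z * z⁻¹ = 1 := mul_inv_cancel₀ hz0
          linear_combination -h3 + h4 - h5
        rcases mul_eq_zero.mp h2 with h3 | h3
        · left; exact sub_eq_zero.mp h3
        · right; exact sub_eq_zero.mp h3
    _ ≤ 2 := Finset.card_le_two

/-- an automorphism which is not the identity moves a proportion of at least `1 / k` of the zeros of a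
polynomial with the splitting field `L`, where `k` is the number of its conjugates -/
lemma moved_card {L : Type} [Field L] [NumberField L] [IsGalois ℚ L] [DecidableEq L] {g : ℤ[X]}
    (hg : Irreducible g)
    (hm : g.Monic) (hspl : (g.map (Int.castRingHom ℚ)).IsSplittingField ℚ L) (Y : Finset L)
    (hY : ∀ y, y ∈ Y ↔ aeval y g = 0) {σ₀ σ : L ≃ₐ[ℚ] L} (hσ : σ ∈ conjSet σ₀) (h1 : σ₀ ≠ 1) :
    Y.card ≤ (conjSet σ₀).ncard * (Y.filter fun y => σ y ≠ y).card := by
  classical
  obtain ⟨a, rfl⟩ := hσ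
  set σ := a * σ₀ * a⁻¹ with hσdef
  have hσ1 : σ ≠ 1 := by
    intro h
    apply h1
    have h2 : σ₀ = a⁻¹ * σ * a := by rw [hσdef]; group
    rw [h2, h]
    group
  have hstab : ∀ (τ : L ≃ₐ[ℚ] L) (y : L), y ∈ Y → τ y ∈ Y := by
    intro τ y hy
    rw [hY] at hy ⊢
    have h2 : aeval ((τ : L →ₐ[ℚ] L).restrictScalars ℤ y) g =
      (τ : L →ₐ[ℚ] L).restrictScalars ℤ (aeval y g) := aeval_algHom_apply _ _ _
    have h3 : aeval (τ y) g = τ (aeval y g) := h2
    rw [h3, hy, map_zero]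
  -- a moved element
  obtain ⟨y₀, hy₀, hy₀m⟩ : ∃ y₀ ∈ Y, σ y₀ ≠ y₀ := by
    by_contra hno
    push Not at hno
    apply hσ1
    have hle : Algebra.adjoin ℚ ((g.map (Int.castRingHom ℚ)).rootSet L) ≤
        AlgHom.equalizer (σ : L →ₐ[ℚ] L) (AlgHom.id ℚ L) := by
      rw [Algebra.adjoin_le_iff]
      intro y hy
      have h2 : aeval y g = 0 := by
        have h3 := (mem_rootSet.mp hy).2
        have h4 : aeval y (g.map (Int.castRingHom ℚ)) = aeval y g :=
          aeval_map_algebraMap (A := ℚ) y g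
        rw [← h4, h3]
      exact hno y ((hY y).mpr h2)
    rw [hspl.adjoin_rootSet] at hle
    apply AlgEquiv.ext
    intro x
    exact hle (Algebra.mem_top (x := x))
  set S : Finset (L ≃ₐ[ℚ] L) := (Set.toFinite (conjSet σ₀)).toFinset with hS
  have hScard : S.card = (conjSet σ₀).ncard := (Set.ncard_eq_toFinset_card _ _).symm
  have hcov : Y ⊆ S.biUnion (fun τ => Y.filter fun y => τ y ≠ y) := by
    intro y hy
    have h2 : minpoly ℚ y = minpoly ℚ y₀ := by
      rw [(minpoly_eq_of_root hg hm ((hY y).mp hy)).2.2,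
        (minpoly_eq_of_root hg hm ((hY y₀).mp hy₀)).2.2]
    obtain ⟨b, hb⟩ := (Normal.minpoly_eq_iff_mem_orbit L).mp h2
    have hb' : b y₀ = y := hb
    rw [Finset.mem_biUnion]
    refine ⟨b * σ * b⁻¹, ?_, ?_⟩
    · rw [hS, Set.Finite.mem_toFinset]
      exact ⟨b * a, by rw [hσdef]; group⟩
    · rw [Finset.mem_filter]
      refine ⟨hy, ?_⟩
      rw [← hb']
      have h3 : (b * σ * b⁻¹) (b y₀) = b (σ y₀) := by
        rw [← AlgEquiv.mul_apply, ← AlgEquiv.mul_apply]
        congr 1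
        group
      rw [h3]
      intro h4
      exact hy₀m (b.injective h4)
  calc Y.card ≤ (S.biUnion (fun τ => Y.filter fun y => τ y ≠ y)).card := Finset.card_le_card hcov
    _ ≤ S.card * (Y.filter fun y => σ y ≠ y).card := by
        apply Finset.card_biUnion_le_card_mul
        intro τ hτ
        rw [hS, Set.Finite.mem_toFinset] at hτ
        obtain ⟨b, rfl⟩ := hτ
        apply Finset.card_le_card_of_injOn (fun y => (a * b⁻¹) y)
        · intro y hy
          rw [Finset.mem_coe, Finset.mem_filter] at hy ⊢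
          refine ⟨hstab _ _ hy.1, ?_⟩
          intro h3
          apply hy.2
          have h4 : σ ((a * b⁻¹) y) = (a * b⁻¹) ((b * σ₀ * b⁻¹) y) := by
            rw [← AlgEquiv.mul_apply, ← AlgEquiv.mul_apply]
            congr 1
            rw [hσdef]
            group
          rw [h4] at h3
          exact (a * b⁻¹).injective h3
        · exact ((a * b⁻¹).injective).injOn
    _ = _ := by rw [hScard]

lemma log_six : Real.log 6 ≤ 1.8 := by
  have h8 : Real.log 6 = Real.log 2 + Real.log 3 := by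
    rw [← Real.log_mul (by norm_num) (by norm_num)]
    norm_num
  have h9 := Real.log_two_lt_d9
  have h14 : Real.log (9 / 8) ≤ 9 / 8 - 1 := Real.log_le_sub_one_of_pos (by norm_num)
  have h15 : 2 * Real.log 3 = 3 * Real.log 2 + Real.log (9 / 8) := by
    have h16 : (2 : ℝ) * Real.log 3 = Real.log (3 ^ 2) := by
      rw [Real.log_pow]
      push_cast
      ring
    have h17 : (3 : ℝ) * Real.log 2 = Real.log (2 ^ 3) := by
      rw [Real.log_pow]
      push_cast
      ring
    rw [h16, h17, ← Real.log_mul (by norm_num) (by norm_num)]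
    norm_num
  linarith

lemma few_num {s₀ r L : ℝ} (hs0 : 0 ≤ s₀) (_hr0 : 1 ≤ r) (hr2 : r ≤ 2 * s₀ + 1) (hL0 : 0 ≤ L)
    (hL : L ≤ (s₀ + 1.4) ^ 2) : 6 * r * L ^ 3 ≤ 4519 * Real.exp (3 * s₀) := by
  have h4 : L ^ 3 ≤ ((s₀ + 1.4) ^ 2) ^ 3 := pow_le_pow_left₀ hL0 hL 3
  have h6 : 6 * r ≤ 12 * (s₀ + 1.4) := by linarith
  have h7 : 6 * r * L ^ 3 ≤ (12 * (s₀ + 1.4)) * ((s₀ + 1.4) ^ 2) ^ 3 :=
    mul_le_mul h6 h4 (by positivity) (by positivity)
  have h8 : (12 * (s₀ + 1.4)) * ((s₀ + 1.4) ^ 2) ^ 3 = 12 * (s₀ + 1.4) ^ 7 := by ring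
  have h9 : s₀ + 1.4 ≤ 7 / 3 * Real.exp (3 / 7 * s₀) := by
    have := Real.add_one_le_exp (3 / 7 * s₀)
    linarith
  have h10 : (s₀ + 1.4) ^ 7 ≤ (7 / 3 * Real.exp (3 / 7 * s₀)) ^ 7 :=
    pow_le_pow_left₀ (by linarith) h9 7
  have h11 : (Real.exp (3 / 7 * s₀)) ^ 7 = Real.exp (3 * s₀) := by
    rw [← Real.exp_nat_mul]
    congr 1
    push_cast
    ring
  rw [mul_pow, h11] at h10
  have h13 : 0 < Real.exp (3 * s₀) := Real.exp_pos _
  have h12 : 12 * ((7 / 3 : ℝ) ^ 7 * Real.exp (3 * s₀)) ≤ 4519 * Real.exp (3 * s₀) := by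
    have h14 : 12 * (7 / 3 : ℝ) ^ 7 ≤ 4519 := by norm_num
    have h15 := mul_le_mul_of_nonneg_right h14 h13.le
    linarith
  linarith

/-- **Salem numbers and inertia automorphisms of the trace field.** -/
theorem salem_main_in : ∃ C : ℝ, 0 < C ∧ ∀ β : ℝ, 1 < β → IsIntegral ℤ β →
    aeval (β⁻¹) (minpoly ℤ β) = 0 →
    (∀ z : ℂ, aeval z (minpoly ℤ β) = 0 → z ≠ (β : ℂ) → ‖z‖ ≤ 1) →
    ∀ p s e w : ℕ, p.Prime → 1 ≤ s → ∀ (L : Type) [Field L] [NumberField L] [IsGalois ℚ L],
    ((minpoly ℤ (β + β⁻¹)).map (Int.castRingHom ℚ)).IsSplittingField ℚ L →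
    (∀ 𝔓 : Ideal (𝓞 L), 𝔓.IsPrime → (p : 𝓞 L) ∈ 𝔓 → (p : 𝓞 L) ∉ 𝔓 ^ (e + 1)) →
    ∀ (σ : L ≃ₐ[ℚ] L) (𝔓 : Ideal (𝓞 L)), σ ≠ 1 → IsDec p 1 s σ 𝔓 →
    (conjSet σ).ncard ≤ w → e * (conjSet σ).ncard ≤ s * w →
    ((minpoly ℤ β).natDegree : ℝ) ≤ C * (w * Real.exp (3 * Real.sqrt (Real.log (2 * w)))) *
      Real.log β := by
  classical
  obtain ⟨c0, hc0, hdob⟩ := dob
  refine ⟨16640 + 4519 / c0, by positivity, ?_⟩
  intro β hβ hint hrec hone p s e w hp hs L _ _ _ hL hram σ₀ 𝔓₀ hσ1 h₀ hw1 hw2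
  set f : ℤ[X] := minpoly ℤ β with hfdef
  set g : ℤ[X] := minpoly ℤ (β + β⁻¹) with hgdef
  have hf : Irreducible f := minpoly.irreducible hint
  have hm : f.Monic := minpoly.monic hint
  have hβ0 : (β : ℂ) ≠ 0 := by exact_mod_cast (by linarith : β ≠ 0)
  have hofReal : ∀ (x : ℝ) (q : ℤ[X]), aeval (x : ℂ) q = ((aeval x q : ℝ) : ℂ) := by
    intro x q
    exact aeval_algebraMap_apply ℂ x q
  have hroot : aeval (β : ℂ) f = 0 := by
    rw [hofReal, hfdef, minpoly.aeval, Complex.ofReal_zero]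
  have hroot' : aeval ((β : ℂ)⁻¹) f = 0 := by
    rw [← Complex.ofReal_inv, hofReal, hrec, Complex.ofReal_zero]
  have hint' : IsIntegral ℤ (β + β⁻¹) := hint.add ⟨f, hm, by rw [← aeval_def]; exact hrec⟩
  have hg : g.Monic := minpoly.monic hint'
  have hirrg : Irreducible g := minpoly.irreducible hint'
  -- the other zeros have modulus one
  have hinvC : ∀ z : ℂ, aeval z f = 0 → z ≠ 0 ∧ aeval z⁻¹ f = 0 := by
    have hac : IsIntegral ℤ (β : ℂ) := ⟨f, hm, by rw [← aeval_def]; exact hroot⟩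
    intro z hz
    -- the polynomial `f` divides its reverse
    have hirr : Irreducible (f.map (Int.castRingHom ℚ)) :=
      (hm.irreducible_iff_irreducible_map_fraction_map (K := ℚ)).mp hf
    have hmin : minpoly ℚ (β : ℂ) = f.map (Int.castRingHom ℚ) := by
      refine (minpoly.eq_of_irreducible_of_monic hirr ?_ (hm.map _)).symm
      have : aeval (β : ℂ) (f.map (Int.castRingHom ℚ)) = aeval (β : ℂ) f :=
        aeval_map_algebraMap (A := ℚ) (β : ℂ) f
      rw [this, hroot]
    have hrev : ∀ w : ℂ, w ≠ 0 → (aeval w (f.map (Int.castRingHom ℚ)).reverse = 0 ↔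
        aeval w⁻¹ f = 0) := by
      intro w hw
      have h1 : aeval w⁻¹ (f.map (Int.castRingHom ℚ)) = aeval w⁻¹ f :=
        aeval_map_algebraMap (A := ℚ) w⁻¹ f
      rw [← h1, aeval_def, aeval_def]
      let := invertibleOfNonzero (inv_ne_zero hw)
      have h2 := eval₂_reverse_eq_zero_iff (algebraMap ℚ ℂ) w⁻¹ (f.map (Int.castRingHom ℚ))
      rw [invOf_eq_inv, inv_inv] at h2
      exact h2
    have hdvd : f.map (Int.castRingHom ℚ) ∣ (f.map (Int.castRingHom ℚ)).reverse := by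
      rw [← hmin]
      apply minpoly.dvd
      rw [hmin]
      exact (hrev _ hβ0).mpr hroot'
    have hz' : aeval z (f.map (Int.castRingHom ℚ)) = 0 := by
      have : aeval z (f.map (Int.castRingHom ℚ)) = aeval z f := aeval_map_algebraMap (A := ℚ) z f
      rw [this, hz]
    have hz0 : z ≠ 0 := by
      rintro rfl
      have h1 : aeval (0 : ℂ) f = ((f.coeff 0 : ℤ) : ℂ) := by
        rw [← coeff_zero_eq_aeval_zero']
        rfl
      rw [h1] at hz
      have h2 : f.coeff 0 = 0 := by exact_mod_cast hz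
      have h3 : X ∣ f := X_dvd_iff.mpr h2
      have h4 : Associated X f := (prime_X.irreducible).associated_of_dvd hf h3
      have h5 : f = X := (eq_of_monic_of_associated monic_X hm h4).symm
      rw [h5, aeval_X] at hroot
      exact hβ0 hroot
    refine ⟨hz0, (hrev z hz0).mp ?_⟩
    obtain ⟨w, hw⟩ := hdvd
    rw [hw, map_mul, hz', zero_mul]
  have hone' : ∀ z : ℂ, aeval z f = 0 → z ≠ (β : ℂ) → z ≠ (β : ℂ)⁻¹ → ‖z‖ = 1 := by
    intro z hz h1 h2
    have h3 := hone z hz h1
    obtain ⟨h4, h5⟩ := hinvC z hz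
    have h6 : z⁻¹ ≠ (β : ℂ) := by
      intro h
      apply h2
      rw [← h, inv_inv]
    have h7 := hone _ h5 h6
    rw [norm_inv] at h7
    have h8 : 0 < ‖z‖ := norm_pos_iff.mpr h4
    have h9 : 1 ≤ ‖z‖ := by
      rw [inv_le_one₀ h8] at h7
      exact h7
    linarith
  have hMM : MM f = β := Pool.Agent.H196R3.Parry.mahler_eq hβ hint hone
  have hlogβ : 0 < Real.log β := Real.log_pos hβ
  -- the field
  obtain ⟨L', _, _, _, hnor, hsplit⟩ := exists_ext (L := L) (g.map (Int.castRingHom ℚ))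
    (f.map (Int.castRingHom ℚ)) (hg.map _).ne_zero (hm.map _).ne_zero hL
  obtain ⟨R, hRcard, hR⟩ := le_splits_iff (K := L') hf hm hsplit
  obtain ⟨Y, hYcard, hY⟩ := le_splits_iff (K := L) hirrg hg hL.splits
  have hk1 : 1 ≤ (conjSet σ₀).ncard :=
    (Set.ncard_pos (Set.toFinite _)).mpr ⟨σ₀, 1, by group⟩
  set κ : ℝ := (w : ℝ) with hκ
  have hκ1 : 1 ≤ κ := by rw [hκ]; exact_mod_cast hk1.trans hw1
  set s₀ := Real.sqrt (Real.log (2 * κ)) with hs₀
  have hs0 : 0 ≤ s₀ := Real.sqrt_nonneg _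
  have hs2 : s₀ ^ 2 = Real.log (2 * κ) := Real.sq_sqrt (Real.log_nonneg (by linarith))
  obtain ⟨r, T, hr1, hr2, hT, hfinal⟩ := sal_num hκ1 hs₀
  set n : ℝ := (f.natDegree : ℝ) with hn
  have hn1 : 0 < f.natDegree := minpoly.natDegree_pos hint
  have he3 : 0 < Real.exp (3 * s₀) := Real.exp_pos _
  have hW : 0 ≤ (κ * Real.exp (3 * s₀)) * Real.log β := by positivity
  -- the automorphism
  obtain ⟨σ, Φ, hσ, hΦ, hF, hbot, hN⟩ := exists_sigma_dec hp hram h₀
  have hNκ : (finrank ℚ L : ℝ) * Real.log p ≤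
      κ * (s * ∑ 𝔓 ∈ Φ, Real.log (Ideal.absNorm 𝔓)) := by
    have hS0 : 0 ≤ ∑ 𝔓 ∈ Φ, Real.log (Ideal.absNorm 𝔓) :=
      Finset.sum_nonneg fun 𝔓 _ => Real.log_natCast_nonneg _
    have h1 : (e : ℝ) * (conjSet σ₀).ncard ≤ s * κ := by rw [hκ]; exact_mod_cast hw2
    calc (finrank ℚ L : ℝ) * Real.log p ≤
        e * (conjSet σ₀).ncard * ∑ 𝔓 ∈ Φ, Real.log (Ideal.absNorm 𝔓) := hN
      _ ≤ (s * κ) * ∑ 𝔓 ∈ Φ, Real.log (Ideal.absNorm 𝔓) := mul_le_mul_of_nonneg_right h1 hS0
      _ = _ := by ring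
  -- traces
  have hR0 : ∀ x ∈ R, x ≠ 0 := by
    intro x hx h0
    obtain ⟨φ, hφ⟩ := exists_embedding hf hm ((hR x).mp hx) hroot
    rw [h0, map_zero] at hφ
    exact hβ0 hφ.symm
  have htex : ∀ x : L', ∃ y : L, x ∈ R → algebraMap L L' y = x + x⁻¹ ∧ y ∈ Y := by
    intro x
    by_cases hx : x ∈ R
    · have hxf := (hR x).mp hx
      obtain ⟨φ, hφ⟩ := exists_embedding hf hm hxf hroot
      have hgx : aeval (x + x⁻¹) g = 0 := by
        refine (map_eq_zero φ).mp ?_
        have h1 : aeval (φ (x + x⁻¹)) g = φ (aeval (x + x⁻¹) g) :=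
          aeval_algHom_apply (φ.restrictScalars ℤ) (x + x⁻¹) g
        rw [← h1, map_add, map_inv₀, hφ, ← Complex.ofReal_inv, ← Complex.ofReal_add, hofReal,
          hgdef, minpoly.aeval, Complex.ofReal_zero]
      have h2 := minpoly_eq_of_root hirrg hg hgx
      have h3 : ((minpoly ℚ (x + x⁻¹)).map (algebraMap ℚ L)).Splits := by
        rw [h2.2.2]
        exact hL.splits
      obtain ⟨y, hy⟩ := IsIntegral.mem_range_algebraMap_of_minpoly_splits
        (R := ℚ) (K := L) (L := L') (h2.1.tower_top) h3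
      refine ⟨y, fun _ => ⟨hy, ?_⟩⟩
      rw [hY]
      apply (algebraMap L L').injective
      rw [map_zero, ← hgx, ← hy]
      exact (aeval_algebraMap_apply L' y g).symm
    · exact ⟨0, fun h => absurd h hx⟩
  choose t ht using htex
  have hcardRY : f.natDegree ≤ 2 * Y.card := by
    have h1 := card_traces R hR0 t (fun x hx => (ht x hx).1)
    rw [hRcard] at h1
    have h2 : (R.image t).card ≤ Y.card := by
      apply Finset.card_le_card
      intro y hy
      obtain ⟨x, hx, rfl⟩ := Finset.mem_image.mp hy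
      exact (ht x hx).2
    omega
  have hRne : R.Nonempty := by
    rw [← Finset.card_pos, hRcard]
    exact hn1
  obtain ⟨x₁, hx₁⟩ := hRne
  have hlift : ∀ y ∈ Y, ∃ x ∈ R, algebraMap L L' y = x + x⁻¹ := by
    intro y hy
    have h2 : minpoly ℚ y = minpoly ℚ (t x₁) := by
      rw [(minpoly_eq_of_root hirrg hg ((hY y).mp hy)).2.2,
        (minpoly_eq_of_root hirrg hg ((hY _).mp (ht x₁ hx₁).2)).2.2]
    obtain ⟨b, hb⟩ := (Normal.minpoly_eq_iff_mem_orbit L).mp h2
    have hb' : b (t x₁) = y := hb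
    set b' : L' ≃ₐ[ℚ] L' := b.liftNormal L' with hb''
    have hb3 : b' (algebraMap L L' (t x₁)) = algebraMap L L' (b (t x₁)) :=
      AlgEquiv.liftNormal_commutes b L' _
    refine ⟨b' x₁, ?_, ?_⟩
    · rw [hR]
      have h3 : aeval ((b' : L' →ₐ[ℚ] L').restrictScalars ℤ x₁) f =
        (b' : L' →ₐ[ℚ] L').restrictScalars ℤ (aeval x₁ f) := aeval_algHom_apply _ _ _
      have h4 : aeval (b' x₁) f = b' (aeval x₁ f) := h3
      rw [h4, (hR x₁).mp hx₁, map_zero]
    · rw [← hb', ← hb3, (ht x₁ hx₁).1, map_add, map_inv₀]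
  -- the moved traces
  have hmoved := moved_card hirrg hg hL Y hY hσ hσ1
  obtain ⟨J, hJS, hJd, hJcard⟩ := exists_disj (Y.filter fun y => σ y ≠ y) (fun y => σ y) σ.injective
    (fun y hy => (Finset.mem_filter.mp hy).2)
  rcases le_or_gt r J.card with hcase | hcase
  · -- the main case
    obtain ⟨Z, hZ1, hZ2⟩ := Finset.exists_subset_card_eq hcase
    have ee : Fin r ≃ Z := (Finset.equivFinOfCardEq hZ2).symm
    have hZY : ∀ j : Fin r, (ee j : L) ∈ Y := fun j =>
      (Finset.mem_filter.mp (hJS (hZ1 (ee j).2))).1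
    choose B hB1 hB2 using fun j => hlift _ (hZY j)
    have key := salem_core_in (L := L) (L' := L') hf hm hβ hroot hroot' hone' hp hF hbot hκ1 hNκ B
      (fun j => (ee j : L)) (fun j => (hR _).mp (hB1 j)) hB2
      (fun i j hij => ee.injective (Subtype.ext hij))
      (fun i j => hJd _ (hZ1 (ee i).2) _ (hZ1 (ee j).2)) hT
    rw [hMM] at key
    calc n ≤ 16 * (2 ^ r * κ) * (r * T * 2 * Real.log β) := key
      _ = (16 * (2 ^ r * κ) * (r * T)) * (2 * Real.log β) := by ring
      _ ≤ (8320 * κ * Real.exp (3 * s₀)) * (2 * Real.log β) := by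
          apply mul_le_mul_of_nonneg_right hfinal (by positivity)
      _ = 16640 * ((κ * Real.exp (3 * s₀)) * Real.log β) := by ring
      _ ≤ (16640 + 4519 / c0) * ((κ * Real.exp (3 * s₀)) * Real.log β) := by
          apply mul_le_mul_of_nonneg_right _ hW
          have : 0 < 4519 / c0 := by positivity
          linarith
      _ = _ := by ring
  · -- few conjugates
    have hnr : n ≤ 6 * r * κ := by
      have h1 : f.natDegree ≤ 2 * ((conjSet σ₀).ncard * (3 * J.card)) :=
        hcardRY.trans (Nat.mul_le_mul_left 2 (hmoved.trans (Nat.mul_le_mul_left _ hJcard)))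
      have h2 : 2 * ((conjSet σ₀).ncard * (3 * J.card)) ≤ 2 * (w * (3 * r)) := by
        apply Nat.mul_le_mul_left
        exact Nat.mul_le_mul hw1 (Nat.mul_le_mul_left 3 hcase.le)
      have h3 : (f.natDegree : ℝ) ≤ ((2 * (w * (3 * r)) : ℕ) : ℝ) := by exact_mod_cast h1.trans h2
      refine h3.trans (le_of_eq ?_)
      push_cast
      rw [hκ]
      ring
    have hxf := (hR x₁).mp hx₁
    obtain ⟨hxi, hxm, hxq⟩ := minpoly_eq_of_root hf hm hxf
    obtain ⟨φ, hφ⟩ := exists_embedding hf hm hxf hroot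
    have hx0 : x₁ ≠ 0 := hR0 x₁ hx₁
    have hxr : ∀ k : ℕ, 0 < k → x₁ ^ k ≠ 1 := by
      intro k hk h1
      have h2 := congrArg φ h1
      rw [map_pow, hφ, map_one] at h2
      have h3 : β ^ k = 1 := by exact_mod_cast h2
      have h4 := one_lt_pow₀ hβ hk.ne'
      linarith
    have hdeg : (finrank ℚ (IntermediateField.adjoin ℚ {x₁}) : ℝ) ≤ n := by
      rw [IntermediateField.adjoin.finrank (hxi.tower_top), hxq,
        natDegree_map_eq_of_injective (algebraMap ℤ ℚ).injective_int]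
    have h1 := case_small hc0 hdob hxi hx0 hxr hdeg
    have h2 := lam_eq_MM hxi
    rw [hxm, hMM] at h2
    have hN0 : (0:ℝ) < finrank ℚ L' := by exact_mod_cast (finrank_pos : 0 < finrank ℚ L')
    have hn0 : 0 < n := by rw [hn]; exact_mod_cast hn1
    have hn1' : 1 ≤ n := by rw [hn]; exact_mod_cast hn1
    have hlog : 0 ≤ Real.log (2 * n) := Real.log_nonneg (by linarith)
    have h3 : c0 ≤ (Real.log (2 * n)) ^ 3 * Real.log β := by
      have h4 : c0 * finrank ℚ L' ≤ ((Real.log (2 * n)) ^ 3 * Real.log β) * finrank ℚ L' := by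
        refine h1.trans (le_of_eq ?_)
        calc n * Real.log (2 * n) ^ 3 * lam x₁ = Real.log (2 * n) ^ 3 * (lam x₁ * n) := by ring
          _ = _ := by rw [hn, h2]; ring
      exact le_of_mul_le_mul_right h4 hN0
    have hr0 : (1:ℝ) ≤ r := by exact_mod_cast hr1
    have hlog2 : Real.log (2 * n) ≤ (s₀ + 1.4) ^ 2 := by
      have h5 : Real.log (2 * n) ≤ Real.log ((6 * r) * (2 * κ)) := by
        apply Real.log_le_log (by linarith)
        linarith
      rw [Real.log_mul (x := 6 * (r : ℝ)) (by positivity) (by positivity), ← hs2] at h5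
      have h6 : Real.log (6 * r) ≤ 1.8 + 2 * s₀ := by
        have h7 := log_six
        have h18 : Real.log r ≤ 2 * s₀ := by
          have := Real.log_le_sub_one_of_pos (show (0:ℝ) < r by linarith)
          linarith
        rw [Real.log_mul (by norm_num) (by positivity)]
        linarith
      nlinarith
    have h5 := few_num hs0 hr0 hr2 hlog hlog2
    have h6 : n ≤ 4519 / c0 * (κ * Real.exp (3 * s₀) * Real.log β) := by
      have h7 : c0 * n ≤ 4519 * (κ * Real.exp (3 * s₀) * Real.log β) := by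
        calc c0 * n ≤ ((Real.log (2 * n)) ^ 3 * Real.log β) * n :=
              mul_le_mul_of_nonneg_right h3 hn0.le
          _ ≤ ((Real.log (2 * n)) ^ 3 * Real.log β) * (6 * r * κ) :=
              mul_le_mul_of_nonneg_left hnr (by positivity)
          _ = (6 * r * (Real.log (2 * n)) ^ 3) * (κ * Real.log β) := by ring
          _ ≤ (4519 * Real.exp (3 * s₀)) * (κ * Real.log β) :=
              mul_le_mul_of_nonneg_right h5 (by positivity)
          _ = _ := by ring
      calc n = (c0 * n) / c0 := by field_simp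
        _ ≤ (4519 * (κ * Real.exp (3 * s₀) * Real.log β)) / c0 := by gcongr
        _ = _ := by ring
    calc n ≤ 4519 / c0 * (κ * Real.exp (3 * s₀) * Real.log β) := h6
      _ ≤ (16640 + 4519 / c0) * (κ * Real.exp (3 * s₀) * Real.log β) := by
          apply mul_le_mul_of_nonneg_right _ hW
          linarith
      _ = _ := by ring

end Pool.Agent.Run7.h22
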