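import Mathlib
import Pool.Agent.Run7.h22.Rel8

/-!
# Power maps and Chebyshev maps
-/

set_option autoImplicit false

open Finset Module Polynomial NumberField Height Filter Topology

namespace Pool.Agent.Run7.h22

open Pool.Agent.H388SL

/-- the degree of a zero of `X ^ 2 - x X + 1` -/
lemma deg_two_mul {F K : Type} [Field F] [Field K] [Algebra F K] [FiniteDimensional F K] {x α : K}
    (h0 : α ≠ 0) (hx : x = α + α⁻¹) :
    (minpoly F α).natDegree ≤ 2 * (minpoly F x).natDegree := by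
  set L1 := IntermediateField.adjoin F {x} with hL1
  have h1 : (minpoly L1 α).natDegree ≤ 2 := by
    set γ : L1 := ⟨x, IntermediateField.mem_adjoin_simple_self F x⟩ with hγ
    set g : L1[X] := X ^ 2 - C γ * X + 1 with hg
    have hgdeg : g.natDegree = 2 := by
      rw [hg]
      compute_degree!
    have hg0 : g ≠ 0 := by
      intro h
      rw [h, natDegree_zero] at hgdeg
      omega
    have hgα : aeval α g = 0 := by
      rw [hg]
      simp only [map_add, map_sub, map_pow, map_mul, aeval_X, aeval_C, map_one]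
      have h1 : algebraMap L1 K γ = x := rfl
      rw [h1, hx]
      field_simp
      ring
    have h2 := natDegree_le_of_dvd (minpoly.dvd _ α hgα) hg0
    rwa [hgdeg] at h2
  set K' := IntermediateField.adjoin L1 {α} with hK'
  set γ : K' := IntermediateField.AdjoinSimple.gen L1 α with hγ
  have hγα : algebraMap K' K γ = α := IntermediateField.AdjoinSimple.algebraMap_gen L1 α
  have t1 : IsScalarTower F K' K := IsScalarTower.of_algebraMap_eq fun _ => rfl
  have t2 : IsScalarTower F L1 K' := IsScalarTower.of_algebraMap_eq fun _ => rfl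
  have t3 : Module.Finite F K' := Module.Finite.trans L1 K'
  have h2 : minpoly F α = minpoly F γ := by
    rw [← hγα]
    exact minpoly.algebraMap_eq (algebraMap K' K).injective γ
  have h3 : (minpoly F γ).natDegree ≤ finrank F K' := minpoly.natDegree_le γ
  have h4 : finrank F K' = finrank F L1 * finrank L1 K' := (finrank_mul_finrank F L1 K').symm
  have h5 : finrank F L1 = (minpoly F x).natDegree :=
    IntermediateField.adjoin.finrank (IsIntegral.of_finite F x)
  have h6 : finrank L1 K' = (minpoly L1 α).natDegree :=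
    IntermediateField.adjoin.finrank (IsIntegral.of_finite L1 α)
  rw [h2]
  refine h3.trans ?_
  rw [h4, h5, h6, mul_comm]
  exact Nat.mul_le_mul_right _ h1

lemma exists_pow_modEq (M : ℕ) (hM : 0 < M) (d : ℕ) : ∃ m n : ℕ, m ≠ n ∧ d ^ m ≡ d ^ n [MOD M] := by
  have : NeZero M := ⟨hM.ne'⟩
  obtain ⟨m, n, hmn, h⟩ := Finite.exists_ne_map_eq_of_infinite (fun n : ℕ => ((d ^ n : ℕ) : ZMod M))
  exact ⟨m, n, hmn, (ZMod.natCast_eq_natCast_iff _ _ _).mp h⟩

lemma pow_eq_of_modEq {K : Type} [Field K] {y : K} {M a b : ℕ} (hy : y ^ M = 1) (h : a ≡ b [MOD M]) :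
    y ^ a = y ^ b := by
  have h1 : a ≡ b [MOD orderOf y] := h.of_dvd (orderOf_dvd_of_pow_eq_one hy)
  rw [← pow_mod_orderOf y a, ← pow_mod_orderOf y b]
  exact congrArg _ h1

/-- a point which is not preperiodic for a power map has a ratio which is not a root of unity -/
lemma exists_ratio {K : Type} [Field K] {N d : ℕ} (hd : 2 ≤ d) {x : Fin (N + 1) → K} (hx : x ≠ 0)
    (hw : ¬ ∃ m n : ℕ, m ≠ n ∧ ∃ c : K, c ≠ 0 ∧ x ^ (d ^ n) = c • x ^ (d ^ m)) :
    ∃ i j, x i ≠ 0 ∧ x j ≠ 0 ∧ ∀ n : ℕ, 0 < n → (x i / x j) ^ n ≠ 1 := by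
  by_contra hcon
  push Not at hcon
  apply hw
  obtain ⟨j, hj⟩ := Function.ne_iff.mp hx
  have hj0 : x j ≠ 0 := hj
  have h1 : ∀ i, ∃ n : ℕ, 0 < n ∧ (x i ≠ 0 → (x i / x j) ^ n = 1) := by
    intro i
    by_cases hi : x i = 0
    · exact ⟨1, one_pos, fun h => absurd hi h⟩
    · obtain ⟨n, hn, h⟩ := hcon i j hi hj0
      exact ⟨n, hn, fun _ => h⟩
  choose e he0 he using h1
  obtain ⟨m, n, hmn, h⟩ := exists_pow_modEq (∏ i, e i) (Finset.prod_pos fun i _ => he0 i) d
  refine ⟨m, n, hmn, x j ^ (d ^ n) / x j ^ (d ^ m), by positivity, ?_⟩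
  funext i
  rw [Pi.smul_apply, Pi.pow_apply, Pi.pow_apply, smul_eq_mul]
  by_cases hi : x i = 0
  · rw [hi, zero_pow (by positivity), zero_pow (by positivity), mul_zero]
  · have h2 : (x i / x j) ^ (∏ i, e i) = 1 := by
      obtain ⟨t, ht⟩ := Finset.dvd_prod_of_mem e (Finset.mem_univ i)
      rw [ht, pow_mul, he i hi, one_pow]
    have h3 := pow_eq_of_modEq h2 h
    rw [div_pow, div_pow] at h3
    have h4 : x j ^ (d ^ n) ≠ 0 := pow_ne_zero _ hj0
    have h5 : x j ^ (d ^ m) ≠ 0 := pow_ne_zero _ hj0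
    field_simp at h3 ⊢
    linear_combination -h3

section

variable {K : Type} [Field K] [NumberField K]

lemma ratio_le {N : ℕ} (x : Fin (N + 1) → K) (i j : Fin (N + 1)) :
    logHeight₁ (x i / x j) ≤ logHeight x := by
  rw [logHeight₁_div_eq_logHeight]
  have h := logHeight_comp_le ![i, j] x
  have e : x ∘ ![i, j] = ![x i, x j] := by
    funext t
    fin_cases t <;> rfl
  rwa [e] at h

lemma tendsto_pow_height {N d : ℕ} (hd : 2 ≤ d) (x : Fin (N + 1) → K) :
    Tendsto (fun n : ℕ => logHeight (x ^ (d ^ n)) / ((finrank ℚ K : ℝ) * (d : ℝ) ^ n)) atTop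
      (𝓝 (logHeight x / finrank ℚ K)) := by
  have h1 : (fun n : ℕ => logHeight (x ^ (d ^ n)) / ((finrank ℚ K : ℝ) * (d : ℝ) ^ n)) =
      fun _ => logHeight x / finrank ℚ K := by
    funext n
    rw [logHeight_pow]
    have h2 : (0:ℝ) < d := by exact_mod_cast (by omega : 0 < d)
    have h3 : (0:ℝ) < finrank ℚ K := by exact_mod_cast (finrank_pos : 0 < finrank ℚ K)
    push_cast
    field_simp
  rw [h1]
  exact tendsto_const_nhds

lemma three_two (y : K) : logHeight ![1, y, 1] = logHeight₁ y := by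
  rw [logHeight₁_eq_logHeight]
  apply le_antisymm
  · have h := logHeight_comp_le ![(1 : Fin 2), 0, 1] ![y, 1]
    have e : ![y, 1] ∘ ![(1 : Fin 2), 0, 1] = ![1, y, 1] := by
      funext t
      fin_cases t <;> rfl
    rwa [e] at h
  · have h := logHeight_comp_le ![(1 : Fin 3), 0] ![1, y, 1]
    have e : ![1, y, 1] ∘ ![(1 : Fin 3), 0] = ![y, 1] := by
      funext t
      fin_cases t <;> rfl
    rwa [e] at h

variable (K) in
lemma cheb_close : ∃ C : ℝ, ∀ β : K, β ≠ 0 → |logHeight₁ (β + β⁻¹) - 2 * logHeight₁ β| ≤ C := by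
  obtain ⟨C, hC⟩ := abs_logHeight_sym2_sub_le K
  refine ⟨C, fun β hβ => ?_⟩
  have h := hC (a := β) (b := 1) (c := β⁻¹) (d := 1) (by simp) (by simp)
  rw [mul_one, one_mul, one_mul, mul_inv_cancel₀ hβ, three_two, ← logHeight₁_eq_logHeight,
    ← logHeight₁_eq_logHeight, logHeight₁_inv] at h
  rwa [two_mul]

lemma tendsto_cheb_height {d : ℕ} (hd : 2 ≤ d) {α : K} (h0 : α ≠ 0) :
    Tendsto (fun n : ℕ => logHeight₁ (α ^ (d ^ n) + (α⁻¹) ^ (d ^ n)) /
      ((finrank ℚ K : ℝ) * (d : ℝ) ^ n)) atTop (𝓝 (2 * logHeight₁ α / finrank ℚ K)) := by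
  obtain ⟨C, hC⟩ := cheb_close K
  have hd0 : (1:ℝ) < d := by exact_mod_cast (by omega : 1 < d)
  have h3 : (0:ℝ) < finrank ℚ K := by exact_mod_cast (finrank_pos : 0 < finrank ℚ K)
  rw [tendsto_iff_norm_sub_tendsto_zero]
  have h4 : Tendsto (fun n : ℕ => C / finrank ℚ K * ((d : ℝ)⁻¹) ^ n) atTop (𝓝 0) := by
    have h5 := tendsto_pow_atTop_nhds_zero_of_lt_one (r := (d : ℝ)⁻¹) (by positivity)
      (inv_lt_one_of_one_lt₀ hd0)
    simpa using h5.const_mul (C / finrank ℚ K)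
  refine squeeze_zero (fun n => norm_nonneg _) (fun n => ?_) h4
  have h5 := hC (α ^ (d ^ n)) (pow_ne_zero _ h0)
  rw [← inv_pow, logHeight₁_pow] at h5
  push_cast at h5
  have h6 : logHeight₁ (α ^ (d ^ n) + (α⁻¹) ^ (d ^ n)) / ((finrank ℚ K : ℝ) * (d : ℝ) ^ n) -
      2 * logHeight₁ α / finrank ℚ K =
      (logHeight₁ (α ^ (d ^ n) + (α⁻¹) ^ (d ^ n)) - 2 * ((d:ℝ) ^ n * logHeight₁ α)) /
        ((finrank ℚ K : ℝ) * (d : ℝ) ^ n) := by
    field_simp
  have h7 : C / finrank ℚ K * ((d : ℝ)⁻¹) ^ n = C / ((finrank ℚ K : ℝ) * (d : ℝ) ^ n) := by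
    rw [inv_pow, ← div_eq_mul_inv, div_div]
  rw [h6, Real.norm_eq_abs, abs_div, abs_of_pos (by positivity :
    (0:ℝ) < (finrank ℚ K : ℝ) * (d : ℝ) ^ n), h7]
  gcongr

end

end Pool.Agent.Run7.h22
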