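import Mathlib
import Pool.Agent.Run7.h22.MainN
import Pool.Agent.Run7.h22.Rel9

/-!
# Few complex conjugations, for all numbers
-/

set_option autoImplicit false

open Finset Module Polynomial NumberField Height Filter Topology

namespace Pool.Agent.Run7.h22

open Pool.Agent.H388SL

/-- **Lehmer's problem in fields with few complex conjugations, for all numbers** -/
theorem number_cc : ∃ C : ℝ, 0 < C ∧ ∀ (K : Type) [Field K] [NumberField K] [IsGalois ℚ K] (α : K),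
    α ≠ 0 → (∀ n : ℕ, 0 < n → α ^ n ≠ 1) →
    ((finrank ℚ K : ℝ) * Real.log 2 ≤ finrank ℚ (IntermediateField.adjoin ℚ {α}) * logHeight₁ α ∨
      (finrank ℚ K : ℝ) ≤ C * ((ccSet K).ncard *
        Real.exp (9 * Real.sqrt (Real.log (2 * (ccSet K).ncard)))) * logHeight₁ α) ∧
    ((∃ φ : K →+* ℂ, ‖φ α‖ ≠ 1) →
      (finrank ℚ K : ℝ) ≤ C * ((ccSet K).ncard *
        Real.exp (9 * Real.sqrt (Real.log (2 * (ccSet K).ncard)))) * logHeight₁ α) := by
  obtain ⟨C, hC, h⟩ := field_gen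
  refine ⟨C, hC, ?_⟩
  intro K _ _ _ α h0 hroot
  have key : (∃ φ : K →+* ℂ, ‖φ α‖ ≠ 1) →
      (finrank ℚ K : ℝ) ≤ C * ((ccSet K).ncard *
        Real.exp (9 * Real.sqrt (Real.log (2 * (ccSet K).ncard)))) * logHeight₁ α := by
    rintro ⟨φ, hφ⟩
    exact h K α h0 ⟨RingHom.toRatAlgHom φ, hφ⟩
  refine ⟨?_, key⟩
  by_cases h1 : ∃ φ : K →+* ℂ, ‖φ α‖ ≠ 1
  · exact Or.inr (key h1)
  · left
    push Not at h1
    apply lehmer_nonunit
    intro hint
    obtain ⟨n, hn, hn1⟩ := Embeddings.pow_eq_one_of_norm_eq_one K ℂ hint h1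
    exact hroot n hn hn1

end Pool.Agent.Run7.h22
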