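import Mathlib
import Pool.Agent.Run7.h22.MainN
import Pool.Agent.Run7.h22.Fin

/-!
# Mahler measures of polynomials with few complex conjugations
-/

set_option autoImplicit false

open Finset Module Polynomial

namespace Pool.Agent.Run7.h22

open Pool.Agent.H388SL

lemma poly_gen {A : ℝ} (hA : 0 < A)
    (h : ∀ (K : Type) [Field K] [NumberField K] [IsGalois ℚ K] (α : K),
    α ≠ 0 → (∃ φ : K →ₐ[ℚ] ℂ, ‖φ α‖ ≠ 1) →
    (finrank ℚ K : ℝ) ≤ A * ((ccSet K).ncard *
      Real.exp (9 * Real.sqrt (Real.log (2 * (ccSet K).ncard)))) * Height.logHeight₁ α) (f : ℤ[X])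
    (hf : Irreducible f) (hd : 0 < f.natDegree)
    (hz : ∃ z : ℂ, (f.map (Int.castRingHom ℂ)).IsRoot z ∧ z ≠ 0 ∧ ‖z‖ ≠ 1) :
    (f.natDegree : ℝ) ≤ A * ((complexConjugations f).ncard *
      Real.exp (9 * Real.sqrt (Real.log (2 * (complexConjugations f).ncard)))) *
      Real.log (f.map (Int.castRingHom ℂ)).mahlerMeasure := by
  classical
  have hf0 : f ≠ 0 := hf.ne_zero
  set fQ := f.map (Int.castRingHom ℚ) with hfQ
  have hinjQ : Function.Injective (Int.castRingHom ℚ) := (Int.castRingHom ℚ).injective_int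
  have hfQ0 : fQ ≠ 0 := (Polynomial.map_ne_zero_iff hinjQ).mpr hf0
  set K := fQ.SplittingField with hK
  have : NumberField K := numberField_splitting fQ
  have : IsGalois ℚ K := isGalois_splitting fQ
  have hsplit : (fQ.map (algebraMap ℚ K)).Splits := SplittingField.splits fQ
  obtain ⟨φ⟩ : Nonempty (K →ₐ[ℚ] ℂ) := ⟨IsAlgClosed.lift⟩
  obtain ⟨z, hzr, hz0, hz1⟩ := hz
  -- the root in `K`
  obtain ⟨α, hα, hαz⟩ : ∃ α : K, aeval α f = 0 ∧ φ α = z := by
    have h1 : (fQ.map (algebraMap ℚ K)).map (φ : K →+* ℂ) = f.map (Int.castRingHom ℂ) := by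
      rw [Polynomial.map_map]
      have h2 : fQ.map ((φ : K →+* ℂ).comp (algebraMap ℚ K)) =
          f.map (((φ : K →+* ℂ).comp (algebraMap ℚ K)).comp (Int.castRingHom ℚ)) :=
        Polynomial.map_map _ _ _
      rw [h2]
      congr 1
      exact RingHom.ext_int _ _
    have h2 : (f.map (Int.castRingHom ℂ)).roots =
        (fQ.map (algebraMap ℚ K)).roots.map (φ : K →+* ℂ) := by
      rw [← h1, hsplit.roots_map]
    have hfC0 : f.map (Int.castRingHom ℂ) ≠ 0 :=
      (Polynomial.map_ne_zero_iff (Int.castRingHom ℂ).injective_int).mpr hf0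
    have h3 : z ∈ (f.map (Int.castRingHom ℂ)).roots := (mem_roots hfC0).mpr hzr
    rw [h2, Multiset.mem_map] at h3
    obtain ⟨α, hα, hαz⟩ := h3
    refine ⟨α, ?_, hαz⟩
    have h4 : (fQ.map (algebraMap ℚ K)).IsRoot α := isRoot_of_mem_roots hα
    rw [IsRoot.def, eval_map_algebraMap] at h4
    have h5 : aeval α (f.map (algebraMap ℤ ℚ)) = aeval α f := Polynomial.aeval_map_algebraMap ℚ α f
    rw [← h5]
    exact h4
  have hα0 : α ≠ 0 := by
    rintro rfl
    rw [map_zero] at hαz
    exact hz0 hαz.symm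
  have hmain := h K α hα0 ⟨φ, by rw [hαz]; exact hz1⟩
  have hset : (ccSet K) = complexConjugations f := by
    ext σ
    constructor
    · rintro ⟨φ, hφ⟩
      exact ⟨(φ : K →+* ℂ), hφ⟩
    · rintro ⟨φ, hφ⟩
      exact ⟨RingHom.equivRatAlgHom K ℂ φ, hφ⟩
  rw [hset] at hmain
  -- the height
  set γ : Pool.Agent.H58P.Qb := embQb K α with hγ
  have hγ0 : aeval γ f = 0 := by
    have h1 : aeval γ f = embQb K (aeval α f) := by
      rw [hγ, Polynomial.aeval_def, Polynomial.aeval_def, Polynomial.hom_eval₂]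
      congr 1
      ext
      simp
    rw [h1, hα, map_zero]
  have h1 := lh_ht K (embQb K) α
  have h2 : Pool.Agent.H58P.ht γ ≤
      Real.log (f.map (Int.castRingHom ℂ)).mahlerMeasure / f.natDegree :=
    (Pool.Agent.W70.LD.ht_le_hM γ).trans (Pool.Agent.W469.CV.MH.hM_le γ f hf hd hγ0)
  have hN : (0:ℝ) < finrank ℚ K := by exact_mod_cast (finrank_pos : 0 < finrank ℚ K)
  have hn : (0:ℝ) < f.natDegree := by exact_mod_cast hd
  set W : ℝ := A * ((complexConjugations f).ncard *
      Real.exp (9 * Real.sqrt (Real.log (2 * (complexConjugations f).ncard)))) with hW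
  have hW0 : 0 ≤ W := by positivity
  have h3 : (finrank ℚ K : ℝ) * 1 ≤ finrank ℚ K *
      (W * (Real.log (f.map (Int.castRingHom ℂ)).mahlerMeasure / f.natDegree)) := by
    rw [mul_one]
    refine hmain.trans ?_
    rw [h1]
    calc W * (finrank ℚ K * Pool.Agent.H58P.ht γ)
        ≤ W * (finrank ℚ K * (Real.log (f.map (Int.castRingHom ℂ)).mahlerMeasure / f.natDegree)) := by
          apply mul_le_mul_of_nonneg_left _ hW0
          exact mul_le_mul_of_nonneg_left h2 hN.le
      _ = _ := by ring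
  have h4 := le_of_mul_le_mul_left h3 hN
  rw [← mul_div_assoc, le_div_iff₀ hn, one_mul] at h4
  exact h4

end Pool.Agent.Run7.h22
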