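import Mathlib
import Pool.Agent.H388SL.Fin

/-!
# Sets of Mahler measures of classes of integer polynomials which are closed under divisors
-/

set_option autoImplicit false

open Polynomial

namespace Pool.Agent.Run7.h22

open Pool.Agent.H388SL

lemma MM_eq_one_of_factors (f : ℤ[X]) (hf : f ≠ 0)
    (h : ∀ g : ℤ[X], Irreducible g → g ∣ f → MM g = 1) : MM f = 1 := by
  induction f using WfDvdMonoid.induction_on_irreducible with
  | zero => exact absurd rfl hf
  | unit u hu =>
    have h1 := Polynomial.isUnit_iff.mp hu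
    obtain ⟨r, hr, rfl⟩ := h1
    rw [MM, Polynomial.map_C, mahlerMeasure_const]
    rcases Int.isUnit_iff.mp hr with h2 | h2 <;> simp [h2]
  | mul a i ha hi ih =>
    rw [MM_mul, h i hi (dvd_mul_right i a), ih ha fun g hg hga => h g hg (hga.mul_left i), one_mul]

/-- the measures of a class of polynomials which is closed under divisors -/
theorem finite_of_irreducible (P : ℤ[X] → Prop) (hdiv : ∀ f g : ℤ[X], P f → g ∣ f → P g) (T : ℝ)
    (h : {x : ℝ | x ≤ T ∧ ∃ g : ℤ[X], Irreducible g ∧ P g ∧ MM g = x}.Finite) :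
    {x : ℝ | x ≤ T ∧ ∃ f : ℤ[X], f ≠ 0 ∧ P f ∧ MM f = x}.Finite := by
  classical
  set F := {x : ℝ | x ≤ T ∧ ∃ g : ℤ[X], Irreducible g ∧ P g ∧ MM g = x} with hF
  obtain ⟨r, hr1, hr⟩ : ∃ r : ℝ, 1 < r ∧ ∀ x ∈ F, x ≠ 1 → r ≤ x := by
    by_cases hne : (h.toFinset.filter (fun x => x ≠ 1)).Nonempty
    · refine ⟨(h.toFinset.filter (fun x => x ≠ 1)).min' hne, ?_, fun x hx hx1 => ?_⟩
      · have h1 := (h.toFinset.filter (fun x => x ≠ 1)).min'_mem hne
        rw [Finset.mem_filter, Set.Finite.mem_toFinset] at h1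
        obtain ⟨⟨_, g, hg, _, hgx⟩, h2⟩ := h1
        have h3 := one_le_MM hg.ne_zero
        rw [hgx] at h3
        exact lt_of_le_of_ne h3 (Ne.symm h2)
      · exact Finset.min'_le _ _ (by
          rw [Finset.mem_filter, Set.Finite.mem_toFinset]
          exact ⟨hx, hx1⟩)
    · refine ⟨2, by norm_num, fun x hx hx1 => ?_⟩
      exact absurd ⟨x, by
        rw [Finset.mem_filter, Set.Finite.mem_toFinset]
        exact ⟨hx, hx1⟩⟩ hne
  have key : ∀ m : ℕ, {x : ℝ | x ≤ T ∧ x < r ^ m ∧ ∃ f : ℤ[X], f ≠ 0 ∧ P f ∧ MM f = x}.Finite := by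
    intro m
    induction m with
    | zero =>
      apply Set.Finite.subset Set.finite_empty
      rintro x ⟨_, hx, f, hf, _, rfl⟩
      rw [pow_zero] at hx
      exact absurd (one_le_MM hf) (not_le.mpr hx)
    | succ m ih =>
      apply Set.Finite.subset ((Set.finite_singleton (1:ℝ)).union (h.image2 (· * ·) ih))
      rintro x ⟨hxT, hx, f, hf, hPf, rfl⟩
      by_cases hall : ∀ g : ℤ[X], Irreducible g → g ∣ f → MM g = 1
      · left
        exact MM_eq_one_of_factors f hf hall
      · right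
        push Not at hall
        obtain ⟨g, hg, hgf, hg1⟩ := hall
        obtain ⟨q, rfl⟩ := hgf
        have hq0 : q ≠ 0 := right_ne_zero_of_mul hf
        have h1 := one_le_MM hg.ne_zero
        have h2 := one_le_MM hq0
        rw [MM_mul] at hxT hx
        have hgT : MM g ≤ T := by nlinarith
        have hqT : MM q ≤ T := by nlinarith
        have hgF : MM g ∈ F := ⟨hgT, g, hg, hdiv _ _ hPf (dvd_mul_right g q), rfl⟩
        have h3 := hr _ hgF hg1
        refine ⟨MM g, hgF, MM q, ⟨hqT, ?_, q, hq0, hdiv _ _ hPf (dvd_mul_left q g), rfl⟩, ?_⟩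
        · rw [pow_succ] at hx
          by_contra h4
          push Not at h4
          have h5 : r ^ m * r ≤ MM g * MM q := by
            rw [mul_comm (MM g)]
            exact mul_le_mul h4 h3 (by linarith) (by linarith)
          linarith
        · exact (MM_mul g q).symm
  obtain ⟨m, hm⟩ := pow_unbounded_of_one_lt T hr1
  apply (key m).subset
  rintro x ⟨hxT, f, hf, hPf, hfx⟩
  exact ⟨hxT, lt_of_le_of_lt hxT hm, f, hf, hPf, hfx⟩

/-- a set of reals which is finite below every bound is closed -/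
lemma isClosed_of_finite_below {S : Set ℝ} (h : ∀ T : ℝ, {x : ℝ | x ≤ T ∧ x ∈ S}.Finite) :
    IsClosed S := by
  rw [← isSeqClosed_iff_isClosed]
  intro u x hu hx
  obtain ⟨T, hT⟩ : ∃ T : ℝ, ∀ n, u n ≤ T := by
    obtain ⟨T, hT⟩ := hx.bddAbove_range
    exact ⟨T, fun n => hT ⟨n, rfl⟩⟩
  have hcl := (h T).isClosed
  have h1 : x ∈ {x : ℝ | x ≤ T ∧ x ∈ S} := hcl.mem_of_tendsto hx
    (Filter.Eventually.of_forall fun n => ⟨hT n, hu n⟩)
  exact h1.2

end Pool.Agent.Run7.h22
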