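import Mathlib
import Pool.Agent.Run7.h22.Ine2
import Pool.Agent.Run7.h22.Rel7

/-!
# Heights of units and automorphisms in decomposition groups with few conjugates
-/

set_option autoImplicit false

open Finset Module NumberField Polynomial

namespace Pool.Agent.Run7.h22

open Pool.Agent.H388SL
open scoped Pointwise

variable {K : Type} [Field K] [NumberField K]

/-- the units which are congruent to one modulo `𝔓 ^ s`, for all `𝔓` which are good for `σ` -/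
def CongS (p q s : ℕ) (σ : K ≃ₐ[ℚ] K) (x : K) : Prop :=
  ∃ u : (𝓞 K)ˣ, algebraMap (𝓞 K) K (u : 𝓞 K) = x ∧
    ∀ 𝔓 : Ideal (𝓞 K), IsDec p q s σ 𝔓 → (u : 𝓞 K) - 1 ∈ 𝔓 ^ s

lemma goodT_dec [IsGalois ℚ K] {p q s e k w : ℕ} (hp : p.Prime) (hs : 1 ≤ s)
    (hram : ∀ 𝔓 : Ideal (𝓞 K), 𝔓.IsPrime → (p : 𝓞 K) ∈ 𝔓 → (p : 𝓞 K) ∉ 𝔓 ^ (e + 1))
    {σ : K ≃ₐ[ℚ] K} {Φ : Finset (Ideal (𝓞 K))} (hΦ : Φ.Nonempty)
    (hF : ∀ 𝔓 ∈ Φ, IsDec p q s σ 𝔓) (hbot : ∀ 𝔓 ∈ Φ, 𝔓 ≠ ⊥)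
    (hN : (finrank ℚ K : ℝ) * Real.log p ≤ e * k * ∑ 𝔓 ∈ Φ, Real.log (Ideal.absNorm 𝔓))
    (hidx : (Subgroup.centralizer {σ}).index ≤ k) (hw1 : 2 * e * k ≤ s * w) (hw2 : k ≤ w) :
    GoodT K w (p ^ Nat.log p (2 * e / s)) (Subgroup.centralizer {σ}) (CongS p q s σ) where
  tpos := Nat.one_le_pow _ _ hp.pos
  index := by
    rcases Nat.eq_zero_or_pos (2 * e / s) with h0 | h0
    · rw [h0, Nat.log_zero_right, pow_zero, mul_one]
      exact hidx.trans hw2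
    · have h1 : p ^ Nat.log p (2 * e / s) ≤ 2 * e / s := Nat.pow_log_le_self p h0.ne'
      have h2 : p ^ Nat.log p (2 * e / s) * s ≤ 2 * e :=
        (Nat.mul_le_mul_right s h1).trans (Nat.div_mul_le_self _ _)
      have h3 : (Subgroup.centralizer {σ}).index * p ^ Nat.log p (2 * e / s) * s ≤ w * s := by
        calc (Subgroup.centralizer {σ}).index * p ^ Nat.log p (2 * e / s) * s
            = (Subgroup.centralizer {σ}).index * (p ^ Nat.log p (2 * e / s) * s) := by ring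
          _ ≤ k * (2 * e) := Nat.mul_le_mul hidx h2
          _ = 2 * e * k := by ring
          _ ≤ s * w := hw1
          _ = w * s := by ring
      exact Nat.le_of_mul_le_mul_right h3 (by omega)
  one := ⟨1, by simp, fun 𝔓 _ => by simp⟩
  mul := by
    rintro _ _ ⟨u, rfl, hu⟩ ⟨v, rfl, hv⟩
    refine ⟨u * v, by simp, fun 𝔓 h𝔓 => ?_⟩
    have h1 : ((u * v : (𝓞 K)ˣ) : 𝓞 K) - 1 = ((u : 𝓞 K) - 1) * v + ((v : 𝓞 K) - 1) := by
      push_cast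
      ring
    rw [h1]
    exact Ideal.add_mem _ (Ideal.mul_mem_right _ _ (hu 𝔓 h𝔓)) (hv 𝔓 h𝔓)
  inv := by
    rintro _ ⟨u, rfl, hu⟩
    refine ⟨u⁻¹, ?_, fun 𝔓 h𝔓 => ?_⟩
    · have h1 : algebraMap (𝓞 K) K (u : 𝓞 K) * algebraMap (𝓞 K) K ((u⁻¹ : (𝓞 K)ˣ) : 𝓞 K) = 1 := by
        rw [← map_mul, ← Units.val_mul, mul_inv_cancel]
        simp
      exact eq_inv_of_mul_eq_one_right h1
    · have h1 : ((u⁻¹ : (𝓞 K)ˣ) : 𝓞 K) - 1 = (-((u⁻¹ : (𝓞 K)ˣ) : 𝓞 K)) * ((u : 𝓞 K) - 1) := by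
        have h2 : ((u⁻¹ : (𝓞 K)ˣ) : 𝓞 K) * (u : 𝓞 K) = 1 := by
          rw [← Units.val_mul, inv_mul_cancel, Units.val_one]
        linear_combination h2
      rw [h1]
      exact Ideal.mul_mem_left _ _ (hu 𝔓 h𝔓)
  ne_zero := by
    rintro _ ⟨u, rfl, _⟩ h0
    have h1 : (u : 𝓞 K) = 0 := by
      apply RingOfIntegers.coe_injective
      rw [h0, map_zero]
    exact u.ne_zero h1
  int := by
    rintro _ ⟨u, rfl, _⟩
    exact RingOfIntegers.isIntegral_coe _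
  aut := by
    rintro g hg _ ⟨u, rfl, hu⟩
    set φ := MulSemiringAction.toRingHom (K ≃ₐ[ℚ] K) (𝓞 K) g with hφ
    refine ⟨Units.map (φ : 𝓞 K →* 𝓞 K) u, ?_, fun 𝔓 h𝔓 => ?_⟩
    · exact smul_coe g u
    · have hcomm := Subgroup.mem_centralizer_singleton_iff.mp hg
      have hcomm' : g⁻¹ * σ = σ * g⁻¹ := by
        rw [inv_mul_eq_iff_eq_mul, ← mul_assoc, hcomm, mul_assoc, mul_inv_cancel, mul_one]
      have h1 := h𝔓.of_comm hcomm'
      have h2 := hu _ h1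
      rw [← smul_pow_ideal] at h2
      have h3 : g • ((u : 𝓞 K) - 1) ∈ 𝔓 ^ s := Ideal.mem_inv_pointwise_smul_iff.mp h2
      have h4 : ((Units.map (φ : 𝓞 K →* 𝓞 K) u : (𝓞 K)ˣ) : 𝓞 K) - 1 = g • ((u : 𝓞 K) - 1) := by
        rw [smul_sub, smul_one]
        rfl
      rw [h4]
      exact h3
  torsion := by
    rintro _ ⟨u, rfl, hu⟩ n hn hn1
    obtain ⟨𝔓, h𝔓Φ⟩ := hΦ
    have h𝔓 := hF 𝔓 h𝔓Φ
    have hun : (u : 𝓞 K) ^ n = 1 := by
      apply RingOfIntegers.coe_injective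
      rw [map_pow, hn1, map_one]
    have h1 := root_order hp h𝔓.1 h𝔓.2.1 (hram 𝔓 h𝔓.1 h𝔓.2.1) hs (hu 𝔓 h𝔓) hn hun
    rw [← map_pow, h1, map_one]
  energy := by
    intro ι _ u hu hQ τ hτ hX
    have hk1 : 1 ≤ k :=
      (Nat.pos_of_ne_zero Subgroup.FiniteIndex.index_ne_zero : 0 < (Subgroup.centralizer {σ}).index).trans_le hidx
    have hw1' : (1:ℝ) ≤ (w : ℝ) := by exact_mod_cast hk1.trans hw2
    apply energy_bound_norm u hu hw1' _ hτ hX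
    intro i j hij
    obtain ⟨a, ha, ha2⟩ := hQ i
    obtain ⟨b, hb, hb2⟩ := hQ j
    set x : 𝓞 K := (a : 𝓞 K) - b with hx
    have hx0 : x ≠ 0 := by
      intro h0
      apply hij
      apply hu
      rw [← ha, ← hb]
      rw [hx, sub_eq_zero] at h0
      rw [h0]
    have hxu : algebraMap (𝓞 K) K x = u i - u j := by
      rw [hx, map_sub, ha, hb]
    have hxm : ∀ 𝔓 ∈ Φ, x ∈ 𝔓 ^ s := by
      intro 𝔓 h𝔓
      have h1 := Ideal.sub_mem _ (ha2 𝔓 (hF 𝔓 h𝔓)) (hb2 𝔓 (hF 𝔓 h𝔓))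
      have h2 : (a : 𝓞 K) - 1 - ((b : 𝓞 K) - 1) = x := by rw [hx]; ring
      rwa [h2] at h1
    have h1 := log_norm_ge_pow hbot (fun 𝔓 h𝔓 => (hF 𝔓 h𝔓).1) s hx0 hxm
    have h2 : ∀ φ : K →ₐ[ℚ] ℂ, φ (u i) - φ (u j) = φ (algebraMap (𝓞 K) K x) := by
      intro φ
      rw [hxu, map_sub]
    simp_rw [h2]
    set L := ∑ φ : K →ₐ[ℚ] ℂ, Real.log ‖φ (algebraMap (𝓞 K) K x)‖ with hL
    set S := ∑ 𝔓 ∈ Φ, Real.log (Ideal.absNorm 𝔓) with hS
    have hlp : Real.log 2 ≤ Real.log p := by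
      apply Real.log_le_log (by norm_num)
      exact_mod_cast hp.two_le
    have hS0 : 0 ≤ S := Finset.sum_nonneg fun 𝔓 _ => Real.log_natCast_nonneg _
    have hL0 : 0 ≤ L := le_trans (mul_nonneg (Nat.cast_nonneg _) hS0) h1
    have hs0 : (0:ℝ) < s := by exact_mod_cast hs
    have hew : (e : ℝ) * k ≤ s * w := by
      have : e * k ≤ s * w := by
        have h3 : 2 * e * k = 2 * (e * k) := by ring
        omega
      exact_mod_cast this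
    have h3 : (s : ℝ) * ((finrank ℚ K : ℝ) * Real.log 2) ≤ s * (w * L) := by
      calc (s : ℝ) * ((finrank ℚ K : ℝ) * Real.log 2) ≤ s * (finrank ℚ K * Real.log p) := by gcongr
        _ ≤ s * (e * k * S) := by gcongr
        _ = (e * k) * (s * S) := by ring
        _ ≤ (s * w) * L := by
            apply mul_le_mul hew h1 (by positivity) (by positivity)
        _ = s * (w * L) := by ring
    exact le_of_mul_le_mul_left h3 hs0

/-- the conjugates of an automorphism are the conjugates of its conjugates -/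
lemma index_le_conj {σ₀ σ : K ≃ₐ[ℚ] K} (h : σ ∈ conjSet σ₀) :
    (Subgroup.centralizer {σ}).index ≤ (conjSet σ₀).ncard := by
  apply index_le_of_conj
  intro g
  obtain ⟨g', rfl⟩ := h
  exact ⟨g * g', by group⟩

/-- **Units in a Galois number field and automorphisms in decomposition groups with few conjugates.** -/
theorem field_dec : ∃ C : ℝ, 0 < C ∧ ∀ (K : Type) [Field K] [NumberField K] [IsGalois ℚ K]
    (p q s e w : ℕ), p.Prime → 1 ≤ q → 1 ≤ s →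
    (∀ 𝔓 : Ideal (𝓞 K), 𝔓.IsPrime → (p : 𝓞 K) ∈ 𝔓 → (p : 𝓞 K) ∉ 𝔓 ^ (e + 1)) →
    ∀ (σ : K ≃ₐ[ℚ] K) (𝔓 : Ideal (𝓞 K)), IsDec p q s σ 𝔓 →
    2 * e * (conjSet σ).ncard ≤ s * w → (conjSet σ).ncard ≤ w → ∀ α : K, IsU α →
    (∀ n : ℕ, 0 < n → (σ α) ^ n ≠ (α ^ q) ^ n) →
    (finrank ℚ K : ℝ) ≤ C * q * (w * Real.exp (9 * Real.sqrt (Real.log (2 * w)))) * lam α := by
  obtain ⟨C, hC, hmain⟩ := abs_tor
  refine ⟨2 * C, by positivity, ?_⟩
  intro K _ _ _ p q s e w hp hq hs hram σ₀ 𝔓₀ h₀ hw1 hw2 α₀ hα₀ hroot₀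
  obtain ⟨σ, Φ, hσ, hΦ, hF, hbot, hN⟩ := exists_sigma_dec hp hram h₀
  have hgood := goodT_dec (w := w) hp hs hram hΦ hF hbot hN (index_le_conj hσ) hw1 hw2
  obtain ⟨g, rfl⟩ := hσ
  -- the conjugate of `α`
  set α : K := g α₀ with hα
  have hαU : IsU α := hα₀.aut g
  obtain ⟨h0, hi, hi'⟩ := hαU
  set σ : K ≃ₐ[ℚ] K := g * σ₀ * g⁻¹ with hσ
  have hσα : σ α = g (σ₀ α₀) := by
    rw [hσ, hα, AlgEquiv.mul_apply, AlgEquiv.mul_apply, ← AlgEquiv.mul_apply g⁻¹ g, inv_mul_cancel,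
      AlgEquiv.one_apply]
  set b : 𝓞 K := ⟨α, hi⟩ with hb
  set b' : 𝓞 K := ⟨α⁻¹, hi'⟩ with hb'
  have hbα : algebraMap (𝓞 K) K b = α := rfl
  have hbα' : algebraMap (𝓞 K) K b' = α⁻¹ := rfl
  have hbb : b * b' = 1 := by
    apply RingOfIntegers.coe_injective
    rw [map_mul, hbα, hbα', mul_inv_cancel₀ h0, map_one]
  set v : (𝓞 K)ˣ := ⟨b, b', hbb, by rw [mul_comm]; exact hbb⟩ with hv
  have haα : algebraMap (𝓞 K) K (v : 𝓞 K) = α := rfl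
  set φ := MulSemiringAction.toRingHom (K ≃ₐ[ℚ] K) (𝓞 K) σ with hφ
  set c : (𝓞 K)ˣ := Units.map (φ : 𝓞 K →* 𝓞 K) v with hc
  have hcσ : algebraMap (𝓞 K) K (c : 𝓞 K) = σ α := smul_coe σ b
  have hσ0 : σ α ≠ 0 := (map_ne_zero σ).mpr h0
  set γ : K := α ^ q * (σ α)⁻¹ with hγ
  have hQ : CongS p q s σ γ := by
    refine ⟨v ^ q * c⁻¹, ?_, fun 𝔓 h𝔓 => ?_⟩
    · rw [Units.val_mul, map_mul, Units.val_pow_eq_pow_val, map_pow, haα]
      have h1 : algebraMap (𝓞 K) K ((c⁻¹ : (𝓞 K)ˣ) : 𝓞 K) = (σ α)⁻¹ := by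
        apply eq_inv_of_mul_eq_one_right
        rw [← hcσ, ← map_mul, ← Units.val_mul, mul_inv_cancel]
        simp
      rw [h1]
    · have h1 : (v : 𝓞 K) ^ q - c ∈ 𝔓 ^ s := by
        have h2 := h𝔓.2.2 (v : 𝓞 K)
        have h3 : (c : 𝓞 K) = σ • (v : 𝓞 K) := rfl
        rw [h3, ← neg_sub]
        exact neg_mem h2
      have h3 : ((v ^ q * c⁻¹ : (𝓞 K)ˣ) : 𝓞 K) - 1 =
          ((v : 𝓞 K) ^ q - (c : 𝓞 K)) * ((c⁻¹ : (𝓞 K)ˣ) : 𝓞 K) := by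
        have h4 : (c : 𝓞 K) * ((c⁻¹ : (𝓞 K)ˣ) : 𝓞 K) = 1 := by
          rw [← Units.val_mul, mul_inv_cancel, Units.val_one]
        rw [sub_mul, h4, Units.val_mul, Units.val_pow_eq_pow_val]
      rw [h3]
      exact Ideal.mul_mem_right _ _ h1
  have hγ1 : ∀ n : ℕ, 0 < n → γ ^ n ≠ 1 := by
    intro n hn h
    apply hroot₀ n hn
    apply g.injective
    rw [map_pow, map_pow, map_pow, ← hσα, ← hα]
    rw [hγ, mul_pow, inv_pow] at h
    exact ((mul_inv_eq_one₀ (pow_ne_zero n hσ0)).mp h).symm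
  have hlγ : lam γ ≤ 2 * q * lam α := by
    rw [hγ]
    refine (lam_mul_le _ _).trans ?_
    have hs1 : IsIntegral ℤ (σ α) := hi.map (σ : K →ₐ[ℚ] K)
    have hs2 : IsIntegral ℤ (σ α)⁻¹ := by
      rw [← map_inv₀]
      exact hi'.map (σ : K →ₐ[ℚ] K)
    have hls : lam (σ α) = lam α := lam_aut σ α
    rw [lam_pow, lam_inv hs1 hs2 hσ0, hls]
    have hq1 : (1:ℝ) ≤ q := by exact_mod_cast hq
    have := mul_le_mul_of_nonneg_right hq1 (lam_nonneg α)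
    linarith
  have h1 := hmain K w _ (Subgroup.centralizer {σ}) (CongS p q s σ) hgood γ hQ hγ1
  have hlα : lam α = lam α₀ := by rw [hα, lam_aut]
  rw [hlα] at hlγ
  refine h1.trans ?_
  have h2 : 0 ≤ C * (w * Real.exp (9 * Real.sqrt (Real.log (2 * w)))) := by positivity
  calc C * (w * Real.exp (9 * Real.sqrt (Real.log (2 * w)))) * lam γ
      ≤ C * (w * Real.exp (9 * Real.sqrt (Real.log (2 * w)))) * (2 * q * lam α₀) :=
        mul_le_mul_of_nonneg_left hlγ h2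
    _ = _ := by ring

end Pool.Agent.Run7.h22
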