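import Mathlib
import Pool.Agent.Run7.h22.Ine3

/-!
# Lehmer's problem and automorphisms in decomposition groups with few conjugates
-/

set_option autoImplicit false

open Finset Module Polynomial NumberField

namespace Pool.Agent.Run7.h22

open Pool.Agent.H388SL

/-- the inequality for irreducible polynomials -/
theorem poly_dec : ∃ C : ℝ, 0 < C ∧ ∀ (K : Type) [Field K] [NumberField K] [IsGalois ℚ K]
    (p q s e w : ℕ), p.Prime → 1 ≤ q → 1 ≤ s →
    (∀ 𝔓 : Ideal (𝓞 K), 𝔓.IsPrime → (p : 𝓞 K) ∈ 𝔓 → (p : 𝓞 K) ∉ 𝔓 ^ (e + 1)) →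
    ∀ (σ : K ≃ₐ[ℚ] K) (𝔓 : Ideal (𝓞 K)), IsDec p q s σ 𝔓 →
    2 * e * (conjSet σ).ncard ≤ s * w → (conjSet σ).ncard ≤ w → ∀ f : ℤ[X],
    Irreducible f → 1 < MM f → MM f < 2 → ∀ α : K, aeval α f = 0 →
    (∀ n : ℕ, 0 < n → (σ α) ^ n ≠ (α ^ q) ^ n) →
    (f.natDegree : ℝ) ≤ C * (q * w * Real.exp (9 * Real.sqrt (Real.log (2 * w)))) *
        Real.log (MM f) := by
  obtain ⟨C, hC, h⟩ := field_dec
  refine ⟨C, hC, ?_⟩
  intro K _ _ _ p q s e w hp hq hs hram σ 𝔓 hσ hw1 hw2 f hf h1 h2 α hα hroot'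
  obtain ⟨hU, hroot, hlam⟩ := unit_of_root f hf h1 h2 hα
  have h3 := h K p q s e w hp hq hs hram σ 𝔓 hσ hw1 hw2 α hU hroot'
  set B : ℝ := C * (q * w * Real.exp (9 * Real.sqrt (Real.log (2 * w)))) with hB
  have h3' : (finrank ℚ K : ℝ) ≤ B * lam α := by
    have h4 : C * q * (w * Real.exp (9 * Real.sqrt (Real.log (2 * w)))) * lam α = B * lam α := by
      rw [hB]; ring
    rw [← h4]
    exact h3
  have hN : (0:ℝ) < finrank ℚ K := by
    exact_mod_cast (finrank_pos : 0 < finrank ℚ K)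
  have h4 : (f.natDegree : ℝ) * finrank ℚ K ≤ (B * Real.log (MM f)) * finrank ℚ K := by
    have h5 : (f.natDegree : ℝ) * finrank ℚ K ≤
        f.natDegree * (B * lam α) := mul_le_mul_of_nonneg_left h3' (Nat.cast_nonneg _)
    have h6 : (f.natDegree : ℝ) * (B * lam α) = (B * Real.log (MM f)) * finrank ℚ K := by
      linear_combination (-B) * hlam
    linarith
  exact le_of_mul_le_mul_right h4 hN

/-- a zero of a polynomial with a measure between one and two is not equal, up to roots of unity, to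
the `q`-th power of a conjugate of it, if `q > 1` -/
lemma not_power {K : Type} [Field K] [NumberField K] {α : K} (hU : IsU α)
    (hroot : ∀ n : ℕ, 0 < n → α ^ n ≠ 1) (σ : K ≃ₐ[ℚ] K) {q : ℕ} (hq : 2 ≤ q) :
    ∀ n : ℕ, 0 < n → (σ α) ^ n ≠ (α ^ q) ^ n := by
  intro n hn h
  have h1 := congrArg lam h
  rw [lam_pow, lam_pow, lam_pow, lam_aut] at h1
  have h2 := lam_pos hU.2.1 hU.1 hroot
  have h3 : (2:ℝ) ≤ q := by exact_mod_cast hq
  have h4 : (0:ℝ) < n := by exact_mod_cast hn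
  have h5 : (n : ℝ) * lam α * ((q : ℝ) - 1) = 0 := by linarith
  have h6 : 0 < (n : ℝ) * lam α * ((q : ℝ) - 1) := by
    have : (0:ℝ) < (q : ℝ) - 1 := by linarith
    positivity
  linarith

end Pool.Agent.Run7.h22
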