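import Mathlib
import Pool.Agent.Run7.h22.Ine3
import Pool.Agent.Run7.h22.Sal

/-!
# The primes in the orbit of a subgroup, and units which are congruent to one modulo them
-/

set_option autoImplicit false

open Finset Module NumberField Polynomial

namespace Pool.Agent.Run7.h22

open Pool.Agent.H388SL
open scoped Pointwise

variable {K : Type} [Field K] [NumberField K]

lemma absNorm_smul (g : K ≃ₐ[ℚ] K) (I : Ideal (𝓞 K)) : Ideal.absNorm (g • I) = Ideal.absNorm I := by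
  rw [Ideal.absNorm_apply, Ideal.absNorm_apply, Submodule.cardQuot_apply, Submodule.cardQuot_apply]
  refine (Nat.card_congr (Ideal.quotientEquiv I (g • I)
    (MulSemiringAction.toRingEquiv (K ≃ₐ[ℚ] K) (𝓞 K) g) ?_).toEquiv).symm
  rw [Ideal.pointwise_smul_def]
  rfl

/-- the sum over all the primes above `p` -/
lemma primes_all {p e : ℕ} (hp : p.Prime)
    (hram : ∀ 𝔓 : Ideal (𝓞 K), 𝔓.IsPrime → (p : 𝓞 K) ∈ 𝔓 → (p : 𝓞 K) ∉ 𝔓 ^ (e + 1)) :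
    ∃ T : Finset (Ideal (𝓞 K)), (∀ 𝔓 ∈ T, 𝔓.IsPrime ∧ (p : 𝓞 K) ∈ 𝔓 ∧ 𝔓 ≠ ⊥) ∧
      (finrank ℚ K : ℝ) * Real.log p ≤ e * ∑ 𝔓 ∈ T, Real.log (Ideal.absNorm 𝔓) := by
  classical
  set I : Ideal (𝓞 K) := Ideal.span {(p : 𝓞 K)} with hI
  have hI0 : I ≠ ⊥ := by
    rw [hI, Ne, Ideal.span_singleton_eq_bot]
    exact_mod_cast hp.ne_zero
  set F := (UniqueFactorizationMonoid.normalizedFactors I) with hF
  have hFprime : ∀ 𝔓 ∈ F, 𝔓.IsPrime ∧ (p : 𝓞 K) ∈ 𝔓 ∧ 𝔓 ≠ ⊥ := by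
    intro 𝔓 h
    have h1 := UniqueFactorizationMonoid.prime_of_normalized_factor 𝔓 h
    have h2 := UniqueFactorizationMonoid.dvd_of_mem_normalizedFactors h
    refine ⟨Ideal.isPrime_of_prime h1, ?_, h1.ne_zero⟩
    have h3 : I ≤ 𝔓 := Ideal.dvd_iff_le.mp h2
    exact h3 (Ideal.mem_span_singleton_self _)
  have hprod : F.prod = I := by
    rw [hF]
    exact Ideal.prod_normalizedFactors_eq_self hI0
  have hcount : ∀ 𝔓, F.count 𝔓 ≤ e := by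
    intro 𝔓
    by_contra hc
    push Not at hc
    have hmem : 𝔓 ∈ F := Multiset.count_pos.mp (by omega)
    have h1 := hFprime 𝔓 hmem
    have h2 : 𝔓 ^ (e + 1) ∣ I := by
      rw [← hprod]
      have h3 : Multiset.replicate (e + 1) 𝔓 ≤ F := Multiset.le_count_iff_replicate_le.mp hc
      have h4 := Multiset.prod_dvd_prod_of_le h3
      rwa [Multiset.prod_replicate] at h4
    have h3 : I ≤ 𝔓 ^ (e + 1) := Ideal.dvd_iff_le.mp h2
    exact hram 𝔓 h1.1 h1.2.1 (h3 (Ideal.mem_span_singleton_self _))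
  have hnorm : ((F.map (fun 𝔓 => Real.log (Ideal.absNorm 𝔓))).sum) = finrank ℚ K * Real.log p := by
    have h1 : ((Ideal.absNorm I : ℕ) : ℝ) = (p : ℝ) ^ finrank ℚ K := by
      rw [hI, Ideal.absNorm_span_natCast, RingOfIntegers.rank]
      push_cast
      rfl
    have h2 : Real.log (Ideal.absNorm I) = finrank ℚ K * Real.log p := by
      rw [h1, Real.log_pow]
    rw [← h2, ← hprod]
    have h3 : ∀ s : Multiset (Ideal (𝓞 K)), (∀ 𝔓 ∈ s, 𝔓 ≠ ⊥) →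
        (s.map (fun 𝔓 => Real.log (Ideal.absNorm 𝔓))).sum = Real.log (Ideal.absNorm s.prod) := by
      intro s
      induction s using Multiset.induction_on with
      | empty => intro _; simp
      | cons a s ih =>
        intro h
        rw [Multiset.map_cons, Multiset.sum_cons, Multiset.prod_cons, map_mul,
          ih fun 𝔓 h𝔓 => h 𝔓 (Multiset.mem_cons_of_mem h𝔓)]
        push_cast
        rw [Real.log_mul]
        · have := h a (Multiset.mem_cons_self a s)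
          exact_mod_cast (Ideal.absNorm_eq_zero_iff.not.mpr this)
        · have : s.prod ≠ 0 := by
            rw [Ne, Multiset.prod_eq_zero_iff]
            intro h0
            exact h 0 (Multiset.mem_cons_of_mem h0) rfl
          exact_mod_cast (Ideal.absNorm_eq_zero_iff.not.mpr this)
    exact h3 F fun 𝔓 h => (hFprime 𝔓 h).2.2
  have hlogpos : ∀ 𝔓 : Ideal (𝓞 K), 0 ≤ Real.log (Ideal.absNorm 𝔓) := fun 𝔓 =>
    Real.log_natCast_nonneg _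
  refine ⟨F.toFinset, fun 𝔓 h => hFprime 𝔓 (Multiset.mem_toFinset.mp h), ?_⟩
  rw [← hnorm, Finset.sum_multiset_map_count, Finset.mul_sum]
  apply Finset.sum_le_sum
  intro 𝔓 _
  rw [nsmul_eq_mul]
  apply mul_le_mul_of_nonneg_right _ (hlogpos 𝔓)
  exact_mod_cast hcount 𝔓

/-- the orbit of a prime above `p` under a subgroup contains a proportion of at least
`1 / (e [G : H])` of the norm of `p` -/
lemma primes_orbit [IsGalois ℚ K] {p e : ℕ} (hp : p.Prime)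
    (hram : ∀ 𝔓 : Ideal (𝓞 K), 𝔓.IsPrime → (p : 𝓞 K) ∈ 𝔓 → (p : 𝓞 K) ∉ 𝔓 ^ (e + 1))
    {𝔓₀ : Ideal (𝓞 K)} (h₀ : 𝔓₀.IsPrime) (h₀' : (p : 𝓞 K) ∈ 𝔓₀) (H : Subgroup (K ≃ₐ[ℚ] K)) :
    ∃ Φ : Finset (Ideal (𝓞 K)), (∀ 𝔓, 𝔓 ∈ Φ ↔ ∃ g ∈ H, 𝔓 = g • 𝔓₀) ∧
      (finrank ℚ K : ℝ) * Real.log p ≤ e * H.index * ∑ 𝔓 ∈ Φ, Real.log (Ideal.absNorm 𝔓) := by
  classical
  obtain ⟨T, hT, hsum⟩ := primes_all hp hram
  set X : Set (Ideal (𝓞 K)) := (fun g : K ≃ₐ[ℚ] K => g • 𝔓₀) '' (H : Set (K ≃ₐ[ℚ] K)) with hX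
  have hXfin : X.Finite := (Set.toFinite _).image _
  set Φ := hXfin.toFinset with hΦ
  have hmem : ∀ 𝔓, 𝔓 ∈ Φ ↔ ∃ g ∈ H, 𝔓 = g • 𝔓₀ := by
    intro 𝔓
    rw [hΦ, Set.Finite.mem_toFinset, hX]
    constructor
    · rintro ⟨g, hg, rfl⟩
      exact ⟨g, hg, rfl⟩
    · rintro ⟨g, hg, rfl⟩
      exact ⟨g, hg, rfl⟩
  refine ⟨Φ, hmem, ?_⟩
  have hfint : Fintype ((K ≃ₐ[ℚ] K) ⧸ H) := Fintype.ofFinite _
  have hcard : Fintype.card ((K ≃ₐ[ℚ] K) ⧸ H) = H.index := by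
    rw [Subgroup.index, Nat.card_eq_fintype_card]
  have hlogpos : ∀ 𝔓 : Ideal (𝓞 K), 0 ≤ Real.log (Ideal.absNorm 𝔓) := fun 𝔓 =>
    Real.log_natCast_nonneg _
  have hcov : T ⊆ (Finset.univ : Finset ((K ≃ₐ[ℚ] K) ⧸ H)).biUnion fun c =>
      Φ.image fun 𝔓 => (c.out : K ≃ₐ[ℚ] K) • 𝔓 := by
    intro 𝔓 h𝔓
    obtain ⟨h1, h2, _⟩ := hT 𝔓 h𝔓
    obtain ⟨g, hg⟩ := Algebra.IsInvariant.exists_smul_of_under_eq ℤ (𝓞 K) (K ≃ₐ[ℚ] K) 𝔓₀ 𝔓
      (by rw [under_eq hp h₀ h₀', under_eq hp h1 h2])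
    rw [Finset.mem_biUnion]
    refine ⟨QuotientGroup.mk g, Finset.mem_univ _, ?_⟩
    set a : K ≃ₐ[ℚ] K := (QuotientGroup.mk g : (K ≃ₐ[ℚ] K) ⧸ H).out with ha
    have h3 : a⁻¹ * g ∈ H := by
      rw [← QuotientGroup.eq]
      exact QuotientGroup.out_eq' _
    refine Finset.mem_image.mpr ⟨(a⁻¹ * g) • 𝔓₀, (hmem _).mpr ⟨_, h3, rfl⟩, ?_⟩
    rw [smul_smul, mul_inv_cancel_left, hg]
  have hTc : T.card ≤ H.index * Φ.card := by
    calc T.card ≤ _ := Finset.card_le_card hcov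
      _ ≤ (Finset.univ : Finset ((K ≃ₐ[ℚ] K) ⧸ H)).card * Φ.card := by
          apply Finset.card_biUnion_le_card_mul
          intro c _
          exact Finset.card_image_le
      _ = _ := by rw [Finset.card_univ, hcard]
  have hnT : ∀ 𝔓 ∈ T, Real.log (Ideal.absNorm 𝔓) = Real.log (Ideal.absNorm 𝔓₀) := by
    intro 𝔓 h𝔓
    obtain ⟨h1, h2, _⟩ := hT 𝔓 h𝔓
    obtain ⟨g, hg⟩ := Algebra.IsInvariant.exists_smul_of_under_eq ℤ (𝓞 K) (K ≃ₐ[ℚ] K) 𝔓₀ 𝔓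
      (by rw [under_eq hp h₀ h₀', under_eq hp h1 h2])
    rw [hg, absNorm_smul]
  have hnΦ : ∀ 𝔓 ∈ Φ, Real.log (Ideal.absNorm 𝔓) = Real.log (Ideal.absNorm 𝔓₀) := by
    intro 𝔓 h𝔓
    obtain ⟨g, _, rfl⟩ := (hmem 𝔓).mp h𝔓
    rw [absNorm_smul]
  have h1 : ∑ 𝔓 ∈ T, Real.log (Ideal.absNorm 𝔓) ≤
      H.index * ∑ 𝔓 ∈ Φ, Real.log (Ideal.absNorm 𝔓) := by
    rw [Finset.sum_congr rfl hnT, Finset.sum_congr rfl hnΦ, Finset.sum_const, Finset.sum_const,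
      nsmul_eq_mul, nsmul_eq_mul, ← mul_assoc]
    apply mul_le_mul_of_nonneg_right _ (hlogpos 𝔓₀)
    exact_mod_cast hTc
  calc (finrank ℚ K : ℝ) * Real.log p ≤ e * ∑ 𝔓 ∈ T, Real.log (Ideal.absNorm 𝔓) := hsum
    _ ≤ e * (H.index * ∑ 𝔓 ∈ Φ, Real.log (Ideal.absNorm 𝔓)) := by gcongr
    _ = _ := by ring

/-- the units which are congruent to one modulo the `s`-th powers of the ideals in `Φ` -/
def CongP (s : ℕ) (Φ : Finset (Ideal (𝓞 K))) (x : K) : Prop :=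
  ∃ u : (𝓞 K)ˣ, algebraMap (𝓞 K) K (u : 𝓞 K) = x ∧ ∀ 𝔓 ∈ Φ, (u : 𝓞 K) - 1 ∈ 𝔓 ^ s

lemma CongP.mul {s : ℕ} {Φ : Finset (Ideal (𝓞 K))} {x y : K} (hx : CongP s Φ x)
    (hy : CongP s Φ y) : CongP s Φ (x * y) := by
  obtain ⟨u, rfl, hu⟩ := hx
  obtain ⟨v, rfl, hv⟩ := hy
  refine ⟨u * v, by simp, fun 𝔓 h𝔓 => ?_⟩
  have h1 : ((u * v : (𝓞 K)ˣ) : 𝓞 K) - 1 = ((u : 𝓞 K) - 1) * v + ((v : 𝓞 K) - 1) := by
    push_cast
    ring
  rw [h1]
  exact Ideal.add_mem _ (Ideal.mul_mem_right _ _ (hu 𝔓 h𝔓)) (hv 𝔓 h𝔓)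

lemma CongP.one (s : ℕ) (Φ : Finset (Ideal (𝓞 K))) : CongP s Φ (1 : K) :=
  ⟨1, by simp, fun 𝔓 _ => by simp⟩

lemma CongP.pow {s : ℕ} {Φ : Finset (Ideal (𝓞 K))} {x : K} (hx : CongP s Φ x) (n : ℕ) :
    CongP s Φ (x ^ n) := by
  induction n with
  | zero => rw [pow_zero]; exact CongP.one s Φ
  | succ n ih => rw [pow_succ]; exact ih.mul hx

lemma CongP.prod {s : ℕ} {Φ : Finset (Ideal (𝓞 K))} {ι : Type*} (S : Finset ι) (f : ι → K)
    (hf : ∀ i ∈ S, CongP s Φ (f i)) : CongP s Φ (∏ i ∈ S, f i) := by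
  classical
  induction S using Finset.induction_on with
  | empty => rw [Finset.prod_empty]; exact CongP.one s Φ
  | insert a S ha ih =>
    rw [Finset.prod_insert ha]
    exact (hf a (Finset.mem_insert_self a S)).mul
      (ih fun i hi => hf i (Finset.mem_insert_of_mem hi))

/-- the difference of two different elements has a large norm -/
lemma congP_sep {p s : ℕ} (hp : p.Prime) {Φ : Finset (Ideal (𝓞 K))}
    (hpr : ∀ 𝔓 ∈ Φ, 𝔓.IsPrime) (hbot : ∀ 𝔓 ∈ Φ, 𝔓 ≠ ⊥) {κ : ℝ}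
    (hN : (finrank ℚ K : ℝ) * Real.log p ≤ κ * (s * ∑ 𝔓 ∈ Φ, Real.log (Ideal.absNorm 𝔓)))
    (hκ : 0 ≤ κ) {x y : K} (hx : CongP s Φ x) (hy : CongP s Φ y) (hxy : x ≠ y) :
    (finrank ℚ K : ℝ) * Real.log 2 ≤ κ * ∑ φ : K →ₐ[ℚ] ℂ, Real.log ‖φ x - φ y‖ := by
  obtain ⟨a, ha, ha2⟩ := hx
  obtain ⟨b, hb, hb2⟩ := hy
  set z : 𝓞 K := (a : 𝓞 K) - b with hz
  have hz0 : z ≠ 0 := by
    intro h0
    apply hxy
    rw [← ha, ← hb]
    rw [hz, sub_eq_zero] at h0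
    rw [h0]
  have hzm : ∀ 𝔓 ∈ Φ, z ∈ 𝔓 ^ s := by
    intro 𝔓 h𝔓
    have h1 := Ideal.sub_mem _ (ha2 𝔓 h𝔓) (hb2 𝔓 h𝔓)
    have h2 : (a : 𝓞 K) - 1 - ((b : 𝓞 K) - 1) = z := by rw [hz]; ring
    rwa [h2] at h1
  have h1 := log_norm_ge_pow hbot hpr s hz0 hzm
  have h2 : ∀ φ : K →ₐ[ℚ] ℂ, φ x - φ y = φ (algebraMap (𝓞 K) K z) := by
    intro φ
    rw [hz, map_sub, map_sub, ha, hb]
  simp_rw [h2]
  have hlp : Real.log 2 ≤ Real.log p := by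
    apply Real.log_le_log (by norm_num)
    exact_mod_cast hp.two_le
  calc (finrank ℚ K : ℝ) * Real.log 2 ≤ finrank ℚ K * Real.log p := by gcongr
    _ ≤ κ * (s * ∑ 𝔓 ∈ Φ, Real.log (Ideal.absNorm 𝔓)) := hN
    _ ≤ _ := mul_le_mul_of_nonneg_left h1 hκ

/-- the abstract properties for the orbit of a prime under a subgroup -/
lemma goodT_orbit {p s e w : ℕ} (hp : p.Prime) (hs : 1 ≤ s)
    (hram : ∀ 𝔓 : Ideal (𝓞 K), 𝔓.IsPrime → (p : 𝓞 K) ∈ 𝔓 → (p : 𝓞 K) ∉ 𝔓 ^ (e + 1))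
    {𝔓₀ : Ideal (𝓞 K)} (h₀ : 𝔓₀.IsPrime) (h₀' : (p : 𝓞 K) ∈ 𝔓₀) (H : Subgroup (K ≃ₐ[ℚ] K))
    {Φ : Finset (Ideal (𝓞 K))} (hΦ : ∀ 𝔓, 𝔓 ∈ Φ ↔ ∃ g ∈ H, 𝔓 = g • 𝔓₀)
    (hN : (finrank ℚ K : ℝ) * Real.log p ≤ e * H.index * ∑ 𝔓 ∈ Φ, Real.log (Ideal.absNorm 𝔓))
    (hw1 : 2 * e * H.index ≤ s * w) (hw2 : H.index ≤ w) :
    GoodT K w (p ^ Nat.log p (2 * e / s)) H (CongP s Φ) where
  tpos := Nat.one_le_pow _ _ hp.pos
  index := by
    rcases Nat.eq_zero_or_pos (2 * e / s) with h0 | h0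
    · rw [h0, Nat.log_zero_right, pow_zero, mul_one]
      exact hw2
    · have h1 : p ^ Nat.log p (2 * e / s) ≤ 2 * e / s := Nat.pow_log_le_self p h0.ne'
      have h2 : p ^ Nat.log p (2 * e / s) * s ≤ 2 * e :=
        (Nat.mul_le_mul_right s h1).trans (Nat.div_mul_le_self _ _)
      have h3 : H.index * p ^ Nat.log p (2 * e / s) * s ≤ w * s := by
        calc H.index * p ^ Nat.log p (2 * e / s) * s
            = H.index * (p ^ Nat.log p (2 * e / s) * s) := by ring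
          _ ≤ H.index * (2 * e) := Nat.mul_le_mul_left _ h2
          _ = 2 * e * H.index := by ring
          _ ≤ s * w := hw1
          _ = w * s := by ring
      exact Nat.le_of_mul_le_mul_right h3 (by omega)
  one := CongP.one s Φ
  mul := fun _ _ hx hy => hx.mul hy
  inv := by
    rintro _ ⟨u, rfl, hu⟩
    refine ⟨u⁻¹, ?_, fun 𝔓 h𝔓 => ?_⟩
    · have h1 : algebraMap (𝓞 K) K (u : 𝓞 K) * algebraMap (𝓞 K) K ((u⁻¹ : (𝓞 K)ˣ) : 𝓞 K) = 1 := by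
        rw [← map_mul, ← Units.val_mul, mul_inv_cancel]
        simp
      exact eq_inv_of_mul_eq_one_right h1
    · have h1 : ((u⁻¹ : (𝓞 K)ˣ) : 𝓞 K) - 1 = (-((u⁻¹ : (𝓞 K)ˣ) : 𝓞 K)) * ((u : 𝓞 K) - 1) := by
        have h2 : ((u⁻¹ : (𝓞 K)ˣ) : 𝓞 K) * (u : 𝓞 K) = 1 := by
          rw [← Units.val_mul, inv_mul_cancel, Units.val_one]
        linear_combination h2
      rw [h1]
      exact Ideal.mul_mem_left _ _ (hu 𝔓 h𝔓)
  ne_zero := by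
    rintro _ ⟨u, rfl, _⟩ h0
    have h1 : (u : 𝓞 K) = 0 := by
      apply RingOfIntegers.coe_injective
      rw [h0, map_zero]
    exact u.ne_zero h1
  int := by
    rintro _ ⟨u, rfl, _⟩
    exact RingOfIntegers.isIntegral_coe _
  aut := by
    rintro g hg _ ⟨u, rfl, hu⟩
    set φ := MulSemiringAction.toRingHom (K ≃ₐ[ℚ] K) (𝓞 K) g with hφ
    refine ⟨Units.map (φ : 𝓞 K →* 𝓞 K) u, ?_, fun 𝔓 h𝔓 => ?_⟩
    · exact smul_coe g u
    · have h1 : g⁻¹ • 𝔓 ∈ Φ := by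
        obtain ⟨g', hg', rfl⟩ := (hΦ 𝔓).mp h𝔓
        rw [hΦ]
        exact ⟨g⁻¹ * g', H.mul_mem (H.inv_mem hg) hg', by rw [smul_smul]⟩
      have h2 := hu _ h1
      rw [← smul_pow_ideal] at h2
      have h3 : g • ((u : 𝓞 K) - 1) ∈ 𝔓 ^ s := Ideal.mem_inv_pointwise_smul_iff.mp h2
      have h4 : ((Units.map (φ : 𝓞 K →* 𝓞 K) u : (𝓞 K)ˣ) : 𝓞 K) - 1 = g • ((u : 𝓞 K) - 1) := by
        rw [smul_sub, smul_one]
        rfl
      rw [h4]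
      exact h3
  torsion := by
    rintro _ ⟨u, rfl, hu⟩ n hn hn1
    have h𝔓Φ : 𝔓₀ ∈ Φ := (hΦ _).mpr ⟨1, H.one_mem, by rw [one_smul]⟩
    have hun : (u : 𝓞 K) ^ n = 1 := by
      apply RingOfIntegers.coe_injective
      rw [map_pow, hn1, map_one]
    have h1 := root_order hp h₀ h₀' (hram 𝔓₀ h₀ h₀') hs (hu 𝔓₀ h𝔓Φ) hn hun
    rw [← map_pow, h1, map_one]
  energy := by
    intro ι _ u hu hQ τ hτ hX
    have hk1 : 1 ≤ H.index := Nat.pos_of_ne_zero Subgroup.FiniteIndex.index_ne_zero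
    have hw1' : (1:ℝ) ≤ (w : ℝ) := by exact_mod_cast hk1.trans hw2
    have hpr : ∀ 𝔓 ∈ Φ, 𝔓.IsPrime := by
      intro 𝔓 h𝔓
      obtain ⟨g, _, rfl⟩ := (hΦ 𝔓).mp h𝔓
      exact h₀.smul g
    have hbot : ∀ 𝔓 ∈ Φ, 𝔓 ≠ ⊥ := by
      intro 𝔓 h𝔓 h0
      obtain ⟨g, _, rfl⟩ := (hΦ 𝔓).mp h𝔓
      have h1 : g⁻¹ • (g • 𝔓₀) = g⁻¹ • (⊥ : Ideal (𝓞 K)) := by rw [h0]
      rw [smul_smul, inv_mul_cancel, one_smul] at h1
      have h2 : g⁻¹ • (⊥ : Ideal (𝓞 K)) = ⊥ := by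
        rw [Ideal.pointwise_smul_def, Ideal.map_bot]
      rw [h2] at h1
      rw [h1, Ideal.mem_bot] at h₀'
      exact hp.ne_zero (by exact_mod_cast h₀')
    have hN' : (finrank ℚ K : ℝ) * Real.log p ≤
        w * (s * ∑ 𝔓 ∈ Φ, Real.log (Ideal.absNorm 𝔓)) := by
      have hS0 : 0 ≤ ∑ 𝔓 ∈ Φ, Real.log (Ideal.absNorm 𝔓) :=
        Finset.sum_nonneg fun 𝔓 _ => Real.log_natCast_nonneg _
      have hew : (e : ℝ) * H.index ≤ s * w := by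
        have : e * H.index ≤ s * w := by
          have h3 : 2 * e * H.index = 2 * (e * H.index) := by ring
          omega
        exact_mod_cast this
      calc (finrank ℚ K : ℝ) * Real.log p ≤
          e * H.index * ∑ 𝔓 ∈ Φ, Real.log (Ideal.absNorm 𝔓) := hN
        _ ≤ (s * w) * ∑ 𝔓 ∈ Φ, Real.log (Ideal.absNorm 𝔓) := mul_le_mul_of_nonneg_right hew hS0
        _ = _ := by ring
    apply energy_bound_norm u hu hw1' _ hτ hX
    intro i j hij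
    exact congP_sep hp hpr hbot hN' (by positivity) (hQ i) (hQ j) fun h => hij (hu h)

/-- **Many multiplicatively independent units which are congruent to one modulo many primes.** -/
theorem indep_units {p s : ℕ} (hp : p.Prime) {Φ : Finset (Ideal (𝓞 K))}
    (hpr : ∀ 𝔓 ∈ Φ, 𝔓.IsPrime) (hbot : ∀ 𝔓 ∈ Φ, 𝔓 ≠ ⊥) {κ : ℝ}
    (hN : (finrank ℚ K : ℝ) * Real.log p ≤ κ * (s * ∑ 𝔓 ∈ Φ, Real.log (Ideal.absNorm 𝔓)))
    (hκ : 1 ≤ κ) {r T : ℕ} (γ : Fin r → K) (hγ : ∀ j, CongP s Φ (γ j)) {Λ : ℝ}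
    (hΛ : ∀ j, lam (γ j) ≤ Λ) (hind : LinearIndependent ℤ fun j => lg (γ j))
    (hT : 256 * κ ^ 2 ≤ (T : ℝ) ^ r) :
    (finrank ℚ K : ℝ) ≤ 16 * κ * (r * T * Λ) := by
  classical
  have hN0 : (0:ℝ) < finrank ℚ K := by exact_mod_cast (finrank_pos : 0 < finrank ℚ K)
  have hne : ∀ j, γ j ≠ 0 := by
    intro j
    obtain ⟨u, hu, -⟩ := hγ j
    rw [← hu]
    intro h0
    exact u.ne_zero (RingOfIntegers.coe_injective (by rw [h0, map_zero]))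
  set w : (Fin r → Fin T) → K := fun a => ∏ j, γ j ^ (a j : ℕ) with hw
  have hwP : ∀ a, CongP s Φ (w a) := fun a => CongP.prod _ _ fun j _ => (hγ j).pow _
  have hlgprod : ∀ a : Fin r → Fin T, lg (w a) = ∑ j, ((a j : ℕ) : ℤ) • lg (γ j) := by
    intro a
    have h1 : ∀ S : Finset (Fin r), (∏ j ∈ S, γ j ^ (a j : ℕ)) ≠ 0 ∧
        lg (∏ j ∈ S, γ j ^ (a j : ℕ)) = ∑ j ∈ S, ((a j : ℕ) : ℤ) • lg (γ j) := by
      intro S
      induction S using Finset.induction_on with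
      | empty => exact ⟨by simp, by rw [Finset.prod_empty, Finset.sum_empty]; exact lg_one⟩
      | insert i S hi ih =>
        rw [Finset.prod_insert hi, Finset.sum_insert hi]
        refine ⟨mul_ne_zero (pow_ne_zero _ (hne i)) ih.1, ?_⟩
        rw [lg_mul (pow_ne_zero _ (hne i)) ih.1, ih.2, lg_pow, ← natCast_zsmul]
    exact (h1 Finset.univ).2
  have hinj : Function.Injective w := by
    intro a a' haa
    have h1 := congrArg lg haa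
    rw [hlgprod, hlgprod] at h1
    have h2 : ∑ j, (((a j : ℕ) : ℤ) - ((a' j : ℕ) : ℤ)) • lg (γ j) = 0 := by
      simp_rw [sub_smul]
      rw [Finset.sum_sub_distrib, h1, sub_self]
    have h3 := (Fintype.linearIndependent_iff.mp hind) _ h2
    funext j
    apply Fin.ext
    have := h3 j
    omega
  have hlam : ∀ a, lam (w a) ≤ r * T * Λ := by
    intro a
    refine (lam_prod_le' _ _).trans ?_
    have h1 : ∀ j ∈ (Finset.univ : Finset (Fin r)), lam (γ j ^ (a j : ℕ)) ≤ T * Λ := by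
      intro j _
      rw [lam_pow]
      apply mul_le_mul _ (hΛ j) (lam_nonneg _) (Nat.cast_nonneg _)
      exact_mod_cast (a j).2.le
    refine (Finset.sum_le_sum h1).trans (le_of_eq ?_)
    rw [Finset.sum_const, Finset.card_univ, Fintype.card_fin, nsmul_eq_mul]
    ring
  have hfin := energy_bound_norm (K := K) (ι := Fin r → Fin T) w hinj hκ (by
      intro a a' haa
      exact congP_sep hp hpr hbot hN (by linarith) (hwP a) (hwP a') fun h => haa (hinj h))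
    (τ := r * T * Λ / finrank ℚ K) (by
      intro a
      refine (hlam a).trans (le_of_eq ?_)
      field_simp)
    (by
      rw [Fintype.card_fun, Fintype.card_fin, Fintype.card_fin]
      push_cast
      exact hT)
  rw [le_div_iff₀ hN0] at hfin
  have h3 : (0:ℝ) < 16 * κ := by positivity
  calc (finrank ℚ K : ℝ) = 16 * κ * (1 / (16 * κ) * finrank ℚ K) := by field_simp
    _ ≤ _ := mul_le_mul_of_nonneg_left hfin h3.le

end Pool.Agent.Run7.h22
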