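import Mathlib
import Pool.Agent.Run7.h22.Tra1

/-!
# Units which a normal subgroup maps to themselves or their inverses
-/

set_option autoImplicit false

open Finset Module NumberField Polynomial

namespace Pool.Agent.Run7.h22

open Pool.Agent.H388SL
open scoped Pointwise

/-- a triangular criterion for linear independence -/
lemma tri_indep {X : Type*} {r : ℕ} (u : Fin r → X → ℝ) (A : Fin r → ((X → ℝ) →+ (X → ℝ)))
    (h1 : ∀ j i, i < j → A j (u i) = u i) (h2 : ∀ j, A j (u j) ≠ u j) : LinearIndependent ℤ u := by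
  classical
  rw [Fintype.linearIndependent_iff]
  intro c hc
  by_contra hne
  push Not at hne
  obtain ⟨i₀, hi₀⟩ := hne
  set S : Finset (Fin r) := Finset.univ.filter fun i => c i ≠ 0 with hS
  have hSne : S.Nonempty := ⟨i₀, by rw [hS, Finset.mem_filter]; exact ⟨Finset.mem_univ _, hi₀⟩⟩
  set j := S.max' hSne with hj
  have hjS : j ∈ S := S.max'_mem hSne
  have hcj : c j ≠ 0 := by
    rw [hS, Finset.mem_filter] at hjS
    exact hjS.2
  have hmax : ∀ i, j < i → c i = 0 := by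
    intro i hi
    by_contra h
    have h3 : i ∈ S := by rw [hS, Finset.mem_filter]; exact ⟨Finset.mem_univ _, h⟩
    exact absurd (S.le_max' i h3) (not_le.mpr hi)
  have h3 : ∑ i, c i • (A j (u i) - u i) = 0 := by
    simp_rw [smul_sub]
    rw [Finset.sum_sub_distrib, hc, sub_zero]
    have h4 : ∑ i, c i • A j (u i) = A j (∑ i, c i • u i) := by
      rw [map_sum]
      exact Finset.sum_congr rfl fun i _ => (map_zsmul (A j) (c i) (u i)).symm
    rw [h4, hc, map_zero]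
  have h4 : ∑ i, c i • (A j (u i) - u i) = c j • (A j (u j) - u j) := by
    apply Finset.sum_eq_single j
    · intro i _ hij
      rcases lt_or_gt_of_ne hij with h | h
      · rw [h1 j i h, sub_self, smul_zero]
      · rw [hmax i h, zero_smul]
    · intro h
      exact absurd (Finset.mem_univ j) h
  rw [h4] at h3
  rcases smul_eq_zero.mp h3 with h5 | h5
  · exact hcj h5
  · exact h2 j (sub_eq_zero.mp h5)

variable {K : Type} [Field K] [NumberField K]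

/-- the action of an automorphism on the logarithmic space, as a homomorphism -/
noncomputable def actHom (g : K ≃ₐ[ℚ] K) : ((K →ₐ[ℚ] ℂ) → ℝ) →+ ((K →ₐ[ℚ] ℂ) → ℝ) where
  toFun := act g
  map_zero' := rfl
  map_add' := fun _ _ => rfl

lemma act_inj (g : K ≃ₐ[ℚ] K) {v w : (K →ₐ[ℚ] ℂ) → ℝ} (h : act g v = act g w) : v = w := by
  have h1 : act g⁻¹ (act g v) = act g⁻¹ (act g w) := by rw [h]
  rw [← act_mul, ← act_mul, inv_mul_cancel, act_one, act_one] at h1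
  exact h1

/-- the data -/
structure Data (N H : Subgroup (K ≃ₐ[ℚ] K)) (σ : K ≃ₐ[ℚ] K) (α : K) : Prop where
  normal : N.Normal
  mem : σ ∈ H
  comm : ∀ g ∈ H, g * σ * g⁻¹ * σ⁻¹ ∈ N
  unit : IsU α
  nz : lg α ≠ 0
  sign : ∀ n ∈ N, n α = α ∨ n α = α⁻¹

namespace Data

variable {N H : Subgroup (K ≃ₐ[ℚ] K)} {σ : K ≃ₐ[ℚ] K} {α : K}

lemma sign' (d : Data N H σ α) {n : K ≃ₐ[ℚ] K} (hn : n ∈ N) (g : K ≃ₐ[ℚ] K) :
    n (g α) = g α ∨ n (g α) = (g α)⁻¹ := by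
  have h1 : g⁻¹ * n * g ∈ N := by
    have := d.normal.conj_mem n hn g⁻¹
    rwa [inv_inv] at this
  have h3 : g ((g⁻¹ * n * g) α) = n (g α) := by
    rw [← AlgEquiv.mul_apply, ← AlgEquiv.mul_apply]
    congr 1
    group
  rcases d.sign _ h1 with h2 | h2
  · left; rw [← h3, h2]
  · right; rw [← h3, h2, map_inv₀]

/-- the images under the conjugates of `σ` by elements of `H` -/
lemma conj_image (d : Data N H σ α) {g : K ≃ₐ[ℚ] K} (hg : g ∈ H) (h : K ≃ₐ[ℚ] K) :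
    (g * σ * g⁻¹) (h α) = σ (h α) ∨ (g * σ * g⁻¹) (h α) = (σ (h α))⁻¹ := by
  have h1 := d.comm g hg
  have h2 : (g * σ * g⁻¹) (h α) = (g * σ * g⁻¹ * σ⁻¹) ((σ * h) α) := by
    rw [← AlgEquiv.mul_apply, ← AlgEquiv.mul_apply]
    congr 1
    group
  have h3 : (σ * h) α = σ (h α) := rfl
  rw [h2]
  rcases d.sign' h1 (σ * h) with h4 | h4
  · left; rw [h4, h3]
  · right; rw [h4, h3]

/-- the conjugates under `H` are moved as well -/
lemma moved (d : Data N H σ α) {q : ℕ} (h1 : q • lg α ≠ lg (σ α)) (h2 : q • lg α ≠ -lg (σ α))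
    {h : K ≃ₐ[ℚ] K} (hh : h ∈ H) :
    q • lg (h α) ≠ lg (σ (h α)) ∧ q • lg (h α) ≠ -lg (σ (h α)) := by
  have h3 := d.comm _ (H.inv_mem hh)
  rw [inv_inv] at h3
  have h4 : σ (h α) = h ((h⁻¹ * σ * h * σ⁻¹) (σ α)) := by
    rw [← AlgEquiv.mul_apply, ← AlgEquiv.mul_apply, ← AlgEquiv.mul_apply]
    congr 1
    group
  have hq : q • lg (h α) = act h (q • lg α) := rfl
  have hσ0 : σ α ≠ 0 := (map_ne_zero σ).mpr d.unit.1
  rcases d.sign' h3 σ with h5 | h5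
  · have h6 : lg (σ (h α)) = act h (lg (σ α)) := by rw [h4, h5, lg_act]
    constructor
    · intro h7
      rw [h6, hq] at h7
      exact h1 (act_inj h h7)
    · intro h7
      rw [h6, hq] at h7
      have h8 : -act h (lg (σ α)) = act h (-lg (σ α)) := rfl
      rw [h8] at h7
      exact h2 (act_inj h h7)
  · have h6 : lg (σ (h α)) = act h (-lg (σ α)) := by rw [h4, h5, lg_act, lg_inv]
    constructor
    · intro h7
      rw [h6, hq] at h7
      exact h2 (act_inj h h7)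
    · intro h7
      rw [h6, hq] at h7
      have h8 : -act h (-lg (σ α)) = act h (lg (σ α)) := by
        funext φ
        show -(-(lg (σ α)) (φ.comp (h : K →ₐ[ℚ] K))) = _
        rw [neg_neg]
        rfl
      rw [h8] at h7
      exact h1 (act_inj h h7)

end Data

/-- a triangular family of conjugates -/
def Fam (N H : Subgroup (K ≃ₐ[ℚ] K)) (σ : K ≃ₐ[ℚ] K) (α : K) (m : ℕ) : Prop :=
  ∃ b : Fin m → (K ≃ₐ[ℚ] K), (∀ j, b j ∈ H) ∧ ∀ j, ∃ n ∈ N, n (b j α) ≠ b j α ∧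
    ∀ i, i < j → n (b i α) = b i α ∧ n (σ (b i α)) = σ (b i α)

/-- a family of conjugates which determines the action of `N` -/
def Sat (N H : Subgroup (K ≃ₐ[ℚ] K)) (σ : K ≃ₐ[ℚ] K) (α : K) (m : ℕ) : Prop :=
  ∃ b : Fin m → (K ≃ₐ[ℚ] K), (∀ j, b j ∈ H) ∧ ∀ n ∈ N,
    (∀ i, n (b i α) = b i α ∧ n (σ (b i α)) = σ (b i α)) → ∀ h ∈ H, n (h α) = h α

lemma fam_or_sat (N H : Subgroup (K ≃ₐ[ℚ] K)) (σ : K ≃ₐ[ℚ] K) (α : K) (m : ℕ) :
    Fam N H σ α m ∨ ∃ j, j < m ∧ Sat N H σ α j := by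
  induction m with
  | zero => exact Or.inl ⟨Fin.elim0, fun j => j.elim0, fun j => j.elim0⟩
  | succ m ih =>
    rcases ih with ⟨b, hb, hfam⟩ | ⟨j, hj, hsat⟩
    · by_cases hs : ∀ n ∈ N, (∀ i, n (b i α) = b i α ∧ n (σ (b i α)) = σ (b i α)) →
          ∀ h ∈ H, n (h α) = h α
      · exact Or.inr ⟨m, Nat.lt_succ_self m, b, hb, hs⟩
      · push Not at hs
        obtain ⟨n, hn, hfix, h, hh, hne⟩ := hs
        left
        refine ⟨Fin.snoc b h, ?_, ?_⟩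
        · intro j
          refine Fin.lastCases ?_ (fun j => ?_) j
          · rw [Fin.snoc_last]; exact hh
          · rw [Fin.snoc_castSucc]; exact hb j
        · intro j
          refine Fin.lastCases ?_ (fun j => ?_) j
          · refine ⟨n, hn, ?_, ?_⟩
            · rw [Fin.snoc_last]; exact hne
            · intro i hi
              obtain ⟨i', rfl⟩ : ∃ i' : Fin m, i = i'.castSucc := by
                refine ⟨⟨i, ?_⟩, ?_⟩
                · exact hi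
                · exact Fin.ext rfl
              rw [Fin.snoc_castSucc]
              exact hfix i'
          · obtain ⟨n', hn', hne', hfix'⟩ := hfam j
            refine ⟨n', hn', ?_, ?_⟩
            · rw [Fin.snoc_castSucc]; exact hne'
            · intro i hi
              obtain ⟨i', rfl⟩ : ∃ i' : Fin m, i = i'.castSucc := by
                refine ⟨⟨i, ?_⟩, ?_⟩
                · have h1 : (i : ℕ) < j := hi
                  omega
                · exact Fin.ext rfl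
              rw [Fin.snoc_castSucc]
              exact hfix' i' hi
    · exact Or.inr ⟨j, by omega, hsat⟩

/-- a product of a power of a unit and the inverse of its image -/
lemma congP_of {q s : ℕ} {Φ : Finset (Ideal (𝓞 K))} {x y : K} (hx : IsU x) (hy : IsU y)
    (h : ∀ 𝔓 ∈ Φ, ∃ τ : K ≃ₐ[ℚ] K, τ x = y ∧ ∀ z : 𝓞 K, τ • z - z ^ q ∈ 𝔓 ^ s) :
    CongP s Φ (x ^ q * y⁻¹) := by
  have hunit : ∀ x : K, IsU x → ∃ v : (𝓞 K)ˣ, algebraMap (𝓞 K) K (v : 𝓞 K) = x ∧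
      algebraMap (𝓞 K) K ((v⁻¹ : (𝓞 K)ˣ) : 𝓞 K) = x⁻¹ := by
    intro x hx
    set b : 𝓞 K := ⟨x, hx.2.1⟩ with hb
    set b' : 𝓞 K := ⟨x⁻¹, hx.2.2⟩ with hb'
    have hbα : algebraMap (𝓞 K) K b = x := rfl
    have hbα' : algebraMap (𝓞 K) K b' = x⁻¹ := rfl
    have hbb : b * b' = 1 := by
      apply RingOfIntegers.coe_injective
      rw [map_mul, hbα, hbα', mul_inv_cancel₀ hx.1, map_one]
    exact ⟨⟨b, b', hbb, by rw [mul_comm]; exact hbb⟩, rfl, rfl⟩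
  obtain ⟨v, hv, -⟩ := hunit x hx
  obtain ⟨c, hc, hc'⟩ := hunit y hy
  refine ⟨v ^ q * c⁻¹, ?_, fun 𝔓 h𝔓 => ?_⟩
  · rw [Units.val_mul, map_mul, Units.val_pow_eq_pow_val, map_pow, hv, hc']
  · obtain ⟨τ, hτ, hcong⟩ := h 𝔓 h𝔓
    have h1 : (v : 𝓞 K) ^ q - c ∈ 𝔓 ^ s := by
      have h2 := hcong (v : 𝓞 K)
      have h3 : (c : 𝓞 K) = τ • (v : 𝓞 K) := by
        apply RingOfIntegers.coe_injective
        rw [hc, smul_coe, hv, hτ]
      rw [h3, ← neg_sub]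
      exact neg_mem h2
    have h3 : ((v ^ q * c⁻¹ : (𝓞 K)ˣ) : 𝓞 K) - 1 =
        ((v : 𝓞 K) ^ q - (c : 𝓞 K)) * ((c⁻¹ : (𝓞 K)ˣ) : 𝓞 K) := by
      have h4 : (c : 𝓞 K) * ((c⁻¹ : (𝓞 K)ˣ) : 𝓞 K) = 1 := by
        rw [← Units.val_mul, mul_inv_cancel, Units.val_one]
      rw [sub_mul, h4, Units.val_mul, Units.val_pow_eq_pow_val]
    rw [h3]
    exact Ideal.mul_mem_right _ _ h1

lemma orbit_primes {p : ℕ} (hp : p.Prime) {𝔓₀ : Ideal (𝓞 K)} (h₀ : 𝔓₀.IsPrime)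
    (h₀' : (p : 𝓞 K) ∈ 𝔓₀) {H : Subgroup (K ≃ₐ[ℚ] K)} {Φ : Finset (Ideal (𝓞 K))}
    (hΦ : ∀ 𝔓, 𝔓 ∈ Φ ↔ ∃ g ∈ H, 𝔓 = g • 𝔓₀) : (∀ 𝔓 ∈ Φ, 𝔓.IsPrime) ∧ (∀ 𝔓 ∈ Φ, 𝔓 ≠ ⊥) := by
  constructor
  · intro 𝔓 h𝔓
    obtain ⟨g, _, rfl⟩ := (hΦ 𝔓).mp h𝔓
    exact h₀.smul g
  · intro 𝔓 h𝔓 h0
    obtain ⟨g, _, rfl⟩ := (hΦ 𝔓).mp h𝔓
    have h1 : g⁻¹ • (g • 𝔓₀) = g⁻¹ • (⊥ : Ideal (𝓞 K)) := by rw [h0]
    rw [smul_smul, inv_mul_cancel, one_smul] at h1
    have h2 : g⁻¹ • (⊥ : Ideal (𝓞 K)) = ⊥ := by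
      rw [Ideal.pointwise_smul_def, Ideal.map_bot]
    rw [h2] at h1
    rw [h1, Ideal.mem_bot] at h₀'
    exact hp.ne_zero (by exact_mod_cast h₀')

/-- **The case of a long triangular family.** -/
theorem case_fam [IsGalois ℚ K] {p q s e w : ℕ} (hp : p.Prime) (hq : 1 ≤ q)
    (hram : ∀ 𝔓 : Ideal (𝓞 K), 𝔓.IsPrime → (p : 𝓞 K) ∈ 𝔓 → (p : 𝓞 K) ∉ 𝔓 ^ (e + 1))
    {N H : Subgroup (K ≃ₐ[ℚ] K)} {σ : K ≃ₐ[ℚ] K} {α : K} (d : Data N H σ α)
    {𝔓₀ : Ideal (𝓞 K)} (h₀ : IsDec p q s σ 𝔓₀) (hw : 1 ≤ w) (hw1 : e * H.index ≤ s * w)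
    (hm1 : q • lg α ≠ lg (σ α)) (hm2 : q • lg α ≠ -lg (σ α)) {r T : ℕ} (hfam : Fam N H σ α r)
    (hT : 256 * (2 ^ r * (w : ℝ)) ^ 2 ≤ (T : ℝ) ^ r) :
    (finrank ℚ K : ℝ) ≤ 16 * (2 ^ r * w) * (r * T * ((q + 1) * lam α)) := by
  classical
  obtain ⟨b, hbH, hb⟩ := hfam
  choose n hnN hnb hnf using hb
  obtain ⟨Φ, hΦ, hN⟩ := primes_orbit hp hram h₀.1 h₀.2.1 H
  obtain ⟨hpr, hbot⟩ := orbit_primes hp h₀.1 h₀.2.1 hΦ
  have hex : ∀ 𝔓 : Ideal (𝓞 K), ∃ g : K ≃ₐ[ℚ] K, 𝔓 ∈ Φ → g ∈ H ∧ 𝔓 = g • 𝔓₀ := by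
    intro 𝔓
    by_cases h : 𝔓 ∈ Φ
    · obtain ⟨g, hg, hg'⟩ := (hΦ 𝔓).mp h
      exact ⟨g, fun _ => ⟨hg, hg'⟩⟩
    · exact ⟨1, fun h' => absurd h' h⟩
  choose g hg using hex
  -- the types
  set ty : Ideal (𝓞 K) → (Fin r → Bool) := fun 𝔓 j =>
    decide ((g 𝔓 * σ * (g 𝔓)⁻¹) (b j α) = σ (b j α)) with hty
  obtain ⟨t0, -, ht0⟩ := Finset.exists_le_of_sum_le (s := (Finset.univ : Finset (Fin r → Bool)))
    ⟨fun _ => true, Finset.mem_univ _⟩
    (f := fun _ => (∑ 𝔓 ∈ Φ, Real.log (Ideal.absNorm 𝔓)) / 2 ^ r)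
    (g := fun t => ∑ 𝔓 ∈ Φ.filter (fun 𝔓 => ty 𝔓 = t), Real.log (Ideal.absNorm 𝔓)) (by
      rw [Finset.sum_fiberwise, Finset.sum_const, Finset.card_univ, Fintype.card_fun,
        Fintype.card_bool, Fintype.card_fin, nsmul_eq_mul]
      push_cast
      apply le_of_eq
      field_simp)
  set Ψ := Φ.filter (fun 𝔓 => ty 𝔓 = t0) with hΨ
  have hΨΦ : ∀ 𝔓 ∈ Ψ, 𝔓 ∈ Φ ∧ ty 𝔓 = t0 := fun 𝔓 h => Finset.mem_filter.mp h
  have hΦΨ : ∑ 𝔓 ∈ Φ, Real.log (Ideal.absNorm 𝔓) ≤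
      2 ^ r * ∑ 𝔓 ∈ Ψ, Real.log (Ideal.absNorm 𝔓) := by
    have h1 : (∑ 𝔓 ∈ Φ, Real.log (Ideal.absNorm 𝔓)) / 2 ^ r ≤
      ∑ 𝔓 ∈ Ψ, Real.log (Ideal.absNorm 𝔓) := ht0
    rw [div_le_iff₀ (by positivity)] at h1
    linarith
  have hS0 : 0 ≤ ∑ 𝔓 ∈ Ψ, Real.log (Ideal.absNorm 𝔓) :=
    Finset.sum_nonneg fun 𝔓 _ => Real.log_natCast_nonneg _
  have hw1' : (e : ℝ) * H.index ≤ s * w := by exact_mod_cast hw1
  have hNΨ : (finrank ℚ K : ℝ) * Real.log p ≤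
      (2 ^ r * w) * (s * ∑ 𝔓 ∈ Ψ, Real.log (Ideal.absNorm 𝔓)) := by
    calc (finrank ℚ K : ℝ) * Real.log p ≤
        e * H.index * ∑ 𝔓 ∈ Φ, Real.log (Ideal.absNorm 𝔓) := hN
      _ ≤ e * H.index * (2 ^ r * ∑ 𝔓 ∈ Ψ, Real.log (Ideal.absNorm 𝔓)) := by gcongr
      _ ≤ (s * w) * (2 ^ r * ∑ 𝔓 ∈ Ψ, Real.log (Ideal.absNorm 𝔓)) :=
          mul_le_mul_of_nonneg_right hw1' (by positivity)
      _ = _ := by ring
  have hwR : (1:ℝ) ≤ w := by exact_mod_cast hw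
  have h2r : (1:ℝ) ≤ 2 ^ r := one_le_pow₀ (by norm_num)
  have hκ : (1:ℝ) ≤ 2 ^ r * w := by nlinarith
  -- the units
  set B : Fin r → K := fun j => b j α with hB
  set C : Fin r → K := fun j => if t0 j then σ (B j) else (σ (B j))⁻¹ with hC
  have hBU : ∀ j, IsU (B j) := fun j => d.unit.aut _
  have hσBU : ∀ j, IsU (σ (B j)) := fun j => (hBU j).aut σ
  have hinvU : ∀ x : K, IsU x → IsU x⁻¹ := by
    intro x hx
    exact ⟨inv_ne_zero hx.1, hx.2.2, by rw [inv_inv]; exact hx.2.1⟩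
  have hCU : ∀ j, IsU (C j) := by
    intro j
    rw [hC]
    dsimp only
    split_ifs
    · exact hσBU j
    · exact hinvU _ (hσBU j)
  have hlgC : ∀ j, lg (C j) = lg (σ (B j)) ∨ lg (C j) = -lg (σ (B j)) := by
    intro j
    rw [hC]
    dsimp only
    split_ifs
    · exact Or.inl rfl
    · exact Or.inr (lg_inv _)
  have hlamC : ∀ j, lam (C j) = lam α := by
    intro j
    have h1 : lam (σ (B j)) = lam α := by rw [lam_aut, hB]; exact lam_aut _ _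
    rw [hC]
    dsimp only
    split_ifs
    · exact h1
    · rw [lam_inv (hσBU j).2.1 (hσBU j).2.2 (hσBU j).1, h1]
  have hcong : ∀ j, CongP s Ψ (B j ^ q * (C j)⁻¹) := by
    intro j
    apply congP_of (hBU j) (hCU j)
    intro 𝔓 h𝔓
    obtain ⟨h1, h2⟩ := hΨΦ 𝔓 h𝔓
    obtain ⟨h3, h4⟩ := hg 𝔓 h1
    refine ⟨g 𝔓 * σ * (g 𝔓)⁻¹, ?_, ?_⟩
    · have h5 : ty 𝔓 j = t0 j := congrFun h2 j
      have h7 : ty 𝔓 j = decide ((g 𝔓 * σ * (g 𝔓)⁻¹) (b j α) = σ (b j α)) := rfl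
      show (g 𝔓 * σ * (g 𝔓)⁻¹) (b j α) = if t0 j = true then σ (b j α) else (σ (b j α))⁻¹
      by_cases h6 : (g 𝔓 * σ * (g 𝔓)⁻¹) (b j α) = σ (b j α)
      · have h8 : t0 j = true := by
          rw [← h5, h7]
          exact decide_eq_true h6
        rw [if_pos h8]
        exact h6
      · have h8 : ¬ (t0 j = true) := by
          rw [← h5, h7, decide_eq_true_iff]
          exact h6
        rw [if_neg h8]
        exact (d.conj_image h3 (b j)).resolve_left h6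
    · have h5 := (h₀.smul (g 𝔓)).2.2
      rw [← h4] at h5
      exact h5
  have hσ0 : ∀ j, C j ≠ 0 := fun j => (hCU j).1
  have hlgγ : ∀ j, lg (B j ^ q * (C j)⁻¹) = q • lg (B j) - lg (C j) := by
    intro j
    rw [lg_mul (pow_ne_zero _ (hBU j).1) (inv_ne_zero (hσ0 j)), lg_pow, lg_inv, sub_eq_add_neg]
  have hΛ : ∀ j, lam (B j ^ q * (C j)⁻¹) ≤ (q + 1) * lam α := by
    intro j
    refine (lam_mul_le _ _).trans ?_
    rw [lam_pow, lam_inv (hCU j).2.1 (hCU j).2.2 (hCU j).1, hlamC]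
    have h1 : lam (B j) = lam α := lam_aut _ _
    rw [h1]
    linarith
  have hnC : ∀ j i, i < j → n j (C i) = C i := by
    intro j i hij
    have h1 := (hnf j i hij).2
    rw [hC]
    dsimp only
    split_ifs
    · exact h1
    · rw [map_inv₀]
      congr 1
  have hlgB : ∀ j, lg (B j) ≠ 0 := by
    intro j h
    apply d.nz
    apply act_inj (b j)
    rw [← lg_act]
    exact h
  have hq0 : q ≠ 0 := by omega
  have e1 : ∀ (v : (K →ₐ[ℚ] ℂ) → ℝ) (φ : K →ₐ[ℚ] ℂ), (q • v) φ = (q : ℝ) * v φ := fun v φ => by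
    rw [Pi.smul_apply, nsmul_eq_mul]
  have hind : LinearIndependent ℤ fun j => lg (B j ^ q * (C j)⁻¹) := by
    apply tri_indep _ (fun j => actHom (n j))
    · intro j i hij
      show act (n j) (lg (B i ^ q * (C i)⁻¹)) = _
      rw [← lg_act, map_mul, map_pow, map_inv₀, hnC j i hij]
      have h1 : n j (B i) = B i := (hnf j i hij).1
      rw [h1]
    · intro j hj
      have h1 : act (n j) (lg (B j ^ q * (C j)⁻¹)) = lg (B j ^ q * (C j)⁻¹) := hj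
      have hnB : n j (B j) = (B j)⁻¹ := (d.sign' (hnN j) (b j)).resolve_left (hnb j)
      have hnσ : n j (σ (B j)) = σ (B j) ∨ n j (σ (B j)) = (σ (B j))⁻¹ :=
        d.sign' (hnN j) (σ * b j)
      have hnCj : n j (C j) = C j ∨ n j (C j) = (C j)⁻¹ := by
        rw [hC]
        dsimp only
        split_ifs
        · exact hnσ
        · rcases hnσ with h | h
          · left; rw [map_inv₀, h]
          · right; rw [map_inv₀, h]
      rw [← lg_act, map_mul, map_pow, map_inv₀, hnB] at h1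
      have hB0 := (hBU j).1
      have hC0 := hσ0 j
      have hmov := d.moved hm1 hm2 (hbH j)
      rcases hnCj with h2 | h2
      · rw [h2, hlgγ, lg_mul (pow_ne_zero _ (inv_ne_zero hB0)) (inv_ne_zero hC0), lg_pow, lg_inv,
          lg_inv] at h1
        have h3 : (q : ℝ) • lg (B j) = 0 := by
          funext φ
          have h4 := congrFun h1 φ
          rw [Pi.add_apply, Pi.sub_apply, e1, e1, Pi.neg_apply, Pi.neg_apply] at h4
          rw [Pi.smul_apply, smul_eq_mul, Pi.zero_apply]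
          linarith
        rcases smul_eq_zero.mp h3 with h4 | h4
        · exact hq0 (by exact_mod_cast h4)
        · exact hlgB j h4
      · rw [h2, hlgγ, lg_mul (pow_ne_zero _ (inv_ne_zero hB0)) (inv_ne_zero (inv_ne_zero hC0)),
          lg_pow, lg_inv, inv_inv] at h1
        have h3 : q • lg (B j) = lg (C j) := by
          funext φ
          have h4 := congrFun h1 φ
          rw [Pi.add_apply, Pi.sub_apply, e1, e1, Pi.neg_apply] at h4
          rw [e1]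
          linarith
        rcases hlgC j with h4 | h4
        · rw [h4] at h3
          exact hmov.1 h3
        · rw [h4] at h3
          exact hmov.2 h3
  exact indep_units hp (fun 𝔓 h => hpr 𝔓 (hΨΦ 𝔓 h).1) (fun 𝔓 h => hbot 𝔓 (hΨΦ 𝔓 h).1) hNΨ hκ
    (fun j => B j ^ q * (C j)⁻¹) hcong hΛ hind hT

end Pool.Agent.Run7.h22
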