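import Mathlib
import Pool.Agent.Run7.h22.Tra2
import Pool.Agent.Run7.h22.Sal3
import Pool.Agent.Run7.h22.Ine4

/-!
# Units which a normal subgroup maps to themselves or their inverses: the main inequality
-/

set_option autoImplicit false

open Finset Module NumberField Polynomial

namespace Pool.Agent.Run7.h22

open Pool.Agent.H388SL
open scoped Pointwise

lemma index_le_map {A : Type*} [Group A] [Finite A] (A' : Subgroup A) {Y : Type*} [Fintype Y]
    (f : A → Y) (h : ∀ a b, f a = f b → a⁻¹ * b ∈ A') : A'.index ≤ Fintype.card Y := by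
  classical
  have hinj : Function.Injective (fun q : A ⧸ A' => f q.out) := by
    intro q q' hqq
    have h1 := h _ _ hqq
    rw [← QuotientGroup.out_eq' q, ← QuotientGroup.out_eq' q']
    exact QuotientGroup.eq.mpr h1
  have := Nat.card_le_card_of_injective _ hinj
  rwa [Nat.card_eq_fintype_card (α := Y)] at this

variable {K : Type} [Field K] [NumberField K]

/-- the automorphisms in `H` which commute with `σ` on the conjugates of `α` under `H` -/
def Hs (H : Subgroup (K ≃ₐ[ℚ] K)) (σ : K ≃ₐ[ℚ] K) (α : K) : Subgroup (K ≃ₐ[ℚ] K) where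
  carrier := {g | g ∈ H ∧ ∀ h ∈ H, g (σ (h α)) = σ (g (h α))}
  one_mem' := ⟨H.one_mem, fun _ _ => rfl⟩
  mul_mem' := by
    rintro a b ⟨ha, ha'⟩ ⟨hb, hb'⟩
    refine ⟨H.mul_mem ha hb, fun h hh => ?_⟩
    rw [AlgEquiv.mul_apply, hb' h hh]
    exact ha' (b * h) (H.mul_mem hb hh)
  inv_mem' := by
    rintro a ⟨ha, ha'⟩
    refine ⟨H.inv_mem ha, fun h hh => ?_⟩
    apply a.injective
    have h1 := ha' (a⁻¹ * h) (H.mul_mem (H.inv_mem ha) hh)
    have h2 : (a⁻¹ * h) α = a⁻¹ (h α) := rfl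
    rw [h2] at h1
    have h3 : a (a⁻¹ (h α)) = h α := by
      rw [← AlgEquiv.mul_apply, mul_inv_cancel, AlgEquiv.one_apply]
    have h4 : a (a⁻¹ (σ (h α))) = σ (h α) := by
      rw [← AlgEquiv.mul_apply, mul_inv_cancel, AlgEquiv.one_apply]
    rw [h1, h3, h4]

lemma Hs_index {N H : Subgroup (K ≃ₐ[ℚ] K)} {σ : K ≃ₐ[ℚ] K} {α : K} (d : Data N H σ α) {m : ℕ}
    (hsat : Sat N H σ α m) : (Hs H σ α).index ≤ 4 ^ m * H.index := by
  classical
  obtain ⟨b, hbH, hb⟩ := hsat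
  have hle : Hs H σ α ≤ H := fun g hg => hg.1
  rw [← Subgroup.relIndex_mul_index hle]
  apply Nat.mul_le_mul_right
  have hcard : Fintype.card (Fin m → Bool × Bool) = 4 ^ m := by
    rw [Fintype.card_fun, Fintype.card_prod, Fintype.card_bool, Fintype.card_fin]
  rw [← hcard]
  set t : H → (K ≃ₐ[ℚ] K) := fun g => (g : K ≃ₐ[ℚ] K) * σ * (g : K ≃ₐ[ℚ] K)⁻¹ * σ⁻¹ with ht
  have htN : ∀ g : H, t g ∈ N := fun g => d.comm g g.2
  apply index_le_map ((Hs H σ α).subgroupOf H)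
    (fun g : H => fun i => (decide (t g (b i α) = b i α), decide (t g (σ (b i α)) = σ (b i α))))
  intro g g' hgg
  rw [Subgroup.mem_subgroupOf]
  have hfix : ∀ x : K, (∀ n ∈ N, n x = x ∨ n x = x⁻¹) →
      decide (t g x = x) = decide (t g' x = x) → ((t g)⁻¹ * t g') x = x := by
    intro x hx hdec
    have h1 : t g' x = t g x := by
      by_cases h2 : t g x = x
      · rw [decide_eq_true h2] at hdec
        have h3 := decide_eq_true_iff.mp hdec.symm
        rw [h3, h2]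
      · rw [decide_eq_false h2] at hdec
        have h3 := decide_eq_false_iff_not.mp hdec.symm
        rw [(hx _ (htN g)).resolve_left h2, (hx _ (htN g')).resolve_left h3]
    rw [AlgEquiv.mul_apply, h1, ← AlgEquiv.mul_apply, inv_mul_cancel, AlgEquiv.one_apply]
  have hall := hb ((t g)⁻¹ * t g') (N.mul_mem (N.inv_mem (htN g)) (htN g')) (fun i => ⟨
    hfix _ (fun n hn => d.sign' hn (b i)) (congrArg Prod.fst (congrFun hgg i)),
    hfix _ (fun n hn => d.sign' hn (σ * b i)) (congrArg Prod.snd (congrFun hgg i))⟩)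
  have hall' : ∀ h ∈ H, t g' (h α) = t g (h α) := by
    intro h hh
    have h1 := hall h hh
    have h2 := congrArg (t g) h1
    rw [← AlgEquiv.mul_apply, mul_inv_cancel_left] at h2
    exact h2
  refine ⟨H.mul_mem (H.inv_mem g.2) g'.2, fun h hh => ?_⟩
  have hmem : σ * (g' : K ≃ₐ[ℚ] K) * h ∈ H := H.mul_mem (H.mul_mem d.mem g'.2) hh
  have h1 := hall' _ hmem
  have h2 : t g' ((σ * (g' : K ≃ₐ[ℚ] K) * h) α) = (g' : K ≃ₐ[ℚ] K) (σ (h α)) := by
    rw [ht]
    dsimp only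
    rw [← AlgEquiv.mul_apply, ← AlgEquiv.mul_apply, ← AlgEquiv.mul_apply]
    congr 1
    group
  have h3 : t g ((σ * (g' : K ≃ₐ[ℚ] K) * h) α) =
      (g : K ≃ₐ[ℚ] K) (σ (((g : K ≃ₐ[ℚ] K)⁻¹ * (g' : K ≃ₐ[ℚ] K)) (h α))) := by
    rw [ht]
    dsimp only
    rw [← AlgEquiv.mul_apply, ← AlgEquiv.mul_apply, ← AlgEquiv.mul_apply, ← AlgEquiv.mul_apply]
    congr 1
    group
  rw [h2, h3] at h1
  show ((g : K ≃ₐ[ℚ] K)⁻¹ * (g' : K ≃ₐ[ℚ] K)) (σ (h α)) = _
  rw [AlgEquiv.mul_apply, h1, ← AlgEquiv.mul_apply, inv_mul_cancel, AlgEquiv.one_apply]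
  rfl

/-- **The case where the action of `N` is determined by few conjugates.** -/
theorem case_sat : ∃ C : ℝ, 0 < C ∧ ∀ (K : Type) [Field K] [NumberField K] [IsGalois ℚ K]
    (p q s e w : ℕ), p.Prime → 1 ≤ s →
    (∀ 𝔓 : Ideal (𝓞 K), 𝔓.IsPrime → (p : 𝓞 K) ∈ 𝔓 → (p : 𝓞 K) ∉ 𝔓 ^ (e + 1)) →
    ∀ (N H : Subgroup (K ≃ₐ[ℚ] K)) (σ : K ≃ₐ[ℚ] K) (α : K), Data N H σ α →
    ∀ 𝔓₀ : Ideal (𝓞 K), IsDec p q s σ 𝔓₀ → H.index ≤ w → 2 * e * H.index ≤ s * w →
    q • lg α ≠ lg (σ α) → ∀ m : ℕ, Sat N H σ α m →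
    (finrank ℚ K : ℝ) ≤ C * ((4 ^ m * w : ℕ) * Real.exp (9 * Real.sqrt (Real.log
      (2 * (4 ^ m * w : ℕ))))) * ((q + 1) * lam α) := by
  obtain ⟨C, hC, hmain⟩ := abs_tor
  refine ⟨C, hC, ?_⟩
  intro K _ _ _ p q s e w hp hs hram N H σ α d 𝔓₀ h₀ hw2 hw1 hm1 m hsat
  have hidx := Hs_index d hsat
  obtain ⟨Φ, hΦ, hN⟩ := primes_orbit hp hram h₀.1 h₀.2.1 (Hs H σ α)
  have hgood := goodT_orbit (w := 4 ^ m * w) hp hs hram h₀.1 h₀.2.1 (Hs H σ α) hΦ hN (by
      calc 2 * e * (Hs H σ α).index ≤ 2 * e * (4 ^ m * H.index) := Nat.mul_le_mul_left _ hidx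
        _ = 4 ^ m * (2 * e * H.index) := by ring
        _ ≤ 4 ^ m * (s * w) := Nat.mul_le_mul_left _ hw1
        _ = s * (4 ^ m * w) := by ring) (hidx.trans (Nat.mul_le_mul_left _ hw2))
  set γ : K := α ^ q * (σ α)⁻¹ with hγ
  have hσU : IsU (σ α) := d.unit.aut σ
  have hQ : CongP s Φ γ := by
    apply congP_of d.unit hσU
    intro 𝔓 h𝔓
    obtain ⟨g, hg, rfl⟩ := (hΦ 𝔓).mp h𝔓
    refine ⟨g * σ * g⁻¹, ?_, (h₀.smul g).2.2⟩
    have h1 := hg.2 _ (H.inv_mem hg.1)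
    have h2 : g (g⁻¹ α) = α := by
      rw [← AlgEquiv.mul_apply, mul_inv_cancel, AlgEquiv.one_apply]
    rw [AlgEquiv.mul_apply, AlgEquiv.mul_apply, h1, h2]
  have hlgγ : lg γ = q • lg α - lg (σ α) := by
    rw [hγ, lg_mul (pow_ne_zero _ d.unit.1) (inv_ne_zero hσU.1), lg_pow, lg_inv, sub_eq_add_neg]
  have hγ1 : ∀ n : ℕ, 0 < n → γ ^ n ≠ 1 := by
    intro n hn h
    apply hm1
    have h1 := lg_root hn h
    rw [hlgγ] at h1
    exact sub_eq_zero.mp h1
  have hlγ : lam γ ≤ (q + 1) * lam α := by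
    rw [hγ]
    refine (lam_mul_le _ _).trans ?_
    rw [lam_pow, lam_inv hσU.2.1 hσU.2.2 hσU.1, lam_aut]
    linarith
  refine (hmain K (4 ^ m * w) _ (Hs H σ α) (CongP s Φ) hgood γ hQ hγ1).trans ?_
  apply mul_le_mul_of_nonneg_left hlγ
  positivity

lemma sat_num {w : ℝ} (hw : 1 ≤ w) {s₀ : ℝ} (hs : s₀ = Real.sqrt (Real.log (2 * w))) {m r : ℕ}
    (hmr : m < r) (hr : (r : ℝ) ≤ 2 * s₀ + 1) :
    (4 ^ m * w) * Real.exp (9 * Real.sqrt (Real.log (2 * (4 ^ m * w)))) ≤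
      Real.exp 13 * (w * Real.exp (12 * s₀)) := by
  have hl2' : Real.log 2 < 0.6931471808 := Real.log_two_lt_d9
  have hl2 : (0.6931471803 : ℝ) < Real.log 2 := Real.log_two_gt_d9
  have hlk : 0 ≤ Real.log (2 * w) := Real.log_nonneg (by linarith)
  have hs2 : s₀ ^ 2 = Real.log (2 * w) := by rw [hs]; exact Real.sq_sqrt hlk
  have hs0 : 0 ≤ s₀ := by rw [hs]; exact Real.sqrt_nonneg _
  have hm : (m : ℝ) ≤ 2 * s₀ := by
    have h1 : (m : ℝ) + 1 ≤ r := by exact_mod_cast hmr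
    linarith
  have hlog4 : Real.log 4 = 2 * Real.log 2 := by
    rw [show (4:ℝ) = 2 ^ 2 by norm_num, Real.log_pow]
    push_cast
    ring
  have h4 : (4:ℝ) ^ m = Real.exp (m * Real.log 4) := by
    rw [mul_comm, Real.exp_mul, Real.exp_log (by norm_num), Real.rpow_natCast]
  have hm4 : (m : ℝ) * Real.log 4 ≤ 2.8 * s₀ := by
    rw [hlog4]
    have h1 : (m : ℝ) * (2 * Real.log 2) ≤ (2 * s₀) * (2 * Real.log 2) :=
      mul_le_mul_of_nonneg_right hm (by linarith)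
    nlinarith
  have hle1 : (4:ℝ) ^ m ≤ Real.exp (2.8 * s₀) := by
    rw [h4]
    exact Real.exp_le_exp.mpr hm4
  have hlog : Real.log (2 * (4 ^ m * w)) ≤ (s₀ + 1.4) ^ 2 := by
    have h1 : Real.log (2 * (4 ^ m * w)) = Real.log (4 ^ m) + Real.log (2 * w) := by
      rw [← Real.log_mul (by positivity) (by positivity)]
      congr 1
      ring
    rw [h1, Real.log_pow, ← hs2]
    nlinarith
  have hsq : Real.sqrt (Real.log (2 * (4 ^ m * w))) ≤ s₀ + 1.4 := by
    rw [← Real.sqrt_sq (show 0 ≤ s₀ + 1.4 by linarith)]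
    exact Real.sqrt_le_sqrt hlog
  calc (4 ^ m * w) * Real.exp (9 * Real.sqrt (Real.log (2 * (4 ^ m * w))))
      ≤ (Real.exp (2.8 * s₀) * w) * Real.exp (9 * (s₀ + 1.4)) := by
        apply mul_le_mul _ _ (Real.exp_pos _).le (by positivity)
        · exact mul_le_mul_of_nonneg_right hle1 (by linarith)
        · apply Real.exp_le_exp.mpr
          linarith
    _ = w * Real.exp (2.8 * s₀ + 9 * (s₀ + 1.4)) := by
        rw [Real.exp_add]
        ring
    _ ≤ w * Real.exp (13 + 12 * s₀) := by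
        apply mul_le_mul_of_nonneg_left _ (by linarith)
        apply Real.exp_le_exp.mpr
        linarith
    _ = _ := by
        rw [Real.exp_add]
        ring

/-- **The main inequality for units which a normal subgroup maps to themselves or their inverses.** -/
theorem main_data : ∃ C : ℝ, 0 < C ∧ ∀ (K : Type) [Field K] [NumberField K] [IsGalois ℚ K]
    (p q s e w : ℕ), p.Prime → 1 ≤ q → 1 ≤ s →
    (∀ 𝔓 : Ideal (𝓞 K), 𝔓.IsPrime → (p : 𝓞 K) ∈ 𝔓 → (p : 𝓞 K) ∉ 𝔓 ^ (e + 1)) →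
    ∀ (N H : Subgroup (K ≃ₐ[ℚ] K)) (σ : K ≃ₐ[ℚ] K) (α : K), Data N H σ α →
    ∀ 𝔓₀ : Ideal (𝓞 K), IsDec p q s σ 𝔓₀ → H.index ≤ w → 2 * e * H.index ≤ s * w →
    q • lg α ≠ lg (σ α) → ((∀ n ∈ N, ∀ h ∈ H, n (h α) = h α) ∨ q • lg α ≠ -lg (σ α)) →
    (finrank ℚ K : ℝ) ≤ C * (q * w * Real.exp (12 * Real.sqrt (Real.log (2 * w)))) * lam α := by
  obtain ⟨C, hC, hsat⟩ := case_sat
  refine ⟨16640 + 2 * C * Real.exp 13, by positivity, ?_⟩
  intro K _ _ _ p q s e w hp hq hs hram N H σ α d 𝔓₀ h₀ hw2 hw1 hm1 hm2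
  have hH1 : 1 ≤ H.index := Nat.pos_of_ne_zero Subgroup.FiniteIndex.index_ne_zero
  have hw : 1 ≤ w := hH1.trans hw2
  have hwR : (1:ℝ) ≤ w := by exact_mod_cast hw
  set s₀ := Real.sqrt (Real.log (2 * (w : ℝ))) with hs₀
  have hs0 : 0 ≤ s₀ := Real.sqrt_nonneg _
  obtain ⟨r, T, hr1, hr2, hT, hfinal⟩ := sal_num hwR hs₀
  have hqR : (1:ℝ) ≤ q := by exact_mod_cast hq
  have hlam : 0 ≤ lam α := lam_nonneg _
  have hqlam : ((q : ℝ) + 1) * lam α ≤ 2 * q * lam α := mul_le_mul_of_nonneg_right (by linarith) hlam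
  -- the case of a family which determines the action
  have hcase : ∀ m : ℕ, m < r → Sat N H σ α m →
      (finrank ℚ K : ℝ) ≤ (16640 + 2 * C * Real.exp 13) * (q * w * Real.exp (12 * s₀)) * lam α := by
    intro m hm hS
    have h1 := hsat K p q s e w hp hs hram N H σ α d 𝔓₀ h₀ hw2 hw1 hm1 m hS
    have h2 := sat_num hwR hs₀ hm hr2
    push_cast at h1
    have h3 : 0 ≤ q * w * Real.exp (12 * s₀) * lam α := by positivity
    calc (finrank ℚ K : ℝ) ≤ C * ((4 ^ m * w) * Real.exp (9 * Real.sqrt (Real.log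
          (2 * (4 ^ m * w))))) * ((q + 1) * lam α) := h1
      _ ≤ C * (Real.exp 13 * (w * Real.exp (12 * s₀))) * (2 * q * lam α) := by
          apply mul_le_mul _ hqlam (by positivity) (by positivity)
          exact mul_le_mul_of_nonneg_left h2 hC.le
      _ = (2 * C * Real.exp 13) * (q * w * Real.exp (12 * s₀) * lam α) := by ring
      _ ≤ (16640 + 2 * C * Real.exp 13) * (q * w * Real.exp (12 * s₀) * lam α) := by
          apply mul_le_mul_of_nonneg_right _ h3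
          linarith
      _ = _ := by ring
  rcases hm2 with hm2 | hm2
  · exact hcase 0 (by omega) ⟨Fin.elim0, fun j => j.elim0, fun n hn _ h hh => hm2 n hn h hh⟩
  rcases fam_or_sat N H σ α r with hfam | ⟨m, hm, hS⟩
  · have hew : e * H.index ≤ s * w := by
      have h3 : 2 * e * H.index = 2 * (e * H.index) := by ring
      omega
    have key := case_fam hp hq hram d h₀ hw hew hm1 hm2 hfam hT
    have h3 : 0 ≤ q * w * Real.exp (12 * s₀) * lam α := by positivity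
    calc (finrank ℚ K : ℝ) ≤ 16 * (2 ^ r * w) * (r * T * ((q + 1) * lam α)) := key
      _ = (16 * (2 ^ r * w) * (r * T)) * ((q + 1) * lam α) := by ring
      _ ≤ (8320 * w * Real.exp (3 * s₀)) * (2 * q * lam α) := by
          apply mul_le_mul hfinal hqlam (by positivity) (by positivity)
      _ ≤ (8320 * w * Real.exp (12 * s₀)) * (2 * q * lam α) := by
          apply mul_le_mul_of_nonneg_right _ (by positivity)
          apply mul_le_mul_of_nonneg_left _ (by positivity)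
          apply Real.exp_le_exp.mpr
          linarith
      _ = 16640 * (q * w * Real.exp (12 * s₀) * lam α) := by ring
      _ ≤ (16640 + 2 * C * Real.exp 13) * (q * w * Real.exp (12 * s₀) * lam α) := by
          apply mul_le_mul_of_nonneg_right _ h3
          have : 0 < 2 * C * Real.exp 13 := by positivity
          linarith
      _ = _ := by ring
  · exact hcase m hm hS

end Pool.Agent.Run7.h22
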