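import Mathlib
import Pool.Agent.Run7.h22.Tra3

/-!
# Lehmer's problem and inertia automorphisms of the trace field
-/

set_option autoImplicit false

open Finset Module NumberField Polynomial

namespace Pool.Agent.Run7.h22

open Pool.Agent.H388SL

/-- the inequality for irreducible polynomials -/
theorem poly_trace : ∃ C : ℝ, 0 < C ∧ ∀ (K : Type) [Field K] [NumberField K] [IsGalois ℚ K]
    (p q s e w : ℕ), p.Prime → 1 ≤ q → 1 ≤ s →
    (∀ 𝔓 : Ideal (𝓞 K), 𝔓.IsPrime → (p : 𝓞 K) ∈ 𝔓 → (p : 𝓞 K) ∉ 𝔓 ^ (e + 1)) →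
    ∀ (L : IntermediateField ℚ K) [Normal ℚ L] (σ : K ≃ₐ[ℚ] K) (𝔓 : Ideal (𝓞 K)),
    IsDec p q s σ 𝔓 →
    (conjSet (AlgEquiv.restrictNormalHom L σ)).ncard ≤ w →
    2 * e * (conjSet (AlgEquiv.restrictNormalHom L σ)).ncard ≤ s * w → ∀ f : ℤ[X],
    Irreducible f → 1 < MM f → MM f < 2 → ∀ α : K, aeval α f = 0 → α + α⁻¹ ∈ L →
    (∀ n : ℕ, 0 < n → (σ α) ^ n ≠ (α ^ q) ^ n) →
    (α ∈ L ∨ ∀ n : ℕ, 0 < n → (σ α) ^ n * (α ^ q) ^ n ≠ 1) →
    (f.natDegree : ℝ) ≤ C * (q * w * Real.exp (12 * Real.sqrt (Real.log (2 * w)))) *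
        Real.log (MM f) := by
  obtain ⟨C, hC, h⟩ := main_data
  refine ⟨C, hC, ?_⟩
  intro K _ _ _ p q s e w hp hq hs hram L _ σ 𝔓 hσ hw2 hw1 f hf h1 h2 α hα htr hm1 hm2
  obtain ⟨hU, hroot, hlam⟩ := unit_of_root f hf h1 h2 hα
  have hα0 := hU.1
  have hσU := hU.aut σ
  set N : Subgroup (K ≃ₐ[ℚ] K) := L.fixingSubgroup with hN
  set H : Subgroup (K ≃ₐ[ℚ] K) :=
    (Subgroup.centralizer {AlgEquiv.restrictNormalHom L σ}).comap (AlgEquiv.restrictNormalHom L)
    with hH
  have hmemH : ∀ g : K ≃ₐ[ℚ] K, g ∈ H ↔ AlgEquiv.restrictNormalHom L g *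
      AlgEquiv.restrictNormalHom L σ = AlgEquiv.restrictNormalHom L σ *
      AlgEquiv.restrictNormalHom L g := by
    intro g
    rw [hH, Subgroup.mem_comap, Subgroup.mem_centralizer_singleton_iff]
  have hidx : H.index ≤ (conjSet (AlgEquiv.restrictNormalHom L σ)).ncard := by
    rw [hH, Subgroup.index_comap_of_surjective _ (AlgEquiv.restrictNormalHom_surjective K)]
    apply index_le_of_conj
    intro g
    exact ⟨g, rfl⟩
  have d : Data N H σ α :=
    { normal := by
        refine ⟨fun τ hτ g => ?_⟩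
        rw [hN, mem_fix_iff] at hτ ⊢
        rw [map_mul, map_mul, hτ, mul_one, map_inv, mul_inv_cancel]
      mem := by rw [hmemH]
      comm := by
        intro g hg
        rw [hmemH] at hg
        rw [hN, mem_fix_iff, map_mul, map_mul, map_mul, hg, map_inv, map_inv, mul_inv_cancel_right,
          mul_inv_cancel]
      unit := hU
      nz := by
        intro h0
        obtain ⟨n, hn, hn1⟩ := hU.root h0
        exact hroot n hn hn1
      sign := by
        intro n hn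
        have h3 : n (α + α⁻¹) = α + α⁻¹ :=
          (IntermediateField.mem_fixingSubgroup_iff L n).mp hn _ htr
        rw [map_add, map_inv₀] at h3
        have hn0 : n α ≠ 0 := (map_ne_zero n).mpr hα0
        have h4 : (n α - α) * (n α - α⁻¹) = 0 := by
          have h5 : n α * (n α)⁻¹ = 1 := mul_inv_cancel₀ hn0
          have h6 : α * α⁻¹ = 1 := mul_inv_cancel₀ hα0
          linear_combination (n α) * h3 + h6 - h5
        rcases mul_eq_zero.mp h4 with h5 | h5
        · left; exact sub_eq_zero.mp h5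
        · right; exact sub_eq_zero.mp h5 }
  have hc1 : q • lg α ≠ lg (σ α) := by
    intro h0
    have h3 : lg (α ^ q * (σ α)⁻¹) = 0 := by
      rw [lg_mul (pow_ne_zero _ hα0) (inv_ne_zero hσU.1), lg_pow, lg_inv, h0, add_neg_cancel]
    have h4 : IsU (α ^ q * (σ α)⁻¹) := by
      refine ⟨mul_ne_zero (pow_ne_zero _ hα0) (inv_ne_zero hσU.1), (hU.2.1.pow q).mul hσU.2.2, ?_⟩
      rw [mul_inv, inv_inv, ← inv_pow]
      exact (hU.2.2.pow q).mul hσU.2.1
    obtain ⟨n, hn, hn1⟩ := h4.root h3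
    apply hm1 n hn
    rw [mul_pow, inv_pow] at hn1
    exact ((mul_inv_eq_one₀ (pow_ne_zero n hσU.1)).mp hn1).symm
  have hc2 : (∀ n ∈ N, ∀ h ∈ H, n (h α) = h α) ∨ q • lg α ≠ -lg (σ α) := by
    rcases hm2 with hm2 | hm2
    · left
      intro n hn h _
      have h3 : h α ∈ L := by
        have h4 : algebraMap L K (AlgEquiv.restrictNormalHom L h ⟨α, hm2⟩) = h (algebraMap L K ⟨α, hm2⟩) :=
          AlgEquiv.restrictNormal_commutes h L ⟨α, hm2⟩
        have h5 : h α = algebraMap L K (AlgEquiv.restrictNormalHom L h ⟨α, hm2⟩) := h4.symm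
        rw [h5]
        exact (AlgEquiv.restrictNormalHom L h ⟨α, hm2⟩).2
      exact (IntermediateField.mem_fixingSubgroup_iff L n).mp hn _ h3
    · right
      intro h0
      have h3 : lg (α ^ q * σ α) = 0 := by
        rw [lg_mul (pow_ne_zero _ hα0) hσU.1, lg_pow, h0, neg_add_cancel]
      have h4 : IsU (α ^ q * σ α) := by
        refine ⟨mul_ne_zero (pow_ne_zero _ hα0) hσU.1, (hU.2.1.pow q).mul hσU.2.1, ?_⟩
        rw [mul_inv, ← inv_pow]
        exact (hU.2.2.pow q).mul hσU.2.2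
      obtain ⟨n, hn, hn1⟩ := h4.root h3
      apply hm2 n hn
      rw [mul_pow, mul_comm] at hn1
      exact hn1
  have h3 := h K p q s e w hp hq hs hram N H σ α d 𝔓 hσ (hidx.trans hw2)
    ((Nat.mul_le_mul_left _ hidx).trans hw1) hc1 hc2
  set B : ℝ := C * (q * w * Real.exp (12 * Real.sqrt (Real.log (2 * w)))) with hB
  have hN : (0:ℝ) < finrank ℚ K := by
    exact_mod_cast (finrank_pos : 0 < finrank ℚ K)
  have h4 : (f.natDegree : ℝ) * finrank ℚ K ≤ (B * Real.log (MM f)) * finrank ℚ K := by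
    have h5 : (f.natDegree : ℝ) * finrank ℚ K ≤
        f.natDegree * (B * lam α) := mul_le_mul_of_nonneg_left h3 (Nat.cast_nonneg _)
    have h6 : (f.natDegree : ℝ) * (B * lam α) = (B * Real.log (MM f)) * finrank ℚ K := by
      linear_combination (-B) * hlam
    linarith
  exact le_of_mul_le_mul_right h4 hN

/-- a zero of a polynomial with a measure between one and two is not equal, up to roots of unity, to
the inverse of the `q`-th power of a conjugate of it, if `q > 1` -/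
lemma not_power_inv {K : Type} [Field K] [NumberField K] {α : K} (hU : IsU α)
    (hroot : ∀ n : ℕ, 0 < n → α ^ n ≠ 1) (σ : K ≃ₐ[ℚ] K) {q : ℕ} (hq : 2 ≤ q) :
    ∀ n : ℕ, 0 < n → (σ α) ^ n * (α ^ q) ^ n ≠ 1 := by
  intro n hn h
  have hσU := hU.aut σ
  have h0 : (σ α) ^ n = ((α ^ q) ^ n)⁻¹ := eq_inv_of_mul_eq_one_left h
  have h1 := congrArg lam h0
  have hp := (hU.pow q).pow n
  rw [lam_inv hp.2.1 hp.2.2 hp.1, lam_pow, lam_pow, lam_pow, lam_aut] at h1
  have h2 := lam_pos hU.2.1 hU.1 hroot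
  have h3 : (2:ℝ) ≤ q := by exact_mod_cast hq
  have h4 : (0:ℝ) < n := by exact_mod_cast hn
  have h5 : (n : ℝ) * lam α * ((q : ℝ) - 1) = 0 := by linarith
  have h6 : 0 < (n : ℝ) * lam α * ((q : ℝ) - 1) := by
    have : (0:ℝ) < (q : ℝ) - 1 := by linarith
    positivity
  linarith

end Pool.Agent.Run7.h22
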