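import Mathlib
import Pool.Agent.Run7.h22.Gr

/-!
# Mahler measures of the elements of Galois extensions with few Frobenius automorphisms
-/

set_option autoImplicit false

open Finset Module Polynomial NumberField

namespace Pool.Agent.Run7.h22

open Pool.Agent.H388SL

/-- **the Mahler measure of a unit which is not a root of unity, in a Galois extension of `ℚ` with few
Frobenius automorphisms above an unramified prime** -/
theorem mahler_few_p : ∃ C : ℝ, 0 < C ∧ ∀ (L : IntermediateField ℚ ℂ) [NumberField L] [IsGalois ℚ L]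
    (z : ℂ), z ∈ L → ∀ p a : ℕ, p.Prime → 1 ≤ a →
    (∀ 𝔓 : Ideal (𝓞 L), 𝔓.IsPrime → (p : 𝓞 L) ∈ 𝔓 → (p : 𝓞 L) ∉ 𝔓 ^ 2) →
    IsIntegral ℤ z → IsIntegral ℤ z⁻¹ → z ≠ 0 →
    (∀ n : ℕ, 0 < n → z ^ n ≠ 1) →
    ((minpoly ℤ z).natDegree : ℝ) ≤ C * (p : ℝ) ^ (a + 1) * ((frobSet L p (p ^ a)).ncard *
      Real.exp (9 * Real.sqrt (Real.log (2 * (frobSet L p (p ^ a)).ncard)))) *
        Real.log (MM (minpoly ℤ z)) := by
  obtain ⟨C, hC, h⟩ := field_main_p
  refine ⟨C, hC, ?_⟩
  intro L _ _ z hz p a hp ha hunr hi hi' h0 hroot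
  set α : L := ⟨z, hz⟩ with hα
  have hαz : algebraMap L ℂ α = z := rfl
  have hinj : Function.Injective (algebraMap L ℂ) := (algebraMap L ℂ).injective
  have hαi : IsIntegral ℤ α := (isIntegral_algebraMap_iff hinj).mp (by rw [hαz]; exact hi)
  have hαi' : IsIntegral ℤ α⁻¹ := (isIntegral_algebraMap_iff hinj).mp (by
    rw [map_inv₀, hαz]; exact hi')
  have hα0 : α ≠ 0 := by
    intro h1
    rw [h1, map_zero] at hαz
    exact h0 hαz.symm
  have hαr : ∀ n : ℕ, 0 < n → α ^ n ≠ 1 := by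
    intro n hn h1
    have h2 := congrArg (algebraMap L ℂ) h1
    rw [map_pow, hαz, map_one] at h2
    exact hroot n hn h2
  have h1 := deg_le_of_field hαi (h L p a hp ha hunr α hαi hαi' hα0 hαr)
  have hmin : minpoly ℤ α = minpoly ℤ z := by
    rw [← hαz]
    exact (minpoly.algebraMap_eq hinj α).symm
  rw [hmin] at h1
  exact h1

end Pool.Agent.Run7.h22
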