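import Pool.Agent.Run7.h528.KB.Final

/-!
# Endomorphisms commuting with a group of automorphisms with invariant blocks of classes

Adapted from Run7/h528/KB/Main.lean: the canonical heights of the group are multiplied by constants
by an endomorphism which commutes with the group.
-/

set_option autoImplicit false

open Filter Topology
open Pool.Agent.Q8.KS Run7.h334.KSR Run7.h528.MB Run7.h528.KB
open Pool.Agent.N110.CC (PC Frm ev ev_add ev_zero ev_neg ev_nsmul)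

namespace Run7.h22.Kse

variable {G : Type} [Group G] {V : ProjVariety G} {r k ρ : ℕ}

section

variable {Φ : LatticeAction V r} {U : Module.Basis (Fin ρ) ℝ V.NS} {β : Fin ρ → Fin k}
  {W : Finset (Frm r)} {Ab : Fin k → Finset (Frm r)} {b : Module.Basis W ℝ (Fin ρ → ℝ)}

/-- the classes of the group are eigenclasses of the endomorphism -/
theorem eigen_of_comm (st : StrB (Cc U) (Gc U Φ) (Pi.basisFun ℝ (Fin ρ)) β W Ab b)
    {A : V.Pic} (hA : V.IsAmple A) (g : Morphism V.toVariety V.toVariety)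
    (hinj : Function.Injective g.ns)
    (hcomm : ∀ (v : Fin r → ℤ) (D : V.NS), g.ns ((Φ.f v).ns D) = (Φ.f v).ns (g.ns D)) :
    ∃ c : Frm r → ℝ, (∀ ℓ ∈ W, 0 < c ℓ) ∧ ∀ ℓ ∈ W, g.ns (cl U b ℓ) = c ℓ • cl U b ℓ := by
  classical
  have key : ∀ ℓ ∈ W, ∃ t : ℝ, 0 < t ∧ g.ns (cl U b ℓ) = t • cl U b ℓ := by
    intro ℓ hℓ
    obtain ⟨y, hy, hD⟩ := expand (U := U) (b := b) (g.ns (cl U b ℓ))
    obtain ⟨v₀, hv₀⟩ := st.blk.dir hℓ
    have h1 : (Φ.f v₀).ns (g.ns (cl U b ℓ)) = Real.exp (ev ℓ v₀) • g.ns (cl U b ℓ) := by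
      rw [← hcomm, cl_eig st hℓ, map_smul]
    have h2 : ∑ m ∈ W, (y m * Real.exp (ev m v₀) - Real.exp (ev ℓ v₀) * y m) • cl U b m = 0 := by
      have h3 : (Φ.f v₀).ns (∑ m ∈ W, y m • cl U b m) =
          ∑ m ∈ W, (y m * Real.exp (ev m v₀)) • cl U b m := by
        rw [map_sum]
        refine Finset.sum_congr rfl fun m hm => ?_
        rw [map_smul, cl_eig st hm, smul_smul]
      rw [hD, h3, Finset.smul_sum, ← sub_eq_zero, ← Finset.sum_sub_distrib] at h1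
      rw [← h1]
      refine Finset.sum_congr rfl fun m _ => ?_
      rw [sub_smul, smul_smul]
    have h3 : ∀ m ∈ W, m ≠ ℓ → y m = 0 := by
      intro m hm hne
      have h4 := repr_sum (U := U) (b := b)
        (fun m => y m * Real.exp (ev m v₀) - Real.exp (ev ℓ v₀) * y m) ⟨m, hm⟩
      rw [h2, map_zero, map_zero, Finsupp.zero_apply] at h4
      have h5 : y m * (Real.exp (ev m v₀) - Real.exp (ev ℓ v₀)) = 0 := by
        have : (0 : ℝ) = y m * Real.exp (ev m v₀) - Real.exp (ev ℓ v₀) * y m := h4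
        linarith
      refine (mul_eq_zero.1 h5).resolve_right ?_
      have h6 := Real.exp_lt_exp.2 (hv₀ m hm hne)
      exact (sub_neg.2 h6).ne
    have h4 : g.ns (cl U b ℓ) = y ℓ • cl U b ℓ := by
      rw [hD]
      refine Finset.sum_eq_single ℓ (fun m hm hne => ?_) fun h => absurd hℓ h
      rw [h3 m hm hne, zero_smul]
    have h5 : g.ns (cl U b ℓ) ≠ 0 := fun h0 => cl_ne hℓ (hinj (h0.trans (map_zero _).symm))
    have h6 : 0 < V.deg (V.cls A) (g.ns (cl U b ℓ)) :=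
      V.int_pos _ hA _ (g.nef _ (cl_nef st hℓ)) h5
    have h7 : 0 < V.deg (V.cls A) (cl U b ℓ) := V.int_pos _ hA _ (cl_nef st hℓ) (cl_ne hℓ)
    refine ⟨y ℓ, ?_, h4⟩
    rw [h4, map_smul, smul_eq_mul] at h6
    exact (mul_pos_iff_of_pos_right h7).1 h6
  choose! c hc hcc using key
  exact ⟨c, hc, hcc⟩

end

/-- **The system of the canonical heights.** -/
theorem exists_sys2 {Φ : LatticeAction V r} {A : V.Pic} (hA : V.IsAmple A)
    {u : V.Pt → ℝ} (hu : V.IsHeight A u)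
    (hpos : ∀ v : Fin r → ℤ, v ≠ 0 → ∃ d, 1 < d ∧ IsDynamicalDegree (Φ.f v) A d)
    {U : Module.Basis (Fin ρ) ℝ V.NS} {β : Fin ρ → Fin k}
    {W : Finset (Frm r)} {Ab : Fin k → Finset (Frm r)} {b : Module.Basis W ℝ (Fin ρ → ℝ)}
    (st : StrB (Cc U) (Gc U Φ) (Pi.basisFun ℝ (Fin ρ)) β W Ab b) (hWne : W.Nonempty)
    (g : Morphism V.toVariety V.toVariety)
    (hcomm : ∀ (v : Fin r → ℤ) (x : V.Pt), g.pt ((Φ.f v).pt x) = (Φ.f v).pt (g.pt x))
    {c : Frm r → ℝ} (hgc : ∀ ℓ ∈ W, g.ns (cl U b ℓ) = c ℓ • cl U b ℓ) :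
    ∃ S : KSys V.Pt W Ab (fun i => Fintype.card {j // β j = i}),
      S.F = (fun v => (Φ.f v).pt) ∧ S.hp = (fun x => max 1 (u x)) ∧
      S.deg = (fun x => (MulAction.orbit G x).ncard) ∧
      ∀ ℓ ∈ W, ∀ x, S.hh ℓ (g.pt x) = c ℓ * S.hh ℓ x := by
  classical
  obtain ⟨s, η, hs, hη, hinv⟩ := exists_lift V.toVariety
  obtain ⟨hp, hhp⟩ : ∃ hp : V.Pt → ℝ, hp = fun x => max 1 (u x) := ⟨_, rfl⟩
  have hp1 : ∀ x, 1 ≤ hp x := fun x => by rw [hhp]; exact le_max_left _ _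
  have hup : ∀ x, u x ≤ hp x := fun x => by rw [hhp]; exact le_max_right _ _
  have hsqle : ∀ x, √(hp x) ≤ hp x := fun x => by
    rw [Real.sqrt_le_left (by linarith [hp1 x])]
    have := hp1 x
    nlinarith
  -- functoriality
  have hpull : ∀ (v : Fin r → ℤ), ∀ ℓ ∈ W, ∃ K : ℝ, 0 < K ∧
      ∀ x, |η (cl U b ℓ) ((Φ.f v).pt x) - Real.exp (ev ℓ v) * η (cl U b ℓ) x| ≤ K * √(hp x) := by
    intro v ℓ hℓ
    obtain ⟨K, hK, h1⟩ := lift_pull V.toVariety s η hs hη (Φ.f v) hA hu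
    refine ⟨K * ‖cl U b ℓ‖ + 1, by positivity, fun x => ?_⟩
    have h2 := h1 (cl U b ℓ) x
    rw [cl_eig st hℓ, map_smul, Pi.smul_apply, smul_eq_mul] at h2
    refine h2.trans ?_
    rw [hhp]
    refine mul_le_mul_of_nonneg_right (by linarith) (Real.sqrt_nonneg _)
  have hpullg : ∀ ℓ ∈ W, ∃ K : ℝ, 0 < K ∧
      ∀ x, |η (cl U b ℓ) (g.pt x) - c ℓ * η (cl U b ℓ) x| ≤ K * √(hp x) := by
    intro ℓ hℓ
    obtain ⟨K, hK, h1⟩ := lift_pull V.toVariety s η hs hη g hA hu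
    refine ⟨K * ‖cl U b ℓ‖ + 1, by positivity, fun x => ?_⟩
    have h2 := h1 (cl U b ℓ) x
    rw [hgc ℓ hℓ, map_smul, Pi.smul_apply, smul_eq_mul] at h2
    refine h2.trans ?_
    rw [hhp]
    refine mul_le_mul_of_nonneg_right (by linarith) (Real.sqrt_nonneg _)
  -- growth
  have hgrow : ∀ (v : Fin r → ℤ) (d : ℝ), 1 < d → IsDynamicalDegree (Φ.f v) A d →
      ∃ (ℓ : ℕ) (B : ℝ), 0 < B ∧ ∀ k x, hp ((Φ.f v).pt^[k] x) ≤ B * gr ℓ d k * hp x := by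
    intro v d hd hdyn
    obtain ⟨ℓ, c, B, hc, hB, hlow, -, hmain⟩ := along V.toVariety s η hs hη (Φ.f v) hA hu hd hdyn
    refine ⟨ℓ, B + 1, by linarith, fun k x => ?_⟩
    have h1 := (hmain k x).1
    have h2 := gr_one_le ℓ hd k
    have h3 := hp1 x
    have h4 : 1 ≤ gr ℓ d k * hp x := by nlinarith
    have h5 : u ((Φ.f v).pt^[k] x) ≤ B * (gr ℓ d k * hp x) := by
      rw [hhp, ← mul_assoc]; exact h1
    have h6 : 0 ≤ B * (gr ℓ d k * hp x) := by positivity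
    rw [show hp ((Φ.f v).pt^[k] x) = max 1 (u ((Φ.f v).pt^[k] x)) by rw [hhp], mul_assoc, add_mul,
      one_mul]
    exact max_le (by linarith) (by linarith)
  obtain ⟨a, ha, haA⟩ := expand (U := U) (b := b) (V.cls A)
  have hapos := ample_pos st hA ha
  -- canonical heights
  have hcan : ∀ ℓ ∈ W, ∃ (h : V.Pt → ℝ) (C : ℝ), 0 < C ∧
      (∀ x, |h x - η (cl U b ℓ) x| ≤ C * √(hp x)) ∧
      (∀ (v : Fin r → ℤ) x, h ((Φ.f v).pt x) = Real.exp (ev ℓ v) * h x) ∧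
      ∀ x, h (g.pt x) = c ℓ * h x := by
    intro ℓ hℓ
    obtain ⟨v₀, hv₀⟩ := st.blk.dir hℓ
    obtain ⟨i, hi⟩ := st.blk.ex ℓ hℓ
    obtain ⟨ℓ', hℓ', hne⟩ := st.blk.exists_ne (i := i) ℓ
    have hv0 : v₀ ≠ 0 := by
      rintro rfl
      have h1 := hv₀ ℓ' (st.blk.sub i hℓ') hne
      rw [ev_zero, ev_zero] at h1
      exact lt_irrefl _ h1
    obtain ⟨d, hd, hdyn⟩ := hpos v₀ hv0
    have hrate := class_rate st hA (T := W) subset_rfl hWne hapos v₀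
    rw [← haA] at hrate
    have hdeq : d = W.sup' hWne fun ℓ => Real.exp (ev ℓ v₀) := tendsto_nhds_unique hdyn hrate
    have hmax : W.sup' hWne (fun ℓ => Real.exp (ev ℓ v₀)) = Real.exp (ev ℓ v₀) := by
      refine le_antisymm (Finset.sup'_le _ _ fun m hm => ?_)
        (Finset.le_sup' (fun ℓ => Real.exp (ev ℓ v₀)) hℓ)
      by_cases hmℓ : m = ℓ
      · rw [hmℓ]
      · exact Real.exp_le_exp.2 (hv₀ m hm hmℓ).le
    rw [hmax] at hdeq
    rw [hdeq] at hd hdyn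
    obtain ⟨K, hK, h1⟩ := hpull v₀ ℓ hℓ
    obtain ⟨l, B, hB, h2⟩ := hgrow v₀ _ hd hdyn
    obtain ⟨h, C, hC, h3, h4, h5⟩ := can (Φ.f v₀).pt (η (cl U b ℓ)) hp hd hK hB h1 h2
    refine ⟨h, C, hC, h3, fun v x => ?_, fun x => ?_⟩
    · obtain ⟨K', hK', h6⟩ := hpull v ℓ hℓ
      refine can_equiv (g := (Φ.f v₀).pt) (f := (Φ.f v).pt) hd (fun y => ?_) h6 h4 h5 x
      rw [← Φ.pt_add, ← Φ.pt_add, add_comm]
    · obtain ⟨K', hK', h6⟩ := hpullg ℓ hℓ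
      exact can_equiv (g := (Φ.f v₀).pt) (f := g.pt) hd (fun y => hcomm v₀ y) h6 h4 h5 x
  choose! hh C hC hhη hhF hhg using hcan
  -- the ample class
  obtain ⟨L, hL⟩ : ∃ L : V.Pic, L = ∑ ℓ ∈ W, s (cl U b ℓ) := ⟨_, rfl⟩
  have hLcls : V.cls L = ∑ ℓ ∈ W, (1 : ℝ) • cl U b ℓ := by
    rw [hL, map_sum]
    exact Finset.sum_congr rfl fun i _ => by rw [hs, one_smul]
  have hLint : V.cls L ∈ interior V.Nef := by
    rw [hLcls]
    exact ample_of_pos st fun _ _ => one_pos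
  obtain ⟨t, ht, htA⟩ : ∃ t : ℝ, 0 < t ∧ V.cls (L - t • A) ∈ interior V.Nef := by
    have h1 : U.equivFun (V.cls L) ∈ interior (Cc U) := by
      rw [interior_Cc, LinearEquiv.symm_apply_apply]
      exact hLint
    obtain ⟨t, ht, h2⟩ := Pool.Agent.N165.KM.interior_sub h1 (U.equivFun (V.cls A))
    refine ⟨t, ht, ?_⟩
    rw [← map_smul, ← map_sub, interior_Cc, LinearEquiv.symm_apply_apply] at h2
    rw [map_sub, map_smul]
    exact h2
  have hLη : V.IsHeight L (∑ ℓ ∈ W, η (cl U b ℓ)) := by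
    unfold Variety.IsHeight
    rw [hL, map_sum, map_sum]
    exact Finset.sum_congr rfl fun i _ => hη _
  obtain ⟨c0, hc0⟩ := V.ample_height _ htA _
    (height_sub V.toVariety hLη (height_smul V.toVariety t hu))
  have hZb : ∀ x, u x ≤ t⁻¹ * (∑ ℓ ∈ W, |η (cl U b ℓ) x| + |c0|) := by
    intro x
    have h1 := hc0 x
    simp only [Pi.sub_apply, Finset.sum_apply, Pi.smul_apply, smul_eq_mul] at h1
    have h2 : ∑ ℓ ∈ W, η (cl U b ℓ) x ≤ ∑ ℓ ∈ W, |η (cl U b ℓ) x| :=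
      Finset.sum_le_sum fun i _ => le_abs_self _
    have h3 := neg_abs_le c0
    rw [le_inv_mul_iff₀ ht]
    linarith
  obtain ⟨CS, hCS⟩ : ∃ CS : ℝ, CS = ∑ ℓ ∈ W, C ℓ := ⟨_, rfl⟩
  have hCS0 : 0 ≤ CS := by
    rw [hCS]
    exact Finset.sum_nonneg fun ℓ hℓ => (hC ℓ hℓ).le
  have hlow : ∀ x, hp x ≤ (2 + 2 * t⁻¹ + 2 * t⁻¹ * |c0| + (t⁻¹ * CS) ^ 2) *
      (1 + ∑ ℓ ∈ W, |hh ℓ x|) := by
    intro x
    have hH : 0 ≤ ∑ ℓ ∈ W, |hh ℓ x| := Finset.sum_nonneg fun _ _ => abs_nonneg _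
    have h1 : ∑ ℓ ∈ W, |η (cl U b ℓ) x| ≤ ∑ ℓ ∈ W, |hh ℓ x| + CS * √(hp x) := by
      rw [hCS, Finset.sum_mul, ← Finset.sum_add_distrib]
      refine Finset.sum_le_sum fun ℓ hℓ => ?_
      have h2 := hhη ℓ hℓ x
      have h3 : |η (cl U b ℓ) x| ≤ |hh ℓ x| + |hh ℓ x - η (cl U b ℓ) x| := by
        have := abs_sub (hh ℓ x) (hh ℓ x - η (cl U b ℓ) x)
        rwa [sub_sub_cancel] at this
      linarith
    have h2 : hp x ≤ 1 + t⁻¹ * (∑ ℓ ∈ W, |hh ℓ x| + CS * √(hp x) + |c0|) := by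
      have h3 : u x ≤ t⁻¹ * (∑ ℓ ∈ W, |hh ℓ x| + CS * √(hp x) + |c0|) :=
        (hZb x).trans (mul_le_mul_of_nonneg_left (by linarith) (by positivity))
      have h4 : 0 ≤ t⁻¹ * (∑ ℓ ∈ W, |hh ℓ x| + CS * √(hp x) + |c0|) := by positivity
      calc hp x = max 1 (u x) := by rw [hhp]
        _ ≤ _ := max_le (by linarith) (by linarith)
    have h3 : √(hp x) ^ 2 = hp x := Real.sq_sqrt (by linarith [hp1 x])
    have h4 : 2 * (t⁻¹ * CS * √(hp x)) ≤ (t⁻¹ * CS) ^ 2 + hp x := by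
      have := sq_nonneg (t⁻¹ * CS - √(hp x))
      nlinarith
    have h5 : hp x ≤ 2 + 2 * t⁻¹ * ∑ ℓ ∈ W, |hh ℓ x| + 2 * t⁻¹ * |c0| + (t⁻¹ * CS) ^ 2 := by
      have e1 : t⁻¹ * (∑ ℓ ∈ W, |hh ℓ x| + CS * √(hp x) + |c0|) =
          t⁻¹ * ∑ ℓ ∈ W, |hh ℓ x| + t⁻¹ * CS * √(hp x) + t⁻¹ * |c0| := by ring
      rw [e1] at h2
      linarith
    refine h5.trans ?_
    have h6 : 0 ≤ (2 + 2 * t⁻¹ * |c0| + (t⁻¹ * CS) ^ 2) * ∑ ℓ ∈ W, |hh ℓ x| := by positivity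
    have h7 : 0 ≤ 2 * t⁻¹ := by positivity
    nlinarith
  have hupp : ∃ K, 0 < K ∧ ∀ ℓ ∈ W, ∀ x, |hh ℓ x| ≤ K * hp x := by
    choose K6 hK6 using fun ℓ => height_bound V.toVariety hA hu (hη (cl U b ℓ))
    refine ⟨∑ ℓ ∈ W, (|K6 ℓ| + C ℓ) + 1, ?_, fun ℓ hℓ x => ?_⟩
    · have : 0 ≤ ∑ ℓ ∈ W, (|K6 ℓ| + C ℓ) := Finset.sum_nonneg fun ℓ hℓ => by
        have := hC ℓ hℓ
        positivity
      linarith
    · have h1 := hhη ℓ hℓ x
      have h2 : |hh ℓ x| ≤ |η (cl U b ℓ) x| + |hh ℓ x - η (cl U b ℓ) x| := by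
        have := abs_add_le (η (cl U b ℓ) x) (hh ℓ x - η (cl U b ℓ) x)
        rwa [add_sub_cancel] at this
      have h3 : |η (cl U b ℓ) x| ≤ |K6 ℓ| * hp x := by
        refine (hK6 ℓ x).trans ?_
        rw [hhp]
        exact mul_le_mul_of_nonneg_right (le_abs_self _) (le_trans zero_le_one (le_max_left _ _))
      have h4 : C ℓ * √(hp x) ≤ C ℓ * hp x := mul_le_mul_of_nonneg_left (hsqle x) (hC ℓ hℓ).le
      have h5 : |K6 ℓ| + C ℓ ≤ ∑ ℓ ∈ W, (|K6 ℓ| + C ℓ) :=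
        Finset.single_le_sum (f := fun ℓ => |K6 ℓ| + C ℓ) (fun m hm => by
          have := hC m hm
          positivity) hℓ
      have h6 := hp1 x
      have h7 : (|K6 ℓ| + C ℓ) * hp x ≤ (∑ ℓ ∈ W, (|K6 ℓ| + C ℓ)) * hp x :=
        mul_le_mul_of_nonneg_right h5 (by linarith)
      rw [add_mul] at h7 ⊢
      linarith
  refine ⟨{ blk := st.blk
            F := fun v => (Φ.f v).pt
            zero := Φ.pt_zero
            add := Φ.pt_add
            hp := hp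
            one_le := hp1
            deg := fun x => (MulAction.orbit G x).ncard
            deg_F := fun v x => ncard_orbit Φ v x
            fin := fun e C => (V.northcott A u hA hu e C).subset
              fun x hx => ⟨hx.1, (hup x).trans hx.2⟩
            hh := hh
            hh_F := hhF
            up := hupp
            low := ⟨_, by positivity, hlow⟩ }, rfl, hhp, rfl, hhg⟩

end Run7.h22.Kse
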