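import Pool.Agent.Run7.h22.Kse1

/-!
# Growth rates and arithmetic degrees for an endomorphism commuting with the group
-/

set_option autoImplicit false

open Filter Topology
open Pool.Agent.Q8.KS Run7.h334.KSR Run7.h528.MB Run7.h528.KB
open Pool.Agent.N110.CC (PC Frm ev ev_add ev_zero ev_neg ev_nsmul)

namespace Run7.h22.Kse

variable {G : Type} [Group G] {V : ProjVariety G} {r k ρ : ℕ}

section

variable {Φ : LatticeAction V r} {U : Module.Basis (Fin ρ) ℝ V.NS} {β : Fin ρ → Fin k}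
  {W : Finset (Frm r)} {Ab : Fin k → Finset (Frm r)} {b : Module.Basis W ℝ (Fin ρ → ℝ)}

theorem cl_powg (g : Morphism V.toVariety V.toVariety) {c : Frm r → ℝ}
    (hgc : ∀ ℓ ∈ W, g.ns (cl U b ℓ) = c ℓ • cl U b ℓ) {ℓ : Frm r} (hℓ : ℓ ∈ W) (n : ℕ) :
    (g.ns ^ n) (cl U b ℓ) = c ℓ ^ n • cl U b ℓ := by
  induction n with
  | zero => simp
  | succ n ih =>
    rw [pow_succ', Module.End.mul_apply, ih, map_smul, hgc ℓ hℓ, smul_smul, pow_succ]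

open Classical in
/-- **Growth rates of classes.** -/
theorem class_rate_g (st : StrB (Cc U) (Gc U Φ) (Pi.basisFun ℝ (Fin ρ)) β W Ab b) {A : V.Pic}
    (hA : V.IsAmple A) (g : Morphism V.toVariety V.toVariety) {c : Frm r → ℝ}
    (hc : ∀ ℓ ∈ W, 0 < c ℓ) (hgc : ∀ ℓ ∈ W, g.ns (cl U b ℓ) = c ℓ • cl U b ℓ)
    {T : Finset (Frm r)} (hT : T ⊆ W) (hne : T.Nonempty) {y : Frm r → ℝ}
    (hy : ∀ ℓ ∈ T, 0 < y ℓ) :
    IsGrowthRate g A (∑ ℓ ∈ T, y ℓ • cl U b ℓ) (T.sup' hne c) := by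
  obtain ⟨D, hD⟩ : ∃ D, D = T.sup' hne c := ⟨_, rfl⟩
  obtain ⟨ℓ₁, hℓ₁, hD1⟩ := Finset.exists_mem_eq_sup' hne c
  rw [← hD] at hD1 ⊢
  have hle : ∀ ℓ ∈ T, c ℓ ≤ D := fun ℓ hℓ => by
    rw [hD]
    exact Finset.le_sup' c hℓ
  have hD0 : 0 < D := by
    rw [hD1]
    exact hc _ (hT hℓ₁)
  have hdeg : ∀ ℓ ∈ T, 0 < V.deg (V.cls A) (cl U b ℓ) := fun ℓ hℓ =>
    V.int_pos _ hA _ (cl_nef st (hT hℓ)) (cl_ne (hT hℓ))
  have hform : ∀ n : ℕ, V.deg (V.cls A) ((g.ns ^ n) (∑ ℓ ∈ T, y ℓ • cl U b ℓ)) =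
      ∑ ℓ ∈ T, y ℓ * V.deg (V.cls A) (cl U b ℓ) * c ℓ ^ n := by
    intro n
    rw [map_sum, map_sum]
    refine Finset.sum_congr rfl fun ℓ hℓ => ?_
    rw [map_smul, cl_powg g hgc (hT hℓ), map_smul, map_smul, smul_eq_mul, smul_eq_mul]
    ring
  refine rate hD0 (x := y ℓ₁ * V.deg (V.cls A) (cl U b ℓ₁))
    (y := ∑ ℓ ∈ T, y ℓ * V.deg (V.cls A) (cl U b ℓ)) (mul_pos (hy _ hℓ₁) (hdeg _ hℓ₁))
    (Finset.sum_pos (fun ℓ hℓ => mul_pos (hy _ hℓ) (hdeg _ hℓ)) hne) (fun n => ?_) fun n => ?_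
  · rw [hform]
    refine le_trans (le_of_eq ?_) (Finset.single_le_sum (f := fun ℓ =>
      y ℓ * V.deg (V.cls A) (cl U b ℓ) * c ℓ ^ n) (fun ℓ hℓ => ?_) hℓ₁)
    · show _ = y ℓ₁ * V.deg (V.cls A) (cl U b ℓ₁) * c ℓ₁ ^ n
      rw [← hD1]
    · have h1 := hy _ hℓ
      have h2 := hdeg _ hℓ
      have h3 := hc _ (hT hℓ)
      show 0 ≤ y ℓ * V.deg (V.cls A) (cl U b ℓ) * c ℓ ^ n
      positivity
  · rw [hform, Finset.sum_mul]
    refine Finset.sum_le_sum fun ℓ hℓ => ?_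
    have h1 := hy _ hℓ
    have h2 := hdeg _ hℓ
    exact mul_le_mul_of_nonneg_left (pow_le_pow_left₀ (hc _ (hT hℓ)).le (hle ℓ hℓ) n)
      (by positivity)

/-- an injective map which preserves a lattice has an eigenvalue `≥ 1` -/
theorem exists_one_le (_st : StrB (Cc U) (Gc U Φ) (Pi.basisFun ℝ (Fin ρ)) β W Ab b)
    (g : Morphism V.toVariety V.toVariety) {c : Frm r → ℝ}
    (hc : ∀ ℓ ∈ W, 0 < c ℓ) (hgc : ∀ ℓ ∈ W, g.ns (cl U b ℓ) = c ℓ • cl U b ℓ)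
    (hWne : W.Nonempty) (hlat : PreservesLattice V.lattice g) : ∃ ℓ ∈ W, 1 ≤ c ℓ := by
  classical
  by_contra hcon
  push Not at hcon
  -- the determinant is the product of the eigenvalues
  obtain ⟨B, hB⟩ : ∃ B : Module.Basis W ℝ V.NS, B = b.map U.equivFun.symm := ⟨_, rfl⟩
  have hBc : ∀ ℓ : W, B ℓ = cl U b ℓ.1 := by
    intro ℓ
    rw [hB, Module.Basis.map_apply, cl_mem]
  have hdet : LinearMap.det g.ns = ∏ ℓ : W, c ℓ.1 := by
    rw [← LinearMap.det_toMatrix B]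
    have h1 : LinearMap.toMatrix B B g.ns = Matrix.diagonal fun ℓ : W => c ℓ.1 := by
      ext i j
      rw [LinearMap.toMatrix_apply, hBc, hgc _ j.2, ← hBc, map_smul, Finsupp.smul_apply,
        B.repr_self, smul_eq_mul, Matrix.diagonal_apply]
      by_cases hij : i = j
      · subst hij
        rw [if_pos rfl, Finsupp.single_eq_same, mul_one]
      · rw [if_neg hij, Finsupp.single_eq_of_ne hij, mul_zero]
    rw [h1, Matrix.det_diagonal]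
  -- the determinant is an integer
  obtain ⟨n, L, hL⟩ := V.lattice_basis
  have hint : ∃ z : ℤ, LinearMap.det g.ns = (z : ℝ) := by
    have h1 : ∀ j, ∃ a : Fin n → ℤ, g.ns (L j) = ∑ i, (a i : ℝ) • L i := by
      intro j
      have h2 : g.ns (L j) ∈ V.lattice := hlat _ (by
        rw [hL]; exact Submodule.subset_span ⟨j, rfl⟩)
      rw [hL, Submodule.mem_span_range_iff_exists_fun] at h2
      obtain ⟨a, ha⟩ := h2
      refine ⟨a, ?_⟩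
      rw [← ha]
      exact Finset.sum_congr rfl fun i _ => (Int.cast_smul_eq_zsmul ℝ (a i) (L i)).symm ▸ rfl
    choose a ha using h1
    refine ⟨(Matrix.of fun i j => a j i).det, ?_⟩
    rw [← LinearMap.det_toMatrix L]
    have h2 : LinearMap.toMatrix L L g.ns =
        (Int.castRingHom ℝ).mapMatrix (Matrix.of fun i j => a j i) := by
      ext i j
      rw [LinearMap.toMatrix_apply, ha, L.repr_sum_self]
      rfl
    rw [h2, ← RingHom.map_det]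
    rfl
  obtain ⟨z, hz⟩ := hint
  have hpos : 0 < ∏ ℓ : W, c ℓ.1 := Finset.prod_pos fun ℓ _ => hc _ ℓ.2
  have hlt : ∏ ℓ : W, c ℓ.1 < 1 := by
    obtain ⟨ℓ, hℓ⟩ := hWne
    have : Nonempty W := ⟨⟨ℓ, hℓ⟩⟩
    calc ∏ ℓ : W, c ℓ.1 < ∏ _ℓ : W, (1 : ℝ) :=
          Finset.prod_lt_prod_of_nonempty (fun ℓ _ => hc _ ℓ.2) (fun ℓ _ => hcon _ ℓ.2)
            Finset.univ_nonempty
      _ = 1 := by simp
  rw [← hdet, hz] at hpos hlt
  have h1 : (0 : ℤ) < z := by exact_mod_cast hpos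
  have h2 : z < (1 : ℤ) := by exact_mod_cast hlt
  omega

end

section

variable {X : Type} {W : Finset (Frm r)} {A : Fin k → Finset (Frm r)} {d : Fin k → ℕ}
  (S : KSys X W A d) (g : X → X) {c : Frm r → ℝ}

theorem hh_iterg (hg : ∀ ℓ ∈ W, ∀ x, S.hh ℓ (g x) = c ℓ * S.hh ℓ x) {ℓ : Frm r} (hℓ : ℓ ∈ W)
    (n : ℕ) (x : X) : S.hh ℓ (g^[n] x) = c ℓ ^ n * S.hh ℓ x := by
  induction n with
  | zero => simp
  | succ n ih => rw [Function.iterate_succ_apply', hg ℓ hℓ, ih, pow_succ]; ring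

theorem supp_g (hc : ∀ ℓ ∈ W, 0 < c ℓ) (hg : ∀ ℓ ∈ W, ∀ x, S.hh ℓ (g x) = c ℓ * S.hh ℓ x)
    (x : X) : S.supp (g x) = S.supp x := by
  ext i
  rw [S.mem_supp, S.mem_supp]
  refine exists_congr fun ℓ => and_congr_right fun hℓ => ?_
  have h1 := S.blk.sub i hℓ
  rw [hg ℓ h1]
  have h2 := (hc ℓ h1).ne'
  simp [h2]

open Classical in
/-- **Growth of the heights.** -/
theorem growth_g (hc : ∀ ℓ ∈ W, 0 < c ℓ) (hg : ∀ ℓ ∈ W, ∀ x, S.hh ℓ (g x) = c ℓ * S.hh ℓ x)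
    (x : X) {T : Finset (Frm r)} (hT : T = (S.supp x).biUnion A) (hne : T.Nonempty) :
    Tendsto (fun n : ℕ => (S.hp (g^[n] x)) ^ (1 / (n : ℝ))) atTop
      (𝓝 (max 1 (T.sup' hne c))) := by
  classical
  obtain ⟨D, hD⟩ : ∃ D, D = T.sup' hne c := ⟨_, rfl⟩
  obtain ⟨ℓ₁, hℓ₁, hD1⟩ := Finset.exists_mem_eq_sup' hne c
  rw [← hD] at hD1 ⊢
  have hle : ∀ ℓ ∈ T, c ℓ ≤ D := fun ℓ hℓ => by
    rw [hD]
    exact Finset.le_sup' c hℓ
  have hmT : ∀ ℓ, ℓ ∈ T ↔ ∃ i ∈ S.supp x, ℓ ∈ A i := fun ℓ => by rw [hT, Finset.mem_biUnion]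
  have hTW : ∀ ℓ ∈ T, ℓ ∈ W := fun ℓ hℓ => by
    obtain ⟨i, -, hi⟩ := (hmT ℓ).1 hℓ
    exact S.blk.sub i hi
  have hTne : ∀ ℓ ∈ T, S.hh ℓ x ≠ 0 := fun ℓ hℓ => by
    obtain ⟨i, his, hi⟩ := (hmT ℓ).1 hℓ
    exact S.ne_of_mem his hi
  have hTz : ∀ ℓ ∈ W, ℓ ∉ T → S.hh ℓ x = 0 := fun ℓ hℓ hn => by
    obtain ⟨i, hi⟩ := S.blk.ex ℓ hℓ
    exact S.zero_of_notMem (fun his => hn ((hmT ℓ).2 ⟨i, his, hi⟩)) hi
  obtain ⟨C, hC, hup⟩ := S.up
  obtain ⟨K, hK, hlow⟩ := S.low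
  have hH : 0 ≤ ∑ ℓ ∈ W, |S.hh ℓ x| := Finset.sum_nonneg fun _ _ => abs_nonneg _
  have hM0 : 0 < max 1 D := lt_of_lt_of_le one_pos (le_max_left _ _)
  have hD0 : 0 < D := by rw [hD1]; exact hc _ (hTW _ hℓ₁)
  have hx0 : 0 < |S.hh ℓ₁ x| / C := div_pos (abs_pos.2 (hTne ℓ₁ hℓ₁)) hC
  refine rate hM0 (x := min 1 (|S.hh ℓ₁ x| / C)) (y := K * (1 + ∑ ℓ ∈ W, |S.hh ℓ x|))
    (lt_min one_pos hx0) (by positivity) (fun n => ?_) fun n => ?_
  · rcases le_total 1 D with h | h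
    · rw [max_eq_right h]
      have h1 := hup ℓ₁ (hTW ℓ₁ hℓ₁) (g^[n] x)
      rw [hh_iterg S g hg (hTW ℓ₁ hℓ₁), ← hD1, abs_mul,
        abs_of_pos (by positivity : 0 < D ^ n)] at h1
      refine (mul_le_mul_of_nonneg_right (min_le_right _ _) (by positivity)).trans ?_
      rw [div_mul_eq_mul_div, div_le_iff₀ hC]
      linarith
    · rw [max_eq_left h, one_pow, mul_one]
      exact (min_le_left _ _).trans (S.one_le _)
  · refine (hlow _).trans ?_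
    rw [mul_assoc]
    refine mul_le_mul_of_nonneg_left ?_ hK.le
    have h1 : ∑ ℓ ∈ W, |S.hh ℓ (g^[n] x)| ≤ ∑ ℓ ∈ W, |S.hh ℓ x| * max 1 D ^ n := by
      refine Finset.sum_le_sum fun ℓ hℓ => ?_
      rw [hh_iterg S g hg hℓ, abs_mul, abs_of_pos (pow_pos (hc ℓ hℓ) n), mul_comm]
      by_cases hℓT : ℓ ∈ T
      · exact mul_le_mul_of_nonneg_left (pow_le_pow_left₀ (hc ℓ hℓ).le
          ((hle ℓ hℓT).trans (le_max_right _ _)) n) (abs_nonneg _)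
      · rw [hTz ℓ hℓ hℓT, abs_zero, zero_mul, zero_mul]
    have h2 : (1 : ℝ) ≤ max 1 D ^ n := one_le_pow₀ (le_max_left _ _)
    rw [← Finset.sum_mul] at h1
    rw [add_mul, one_mul]
    linarith

/-- the points with empty support have bounded heights -/
theorem hh_zero_of_empty {x : X} (hx : S.supp x = ∅) : ∀ ℓ ∈ W, S.hh ℓ x = 0 := by
  intro ℓ hℓ
  obtain ⟨i, hi⟩ := S.blk.ex ℓ hℓ
  exact S.zero_of_notMem (by rw [hx]; exact Finset.notMem_empty i) hi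

theorem finite_g (hg : ∀ ℓ ∈ W, ∀ x, S.hh ℓ (g x) = c ℓ * S.hh ℓ x)
    (hdeg : ∀ x, S.deg (g x) ≤ S.deg x) {x : X} (hx : S.supp x = ∅) :
    (Set.range fun n : ℕ => g^[n] x).Finite := by
  refine (S.finite_of_bdd (S.deg x) 0).subset ?_
  rintro _ ⟨n, rfl⟩
  refine ⟨?_, fun ℓ hℓ => ?_⟩
  · induction n with
    | zero => exact le_rfl
    | succ n ih =>
      simp only [Function.iterate_succ_apply']
      exact (hdeg _).trans ih
  · show |S.hh ℓ (g^[n] x)| ≤ 0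
    rw [hh_iterg S g hg hℓ, hh_zero_of_empty S hx ℓ hℓ, mul_zero, abs_zero]

theorem growth_g_empty (hg : ∀ ℓ ∈ W, ∀ x, S.hh ℓ (g x) = c ℓ * S.hh ℓ x) {x : X}
    (hx : S.supp x = ∅) :
    Tendsto (fun n : ℕ => (S.hp (g^[n] x)) ^ (1 / (n : ℝ))) atTop (𝓝 1) := by
  obtain ⟨K, hK, hlow⟩ := S.low
  have h0 := hh_zero_of_empty S hx
  refine rate one_pos (x := 1) (y := K) one_pos hK (fun n => ?_) fun n => ?_
  · rw [one_pow, mul_one]
    exact S.one_le _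
  · refine (hlow _).trans ?_
    rw [one_pow, mul_one]
    have h1 : ∑ ℓ ∈ W, |S.hh ℓ (g^[n] x)| = 0 := Finset.sum_eq_zero fun ℓ hℓ => by
      rw [hh_iterg S g hg hℓ, h0 ℓ hℓ, mul_zero, abs_zero]
    rw [h1, add_zero, mul_one]

/-- a point with a finite orbit under an endomorphism which expands all classes has empty
support -/
theorem empty_of_finite (hc : ∀ ℓ ∈ W, 1 < c ℓ)
    (hg : ∀ ℓ ∈ W, ∀ x, S.hh ℓ (g x) = c ℓ * S.hh ℓ x) {x : X}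
    (hx : (Set.range fun n : ℕ => g^[n] x).Finite) : S.supp x = ∅ := by
  rw [Finset.eq_empty_iff_forall_notMem]
  intro i hi
  obtain ⟨ℓ, hℓ, hne0⟩ := (S.mem_supp x i).1 hi
  have hW := S.blk.sub i hℓ
  obtain ⟨a, b, hab, hF⟩ := hx.exists_lt_map_eq_of_forall_mem
    (f := fun n : ℕ => g^[n] x) (fun n => by refine ⟨n, rfl⟩)
  have h2 := congrArg (S.hh ℓ) hF
  simp only [hh_iterg S g hg hW] at h2
  have h3 := mul_right_cancel₀ hne0 h2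
  have h4 := pow_lt_pow_right₀ (hc ℓ hW) hab
  linarith

end

end Run7.h22.Kse
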