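import Pool.Agent.Run7.h22.Kse2

/-!
# Arithmetic degrees of an endomorphism commuting with the group

Adapted from Run7/h528/KB/Final.lean.
-/

set_option autoImplicit false

open Filter Topology
open Pool.Agent.Q8.KS Run7.h334.KSR Run7.h528.MB Run7.h528.KB
open Pool.Agent.N110.CC (PC Frm ev ev_add ev_zero ev_neg ev_nsmul)

namespace Run7.h22.Kse

variable {G : Type} [Group G] {V : ProjVariety G} {r k ρ : ℕ}

/-- **Arithmetic degrees.** -/
theorem final_g (hr : 0 < r) (Φ : LatticeAction V r) {A : V.Pic} (hA : V.IsAmple A)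
    {u : V.Pt → ℝ} (hu : V.IsHeight A u)
    (hpos : ∀ v : Fin r → ℤ, v ≠ 0 → ∃ d, 1 < d ∧ IsDynamicalDegree (Φ.f v) A d)
    (U : Module.Basis (Fin ρ) ℝ V.NS) {β : Fin ρ → Fin k}
    (hβ : ∀ i, ∃ j j', j ≠ j' ∧ β j = i ∧ β j' = i) (hρ : ρ = r + k)
    (hbl : ∀ v j, ∃ a : Fin ρ → ℤ, (∀ l, β l ≠ β j → a l = 0) ∧
      (Φ.f v).ns (U j) = ∑ l, (a l : ℝ) • U l)
    (g : Morphism V.toVariety V.toVariety) (hinj : Function.Injective g.ns)
    (hcomm : ∀ (v : Fin r → ℤ) (x : V.Pt), g.pt ((Φ.f v).pt x) = (Φ.f v).pt (g.pt x))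
    (hcommns : ∀ (v : Fin r → ℤ) (D : V.NS), g.ns ((Φ.f v).ns D) = (Φ.f v).ns (g.ns D))
    (hlat : PreservesLattice V.lattice g) :
    ∃ e : Fin k → V.NS,
      (∀ i, e i ∈ V.Nef ∧ e i ≠ 0 ∧ e i ∈ Submodule.span ℝ (U '' {j | β j = i})) ∧
      ∑ i, e i ∈ interior V.Nef ∧
      (∀ x, ∃ s : Finset (Fin k),
        (s = ∅ ↔ (Set.range fun v => (Φ.f v).pt x).Finite) ∧
        (s = ∅ → ∀ v, IsArithmeticDegree (Φ.f v) u x 1) ∧
        (s.Nonempty → ∀ v, ∃ d, IsGrowthRate (Φ.f v) A (∑ i ∈ s, e i) d ∧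
          IsArithmeticDegree (Φ.f v) u x d) ∧
        (∀ w, (Φ.f w).pt x = x → ∀ i ∈ s, (Φ.f w).ns (e i) = e i) ∧
        {z | ∃ w, (∀ i ∈ s, (Φ.f w).ns (e i) = e i) ∧ z = (Φ.f w).pt x}.Finite ∧
        (s ≠ Finset.univ → ∃ w, w ≠ 0 ∧ (Φ.f w).pt x = x) ∧
        (s = Finset.univ → ∀ v d, IsDynamicalDegree (Φ.f v) A d →
          IsArithmeticDegree (Φ.f v) u x d) ∧
        (s = ∅ → (Set.range fun n : ℕ => g.pt^[n] x).Finite ∧ IsArithmeticDegree g u x 1) ∧
        (s.Nonempty → ∃ d, IsGrowthRate g A (∑ i ∈ s, e i) d ∧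
          IsArithmeticDegree g u x (max 1 d)) ∧
        (s = Finset.univ → ∀ d, IsDynamicalDegree g A d → IsArithmeticDegree g u x d)) ∧
      (∃ d, 1 ≤ d ∧ IsDynamicalDegree g A d) ∧
      (∀ L, V.IsAmple L → g.ns (V.cls L) - V.cls L ∈ interior V.Nef → ∀ x,
        (Set.range fun n : ℕ => g.pt^[n] x).Finite →
        (Set.range fun v => (Φ.f v).pt x).Finite) := by
  classical
  obtain ⟨W, Ab, b, st⟩ := exists_blocks hr Φ hA hu hpos U hβ hρ hbl
  have hAne : ∀ i, (Ab i).Nonempty := fun i => Finset.card_pos.1 (by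
    have h1 := st.blk.key.1 i
    have h2 := st.blk.two i
    omega)
  have hk : 0 < k := by
    rcases Nat.eq_zero_or_pos k with h | h
    · exfalso
      subst h
      obtain ⟨ℓ, hℓ, -⟩ := st.blk.grow.choose_spec.2 0
      obtain ⟨i, -⟩ := st.blk.ex ℓ hℓ
      exact i.elim0
    · exact h
  have hWne : W.Nonempty := by
    obtain ⟨ℓ, hℓ⟩ := hAne ⟨0, hk⟩
    exact ⟨ℓ, st.blk.sub _ hℓ⟩
  obtain ⟨c, hc, hgc⟩ := eigen_of_comm st hA g hinj hcommns
  obtain ⟨S, hF, hhp, hdeg, hhg⟩ := exists_sys2 hA hu hpos st hWne g hcomm hgc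
  have harithg : ∀ x d, Tendsto (fun n : ℕ => (S.hp (g.pt^[n] x)) ^ (1 / (n : ℝ))) atTop
      (𝓝 d) → IsArithmeticDegree g u x d := by
    intro x d h
    unfold IsArithmeticDegree
    rw [hhp] at h
    exact h
  have hdegg : ∀ x, S.deg (g.pt x) ≤ S.deg x := by
    intro x
    rw [hdeg]
    show (MulAction.orbit G (g.pt x)).ncard ≤ (MulAction.orbit G x).ncard
    have h1 : MulAction.orbit G (g.pt x) = g.pt '' MulAction.orbit G x := by
      ext y
      constructor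
      · rintro ⟨σ, rfl⟩
        exact ⟨σ • x, ⟨σ, rfl⟩, g.pt_smul σ x⟩
      · rintro ⟨_, ⟨σ, rfl⟩, rfl⟩
        exact ⟨σ, (g.pt_smul σ x).symm⟩
    rw [h1]
    exact Set.ncard_image_le (V.orbit_finite x)
  have hFx : ∀ v x, S.F v x = (Φ.f v).pt x := fun v x => by rw [hF]
  have harith : ∀ v x d, Tendsto (fun n : ℕ => (S.hp ((S.F v)^[n] x)) ^ (1 / (n : ℝ))) atTop
      (𝓝 d) → IsArithmeticDegree (Φ.f v) u x d := by
    intro v x d h
    unfold IsArithmeticDegree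
    rw [hhp, hF] at h
    exact h
  have hrange : ∀ x, (Set.range fun v => S.F v x) = Set.range fun v => (Φ.f v).pt x := fun x => by
    rw [hF]
  have hUn : Finset.univ.biUnion Ab = W := by
    ext ℓ
    rw [Finset.mem_biUnion]
    constructor
    · rintro ⟨i, -, hi⟩
      exact st.blk.sub i hi
    · intro hℓ
      obtain ⟨i, hi⟩ := st.blk.ex ℓ hℓ
      exact ⟨i, Finset.mem_univ _, hi⟩
  refine ⟨eb U b Ab, fun i => ⟨?_, ?_, ?_⟩, ?_, fun x => ⟨S.supp x, ?_, fun h v => ?_,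
    fun h v => ?_, fun w hw i hi => ?_, ?_, fun h => ?_, fun h v d hd => ?_, fun h => ?_,
    fun h => ?_, fun h d hd => ?_⟩, ?_, fun L hL hgL x hx => ?_⟩
  · unfold eb
    exact sum_mem V.nef_cone _ _ fun ℓ => by
      by_cases hℓ : ℓ ∈ W
      · intro _
        exact cl_nef st hℓ
      · intro hi
        exact absurd (st.blk.sub i hi) hℓ
  · intro h0
    obtain ⟨ℓ, hℓ⟩ := hAne i
    have h1 := repr_sum (U := U) (b := b) (fun ℓ => if ℓ ∈ Ab i then (1 : ℝ) else 0)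
      ⟨ℓ, st.blk.sub i hℓ⟩
    rw [← eb_eq st i, h0, map_zero, map_zero, Finsupp.zero_apply] at h1
    simp only [if_pos hℓ] at h1
    norm_num at h1
  · unfold eb
    exact Submodule.sum_mem _ fun ℓ hℓ => cl_span st hℓ
  · rw [sum_eb st, hUn]
    exact ample_of_pos st fun _ _ => one_pos
  · rw [S.finite_iff, hrange]
  · exact harith v x 1 (S.growth_empty h v)
  · obtain ⟨T, hT⟩ : ∃ T, T = (S.supp x).biUnion Ab := ⟨_, rfl⟩
    have hTne : T.Nonempty := by
      obtain ⟨i, hi⟩ := h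
      obtain ⟨ℓ, hℓ⟩ := hAne i
      exact ⟨ℓ, by rw [hT, Finset.mem_biUnion]; exact ⟨i, hi, hℓ⟩⟩
    have hTW : T ⊆ W := by
      intro ℓ hℓ
      rw [hT, Finset.mem_biUnion] at hℓ
      obtain ⟨i, -, hi⟩ := hℓ
      exact st.blk.sub i hi
    refine ⟨T.sup' hTne fun ℓ => Real.exp (ev ℓ v), ?_, harith v x _ (S.growth x v hT hTne)⟩
    rw [sum_eb st, ← hT]
    exact class_rate st hA hTW hTne (fun _ _ => one_pos) v
  · rw [fix_iff st]
    rw [← hFx] at hw
    exact fun ℓ hℓ => S.stab hw hi hℓ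
  · refine (S.stab_finite x).subset ?_
    rintro z ⟨w, hw, rfl⟩
    exact ⟨w, fun i hi => (fix_iff st i w).1 (hw i hi), (hFx w x).symm⟩
  · obtain ⟨w, hw, h1⟩ := S.fixed h
    exact ⟨w, hw, by rw [← hFx]; exact h1⟩
  · obtain ⟨a, ha, haA⟩ := expand (U := U) (b := b) (V.cls A)
    have hrate := class_rate st hA (T := W) subset_rfl hWne (ample_pos st hA ha) v
    rw [← haA] at hrate
    have hdeq : d = W.sup' hWne fun ℓ => Real.exp (ev ℓ v) := tendsto_nhds_unique hd hrate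
    rw [hdeq]
    exact harith v x _ (S.growth x v (T := W) (by rw [h, hUn]) hWne)
  · exact ⟨finite_g S g.pt hhg hdegg h, harithg x 1 (growth_g_empty S g.pt hhg h)⟩
  · obtain ⟨T, hT⟩ : ∃ T, T = (S.supp x).biUnion Ab := ⟨_, rfl⟩
    have hTne : T.Nonempty := by
      obtain ⟨i, hi⟩ := h
      obtain ⟨ℓ, hℓ⟩ := hAne i
      exact ⟨ℓ, by rw [hT, Finset.mem_biUnion]; exact ⟨i, hi, hℓ⟩⟩
    have hTW : T ⊆ W := by
      intro ℓ hℓ
      rw [hT, Finset.mem_biUnion] at hℓ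
      obtain ⟨i, -, hi⟩ := hℓ
      exact st.blk.sub i hi
    refine ⟨T.sup' hTne c, ?_, harithg x _ (growth_g S g.pt hc hhg x hT hTne)⟩
    rw [sum_eb st, ← hT]
    exact class_rate_g st hA g hc hgc hTW hTne (fun _ _ => one_pos)
  · obtain ⟨a, ha, haA⟩ := expand (U := U) (b := b) (V.cls A)
    have hrate := class_rate_g st hA g hc hgc (T := W) subset_rfl hWne (ample_pos st hA ha)
    rw [← haA] at hrate
    have hdeq : d = W.sup' hWne c := tendsto_nhds_unique hd hrate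
    obtain ⟨ℓ, hℓ, h1⟩ := exists_one_le st g hc hgc hWne hlat
    have h2 : 1 ≤ W.sup' hWne c := h1.trans (Finset.le_sup' c hℓ)
    have h3 := harithg x _ (growth_g S g.pt hc hhg x (T := W) (by rw [h, hUn]) hWne)
    rw [max_eq_right h2, ← hdeq] at h3
    exact h3
  · obtain ⟨a, ha, haA⟩ := expand (U := U) (b := b) (V.cls A)
    have hrate := class_rate_g st hA g hc hgc (T := W) subset_rfl hWne (ample_pos st hA ha)
    rw [← haA] at hrate
    obtain ⟨ℓ, hℓ, h1⟩ := exists_one_le st g hc hgc hWne hlat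
    exact ⟨W.sup' hWne c, h1.trans (Finset.le_sup' c hℓ), hrate⟩
  · have hc1 : ∀ ℓ ∈ W, 1 < c ℓ := by
      obtain ⟨a, ha, haA⟩ := expand (U := U) (b := b) (V.cls L)
      have ha0 := ample_pos st hL ha
      have h1 : g.ns (V.cls L) - V.cls L = ∑ ℓ ∈ W, ((c ℓ - 1) * a ℓ) • cl U b ℓ := by
        conv_lhs => rw [haA]
        rw [map_sum, ← Finset.sum_sub_distrib]
        refine Finset.sum_congr rfl fun ℓ hℓ => ?_
        rw [map_smul, hgc ℓ hℓ, smul_smul, ← sub_smul]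
        congr 1
        ring
      intro ℓ hℓ
      have h2 := ample_pos st hgL (y := fun ℓ => (c ℓ - 1) * a ℓ) (fun m => by
        rw [h1, repr_sum]) ℓ hℓ
      have h3 := ha0 ℓ hℓ
      have h4 : 0 < c ℓ - 1 := (mul_pos_iff_of_pos_right h3).1 h2
      linarith
    rw [← hrange, ← S.finite_iff]
    exact empty_of_finite S g.pt hc1 hhg hx

/-- **Dense orbits.** -/
theorem dense_g (hr : 0 < r) (Φ : LatticeAction V r) {A : V.Pic} (hA : V.IsAmple A)
    {u : V.Pt → ℝ} (hu : V.IsHeight A u)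
    (hpos : ∀ v : Fin r → ℤ, v ≠ 0 → ∃ d, 1 < d ∧ IsDynamicalDegree (Φ.f v) A d)
    (U : Module.Basis (Fin ρ) ℝ V.NS) {β : Fin ρ → Fin k}
    (hβ : ∀ i, ∃ j j', j ≠ j' ∧ β j = i ∧ β j' = i) (hρ : ρ = r + k)
    (hbl : ∀ v j, ∃ a : Fin ρ → ℤ, (∀ l, β l ≠ β j → a l = 0) ∧
      (Φ.f v).ns (U j) = ∑ l, (a l : ℝ) • U l)
    (g : Morphism V.toVariety V.toVariety) (hinj : Function.Injective g.ns)
    (hcomm : ∀ (v : Fin r → ℤ) (x : V.Pt), g.pt ((Φ.f v).pt x) = (Φ.f v).pt (g.pt x))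
    (hcommns : ∀ (v : Fin r → ℤ) (D : V.NS), g.ns ((Φ.f v).ns D) = (Φ.f v).ns (g.ns D))
    (hlat : PreservesLattice V.lattice g) (hfix : ClosedFixedPoints Φ) {x : V.Pt}
    (hx : Dense (Set.range fun n : ℕ => g.pt^[n] x)) (d : ℝ)
    (hd : IsDynamicalDegree g A d) : IsArithmeticDegree g u x d := by
  obtain ⟨e, -, -, h1, -⟩ := final_g hr Φ hA hu hpos U hβ hρ hbl g hinj hcomm hcommns hlat
  obtain ⟨s, -, -, -, -, -, h2, -, -, -, h3⟩ := h1 x
  by_cases hs : s = Finset.univ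
  · exact h3 hs d hd
  · exfalso
    obtain ⟨w, hw, hwx⟩ := h2 hs
    have hit : ∀ n : ℕ, (Φ.f w).pt (g.pt^[n] x) = g.pt^[n] x := by
      intro n
      induction n with
      | zero => exact hwx
      | succ n ih => rw [Function.iterate_succ_apply', ← hcomm, ih]
    have h4 : ∀ y, (Φ.f w).pt y = y := by
      intro y
      have h5 : (Set.range fun n : ℕ => g.pt^[n] x) ⊆ {y | (Φ.f w).pt y = y} := by
        rintro _ ⟨n, rfl⟩
        exact hit n
      have h6 := closure_minimal h5 (hfix.closed w)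
      rw [hx.closure_eq] at h6
      exact h6 (Set.mem_univ y)
    have h5 := hfix.identity w h4
    obtain ⟨d', hd', hdyn⟩ := hpos w hw
    have hns : ∀ k : ℕ, ((Φ.f w).ns ^ k) (V.cls A) = V.cls A := by
      intro k
      induction k with
      | zero => simp
      | succ k ih => rw [pow_succ', Module.End.mul_apply, ih, h5]
    have hdeg : 0 < V.deg (V.cls A) (V.cls A) := by
      have := deg_pos (V.deg (V.cls A)) (fun x hx h0 => V.int_pos _ hA x hx h0)
        (interior_subset hA) (Φ.f w).ns (Φ.f w).nef (by linarith) hdyn 0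
      simpa using this
    have hd1 : d' = 1 := by
      refine tendsto_nhds_unique hdyn ?_
      refine (const_rpow_tendsto hdeg).congr fun k => ?_
      rw [hns]
    linarith

end Run7.h22.Kse
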