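import Pool.Agent.Run7.h22.Kse3

/-!
# One block: points of small arithmetic degree
-/

set_option autoImplicit false

open Filter Topology
open Pool.Agent.Q8.KS Run7.h334.KSR Run7.h528.MB Run7.h528.KB

namespace Run7.h22.Kse

variable {G : Type} [Group G] {V : ProjVariety G} {r : ℕ}

/-- the integral matrices of the automorphisms -/
theorem one_block (hρ : Module.finrank ℝ V.NS = r + 1) (Φ : LatticeAction V r) :
    ∃ U : Module.Basis (Fin (r + 1)) ℝ V.NS, ∀ v j, ∃ a : Fin (r + 1) → ℤ,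
      (Φ.f v).ns (U j) = ∑ l, (a l : ℝ) • U l := by
  obtain ⟨n, L, hL⟩ := V.lattice_basis
  have hn : n = r + 1 := by
    have h1 := Module.finrank_eq_card_basis L
    rw [hρ, Fintype.card_fin] at h1
    exact h1.symm
  subst hn
  refine ⟨L, fun v j => ?_⟩
  have h2 : (Φ.f v).ns (L j) ∈ V.lattice := Φ.lattice v _ (by
    rw [hL]; exact Submodule.subset_span ⟨j, rfl⟩)
  rw [hL, Submodule.mem_span_range_iff_exists_fun] at h2
  obtain ⟨a, ha⟩ := h2
  refine ⟨a, ?_⟩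
  rw [← ha]
  exact Finset.sum_congr rfl fun i _ => (Int.cast_smul_eq_zsmul ℝ (a i) (L i)).symm ▸ rfl

/-- **Points of small arithmetic degree.** -/
theorem small (hr : 0 < r) (hρ : Module.finrank ℝ V.NS = r + 1) (Φ : LatticeAction V r)
    {A : V.Pic} (hA : V.IsAmple A) {u : V.Pt → ℝ} (hu : V.IsHeight A u)
    (hpos : ∀ v : Fin r → ℤ, v ≠ 0 → ∃ d, 1 < d ∧ IsDynamicalDegree (Φ.f v) A d)
    (g : Morphism V.toVariety V.toVariety) (hinj : Function.Injective g.ns)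
    (hcomm : ∀ (v : Fin r → ℤ) (x : V.Pt), g.pt ((Φ.f v).pt x) = (Φ.f v).pt (g.pt x))
    (hcommns : ∀ (v : Fin r → ℤ) (D : V.NS), g.ns ((Φ.f v).ns D) = (Φ.f v).ns (g.ns D))
    (hlat : PreservesLattice V.lattice g) :
    (∀ x, ((Set.range fun v => (Φ.f v).pt x).Finite ∧ (Set.range fun n : ℕ => g.pt^[n] x).Finite ∧
      (∀ v, IsArithmeticDegree (Φ.f v) u x 1) ∧ IsArithmeticDegree g u x 1) ∨
      ((∀ v d, IsDynamicalDegree (Φ.f v) A d → IsArithmeticDegree (Φ.f v) u x d) ∧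
        ∀ d, IsDynamicalDegree g A d → IsArithmeticDegree g u x d)) ∧
    (∀ N : ℕ, {x | (MulAction.orbit G x).ncard ≤ N ∧
      (Set.range fun v => (Φ.f v).pt x).Finite}.Finite) ∧
    ∃ d, 1 ≤ d ∧ IsDynamicalDegree g A d := by
  obtain ⟨U, hU⟩ := one_block hρ Φ
  have hβ : ∀ i : Fin 1, ∃ j j' : Fin (r + 1), j ≠ j' ∧ (fun _ : Fin (r + 1) => (0 : Fin 1)) j = i ∧
      (fun _ : Fin (r + 1) => (0 : Fin 1)) j' = i := fun i =>
    ⟨⟨0, by omega⟩, ⟨1, by omega⟩, by simp [Fin.ext_iff], Subsingleton.elim _ _,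
      Subsingleton.elim _ _⟩
  have hbl : ∀ v j, ∃ a : Fin (r + 1) → ℤ,
      (∀ l, (fun _ : Fin (r + 1) => (0 : Fin 1)) l ≠ (fun _ : Fin (r + 1) => (0 : Fin 1)) j →
        a l = 0) ∧ (Φ.f v).ns (U j) = ∑ l, (a l : ℝ) • U l := by
    intro v j
    obtain ⟨a, ha⟩ := hU v j
    exact ⟨a, fun l hl => absurd rfl hl, ha⟩
  obtain ⟨e, -, -, h1, h4, -⟩ := final_g hr Φ hA hu hpos U hβ rfl hbl g hinj hcomm hcommns hlat
  obtain ⟨-, -, -, -, h2⟩ := final hr Φ hA hu hpos U hβ rfl hbl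
  refine ⟨fun x => ?_, h2, h4⟩
  obtain ⟨s, a1, a2, a3, a4, a5, a6, a7, a8, a9, a10⟩ := h1 x
  by_cases hs : s = ∅
  · exact Or.inl ⟨a1.1 hs, (a8 hs).1, a2 hs, (a8 hs).2⟩
  · refine Or.inr ?_
    have hs' : s = Finset.univ := by
      obtain ⟨i, hi⟩ := Finset.nonempty_iff_ne_empty.2 hs
      refine Finset.eq_univ_of_forall fun j => ?_
      rw [Subsingleton.elim j i]
      exact hi
    exact ⟨a7 hs', a10 hs'⟩

end Run7.h22.Kse
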