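import Pool.Agent.Run7.h334.KSR.Main
import Pool.Agent.Run7.h528.KB.Defs

/-!
# Endomorphisms commuting with a group of automorphisms of maximal rank

Adapted from Run7/h334/KSR (Chars.lean, Main.lean).
-/

set_option autoImplicit false

open Filter Topology
open Pool.Agent.Q8.KS Run7.h334.KSR

namespace Run7.h22.Kse

variable {G : Type} [Group G] {V : ProjVariety G}

/-- a common nef eigenvector of the group and of the endomorphism -/
theorem exists_char_g {r : ℕ} (Φ : LatticeAction V r) {A : V.Pic} (hA : V.IsAmple A)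
    (g : Morphism V.toVariety V.toVariety)
    (hcommns : ∀ (v : Fin r → ℤ) (D : V.NS), g.ns ((Φ.f v).ns D) = (Φ.f v).ns (g.ns D))
    {d : ℝ} (hd : 0 < d) (hdyn : IsDynamicalDegree g A d) :
    ∃ c ∈ V.Nef, c ≠ 0 ∧ g.ns c = d • c ∧
      ∃ χ : (Fin r → ℤ) → ℝ, ∀ v, 0 < χ v ∧ (Φ.f v).ns c = χ v • c := by
  have hl : ∀ x ∈ V.Nef, x ≠ 0 → 0 < V.deg (V.cls A) x :=
    fun x hx h0 => V.int_pos _ hA x hx h0
  obtain ⟨w, hw, hw0, hTw⟩ := Pool.Agent.Q8.KS.perron V.nef_cone (V.deg (V.cls A)) hl hA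
    g.ns g.nef hd hdyn
  let F : Set V.NS := {x | x ∈ V.Nef ∧ g.ns x = d • x}
  have hcomm : ∀ a b x, (Φ.f a).ns ((Φ.f b).ns x) = (Φ.f b).ns ((Φ.f a).ns x) := by
    intro a b x
    rw [← Φ.ns_add, ← Φ.ns_add, add_comm]
  have hF : IsCone F := by
    refine ⟨?_, ⟨V.nef_cone.zero, by simp⟩, ?_, ?_⟩
    · exact V.nef_cone.closed.inter
        (isClosed_eq g.ns.continuous_of_finiteDimensional (continuous_const_smul d))
    · rintro x ⟨hx, hx'⟩ y ⟨hy, hy'⟩
      exact ⟨V.nef_cone.add _ hx _ hy, by rw [map_add, hx', hy', smul_add]⟩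
    · rintro a ha x ⟨hx, hx'⟩
      exact ⟨V.nef_cone.smul a ha _ hx, by rw [map_smul, hx', smul_comm]⟩
  obtain ⟨c, hcF, hc0, hc⟩ := common (fun a => (Φ.f a).ns) (fun a => (Φ.f (-a)).ns) hcomm
    (fun a x => by
      show (Φ.f (-a)).ns ((Φ.f a).ns x) = x
      rw [← Φ.ns_add, neg_add_cancel, Φ.ns_zero])
    hF (V.deg (V.cls A)) (fun x hx => hl x hx.1) ⟨w, ⟨hw, hTw⟩, hw0⟩
    (fun a x hx => ⟨(Φ.f a).nef x hx.1, by
      show g.ns ((Φ.f a).ns x) = d • (Φ.f a).ns x
      rw [hcommns, hx.2, map_smul]⟩)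
  choose χ hχ0 hχ using hc
  exact ⟨c, hcF.1, hc0, hcF.2, χ, fun a => ⟨hχ0 a, hχ a⟩⟩

/-- **The structure of the classes.** -/
theorem structure_g {A : V.Pic} (hA : V.IsAmple A) (hr : 0 < V.dimPred)
    (Φ : LatticeAction V V.dimPred) {ε : ℝ} (hε : 0 < ε)
    (hpos : ∀ v : Fin V.dimPred → ℤ, v ≠ 0 → ∃ d, 1 + ε ≤ d ∧ IsDynamicalDegree (Φ.f v) A d)
    (g : Morphism V.toVariety V.toVariety)
    (hcommns : ∀ (v : Fin V.dimPred → ℤ) (D : V.NS),
      g.ns ((Φ.f v).ns D) = (Φ.f v).ns (g.ns D))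
    {d : ℝ} (hd : 0 < d) (hdyn : IsDynamicalDegree g A d) :
    ∃ (χ : Fin (V.dimPred + 1) → (Fin V.dimPred → ℤ) → ℝ) (c : Fin (V.dimPred + 1) → V.NS)
      (v₀ : Fin (V.dimPred + 1) → Fin V.dimPred → ℤ) (i₀ : Fin (V.dimPred + 1)),
      (∀ i, c i ∈ V.Nef) ∧ (∀ i v, 0 < χ i v) ∧ (∀ i v, (Φ.f v).ns (c i) = χ i v • c i) ∧
      0 < V.int c ∧ (∀ v, v ≠ 0 → ∀ d, IsDynamicalDegree (Φ.f v) A d → ∃ i, χ i v = d) ∧
      (∀ i j, j ≠ i → χ j (v₀ i) < 1) ∧ (∀ i, 1 < χ i (v₀ i)) ∧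
      (∀ i, IsDynamicalDegree (Φ.f (v₀ i)) A (χ i (v₀ i))) ∧ g.ns (c i₀) = d • c i₀ := by
  classical
  obtain ⟨χ, c, v₀, hcN, hχ0, hχ, hint, hval, hcontr, hexp, hdyn0⟩ :=
    structure_classes hA hr Φ hε hpos
  have hc0 : ∀ j, c j ≠ 0 := by
    intro j h
    exact hint.ne' (V.int.map_coord_zero j h)
  have hinj : Function.Injective χ := by
    intro a b h
    by_contra hne
    have h1 := hcontr a b (Ne.symm hne)
    rw [← h] at h1
    linarith [hexp a]
  obtain ⟨c', hc'N, hc'0, hg', ψ, hψ⟩ := exists_char_g Φ hA g hcommns hd hdyn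
  obtain ⟨i, hi⟩ : ∃ i, χ i = ψ := by
    by_contra hcon
    push Not at hcon
    have hmem : ∀ j, χ j ∈ chars Φ := fun j => ⟨c j, hcN j, hc0 j, fun v => ⟨hχ0 j v, hχ j v⟩⟩
    have h1 := chars_card Φ hA (insert ψ (Finset.univ.image χ)) (by
      intro ξ hξ
      rw [Finset.mem_coe, Finset.mem_insert, Finset.mem_image] at hξ
      rcases hξ with rfl | ⟨j, -, rfl⟩
      · exact ⟨c', hc'N, hc'0, hψ⟩
      · exact hmem j)
    rw [Finset.card_insert_of_notMem (by
      rw [Finset.mem_image]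
      rintro ⟨j, -, hj⟩
      exact hcon j hj), Finset.card_image_of_injective _ hinj, Finset.card_univ,
      Fintype.card_fin] at h1
    omega
  have hcN' : ∀ j, Function.update c i c' j ∈ V.Nef := by
    intro j
    by_cases hj : j = i
    · subst hj; rw [Function.update_self]; exact hc'N
    · rw [Function.update_of_ne hj]; exact hcN j
  have hχ' : ∀ j v, (Φ.f v).ns (Function.update c i c' j) = χ j v • Function.update c i c' j := by
    intro j v
    by_cases hj : j = i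
    · subst hj; rw [Function.update_self, hi]; exact (hψ v).2
    · rw [Function.update_of_ne hj]; exact hχ j v
  have hc0' : ∀ j, Function.update c i c' j ≠ 0 := by
    intro j
    by_cases hj : j = i
    · subst hj; rw [Function.update_self]; exact hc'0
    · rw [Function.update_of_ne hj]; exact hc0 j
  refine ⟨χ, Function.update c i c', v₀, i, hcN', hχ0, hχ', ?_, hval, hcontr, hexp, hdyn0, ?_⟩
  · exact (chars_int Φ hA hinj hcN' hc0' fun j v => ⟨hχ0 j v, hχ' j v⟩).1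
  · rw [Function.update_self]
    exact hg'

/-- a height which is multiplied by the dynamical degree -/
theorem arith (V : Variety G) (φ : Morphism V V) {A : V.Pic} (hA : V.IsAmple A)
    {u : V.Pt → ℝ} (hu : V.IsHeight A u) {d : ℝ} (hd : 1 < d) (hdyn : IsDynamicalDegree φ A d)
    {h : V.Pt → ℝ} {C : ℝ} (hC0 : 0 < C) (hC : ∀ y, |h y| ≤ C * max 1 (u y))
    (hφ : ∀ y, h (φ.pt y) = d * h y) (x : V.Pt) (hx : h x ≠ 0) :
    IsArithmeticDegree φ u x d := by
  obtain ⟨s, η, hs, hη, -⟩ := exists_lift V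
  obtain ⟨ℓ, c1, B, hc1, hB, hlow, -, hmain⟩ := along V s η hs hη φ hA hu hd hdyn
  have hd0 : 0 < d := by linarith
  have hhit : ∀ k : ℕ, h (φ.pt^[k] x) = d ^ k * h x := by
    intro k
    induction k with
    | zero => simp
    | succ k ih => rw [Function.iterate_succ_apply', hφ, ih, pow_succ]; ring
  have hx0 : 0 < |h x| := abs_pos.2 hx
  have hux : 0 < max 1 (u x) := lt_of_lt_of_le one_pos (le_max_left _ _)
  have hdegnn : ∀ k, 0 ≤ V.deg (V.cls A) ((φ.ns ^ k) (V.cls A)) := fun k =>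
    (mul_nonneg hc1.le (gr_pos ℓ hd0 k).le).trans (hlow k)
  unfold IsArithmeticDegree
  refine rate_between (a := fun k => V.deg (V.cls A) ((φ.ns ^ k) (V.cls A)))
    (x := |h x| / C) (y := (B + 1) / c1 * max 1 (u x))
    hd0 (by positivity) (by positivity) hdegnn hdyn (fun k => ?_) (fun k => ?_)
  · have h1 := hC (φ.pt^[k] x)
    rw [hhit, abs_mul, abs_of_pos (by positivity : 0 < d ^ k)] at h1
    rw [div_mul_eq_mul_div, div_le_iff₀ hC0]
    linarith
  · have h1 := (hmain k x).1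
    have h2 := gr_one_le ℓ hd k
    have h3 : 1 ≤ max 1 (u x) := le_max_left _ _
    have h4 : 1 ≤ gr ℓ d k * max 1 (u x) := by nlinarith
    have h5 : u (φ.pt^[k] x) ≤ B * (gr ℓ d k * max 1 (u x)) := by
      rw [← mul_assoc]; exact h1
    have h6 : 0 ≤ B * (gr ℓ d k * max 1 (u x)) := by positivity
    have h7 : max 1 (u (φ.pt^[k] x)) ≤ (B + 1) * (gr ℓ d k * max 1 (u x)) := by
      rw [add_mul, one_mul]
      exact max_le (by linarith) (by linarith)
    refine h7.trans ?_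
    have h8 := hlow k
    calc (B + 1) * (gr ℓ d k * max 1 (u x))
        = (B + 1) / c1 * max 1 (u x) * (c1 * gr ℓ d k) := by
          field_simp
      _ ≤ (B + 1) / c1 * max 1 (u x) * V.deg (V.cls A) ((φ.ns ^ k) (V.cls A)) :=
          mul_le_mul_of_nonneg_left h8 (by positivity)

/-- **Automorphism groups of maximal rank.** -/
theorem main_g (hr : 0 < V.dimPred) (Φ : LatticeAction V V.dimPred) {A : V.Pic}
    (hA : V.IsAmple A) {u : V.Pt → ℝ} (hu : V.IsHeight A u)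
    (hpos : ∀ v : Fin V.dimPred → ℤ, v ≠ 0 → ∃ d, 1 < d ∧ IsDynamicalDegree (Φ.f v) A d)
    (g : Morphism V.toVariety V.toVariety)
    (hcomm : ∀ (v : Fin V.dimPred → ℤ) (x : V.Pt), g.pt ((Φ.f v).pt x) = (Φ.f v).pt (g.pt x))
    (hcommns : ∀ (v : Fin V.dimPred → ℤ) (D : V.NS),
      g.ns ((Φ.f v).ns D) = (Φ.f v).ns (g.ns D)) {d₁ : ℝ} (hd₁ : 1 < d₁)
    (hdyng : IsDynamicalDegree g A d₁) :
    ∃ (Z : Set V.Pt) (h₁ : V.Pt → ℝ), IsClosed Z ∧ Z ≠ Set.univ ∧
      (∀ v x, (Φ.f v).pt x ∈ Z ↔ x ∈ Z) ∧ (∀ y, h₁ (g.pt y) = d₁ * h₁ y) ∧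
      (∀ y, h₁ y ≠ 0 → IsArithmeticDegree g u y d₁) ∧
      (∀ x, x ∉ Z → (Set.range fun v => (Φ.f v).pt x).Finite ∨
        ((∀ v d, IsDynamicalDegree (Φ.f v) A d → IsArithmeticDegree (Φ.f v) u x d) ∧
          h₁ x ≠ 0)) ∧
      ∀ e : ℕ, {x | x ∉ Z ∧ (MulAction.orbit G x).ncard ≤ e ∧
        (Set.range fun v => (Φ.f v).pt x).Finite}.Finite := by
  classical
  obtain ⟨ε, hε, hgap⟩ := exists_gap Φ hA hu
  have hpos' : ∀ v : Fin V.dimPred → ℤ, v ≠ 0 →
      ∃ d, 1 + ε ≤ d ∧ IsDynamicalDegree (Φ.f v) A d := by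
    intro v hv
    obtain ⟨d, hd, hdyn⟩ := hpos v hv
    exact ⟨d, hgap v d hd hdyn, hdyn⟩
  obtain ⟨χ, c, v₀, i₀, hcN, hχ0, hχ, hint, hval, hcontr, hexp, hdyn0, hgc⟩ :=
    structure_g hA hr Φ hε hpos' g hcommns (by linarith) hdyng
  obtain ⟨s, η, hs, hη, hinv⟩ := exists_lift V.toVariety
  obtain ⟨hp, hhp⟩ : ∃ hp : V.Pt → ℝ, hp = fun x => max 1 (u x) := ⟨_, rfl⟩
  have hp1 : ∀ x, 1 ≤ hp x := fun x => by rw [hhp]; exact le_max_left _ _
  have hup : ∀ x, u x ≤ hp x := fun x => by rw [hhp]; exact le_max_right _ _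
  have hsq1 : ∀ x, 1 ≤ √(hp x) := fun x => by
    rw [Real.one_le_sqrt]; exact hp1 x
  have hsqle : ∀ x, √(hp x) ≤ hp x := fun x => by
    rw [Real.sqrt_le_left (by linarith [hp1 x])]
    have := hp1 x
    nlinarith
  -- functoriality
  have hpull : ∀ (v : Fin V.dimPred → ℤ) (i : Fin (V.dimPred + 1)), ∃ K : ℝ, 0 < K ∧
      ∀ x, |η (c i) ((Φ.f v).pt x) - χ i v * η (c i) x| ≤ K * √(hp x) := by
    intro v i
    obtain ⟨K, hK, h1⟩ := lift_pull V.toVariety s η hs hη (Φ.f v) hA hu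
    refine ⟨K * ‖c i‖ + 1, by positivity, fun x => ?_⟩
    have h2 := h1 (c i) x
    rw [hχ, map_smul, Pi.smul_apply, smul_eq_mul] at h2
    refine h2.trans ?_
    rw [hhp]
    refine mul_le_mul_of_nonneg_right (by linarith) (Real.sqrt_nonneg _)
  have hpullg : ∃ K : ℝ, 0 < K ∧
      ∀ x, |η (c i₀) (g.pt x) - d₁ * η (c i₀) x| ≤ K * √(hp x) := by
    obtain ⟨K, hK, h1⟩ := lift_pull V.toVariety s η hs hη g hA hu
    refine ⟨K * ‖c i₀‖ + 1, by positivity, fun x => ?_⟩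
    have h2 := h1 (c i₀) x
    rw [hgc, map_smul, Pi.smul_apply, smul_eq_mul] at h2
    refine h2.trans ?_
    rw [hhp]
    refine mul_le_mul_of_nonneg_right (by linarith) (Real.sqrt_nonneg _)
  -- growth
  have hgrow : ∀ (v : Fin V.dimPred → ℤ) (d : ℝ), 1 < d → IsDynamicalDegree (Φ.f v) A d →
      ∃ (ℓ : ℕ) (c B : ℝ), 0 < c ∧ 0 < B ∧
        (∀ k, c * gr ℓ d k ≤ V.deg (V.cls A) (((Φ.f v).ns ^ k) (V.cls A))) ∧
        ∀ k x, hp ((Φ.f v).pt^[k] x) ≤ B * gr ℓ d k * hp x := by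
    intro v d hd hdyn
    obtain ⟨ℓ, c, B, hc, hB, hlow, -, hmain⟩ := along V.toVariety s η hs hη (Φ.f v) hA hu hd hdyn
    refine ⟨ℓ, c, B + 1, hc, by linarith, hlow, fun k x => ?_⟩
    have h1 := (hmain k x).1
    have h2 := gr_one_le ℓ hd k
    have h3 := hp1 x
    have h4 : 1 ≤ gr ℓ d k * hp x := by nlinarith
    have h5 : u ((Φ.f v).pt^[k] x) ≤ B * (gr ℓ d k * hp x) := by
      rw [hhp, ← mul_assoc]; exact h1
    have h6 : 0 ≤ B * (gr ℓ d k * hp x) := by positivity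
    rw [show hp ((Φ.f v).pt^[k] x) = max 1 (u ((Φ.f v).pt^[k] x)) by rw [hhp], mul_assoc, add_mul,
      one_mul]
    exact max_le (by linarith) (by linarith)
  -- canonical heights
  have hcan : ∀ i : Fin (V.dimPred + 1), ∃ (h : V.Pt → ℝ) (C : ℝ), 0 < C ∧
      (∀ x, |h x - η (c i) x| ≤ C * √(hp x)) ∧
      (∀ (v : Fin V.dimPred → ℤ) x, h ((Φ.f v).pt x) = χ i v * h x) ∧
      (i = i₀ → ∀ x, h (g.pt x) = d₁ * h x) := by
    intro i
    obtain ⟨K, hK, h1⟩ := hpull (v₀ i) i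
    obtain ⟨ℓ, -, B, -, hB, -, h2⟩ := hgrow (v₀ i) (χ i (v₀ i)) (hexp i) (hdyn0 i)
    obtain ⟨h, C, hC, h3, h4, h5⟩ := can (Φ.f (v₀ i)).pt (η (c i)) hp (hexp i) hK hB h1 h2
    refine ⟨h, C, hC, h3, fun v x => ?_, fun hi x => ?_⟩
    · obtain ⟨K', hK', h6⟩ := hpull v i
      refine can_equiv (g := (Φ.f (v₀ i)).pt) (f := (Φ.f v).pt) (hexp i) (fun y => ?_) h6 h4 h5 x
      rw [← Φ.pt_add, ← Φ.pt_add, add_comm]
    · obtain ⟨K', hK', h6⟩ := hpullg
      rw [← hi] at h6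
      exact can_equiv (g := (Φ.f (v₀ i)).pt) (f := g.pt) (hexp i) (fun y => hcomm (v₀ i) y)
        h6 h4 h5 x
  choose hh C hC hhη hhF hhg using hcan
  -- the big class
  obtain ⟨L, hL⟩ : ∃ L : V.Pic, L = ∑ i, s (c i) := ⟨_, rfl⟩
  have hLcls : V.cls L = ∑ i, c i := by
    rw [hL, map_sum]
    exact Finset.sum_congr rfl fun i _ => hs _
  have hLnef : V.cls L ∈ V.Nef := by
    rw [hLcls]
    exact sum_mem V.nef_cone _ _ fun i _ => hcN i
  have hLpos : 0 < V.int (fun _ => V.cls L) := by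
    rw [hLcls]
    have h1 : V.int (fun _ => ∑ i, c i)
        = ∑ φ : Fin (V.dimPred + 1) → Fin (V.dimPred + 1), V.int (fun k => c (φ k)) :=
      V.int.map_sum (fun _ j => c j)
    rw [h1]
    refine lt_of_lt_of_le hint ?_
    exact Finset.single_le_sum (f := fun φ : Fin (V.dimPred + 1) → Fin (V.dimPred + 1) =>
      V.int (fun k => c (φ k))) (fun φ _ => V.int_nonneg _ fun k => hcN _)
      (Finset.mem_univ (fun k => k))
  obtain ⟨t, ht, hEff⟩ := V.kodaira L A hLnef hLpos hA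
  have hLη : V.IsHeight L (∑ i, η (c i)) := by
    unfold Variety.IsHeight
    rw [hL, map_sum, map_sum]
    exact Finset.sum_congr rfl fun i _ => hη _
  obtain ⟨Z₀, hZ₀, hZ₀', c0, hc0⟩ := V.eff_height _ hEff _
    (height_sub V.toVariety hLη (height_smul V.toVariety t hu))
  have hZb : ∀ x, x ∉ Z₀ → u x ≤ t⁻¹ * (∑ i, |η (c i) x| + |c0|) := by
    intro x hx
    have h1 := hc0 x hx
    simp only [Pi.sub_apply, Finset.sum_apply, Pi.smul_apply, smul_eq_mul] at h1
    have h2 : ∑ i, η (c i) x ≤ ∑ i, |η (c i) x| := Finset.sum_le_sum fun i _ => le_abs_self _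
    have h3 := neg_abs_le c0
    rw [le_inv_mul_iff₀ ht]
    linarith
  have hbig : ∃ C4 : ℝ, ∀ x, x ∉ Z₀ → (∀ i, |hh i x| ≤ 1) → hp x ≤ C4 := by
    obtain ⟨M, hM⟩ : ∃ M : ℝ, M = 1 + t⁻¹ * (∑ i, (1 + C i) + |c0|) := ⟨_, rfl⟩
    refine ⟨M ^ 2, fun x hx hi => ?_⟩
    have hq := hsq1 x
    have h1 : ∀ i, |η (c i) x| ≤ (1 + C i) * √(hp x) := by
      intro i
      have h2 := hhη i x
      have h3 : |η (c i) x| ≤ |hh i x| + |hh i x - η (c i) x| := by
        have := abs_sub (hh i x) (hh i x - η (c i) x)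
        rwa [sub_sub_cancel] at this
      have h4 := hi i
      nlinarith
    have h2 : ∑ i, |η (c i) x| ≤ (∑ i, (1 + C i)) * √(hp x) := by
      rw [Finset.sum_mul]
      exact Finset.sum_le_sum fun i _ => h1 i
    have h3 : |c0| ≤ |c0| * √(hp x) := le_mul_of_one_le_right (abs_nonneg _) hq
    have h4 : u x ≤ t⁻¹ * ((∑ i, (1 + C i)) * √(hp x) + |c0| * √(hp x)) :=
      (hZb x hx).trans (mul_le_mul_of_nonneg_left (by linarith) (by positivity))
    have h5 : 0 ≤ t⁻¹ * ((∑ i, (1 + C i)) * √(hp x) + |c0| * √(hp x)) := by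
      have : 0 ≤ ∑ i, (1 + C i) := Finset.sum_nonneg fun i _ => by linarith [hC i]
      positivity
    have h6 : hp x ≤ M * √(hp x) := by
      have h7 : hp x ≤ 1 + t⁻¹ * ((∑ i, (1 + C i)) * √(hp x) + |c0| * √(hp x)) := by
        calc hp x = max 1 (u x) := by rw [hhp]
          _ ≤ _ := max_le (by linarith) (by linarith)
      refine h7.trans ?_
      rw [hM]
      have h8 : (1 + t⁻¹ * (∑ i, (1 + C i) + |c0|)) * √(hp x)
          = √(hp x) + t⁻¹ * ((∑ i, (1 + C i)) * √(hp x) + |c0| * √(hp x)) := by ring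
      rw [h8]
      linarith
    have h7 : √(hp x) ≤ M := by
      have h8 : √(hp x) * √(hp x) ≤ M * √(hp x) := by
        rw [Real.mul_self_sqrt (by linarith [hp1 x])]
        exact h6
      exact le_of_mul_le_mul_right h8 (by linarith)
    calc hp x = √(hp x) ^ 2 := (Real.sq_sqrt (by linarith [hp1 x])).symm
      _ ≤ M ^ 2 := pow_le_pow_left₀ (Real.sqrt_nonneg _) h7 2
  -- the system
  let S : Sys V.Pt (V.dimPred + 1) V.dimPred :=
    { F := fun v => (Φ.f v).pt
      zero := Φ.pt_zero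
      add := Φ.pt_add
      cont := Φ.continuous_pt
      hp := hp
      deg := fun x => (MulAction.orbit G x).ncard
      deg_F := fun v x => ncard_orbit Φ v x
      fin := fun e C => (V.northcott A u hA hu e C).subset fun x hx => ⟨hx.1, (hup x).trans hx.2⟩
      χ := χ
      χ_pos := hχ0
      hh := hh
      hh_F := hhF
      Z₀ := Z₀
      closed := hZ₀
      big := hbig
      v₀ := v₀
      contract := hcontr
      expand := hexp }
  obtain ⟨hm1, hm2⟩ := S.main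
  refine ⟨S.Z, hh i₀, S.Z_closed, ?_, S.Z_inv, hhg i₀ rfl, ?_, ?_, hm2⟩
  · intro h
    apply hZ₀'
    exact Set.eq_univ_of_univ_subset (h ▸ S.Z_sub)
  · intro y hy
    obtain ⟨C6, hC6⟩ := height_bound V.toVariety hA hu (hη (c i₀))
    refine arith V.toVariety g hA hu hd₁ hdyng (h := hh i₀) (C := |C6| + C i₀)
      (by have := hC i₀; positivity) (fun z => ?_) (hhg i₀ rfl) y hy
    have h1 := hhη i₀ z
    have h2 : |hh i₀ z| ≤ |η (c i₀) z| + |hh i₀ z - η (c i₀) z| := by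
      have := abs_add_le (η (c i₀) z) (hh i₀ z - η (c i₀) z)
      rwa [add_sub_cancel] at this
    have h3 : |η (c i₀) z| ≤ |C6| * max 1 (u z) :=
      (hC6 z).trans (mul_le_mul_of_nonneg_right (le_abs_self _)
        (le_trans zero_le_one (le_max_left _ _)))
    have h4 : C i₀ * √(hp z) ≤ C i₀ * max 1 (u z) := by
      have h5 := mul_le_mul_of_nonneg_left (hsqle z) (hC i₀).le
      rw [hhp] at h5 ⊢
      exact h5
    rw [add_mul]
    linarith
  · intro x hx
    rcases hm1 x hx with h | h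
    · exact Or.inl h
    refine Or.inr ⟨fun v d hdyn => ?_, h i₀⟩
    by_cases hv : v = 0
    · -- the identity
      subst hv
      have hpt : ∀ k : ℕ, (Φ.f 0).pt^[k] x = x := by
        intro k
        induction k with
        | zero => rfl
        | succ k ih => rw [Function.iterate_succ_apply', ih, Φ.pt_zero]
      have hns : ∀ k : ℕ, ((Φ.f 0).ns ^ k) (V.cls A) = V.cls A := by
        intro k
        induction k with
        | zero => simp
        | succ k ih =>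
          rw [pow_succ', Module.End.mul_apply, ih, Φ.ns_zero]
      have hdeg : 0 < V.deg (V.cls A) (V.cls A) := by
        obtain ⟨v1, hv1⟩ : ∃ v1 : Fin V.dimPred → ℤ, v1 ≠ 0 :=
          ⟨fun _ => 1, fun h => by
            have := congrFun h ⟨0, hr⟩
            norm_num at this⟩
        obtain ⟨d1, hd1, hdyn1⟩ := hpos v1 hv1
        have := deg_pos (V.deg (V.cls A)) (fun x hx h0 => V.int_pos _ hA x hx h0)
          (interior_subset hA) (Φ.f v1).ns (Φ.f v1).nef (by linarith) hdyn1 0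
        simpa using this
      have hd1 : d = 1 := by
        refine tendsto_nhds_unique hdyn ?_
        refine (const_rpow_tendsto hdeg).congr fun k => ?_
        rw [hns]
      rw [hd1]
      unfold IsArithmeticDegree
      refine (const_rpow_tendsto (lt_of_lt_of_le one_pos (hp1 x))).congr fun k => ?_
      rw [hpt, hhp]
    obtain ⟨d', hd', hdyn'⟩ := hpos v hv
    have hdd : d = d' := tendsto_nhds_unique hdyn hdyn'
    have hd1 : 1 < d := by rw [hdd]; exact hd'
    obtain ⟨i, hi⟩ := hval v hv d hdyn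
    obtain ⟨ℓ, c1, B, hc1, hB, hlow, hupp⟩ := hgrow v d hd1 hdyn
    obtain ⟨C6, hC6⟩ := height_bound V.toVariety hA hu (hη (c i))
    have hC7 : ∀ y, |hh i y| ≤ (|C6| + C i) * hp y := by
      intro y
      have h1 := hhη i y
      have h2 : |hh i y| ≤ |η (c i) y| + |hh i y - η (c i) y| := by
        have := abs_add_le (η (c i) y) (hh i y - η (c i) y)
        rwa [add_sub_cancel] at this
      have h3 : |η (c i) y| ≤ |C6| * hp y := by
        refine (hC6 y).trans ?_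
        rw [hhp]
        exact mul_le_mul_of_nonneg_right (le_abs_self _) (le_trans zero_le_one (le_max_left _ _))
      have h4 : C i * √(hp y) ≤ C i * hp y := mul_le_mul_of_nonneg_left (hsqle y) (hC i).le
      rw [add_mul]
      linarith
    have hCpos : 0 < |C6| + C i := by
      have := hC i
      positivity
    have hhit : ∀ k : ℕ, hh i ((Φ.f v).pt^[k] x) = d ^ k * hh i x := by
      intro k
      induction k with
      | zero => simp
      | succ k ih => rw [Function.iterate_succ_apply', hhF, ih, hi, pow_succ]; ring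
    have hd0 : 0 < d := by linarith
    have hx0 : 0 < |hh i x| := abs_pos.2 (h i)
    have hdegnn : ∀ k, 0 ≤ V.deg (V.cls A) (((Φ.f v).ns ^ k) (V.cls A)) := fun k =>
      (mul_nonneg hc1.le (gr_pos ℓ hd0 k).le).trans (hlow k)
    have hhpx : 0 < hp x := lt_of_lt_of_le one_pos (hp1 x)
    unfold IsArithmeticDegree
    have hfin := rate_between (a := fun k => V.deg (V.cls A) (((Φ.f v).ns ^ k) (V.cls A)))
      (b := fun k => hp ((Φ.f v).pt^[k] x)) (x := |hh i x| / (|C6| + C i)) (y := B / c1 * hp x)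
      hd0 (by positivity) (by positivity) hdegnn hdyn (fun k => ?_) (fun k => ?_)
    · refine hfin.congr fun k => ?_
      rw [hhp]
    · have h1 := hC7 ((Φ.f v).pt^[k] x)
      rw [hhit, abs_mul, abs_of_pos (by positivity : 0 < d ^ k)] at h1
      rw [div_mul_eq_mul_div, div_le_iff₀ hCpos]
      linarith
    · refine (hupp k x).trans ?_
      have h1 := hlow k
      calc B * gr ℓ d k * hp x = B / c1 * hp x * (c1 * gr ℓ d k) := by
            field_simp
        _ ≤ B / c1 * hp x * V.deg (V.cls A) (((Φ.f v).ns ^ k) (V.cls A)) :=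
            mul_le_mul_of_nonneg_left h1 (by positivity)

end Run7.h22.Kse
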