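import Pool.Agent.Run7.h22.Kse5

/-!
# Dense orbits of endomorphisms commuting with a group of maximal rank
-/

set_option autoImplicit false

open Filter Topology
open Pool.Agent.Q8.KS Run7.h334.KSR Run7.h528.KB

namespace Run7.h22.Kse

variable {G : Type} [Group G] {V : ProjVariety G}

/-- an automorphism with `d₁ > 1` moves a point -/
theorem not_identity {r : ℕ} (Φ : LatticeAction V r) {A : V.Pic} (hA : V.IsAmple A)
    (hfix : ClosedFixedPoints Φ) {w : Fin r → ℤ}
    (hpos : ∃ d, 1 < d ∧ IsDynamicalDegree (Φ.f w) A d) : ¬ ∀ y, (Φ.f w).pt y = y := by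
  intro h4
  have h5 := hfix.identity w h4
  obtain ⟨d', hd', hdyn⟩ := hpos
  have hns : ∀ k : ℕ, ((Φ.f w).ns ^ k) (V.cls A) = V.cls A := by
    intro k
    induction k with
    | zero => simp
    | succ k ih => rw [pow_succ', Module.End.mul_apply, ih, h5]
  have hdeg : 0 < V.deg (V.cls A) (V.cls A) := by
    have := deg_pos (V.deg (V.cls A)) (fun x hx h0 => V.int_pos _ hA x hx h0)
      (interior_subset hA) (Φ.f w).ns (Φ.f w).nef (by linarith) hdyn 0
    simpa using this
  have hd1 : d' = 1 := by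
    refine tendsto_nhds_unique hdyn ?_
    refine (const_rpow_tendsto hdeg).congr fun k => ?_
    rw [hns]
  linarith

/-- a finite orbit has a nontrivial stabilizer -/
theorem exists_fixed {r : ℕ} (hr : 0 < r) (Φ : LatticeAction V r) {y : V.Pt}
    (hfin : (Set.range fun v => (Φ.f v).pt y).Finite) : ∃ w, w ≠ 0 ∧ (Φ.f w).pt y = y := by
  obtain ⟨v1, hv1⟩ : ∃ v1 : Fin r → ℤ, v1 = fun _ => 1 := ⟨_, rfl⟩
  obtain ⟨a, b, hab, hF⟩ := hfin.exists_lt_map_eq_of_forall_mem
    (f := fun k : ℕ => (Φ.f (k • v1)).pt y) (fun k => by refine ⟨k • v1, rfl⟩)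
  refine ⟨b • v1 + -(a • v1), fun h0 => ?_, ?_⟩
  · have h1 := congrFun h0 ⟨0, hr⟩
    rw [hv1] at h1
    simp at h1
    have h2 : (a : ℤ) < b := by exact_mod_cast hab
    linarith
  · have hF' : (Φ.f (a • v1)).pt y = (Φ.f (b • v1)).pt y := hF
    rw [add_comm, Φ.pt_add, ← hF', ← Φ.pt_add, neg_add_cancel, Φ.pt_zero]

/-- **Dense orbits.** -/
theorem dense_max (hr : 0 < V.dimPred) (Φ : LatticeAction V V.dimPred) {A : V.Pic}
    (hA : V.IsAmple A) {u : V.Pt → ℝ} (hu : V.IsHeight A u)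
    (hpos : ∀ v : Fin V.dimPred → ℤ, v ≠ 0 → ∃ d, 1 < d ∧ IsDynamicalDegree (Φ.f v) A d)
    (g : Morphism V.toVariety V.toVariety)
    (hcomm : ∀ (v : Fin V.dimPred → ℤ) (x : V.Pt), g.pt ((Φ.f v).pt x) = (Φ.f v).pt (g.pt x))
    (hcommns : ∀ (v : Fin V.dimPred → ℤ) (D : V.NS),
      g.ns ((Φ.f v).ns D) = (Φ.f v).ns (g.ns D)) {d₁ : ℝ} (hd₁ : 1 < d₁)
    (hdyng : IsDynamicalDegree g A d₁) (hfix : ClosedFixedPoints Φ)
    (hirr : PreirreducibleSpace V.Pt) {x : V.Pt}
    (hx : Dense (Set.range fun n : ℕ => g.pt^[n] x)) : IsArithmeticDegree g u x d₁ := by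
  obtain ⟨Z, h₁, hZ, hZ', -, hh, harith, hdich, -⟩ :=
    main_g hr Φ hA hu hpos g hcomm hcommns hd₁ hdyng
  obtain ⟨n, hn⟩ : ∃ n, g.pt^[n] x ∉ Z := by
    by_contra hcon
    push Not at hcon
    have h1 : (Set.range fun n : ℕ => g.pt^[n] x) ⊆ Z := by
      rintro _ ⟨n, rfl⟩
      exact hcon n
    have h2 := closure_minimal h1 hZ
    rw [hx.closure_eq] at h2
    exact hZ' (Set.univ_subset_iff.1 h2)
  have hiter : ∀ k : ℕ, h₁ (g.pt^[k] x) = d₁ ^ k * h₁ x := by
    intro k
    induction k with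
    | zero => simp
    | succ k ih => rw [Function.iterate_succ_apply', hh, ih, pow_succ]; ring
  rcases hdich _ hn with hfin | ⟨-, hne⟩
  · exfalso
    obtain ⟨w, hw, hwy⟩ := exists_fixed hr Φ hfin
    have hit : ∀ j : ℕ, (Φ.f w).pt (g.pt^[j] (g.pt^[n] x)) = g.pt^[j] (g.pt^[n] x) := by
      intro j
      induction j with
      | zero => exact hwy
      | succ j ih => rw [Function.iterate_succ_apply', ← hcomm, ih]
    obtain ⟨F, hF⟩ : ∃ F : Set V.Pt, F = (fun k : ℕ => g.pt^[k] x) '' (Set.Iio n) := ⟨_, rfl⟩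
    have hFfin : F.Finite := by
      rw [hF]
      exact (Set.finite_Iio n).image _
    have hsub : (Set.range fun k : ℕ => g.pt^[k] x) ⊆ F ∪ {z | (Φ.f w).pt z = z} := by
      rintro _ ⟨k, rfl⟩
      by_cases hk : k < n
      · left
        rw [hF]
        exact ⟨k, hk, rfl⟩
      · right
        show (Φ.f w).pt (g.pt^[k] x) = g.pt^[k] x
        have h1 : k = (k - n) + n := by omega
        rw [h1, Function.iterate_add_apply]
        exact hit _
    have h1 := closure_minimal hsub (hFfin.isClosed.union (hfix.closed w))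
    rw [hx.closure_eq] at h1
    have h2 := isPreirreducible_iff_isClosed_union_isClosed.1 hirr.isPreirreducible_univ F
      {z | (Φ.f w).pt z = z} hFfin.isClosed (hfix.closed w) h1
    rcases h2 with h2 | h2
    · exact Set.infinite_univ (hFfin.subset h2)
    · exact not_identity Φ hA hfix (hpos w hw) fun y => h2 (Set.mem_univ y)
  · exact harith x fun h0 => hne (by rw [hiter, h0, mul_zero])

end Run7.h22.Kse
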